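import Pool.Agent.BG.Kin

/-! MP_2d9608_mp, project BG, row BG-35 -/

set_option autoImplicit false

open MeasureTheory ProbabilityTheory H47.SE Filter
open scoped ComplexConjugate Topology ENNReal

noncomputable section

namespace Pool.Agent.BG

variable {κ ρ : ℝ} {w u : E3 → ℝ}

private lemma bg35_ug (h : Sol κ ρ w u) :
    ∫ x, u x * ((1 - u x) * w x) ≤ ∫ x, u x * w x := by
  refine integral_mono_of_nonneg ?_ h.uw_int ?_
  · filter_upwards [h.ub] with x hx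
    exact mul_nonneg hx.1 (mul_nonneg (by linarith [hx.2]) (h.w0 x))
  · filter_upwards [h.ub] with x hx
    have h1 : (1 - u x) * w x ≤ w x := by nlinarith [hx.1, h.w0 x]
    exact mul_le_mul_of_nonneg_left h1 hx.1

private lemma bg35_cub (h : Sol κ ρ w u) :
    Integrable (fun ξ => UU ρ u ξ ^ 3) ∧ ∫ ξ, UU ρ u ξ ^ 3 ≤ ∫ ξ, UU ρ u ξ ^ 2 := by
  have hle : ∀ ξ, |UU ρ u ξ ^ 3| ≤ UU ρ u ξ ^ 2 := by
    intro ξ
    have h1 := h.abs_UU_le ξ
    rw [abs_pow, ← sq_abs (UU ρ u ξ)]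
    nlinarith [abs_nonneg (UU ρ u ξ), sq_nonneg |UU ρ u ξ|]
  have hi : Integrable (fun ξ => UU ρ u ξ ^ 3) := by
    refine h.sq_int.1.mono' (h.continuous_UU.pow 3).aestronglyMeasurable (.of_forall fun ξ => ?_)
    rw [Real.norm_eq_abs]
    exact hle ξ
  exact ⟨hi, integral_mono hi h.sq_int.1 fun ξ => (le_abs_self _).trans (hle ξ)⟩

private lemma bg35_lm (ξ : E3) : 0 ≤ lm ξ := by
  unfold lm
  positivity

/-- the kinetic identity, as an inequality -/
private lemma bg35_kin (h : Sol κ ρ w u) :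
    (∫ ξ, lm ξ * UU ρ u ξ ^ 2) + bb κ ρ w u * (∫ ξ, UU ρ u ξ ^ 2) ≤
      ρ ^ 2 * κ * ∫ x, u x * w x := by
  have h1 := h.kin
  have h2 := (bg35_cub h).2
  have h3 := h.bb_pos
  have h4 : bb κ ρ w u * (∫ ξ, UU ρ u ξ ^ 3) ≤ bb κ ρ w u * ∫ ξ, UU ρ u ξ ^ 2 :=
    mul_le_mul_of_nonneg_left h2 h3.le
  have h5 : ρ ^ 2 * κ * ∫ x, u x * ((1 - u x) * w x) ≤ ρ ^ 2 * κ * ∫ x, u x * w x := by
    have := h.hκ
    have := h.hρ
    exact mul_le_mul_of_nonneg_left (bg35_ug h) (by positivity)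
  linarith

theorem Sol.a_le (h : Sol κ ρ w u) (hI : Integrable fun ξ => ct w ξ ^ 2 / lm ξ) :
    ∫ x, u x * w x ≤ κ * ∫ ξ, ct w ξ ^ 2 / lm ξ := by
  have hκ := h.hκ
  have hρ := h.hρ
  set a := ∫ x, u x * w x with ha
  set K2 := ∫ ξ, lm ξ * UU ρ u ξ ^ 2 with hK2
  set J := ∫ ξ, ct w ξ ^ 2 / lm ξ with hJ
  have hk : K2 ≤ ρ ^ 2 * κ * a := by
    have h1 := bg35_kin h
    have h2 : 0 ≤ bb κ ρ w u * ∫ ξ, UU ρ u ξ ^ 2 :=
      mul_nonneg h.bb_pos.le (integral_nonneg fun ξ => sq_nonneg _)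
    linarith
  have hint : Integrable (fun ξ => 1 / (2 * ρ) * (1 / (ρ * κ) * (lm ξ * UU ρ u ξ ^ 2) +
      ρ * κ * (ct w ξ ^ 2 / lm ξ))) :=
    ((h.lm_sq_int.const_mul _).add (hI.const_mul _)).const_mul _
  have hae : ∀ᵐ ξ : E3, ξ ≠ 0 := by
    filter_upwards [compl_mem_ae_iff.2 (measure_singleton (μ := (volume : Measure E3)) 0)]
      with ξ hξ using hξ
  have hb : ∀ η : ℝ, 0 < η → ∫ ξ, Real.exp (-η * ‖ξ‖ ^ 2) * (ct w ξ * ct u ξ + st w ξ * st u ξ) ≤
      1 / (2 * ρ) * (1 / (ρ * κ) * K2 + ρ * κ * J) := by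
    intro η hη
    have e1 : 1 / (2 * ρ) * (1 / (ρ * κ) * K2 + ρ * κ * J) =
        ∫ ξ, 1 / (2 * ρ) * (1 / (ρ * κ) * (lm ξ * UU ρ u ξ ^ 2) +
          ρ * κ * (ct w ξ ^ 2 / lm ξ)) := by
      rw [integral_const_mul, integral_add (h.lm_sq_int.const_mul _) (hI.const_mul _),
        integral_const_mul, integral_const_mul]
    rw [e1]
    have hle : ∀ᵐ ξ : E3, |Real.exp (-η * ‖ξ‖ ^ 2) * (ct w ξ * ct u ξ + st w ξ * st u ξ)| ≤
        1 / (2 * ρ) * (1 / (ρ * κ) * (lm ξ * UU ρ u ξ ^ 2) + ρ * κ * (ct w ξ ^ 2 / lm ξ)) := by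
      filter_upwards [hae] with ξ hξ
      have hl : 0 < lm ξ := by
        unfold lm
        have h1 : 0 < ‖ξ‖ := norm_pos_iff.2 hξ
        have := Real.pi_pos
        positivity
      rw [h.ureal ξ, mul_zero, add_zero, abs_mul, abs_of_pos (Real.exp_pos _)]
      have he : Real.exp (-η * ‖ξ‖ ^ 2) ≤ 1 := by
        rw [Real.exp_le_one_iff]
        nlinarith [sq_nonneg ‖ξ‖]
      have h1 : Real.exp (-η * ‖ξ‖ ^ 2) * |ct w ξ * ct u ξ| ≤ |ct w ξ * ct u ξ| :=
        mul_le_of_le_one_left (abs_nonneg _) he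
      refine h1.trans ?_
      unfold UU
      set s := √(lm ξ) with hs
      have hs0 : 0 < s := Real.sqrt_pos.2 hl
      have hs2 : s ^ 2 = lm ξ := Real.sq_sqrt hl.le
      rw [← hs2]
      have e2 : 1 / (2 * ρ) * (1 / (ρ * κ) * (s ^ 2 * (ρ * ct u ξ) ^ 2) +
          ρ * κ * (ct w ξ ^ 2 / s ^ 2)) =
          1 / 2 * (s ^ 2 * ct u ξ ^ 2 / κ + κ * ct w ξ ^ 2 / s ^ 2) := by
        field_simp
      rw [e2]
      have e3 : s ^ 2 * ct u ξ ^ 2 / κ + κ * ct w ξ ^ 2 / s ^ 2 - 2 * |ct w ξ * ct u ξ| =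
          (s * |ct u ξ| / √κ - √κ * |ct w ξ| / s) ^ 2 := by
        have hk0 : 0 < √κ := Real.sqrt_pos.2 hκ
        have hk2 : κ = √κ ^ 2 := (Real.sq_sqrt hκ.le).symm
        rw [abs_mul, ← sq_abs (ct u ξ), ← sq_abs (ct w ξ)]
        conv_lhs => rw [hk2]
        field_simp
        ring
      nlinarith [sq_nonneg (s * |ct u ξ| / √κ - √κ * |ct w ξ| / s)]
    have hleft : Integrable (fun ξ : E3 =>
        Real.exp (-η * ‖ξ‖ ^ 2) * (ct w ξ * ct u ξ + st w ξ * st u ξ)) := by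
      refine hint.mono' (Continuous.aestronglyMeasurable ?_) hle
      have c1 := continuous_ct h.wi
      have c2 := continuous_ct h.ui
      have c3 := continuous_st h.wi
      have c4 := continuous_st h.ui
      fun_prop
    exact integral_mono_ae hleft hint (hle.mono fun ξ hξ => (le_abs_self _).trans hξ)
  have hlim := tendsto_gauss h.wi h.ui (C := 1) (by
    filter_upwards [h.ub] with x hx
    rw [abs_of_nonneg hx.1]
    exact hx.2)
  have e0 : ∫ x, w x * u x = a := by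
    rw [ha]
    exact integral_congr_ae (.of_forall fun x => mul_comm _ _)
  rw [e0] at hlim
  have h1 : a ≤ 1 / (2 * ρ) * (1 / (ρ * κ) * K2 + ρ * κ * J) := by
    refine le_of_tendsto hlim ?_
    filter_upwards [self_mem_nhdsWithin] with η hη using hb η hη
  have h2 : 1 / (ρ * κ) * K2 ≤ ρ * a := by
    rw [one_div_mul_eq_div, div_le_iff₀ (by positivity)]
    calc K2 ≤ ρ ^ 2 * κ * a := hk
      _ = ρ * a * (ρ * κ) := by ring
  have h3 : 1 / (2 * ρ) * (1 / (ρ * κ) * K2 + ρ * κ * J) ≤ (a + κ * J) / 2 := by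
    calc 1 / (2 * ρ) * (1 / (ρ * κ) * K2 + ρ * κ * J) ≤ 1 / (2 * ρ) * (ρ * a + ρ * κ * J) := by
          gcongr
      _ = (a + κ * J) / 2 := by
          field_simp
  linarith

theorem Sol.sq_le (h : Sol κ ρ w u) :
    (∫ x, (1 - u x) * w x) * (∫ ξ, UU ρ u ξ ^ 2) ≤ ρ * ∫ x, u x * w x := by
  have hκ := h.hκ
  have hρ := h.hρ
  have h1 := bg35_kin h
  have h2 : 0 ≤ ∫ ξ, lm ξ * UU ρ u ξ ^ 2 :=
    integral_nonneg fun ξ => mul_nonneg (bg35_lm ξ) (sq_nonneg _)
  have h3 : bb κ ρ w u * (∫ ξ, UU ρ u ξ ^ 2) ≤ ρ ^ 2 * κ * ∫ x, u x * w x := by linarith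
  unfold bb at h3
  have h4 : ρ * κ * ((∫ x, (1 - u x) * w x) * (∫ ξ, UU ρ u ξ ^ 2)) ≤
      ρ * κ * (ρ * ∫ x, u x * w x) := by
    calc _ = ρ * κ * (∫ x, (1 - u x) * w x) * (∫ ξ, UU ρ u ξ ^ 2) := by ring
      _ ≤ _ := h3
      _ = _ := by ring
  exact le_of_mul_le_mul_left h4 (by positivity)

theorem a_small {w : E3 → ℝ} (hwi : Integrable w) (hw0 : ∀ x, 0 ≤ w x) {δ : ℝ} (hδ : 0 < δ) :
    ∃ R > 0, ∀ κ ρ u, Sol κ ρ w u → R ≤ ρ → ∫ x, u x * w x ≤ δ := by
  obtain ⟨K, hK⟩ : ∃ K : ℕ, ∫ x, (w x - min (w x) K) ≤ δ / 2 := by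
    have ht : Filter.Tendsto (fun K : ℕ => ∫ x, (w x - min (w x) K)) Filter.atTop
        (nhds (∫ _x : E3, (0 : ℝ))) := by
      apply tendsto_integral_of_dominated_convergence (fun x => w x)
      · intro n
        exact hwi.1.sub (hwi.1.inf aestronglyMeasurable_const)
      · exact hwi
      · intro n; filter_upwards with x
        have h1 : 0 ≤ min (w x) (n : ℝ) := le_min (hw0 x) (by positivity)
        have h2 : min (w x) (n : ℝ) ≤ w x := min_le_left _ _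
        rw [Real.norm_eq_abs, abs_of_nonneg (by linarith)]; linarith
      · filter_upwards with x
        apply tendsto_atTop_of_eventually_const (i₀ := ⌈w x⌉₊)
        intro n hn
        have : w x ≤ n := Nat.ceil_le.mp hn
        rw [min_eq_left this, sub_self]
    rw [integral_zero] at ht
    exact (ht.eventually (ge_mem_nhds (show (0 : ℝ) < δ / 2 by positivity))).exists
  refine ⟨2 * (K + 1) / δ, by positivity, fun κ ρ u h hρ => ?_⟩
  have hρ0 : 0 < ρ := h.hρ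
  have im : Integrable (fun x => min (w x) (K : ℝ)) := by
    refine Integrable.mono' hwi (hwi.1.inf aestronglyMeasurable_const) ?_
    filter_upwards with x
    have h1 : 0 ≤ min (w x) (K : ℝ) := le_min (hw0 x) (by positivity)
    rw [Real.norm_eq_abs, abs_of_nonneg h1]; exact min_le_left _ _
  have iA : Integrable (fun x => w x - min (w x) (K : ℝ)) := hwi.sub im
  calc ∫ x, u x * w x ≤ ∫ x, ((w x - min (w x) K) + (K + 1) * u x) := by
        apply integral_mono_ae h.uw_int (iA.add (h.ui.const_mul _))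
        filter_upwards [h.ub] with x hx
        simp only [Pi.add_apply]
        have h1 : 0 ≤ min (w x) (K : ℝ) := le_min (hw0 x) (by positivity)
        have h2 : min (w x) (K : ℝ) ≤ w x := min_le_left _ _
        have h3 : min (w x) (K : ℝ) ≤ K := min_le_right _ _
        have h4 : u x * (w x - min (w x) K) ≤ 1 * (w x - min (w x) K) :=
          mul_le_mul_of_nonneg_right hx.2 (by linarith)
        have h5 : u x * min (w x) K ≤ u x * K := mul_le_mul_of_nonneg_left h3 hx.1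
        have : u x * w x = u x * (w x - min (w x) K) + u x * min (w x) K := by ring
        nlinarith [hx.1]
    _ = (∫ x, (w x - min (w x) K)) + (K + 1) * ∫ x, u x := by
        rw [integral_add iA (h.ui.const_mul _), integral_const_mul]
    _ ≤ δ / 2 + (K + 1) * (1 / ρ) := by rw [h.umass]; gcongr
    _ ≤ δ := by
        have : (K + 1 : ℝ) * (1 / ρ) ≤ δ / 2 := by
          rw [mul_one_div, div_le_iff₀ hρ0]
          have : 2 * (K + 1) / δ * (δ / 2) ≤ ρ * (δ / 2) := by gcongr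
          have h9 : 2 * ((K : ℝ) + 1) / δ * (δ / 2) = K + 1 := by field_simp
          rw [h9] at this; linarith
        linarith

end Pool.Agent.BG
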