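import Pool.Agent.BG.Defs

/-! MP_2d9608_mp, project BG, row BG-24 -/

set_option autoImplicit false

open MeasureTheory ProbabilityTheory H47.SE Filter
open scoped ComplexConjugate Topology ENNReal

noncomputable section

namespace Pool.Agent.BG

/-- the algebra of the quadratic equation -/
theorem alg {U G x : ℝ} (hx : 1 ≤ x) (hG : |G| ≤ 1) (hU : |U| ≤ 1)
    (h : U ^ 2 - 2 * x * U + G = 0) :
    |U| ≤ 1 / x ∧ (0 ≤ G → G / (2 * x) ≤ U) ∧ (U < 0 → |U| ≤ 1 / 2) ∧
      (0 ≤ U → 1 - G ≤ (1 - U) ^ 2) ∧ (0 ≤ U → 2 * (x - 1) * U ≤ (1 - U) ^ 2) ∧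
      (1 < x → |U| < 1) ∧ (G < 1 → |U| < 1) := by
  have hx0 : (0 : ℝ) < x := by linarith
  obtain ⟨hG1, hG2⟩ := abs_le.mp hG
  obtain ⟨hU1, hU2⟩ := abs_le.mp hU
  have hUG : U * (2 * x - U) = G := by linarith [sq U, h, mul_comm U (2 * x - U)]
  have hpos : 0 < 2 * x - U := by linarith
  refine ⟨?_, ?_, ?_, ?_, ?_, ?_, ?_⟩
  · rw [le_div_iff₀ hx0]
    have h1 : |U| * (2 * x - U) ≤ 1 := by
      have h0 : |U| * |2 * x - U| = |G| := by rw [← abs_mul, hUG]
      rw [abs_of_pos hpos] at h0
      rw [h0]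
      exact hG
    have h2 : |U| * x ≤ |U| * (2 * x - U) :=
      mul_le_mul_of_nonneg_left (by linarith) (abs_nonneg U)
    linarith
  · intro _
    rw [div_le_iff₀ (by linarith)]
    nlinarith [sq_nonneg U]
  · intro hneg
    rw [abs_of_neg hneg]
    by_contra hcon
    push Not at hcon
    nlinarith [mul_nonneg (by linarith : (0 : ℝ) ≤ x - 1) (by linarith : (0 : ℝ) ≤ -U)]
  · intro h0
    nlinarith [mul_nonneg (by linarith : (0 : ℝ) ≤ x - 1) h0]
  · intro h0
    nlinarith
  · intro h1
    rw [abs_lt]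
    constructor
    · by_contra hcon
      push Not at hcon
      have : U = -1 := le_antisymm hcon hU1
      rw [this] at h
      linarith
    · by_contra hcon
      push Not at hcon
      have : U = 1 := le_antisymm hU2 hcon
      rw [this] at h
      linarith
  · intro h1
    rw [abs_lt]
    constructor
    · by_contra hcon
      push Not at hcon
      have : U = -1 := le_antisymm hcon hU1
      rw [this] at h
      linarith
    · by_contra hcon
      push Not at hcon
      have : U = 1 := le_antisymm hU2 hcon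
      rw [this] at h
      linarith

/-- the bound of `γ` -/
theorem gam_le {U G x : ℝ} (hx : 1 < x) (hG : |G| ≤ 1) (hU : |U| ≤ 1)
    (h : U ^ 2 - 2 * x * U + G = 0) :
    0 ≤ gam U ∧ gam U ≤ 2 / (x * √(x * (x - 1))) ∧
      gam U * √(1 - G) ≤ 2 * U ^ 2 ∧ |U| < 1 := by
  obtain ⟨ha, -, hb, hc, hd, he, -⟩ := alg hx.le hG hU h
  have hU1 : |U| < 1 := he hx
  have hx0 : (0 : ℝ) < x := by linarith
  have hx1 : (0 : ℝ) < x - 1 := by linarith
  obtain ⟨hl, hr⟩ := abs_lt.mp hU1
  obtain ⟨hG1, hG2⟩ := abs_le.mp hG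
  have hden : 0 < 1 - U ^ 2 := by nlinarith
  have hg0 : 0 ≤ gam U := by
    unfold gam
    exact div_nonneg (sq_nonneg U) hden.le
  have hs : 0 < x * (x - 1) := mul_pos hx0 hx1
  have hsq : 0 < √(x * (x - 1)) := Real.sqrt_pos.mpr hs
  have hsq2 : √(x * (x - 1)) ^ 2 = x * (x - 1) := Real.sq_sqrt hs.le
  have hsqG : √(1 - G) ^ 2 = 1 - G := Real.sq_sqrt (by linarith)
  have hsqG0 : 0 ≤ √(1 - G) := Real.sqrt_nonneg _
  have hxU : x * |U| ≤ 1 := by
    rw [le_div_iff₀ hx0] at ha
    linarith [mul_comm x |U|]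
  have hU2 : U ^ 2 = |U| ^ 2 := (sq_abs U).symm
  refine ⟨hg0, ?_, ?_, hU1⟩
  · rw [le_div_iff₀ (mul_pos hx0 hsq)]
    rcases le_or_gt 0 U with h0 | h0
    · -- `gam U ≤ U ^ 2 / (1 - U)`
      rw [abs_of_nonneg h0] at hxU
      have h1U : 0 < 1 - U := by linarith
      have hgU : gam U * (1 - U) ≤ U ^ 2 := by
        unfold gam
        rw [div_mul_eq_mul_div, div_le_iff₀ hden]
        nlinarith [mul_nonneg (sq_nonneg U) (mul_nonneg h0 h1U.le)]
      -- `U x √(x (x-1)) ≤ ...`
      have hkey : (U * √(x * (x - 1))) ≤ (1 - U) := by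
        apply le_of_sq_le_sq _ h1U.le
        rw [mul_pow, hsq2]
        have := hd h0
        have h3 : U ^ 2 * (x * (x - 1)) = (x * U) * ((x - 1) * U) := by ring
        rw [h3]
        have h4 : (x * U) * ((x - 1) * U) ≤ 1 * ((x - 1) * U) :=
          mul_le_mul_of_nonneg_right hxU (mul_nonneg hx1.le h0)
        have h5 : 0 ≤ (x - 1) * U := mul_nonneg hx1.le h0
        nlinarith
      rcases eq_or_lt_of_le h0 with h00 | h00
      · have : gam U = 0 := by unfold gam; rw [← h00]; simp
        rw [this]; simp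
      · have h6 : gam U * (U * √(x * (x - 1))) ≤ U ^ 2 :=
          (mul_le_mul_of_nonneg_left hkey hg0).trans hgU
        have h7 : gam U * √(x * (x - 1)) ≤ U := by
          have : (gam U * √(x * (x - 1))) * U ≤ U * U := by nlinarith
          exact le_of_mul_le_mul_right this h00
        calc gam U * (x * √(x * (x - 1))) = x * (gam U * √(x * (x - 1))) := by ring
          _ ≤ x * U := mul_le_mul_of_nonneg_left h7 hx0.le
          _ ≤ 1 := hxU
          _ ≤ 2 := by norm_num
    · have hU' := hb h0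
      have h34 : gam U ≤ 4 / 3 * U ^ 2 := by
        unfold gam
        rw [div_le_iff₀ hden]
        have : U ^ 2 ≤ 1 / 4 := by
          rw [hU2]
          nlinarith [abs_nonneg U]
        nlinarith [sq_nonneg U]
      have hsx : √(x * (x - 1)) ≤ x := by
        rw [Real.sqrt_le_left hx0.le]
        nlinarith
      calc gam U * (x * √(x * (x - 1))) ≤ (4 / 3 * U ^ 2) * (x * x) := by
            apply mul_le_mul h34 (mul_le_mul_of_nonneg_left hsx hx0.le)
              (mul_nonneg hx0.le hsq.le) (by positivity)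
        _ = 4 / 3 * (x * |U|) ^ 2 := by rw [hU2]; ring
        _ ≤ 4 / 3 * 1 := by
            apply mul_le_mul_of_nonneg_left _ (by norm_num)
            have : 0 ≤ x * |U| := mul_nonneg hx0.le (abs_nonneg U)
            nlinarith
        _ ≤ 2 := by norm_num
  · rcases le_or_gt 0 U with h0 | h0
    · have h1U : 0 < 1 - U := by linarith
      have hle : √(1 - G) ≤ 1 - U := by
        rw [Real.sqrt_le_left h1U.le]
        exact hc h0
      have hgU : gam U * (1 - U) ≤ U ^ 2 := by
        unfold gam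
        rw [div_mul_eq_mul_div, div_le_iff₀ hden]
        nlinarith [mul_nonneg (sq_nonneg U) (mul_nonneg h0 h1U.le)]
      calc gam U * √(1 - G) ≤ gam U * (1 - U) := mul_le_mul_of_nonneg_left hle hg0
        _ ≤ U ^ 2 := hgU
        _ ≤ 2 * U ^ 2 := by nlinarith [sq_nonneg U]
    · have hU' := hb h0
      have h34 : gam U ≤ 4 / 3 * U ^ 2 := by
        unfold gam
        rw [div_le_iff₀ hden]
        have : U ^ 2 ≤ 1 / 4 := by
          rw [hU2]
          nlinarith [abs_nonneg U]
        nlinarith [sq_nonneg U]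
      have hle : √(1 - G) ≤ 3 / 2 := by
        rw [Real.sqrt_le_left (by norm_num)]
        linarith
      calc gam U * √(1 - G) ≤ (4 / 3 * U ^ 2) * (3 / 2) :=
            mul_le_mul h34 hle hsqG0 (by positivity)
        _ = 2 * U ^ 2 := by ring

end Pool.Agent.BG
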