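import Pool.Agent.BG.Defs

/-! MP_2d9608_mp, project BG, row BG-22 -/

set_option autoImplicit false

open MeasureTheory ProbabilityTheory H47.SE Filter
open scoped ComplexConjugate Topology ENNReal

noncomputable section

namespace Pool.Agent.BG

private theorem bg22_cont_phase (x : E3) :
    Continuous (fun y : E3 => 2 * Real.pi * inner ℝ y x) := by fun_prop

private theorem bg22_cont_phase' (y : E3) :
    Continuous (fun x : E3 => 2 * Real.pi * inner ℝ y x) := by fun_prop

private theorem bg22_int_cos {f : E3 → ℝ} (hf : Integrable f) (x : E3) :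
    Integrable (fun y : E3 => Real.cos (2 * Real.pi * inner ℝ y x) * f y) := by
  refine hf.bdd_mul (c := 1) ?_ (ae_of_all _ fun y => ?_)
  · exact (Real.continuous_cos.comp (bg22_cont_phase x)).aestronglyMeasurable
  · rw [Real.norm_eq_abs]; exact Real.abs_cos_le_one _

private theorem bg22_int_sin {f : E3 → ℝ} (hf : Integrable f) (x : E3) :
    Integrable (fun y : E3 => Real.sin (2 * Real.pi * inner ℝ y x) * f y) := by
  refine hf.bdd_mul (c := 1) ?_ (ae_of_all _ fun y => ?_)
  · exact (Real.continuous_sin.comp (bg22_cont_phase x)).aestronglyMeasurable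
  · rw [Real.norm_eq_abs]; exact Real.abs_sin_le_one _

theorem abs_ct_le {f : E3 → ℝ} (hf : Integrable f) (x : E3) : |ct f x| ≤ ∫ y, |f y| := by
  unfold ct
  refine (abs_integral_le_integral_abs).trans ?_
  refine integral_mono (bg22_int_cos hf x).abs hf.abs fun y => ?_
  simp only [abs_mul]
  exact mul_le_of_le_one_left (abs_nonneg _) (Real.abs_cos_le_one _)

theorem continuous_ct {f : E3 → ℝ} (hf : Integrable f) : Continuous (ct f) := by
  unfold ct
  refine continuous_of_dominated (bound := fun y => |f y|)
    (fun x => (bg22_int_cos hf x).aestronglyMeasurable) (fun x => ae_of_all _ fun y => ?_)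
    hf.abs (ae_of_all _ fun y => ?_)
  · rw [Real.norm_eq_abs, abs_mul]
    exact mul_le_of_le_one_left (abs_nonneg _) (Real.abs_cos_le_one _)
  · exact (Real.continuous_cos.comp (bg22_cont_phase' y)).mul continuous_const

theorem continuous_st {f : E3 → ℝ} (hf : Integrable f) : Continuous (st f) := by
  unfold st
  refine continuous_of_dominated (bound := fun y => |f y|)
    (fun x => (bg22_int_sin hf x).aestronglyMeasurable) (fun x => ae_of_all _ fun y => ?_)
    hf.abs (ae_of_all _ fun y => ?_)
  · rw [Real.norm_eq_abs, abs_mul]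
    exact mul_le_of_le_one_left (abs_nonneg _) (Real.abs_sin_le_one _)
  · exact (Real.continuous_sin.comp (bg22_cont_phase' y)).mul continuous_const

theorem ct_neg (f : E3 → ℝ) (x : E3) : ct f (-x) = ct f x := by
  unfold ct
  congr 1
  funext y
  rw [inner_neg_right, mul_neg, Real.cos_neg]

theorem ct_zero (f : E3 → ℝ) : ct f 0 = ∫ y, f y := by
  unfold ct
  simp

theorem flip_ct {f g : E3 → ℝ} (hf : Integrable f) (hg : Integrable g) :
    ∫ x, f x * ct g x = ∫ x, ct f x * g x := by
  have hI : Integrable (fun p : E3 × E3 =>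
      Real.cos (2 * Real.pi * inner ℝ p.2 p.1) * (f p.1 * g p.2))
      ((volume : Measure E3).prod (volume : Measure E3)) := by
    refine (hf.mul_prod hg).bdd_mul (c := 1) ?_ (ae_of_all _ fun y => ?_)
    · exact (Real.continuous_cos.comp (by fun_prop)).aestronglyMeasurable
    · rw [Real.norm_eq_abs]; exact Real.abs_cos_le_one _
  have h := integral_integral_swap (f := fun x y : E3 =>
    Real.cos (2 * Real.pi * inner ℝ y x) * (f x * g y)) hI
  calc ∫ x, f x * ct g x
      = ∫ x, ∫ y, Real.cos (2 * Real.pi * inner ℝ y x) * (f x * g y) := by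
        congr 1; funext x
        unfold ct
        rw [← integral_const_mul]
        congr 1; funext y; ring
    _ = ∫ y, ∫ x, Real.cos (2 * Real.pi * inner ℝ y x) * (f x * g y) := h
    _ = ∫ x, ct f x * g x := by
        congr 1; funext y
        unfold ct
        rw [← integral_mul_const]
        congr 1; funext x
        rw [real_inner_comm]; ring

theorem fourier_eq_ct (f : E3 → ℝ) (ξ : E3) (hf : Integrable f) :
    FourierTransform.fourier (fun x => (f x : ℂ)) ξ = ((ct f ξ : ℝ) : ℂ) - ((st f ξ : ℝ) : ℂ) * Complex.I := by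
  rw [Real.fourier_eq']
  unfold ct st
  rw [← integral_complex_ofReal, ← integral_complex_ofReal, ← integral_mul_const,
    ← integral_sub]
  · congr 1; funext y
    rw [smul_eq_mul]
    have h : Complex.exp (((-2 * Real.pi * inner ℝ y ξ : ℝ) : ℂ) * Complex.I) =
        ((Real.cos (2 * Real.pi * inner ℝ y ξ) : ℝ) : ℂ) -
          ((Real.sin (2 * Real.pi * inner ℝ y ξ) : ℝ) : ℂ) * Complex.I := by
      rw [Complex.exp_mul_I, ← Complex.ofReal_cos, ← Complex.ofReal_sin]
      have e : (-2 * Real.pi * inner ℝ y ξ : ℝ) = -(2 * Real.pi * inner ℝ y ξ) := by ring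
      rw [e, Real.cos_neg, Real.sin_neg]
      push_cast; ring
    rw [h]; push_cast; ring
  · exact (bg22_int_cos hf ξ).ofReal
  · exact ((bg22_int_sin hf ξ).ofReal).mul_const _

theorem abs_ct_sub_le {f g : E3 → ℝ} (hf : Integrable f) (hg : Integrable g) (x : E3) :
    |ct f x - ct g x| ≤ ∫ y, |f y - g y| := by
  have h : ct f x - ct g x = ct (fun y => f y - g y) x := by
    unfold ct
    rw [← integral_sub (bg22_int_cos hf x) (bg22_int_cos hg x)]
    congr 1; funext y; ring
  rw [h]
  exact abs_ct_le (hf.sub hg) x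

end Pool.Agent.BG
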