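import Pool.Agent.BG.Defs

/-! MP_2d9608_mp, project BG, row BG-13 -/

set_option autoImplicit false

open MeasureTheory ProbabilityTheory H47.SE Filter
open scoped ComplexConjugate Topology ENNReal

noncomputable section

namespace Pool.Agent.BG

variable {ι : Type*} [Fintype ι]

private theorem bg13_exp_neg {x : ℝ} (hx : 0 ≤ x) : Real.exp (-x) ≤ 1 - x + x ^ 2 / 2 := by
  have h1 := Real.quadratic_le_exp_of_nonneg hx
  have hpos : 0 < Real.exp x := Real.exp_pos x
  rw [Real.exp_neg]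
  rw [inv_le_iff_one_le_mul₀ hpos]
  have h2 : 0 ≤ 1 - x + x ^ 2 / 2 := by nlinarith [sq_nonneg (x - 1)]
  calc (1 : ℝ) ≤ (1 - x + x ^ 2 / 2) * (1 + x + x ^ 2 / 2) := by
        have : (1 - x + x ^ 2 / 2) * (1 + x + x ^ 2 / 2) = 1 + x ^ 4 / 4 := by ring
        rw [this]
        have : 0 ≤ x ^ 4 := by positivity
        linarith
    _ ≤ (1 - x + x ^ 2 / 2) * Real.exp x := mul_le_mul_of_nonneg_left h1 h2

private theorem bg13_log {x : ℝ} (hx : 0 ≤ x) : x - x ^ 2 / 2 ≤ Real.log (1 + x) := by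
  refine le_trans ?_ (Real.le_log_one_add_of_nonneg hx)
  rw [le_div_iff₀ (by linarith)]
  have : 0 ≤ x ^ 3 := by positivity
  nlinarith

private theorem bg13_factor {c s : ℝ} (hc0 : 0 ≤ c) (hc1 : c < 1) (hs : 0 ≤ s) :
    (√(1 - (Real.exp (-s) * c) ^ 2))⁻¹ ≤
      (√(1 - c ^ 2))⁻¹ * Real.exp (-s * gam c + s ^ 2 * (gam c + gam c ^ 2)) := by
  have hc2 : 0 < 1 - c ^ 2 := by nlinarith
  have hg : 0 ≤ gam c := div_nonneg (sq_nonneg c) hc2.le
  set y : ℝ := 1 - Real.exp (-s) ^ 2 with hy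
  have hq : Real.exp (-s) ^ 2 = Real.exp (-(2 * s)) := by
    rw [← Real.exp_nat_mul]; congr 1; push_cast; ring
  have hy0 : 0 ≤ y := by
    rw [hy, hq]
    have : Real.exp (-(2 * s)) ≤ 1 := Real.exp_le_one_iff.mpr (by linarith)
    linarith
  have hy1 : y ≤ 2 * s := by
    rw [hy, hq]
    have := Real.add_one_le_exp (-(2 * s))
    linarith
  have hy2 : 2 * s - 2 * s ^ 2 ≤ y := by
    rw [hy, hq]
    have := bg13_exp_neg (x := 2 * s) (by linarith)
    nlinarith
  have hkey : 1 - (Real.exp (-s) * c) ^ 2 = (1 - c ^ 2) * (1 + gam c * y) := by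
    have : gam c * (1 - c ^ 2) = c ^ 2 := by
      unfold gam; field_simp
    have h2 : (1 - c ^ 2) * (1 + gam c * y) = (1 - c ^ 2) + (gam c * (1 - c ^ 2)) * y := by ring
    rw [h2, this, hy]; ring
  have hgy : 0 ≤ gam c * y := mul_nonneg hg hy0
  have hpos1 : 0 < 1 + gam c * y := by linarith
  have hlog : 2 * s * gam c - 2 * s ^ 2 * (gam c + gam c ^ 2) ≤ Real.log (1 + gam c * y) := by
    refine le_trans ?_ (bg13_log hgy)
    have h3 : gam c * (2 * s - 2 * s ^ 2) ≤ gam c * y := mul_le_mul_of_nonneg_left hy2 hg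
    have h4 : (gam c * y) ^ 2 ≤ (gam c * (2 * s)) ^ 2 :=
      pow_le_pow_left₀ hgy (mul_le_mul_of_nonneg_left hy1 hg) 2
    nlinarith
  set E : ℝ := -s * gam c + s ^ 2 * (gam c + gam c ^ 2) with hE
  have hexp : Real.exp (-E) ≤ √(1 + gam c * y) := by
    apply Real.le_sqrt_of_sq_le
    rw [← Real.exp_nat_mul]
    have : Real.exp ((2 : ℕ) * -E) ≤ Real.exp (Real.log (1 + gam c * y)) := by
      apply Real.exp_le_exp.mpr
      refine le_trans (le_of_eq ?_) hlog
      rw [hE]; push_cast; ring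
    rwa [Real.exp_log hpos1] at this
  rw [hkey, Real.sqrt_mul hc2.le, mul_inv]
  apply mul_le_mul_of_nonneg_left _ (inv_nonneg.mpr (Real.sqrt_nonneg _))
  have hsq : 0 < √(1 + gam c * y) := Real.sqrt_pos.mpr hpos1
  rw [inv_le_iff_one_le_mul₀ hsq]
  calc (1 : ℝ) = Real.exp E * Real.exp (-E) := by rw [← Real.exp_add]; simp
    _ ≤ Real.exp E * √(1 + gam c * y) := mul_le_mul_of_nonneg_left hexp (Real.exp_pos _).le

theorem chernoff {c : ι → ℝ} (hc0 : ∀ i, 0 ≤ c i) (hc1 : ∀ i, c i < 1) {z V s : ℝ} (hz : 0 ≤ z)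
    (hV : 0 ≤ V) (hs : 0 ≤ s) (N : ℝ) :
    Real.exp (s * N) * (Real.exp (Real.exp (-s) * z * V) * zc (fun i => Real.exp (-s) * c i)) ≤
      Real.exp (z * V) * zc c * Real.exp (-s * (z * V + ∑ i, gam (c i) - N) +
        s ^ 2 * (z * V / 2 + ∑ i, gam (c i) + ∑ i, gam (c i) ^ 2)) := by
  have hzV : 0 ≤ z * V := mul_nonneg hz hV
  have hprod : zc (fun i => Real.exp (-s) * c i) ≤
      zc c * Real.exp (-s * ∑ i, gam (c i) + s ^ 2 * (∑ i, gam (c i) + ∑ i, gam (c i) ^ 2)) := by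
    have h1 : Real.exp (-s * ∑ i, gam (c i) + s ^ 2 * (∑ i, gam (c i) + ∑ i, gam (c i) ^ 2)) =
        ∏ i, Real.exp (-s * gam (c i) + s ^ 2 * (gam (c i) + gam (c i) ^ 2)) := by
      rw [← Real.exp_sum]
      congr 1
      rw [Finset.sum_add_distrib, ← Finset.mul_sum, ← Finset.mul_sum, Finset.sum_add_distrib]
    rw [h1]
    unfold zc
    rw [← Finset.prod_mul_distrib]
    apply Finset.prod_le_prod
    · intro i _
      exact inv_nonneg.mpr (Real.sqrt_nonneg _)
    · intro i _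
      exact bg13_factor (hc0 i) (hc1 i) hs
  have hexp : Real.exp (Real.exp (-s) * z * V) ≤
      Real.exp (z * V) * Real.exp (-s * (z * V) + s ^ 2 * (z * V / 2)) := by
    rw [← Real.exp_add]
    apply Real.exp_le_exp.mpr
    have := bg13_exp_neg hs
    have h2 : Real.exp (-s) * (z * V) ≤ (1 - s + s ^ 2 / 2) * (z * V) :=
      mul_le_mul_of_nonneg_right this hzV
    nlinarith
  have hzc0 : 0 ≤ zc (fun i => Real.exp (-s) * c i) := by
    unfold zc
    exact Finset.prod_nonneg fun i _ => inv_nonneg.mpr (Real.sqrt_nonneg _)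
  calc Real.exp (s * N) * (Real.exp (Real.exp (-s) * z * V) * zc (fun i => Real.exp (-s) * c i))
      ≤ Real.exp (s * N) * ((Real.exp (z * V) * Real.exp (-s * (z * V) + s ^ 2 * (z * V / 2))) *
        (zc c * Real.exp (-s * ∑ i, gam (c i) +
          s ^ 2 * (∑ i, gam (c i) + ∑ i, gam (c i) ^ 2)))) := by
        apply mul_le_mul_of_nonneg_left _ (Real.exp_pos _).le
        exact mul_le_mul hexp hprod hzc0 (by positivity)
    _ = Real.exp (z * V) * zc c * (Real.exp (s * N) * Real.exp (-s * (z * V) +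
          s ^ 2 * (z * V / 2)) * Real.exp (-s * ∑ i, gam (c i) +
          s ^ 2 * (∑ i, gam (c i) + ∑ i, gam (c i) ^ 2))) := by ring
    _ = Real.exp (z * V) * zc c * Real.exp (-s * (z * V + ∑ i, gam (c i) - N) +
        s ^ 2 * (z * V / 2 + ∑ i, gam (c i) + ∑ i, gam (c i) ^ 2)) := by
        rw [← Real.exp_add, ← Real.exp_add]
        congr 2
        ring

end Pool.Agent.BG
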