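import Pool.Agent.BG.IntGam

/-! MP_2d9608_mp, project BG, row BG-29 -/

set_option autoImplicit false

open MeasureTheory ProbabilityTheory H47.SE Filter
open scoped ComplexConjugate Topology ENNReal

noncomputable section

namespace Pool.Agent.BG

variable {κ ρ : ℝ} {w u : E3 → ℝ}

theorem bg29_exp_le {η : ℝ} (hη : 0 ≤ η) (ξ : E3) : Real.exp (-η * ‖ξ‖ ^ 2) ≤ 1 := by
  rw [Real.exp_le_one_iff]
  have : 0 ≤ η * ‖ξ‖ ^ 2 := by positivity
  linarith

theorem bg29_abs {η : ℝ} (hη : 0 ≤ η) (ξ : E3) : |dmp η ρ u ξ| ≤ |UU ρ u ξ| := by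
  unfold dmp
  rw [abs_mul, abs_of_pos (Real.exp_pos _)]
  have h1 := bg29_exp_le hη ξ
  have h2 := abs_nonneg (UU ρ u ξ)
  nlinarith

theorem bg29_sq {s t : ℝ} (h : |s| ≤ |t|) (ht : |t| < 1) : s ^ 2 ≤ t ^ 2 ∧ t ^ 2 < 1 :=
  ⟨sq_le_sq.2 h, (sq_lt_one_iff_abs_lt_one t).2 ht⟩

theorem bg29_gam_mono {s t : ℝ} (h : |s| ≤ |t|) (ht : |t| < 1) : 0 ≤ gam s ∧ gam s ≤ gam t := by
  obtain ⟨h1, h2⟩ := bg29_sq h ht
  refine ⟨div_nonneg (sq_nonneg s) (by linarith), ?_⟩
  exact div_le_div₀ (sq_nonneg t) h1 (by linarith) (by linarith)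

theorem bg29_del_mono {s t : ℝ} (h : |s| ≤ |t|) (ht : |t| < 1) : |del s| ≤ |del t| := by
  obtain ⟨h1, h2⟩ := bg29_sq h ht
  unfold del
  rw [abs_div, abs_div, abs_of_pos (show 0 < 1 - s ^ 2 by linarith),
    abs_of_pos (show 0 < 1 - t ^ 2 by linarith), abs_pow, abs_pow]
  exact div_le_div₀ (by positivity) (pow_le_pow_left₀ (abs_nonneg s) h 3) (by linarith)
    (by linarith)

theorem bg29_alp {t : ℝ} (ht : |t| < 1) : alp t = -t - del t := by
  have h2 : t ^ 2 < 1 := (sq_lt_one_iff_abs_lt_one t).2 ht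
  have h3 : (1 - t ^ 2) ≠ 0 := ne_of_gt (by linarith)
  unfold alp del
  field_simp
  ring

theorem bg29_ae : ∀ᵐ ξ : E3, ξ ≠ 0 := by
  have := (Set.countable_singleton (0 : E3)).ae_notMem (volume : Measure E3)
  filter_upwards [this] with ξ hξ
  simpa using hξ

theorem bg29_meas_gam : Measurable gam := by
  unfold gam
  fun_prop

theorem bg29_meas_del : Measurable del := by
  unfold del
  fun_prop

theorem bg29_meas_alp : Measurable alp := by
  unfold alp
  fun_prop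

theorem bg29_cont (h : Sol κ ρ w u) (η : ℝ) : Continuous (dmp η ρ u) := by
  have := h.continuous_UU
  unfold dmp
  fun_prop

theorem bg29_meas_lm : Measurable lm := by
  unfold lm
  fun_prop

theorem bg29_lm_nonneg (ξ : E3) : 0 ≤ lm ξ := by
  unfold lm
  positivity

theorem bg29_gauss {η : ℝ} (hη : 0 < η) : Integrable (fun ξ : E3 => Real.exp (-η * ‖ξ‖ ^ 2)) := by
  have h := (GaussianFourier.integrable_cexp_neg_mul_sq_norm_add (V := E3) (b := (η : ℂ))
    (by simpa using hη) 0 0).norm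
  refine h.congr (Eventually.of_forall fun ξ => ?_)
  simp only [Complex.norm_exp]
  congr 1
  simp [← Complex.ofReal_pow]

theorem Sol.dmp_lt (h : Sol κ ρ w u) {η : ℝ} (hη : 0 < η) {ξ : E3} (hξ : ξ ≠ 0) :
    |dmp η ρ u ξ| < 1 := (bg29_abs hη.le ξ).trans_lt (h.UU_lt hξ)

theorem Sol.dmp_int (h : Sol κ ρ w u) {η : ℝ} (hη : 0 < η) : Integrable (dmp η ρ u) ∧
    Integrable (fun ξ => gam (dmp η ρ u ξ)) ∧ Integrable (fun ξ => del (dmp η ρ u ξ)) ∧
    Integrable (fun ξ => alp (dmp η ρ u ξ)) ∧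
    Integrable (fun ξ => lm ξ * gam (dmp η ρ u ξ)) := by
  have hc := bg29_cont h η
  have h1 : Integrable (dmp η ρ u) := by
    refine (bg29_gauss hη).mono' hc.aestronglyMeasurable (Eventually.of_forall fun ξ => ?_)
    rw [Real.norm_eq_abs]
    unfold dmp
    rw [abs_mul, abs_of_pos (Real.exp_pos _)]
    exact mul_le_of_le_one_right (Real.exp_pos _).le (h.abs_UU_le ξ)
  have h3 : Integrable (fun ξ => del (dmp η ρ u ξ)) := by
    refine (h.del_int).mono (bg29_meas_del.comp hc.measurable).aestronglyMeasurable ?_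
    filter_upwards [bg29_ae] with ξ hξ
    exact bg29_del_mono (bg29_abs hη.le ξ) (h.UU_lt hξ)
  refine ⟨h1, ?_, h3, ?_, ?_⟩
  · refine (h.gam_int).mono' (bg29_meas_gam.comp hc.measurable).aestronglyMeasurable ?_
    filter_upwards [bg29_ae] with ξ hξ
    have h2 := bg29_gam_mono (bg29_abs hη.le ξ) (h.UU_lt hξ)
    rw [Real.norm_eq_abs, abs_of_nonneg h2.1]
    exact h2.2
  · refine (h1.neg.sub h3).congr ?_
    filter_upwards [bg29_ae] with ξ hξ
    simp only [Pi.sub_apply, Pi.neg_apply]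
    rw [bg29_alp (h.dmp_lt hη hξ)]
  · refine (h.lm_gam_int).mono'
      (bg29_meas_lm.mul (bg29_meas_gam.comp hc.measurable)).aestronglyMeasurable ?_
    filter_upwards [bg29_ae] with ξ hξ
    have h2 := bg29_gam_mono (bg29_abs hη.le ξ) (h.UU_lt hξ)
    rw [Real.norm_eq_abs, abs_of_nonneg (mul_nonneg (bg29_lm_nonneg ξ) h2.1)]
    exact mul_le_mul_of_nonneg_left h2.2 (bg29_lm_nonneg ξ)

theorem bg29_cos {f : E3 → ℝ} (hf : Integrable f) (x : E3) :
    Integrable (fun y => Real.cos (2 * Real.pi * inner ℝ y x) * f y) := by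
  refine hf.norm.mono' ((Continuous.aestronglyMeasurable (by fun_prop)).mul
    hf.aestronglyMeasurable) (Eventually.of_forall fun y => ?_)
  rw [norm_mul, Real.norm_eq_abs (Real.cos _)]
  exact mul_le_of_le_one_left (norm_nonneg _) (Real.abs_cos_le_one _)

theorem Sol.ct_alp (h : Sol κ ρ w u) {η : ℝ} (hη : 0 < η) (x : E3) :
    ct (fun ξ => alp (dmp η ρ u ξ)) x =
      -(ct (dmp η ρ u) x) - ct (fun ξ => del (dmp η ρ u ξ)) x := by
  obtain ⟨h1, -, h3, -, -⟩ := h.dmp_int hη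
  have h4 := integral_sub (bg29_cos h1 x).neg (bg29_cos h3 x)
  rw [integral_neg'] at h4
  unfold ct
  rw [← h4]
  refine integral_congr_ae ?_
  filter_upwards [bg29_ae] with ξ hξ
  simp only [Pi.neg_apply]
  rw [bg29_alp (h.dmp_lt hη hξ)]
  ring

theorem bg29_tend (ρ : ℝ) (u : E3 → ℝ) (ξ : E3) :
    Tendsto (fun η => dmp η ρ u ξ) (𝓝[>] 0) (𝓝 (UU ρ u ξ)) := by
  have h1 : Continuous (fun η : ℝ => dmp η ρ u ξ) := by
    unfold dmp
    fun_prop
  have h2 := h1.tendsto 0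
  have h3 : dmp 0 ρ u ξ = UU ρ u ξ := by simp [dmp]
  rw [h3] at h2
  exact h2.mono_left nhdsWithin_le_nhds

theorem bg29_tend_gam (h : Sol κ ρ w u) {ξ : E3} (hξ : ξ ≠ 0) :
    Tendsto (fun η => gam (dmp η ρ u ξ)) (𝓝[>] 0) (𝓝 (gam (UU ρ u ξ))) := by
  have h2 : UU ρ u ξ ^ 2 < 1 := (sq_lt_one_iff_abs_lt_one _).2 (h.UU_lt hξ)
  have h1 := bg29_tend ρ u ξ
  exact (h1.pow 2).div ((h1.pow 2).const_sub 1) (ne_of_gt (by linarith))

theorem bg29_tend_del (h : Sol κ ρ w u) {ξ : E3} (hξ : ξ ≠ 0) :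
    Tendsto (fun η => del (dmp η ρ u ξ)) (𝓝[>] 0) (𝓝 (del (UU ρ u ξ))) := by
  have h2 : UU ρ u ξ ^ 2 < 1 := (sq_lt_one_iff_abs_lt_one _).2 (h.UU_lt hξ)
  have h1 := bg29_tend ρ u ξ
  exact (h1.pow 3).div ((h1.pow 2).const_sub 1) (ne_of_gt (by linarith))

theorem Sol.dmp_gam (h : Sol κ ρ w u) :
    (∀ η > 0, ∫ ξ, gam (dmp η ρ u ξ) ≤ G0 ρ u) ∧
    Tendsto (fun η => ∫ ξ, |gam (dmp η ρ u ξ) - gam (UU ρ u ξ)|) (𝓝[>] 0) (𝓝 0) ∧
    Tendsto (fun η => ∫ ξ, |del (dmp η ρ u ξ) - del (UU ρ u ξ)|) (𝓝[>] 0) (𝓝 0) ∧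
    Tendsto (fun η => ∫ ξ, gam (dmp η ρ u ξ)) (𝓝[>] 0) (𝓝 (G0 ρ u)) ∧
    Tendsto (fun η => ∫ ξ, lm ξ * gam (dmp η ρ u ξ)) (𝓝[>] 0)
      (𝓝 (∫ ξ, lm ξ * gam (UU ρ u ξ))) := by
  have hpos : ∀ᶠ η : ℝ in 𝓝[>] 0, 0 < η := self_mem_nhdsWithin
  have mU : AEStronglyMeasurable (fun ξ => gam (UU ρ u ξ)) volume :=
    (bg29_meas_gam.comp h.continuous_UU.measurable).aestronglyMeasurable
  have mD : AEStronglyMeasurable (fun ξ => del (UU ρ u ξ)) volume :=
    (bg29_meas_del.comp h.continuous_UU.measurable).aestronglyMeasurable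
  have mg : ∀ η : ℝ, AEStronglyMeasurable (fun ξ => gam (dmp η ρ u ξ)) volume := fun η =>
    (bg29_meas_gam.comp (bg29_cont h η).measurable).aestronglyMeasurable
  have md : ∀ η : ℝ, AEStronglyMeasurable (fun ξ => del (dmp η ρ u ξ)) volume := fun η =>
    (bg29_meas_del.comp (bg29_cont h η).measurable).aestronglyMeasurable
  refine ⟨?_, ?_, ?_, ?_, ?_⟩
  · intro η hη
    refine integral_mono_ae (h.dmp_int hη).2.1 h.gam_int ?_
    filter_upwards [bg29_ae] with ξ hξ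
    exact (bg29_gam_mono (bg29_abs (le_of_lt hη) ξ) (h.UU_lt hξ)).2
  · rw [show (𝓝 (0 : ℝ)) = 𝓝 (∫ _ξ : E3, (0 : ℝ)) by simp]
    refine tendsto_integral_filter_of_dominated_convergence (fun ξ => 2 * gam (UU ρ u ξ)) ?_ ?_
      (h.gam_int.const_mul 2) ?_
    · exact Eventually.of_forall fun η => ((mg η).sub mU).norm
    · filter_upwards [hpos] with η hη
      filter_upwards [bg29_ae] with ξ hξ
      have h2 := bg29_gam_mono (bg29_abs (u := u) (ρ := ρ) hη.le ξ) (h.UU_lt hξ)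
      rw [Real.norm_eq_abs, abs_abs, abs_le]
      constructor <;> linarith
    · filter_upwards [bg29_ae] with ξ hξ
      have h2 := ((bg29_tend_gam h hξ).sub_const (gam (UU ρ u ξ))).abs
      simpa using h2
  · rw [show (𝓝 (0 : ℝ)) = 𝓝 (∫ _ξ : E3, (0 : ℝ)) by simp]
    refine tendsto_integral_filter_of_dominated_convergence (fun ξ => 2 * |del (UU ρ u ξ)|) ?_ ?_
      (h.del_int.abs.const_mul 2) ?_
    · exact Eventually.of_forall fun η => ((md η).sub mD).norm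
    · filter_upwards [hpos] with η hη
      filter_upwards [bg29_ae] with ξ hξ
      have h2 := bg29_del_mono (bg29_abs (u := u) (ρ := ρ) hη.le ξ) (h.UU_lt hξ)
      rw [Real.norm_eq_abs, abs_abs]
      refine (abs_sub _ _).trans ?_
      linarith
    · filter_upwards [bg29_ae] with ξ hξ
      have h2 := ((bg29_tend_del h hξ).sub_const (del (UU ρ u ξ))).abs
      simpa using h2
  · refine tendsto_integral_filter_of_dominated_convergence (fun ξ => gam (UU ρ u ξ)) ?_ ?_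
      h.gam_int ?_
    · exact Eventually.of_forall fun η => mg η
    · filter_upwards [hpos] with η hη
      filter_upwards [bg29_ae] with ξ hξ
      have h2 := bg29_gam_mono (bg29_abs (u := u) (ρ := ρ) hη.le ξ) (h.UU_lt hξ)
      rw [Real.norm_eq_abs, abs_of_nonneg h2.1]
      exact h2.2
    · filter_upwards [bg29_ae] with ξ hξ
      exact bg29_tend_gam h hξ
  · refine tendsto_integral_filter_of_dominated_convergence (fun ξ => lm ξ * gam (UU ρ u ξ)) ?_ ?_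
      h.lm_gam_int ?_
    · exact Eventually.of_forall fun η => bg29_meas_lm.aestronglyMeasurable.mul (mg η)
    · filter_upwards [hpos] with η hη
      filter_upwards [bg29_ae] with ξ hξ
      have h2 := bg29_gam_mono (bg29_abs (u := u) (ρ := ρ) hη.le ξ) (h.UU_lt hξ)
      rw [Real.norm_eq_abs, abs_of_nonneg (mul_nonneg (bg29_lm_nonneg ξ) h2.1)]
      exact mul_le_mul_of_nonneg_left h2.2 (bg29_lm_nonneg ξ)
    · filter_upwards [bg29_ae] with ξ hξ
      exact (bg29_tend_gam h hξ).const_mul _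

end Pool.Agent.BG
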