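import Pool.Agent.SCB.Bump
import Pool.Agent.H47.SE.NonPosMain
import Pool.Agent.H47.SE.Mono

/-!
Project UniformCoupling (MP_2d9608_mp): definitions.

The trial state is `psi τ φ N x = E ∏ j (1 + ζ (x j))`, where `ζ = ∑ i, τ i ξ i φ i` is a random
one-particle function with independent standard normal variables `ξ i`.
-/

set_option autoImplicit false

open MeasureTheory ProbabilityTheory H47.SE
open scoped ComplexConjugate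

noncomputable section

namespace Pool.Agent.BG

export Pool.Agent.SCB (ea)

variable {ι : Type*} [Fintype ι]

/-! ### Gaussian variables -/

/-- the standard Gaussian measure -/
def gm (ι : Type*) [Fintype ι] : Measure (ι → ℝ) := Measure.pi (fun _ => gaussianReal 0 1)

instance : IsProbabilityMeasure (gm ι) := by unfold gm; infer_instance

/-- two independent standard Gaussian vectors -/
def gg (ι : Type*) [Fintype ι] : Measure ((ι → ℝ) × (ι → ℝ)) := (gm ι).prod (gm ι)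

instance : IsProbabilityMeasure (gg ι) := by unfold gg; infer_instance

/-- `∑ |ξ i|` -/
def nn (ξ : ι → ℝ) : ℝ := ∑ i, |ξ i|

/-- the weight `exp (∑ c i ξ i ξ' i)` -/
def wt (c : ι → ℝ) (p : (ι → ℝ) × (ι → ℝ)) : ℝ := Real.exp (∑ i, c i * (p.1 i * p.2 i))

/-- the normalization `∏ (1 - c i ^ 2) ^ (- 1 / 2)` -/
def zc (c : ι → ℝ) : ℝ := ∏ i, (√(1 - c i ^ 2))⁻¹

/-- the tilting map -/
def tl (c : ι → ℝ) (p : (ι → ℝ) × (ι → ℝ)) : (ι → ℝ) × (ι → ℝ) :=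
  (fun i => p.1 i + c i * (p.2 i / √(1 - c i ^ 2)), fun i => p.2 i / √(1 - c i ^ 2))

/-- a linear form in the coordinates -/
def lin (a : ι → ℂ) (ξ : ι → ℝ) : ℂ := ∑ i, a i * (ξ i : ℂ)

/-- a linear form in the coordinates of the pair -/
def lf (a : ι ⊕ ι → ℂ) (p : (ι → ℝ) × (ι → ℝ)) : ℂ :=
  ∑ i, (a (Sum.inl i) * (p.1 i : ℂ) + a (Sum.inr i) * (p.2 i : ℂ))

/-- the covariance of two linear forms for the tilted measure -/
def cv (c : ι → ℝ) (a b : ι ⊕ ι → ℂ) : ℂ :=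
  ∑ i, (a (Sum.inl i) * b (Sum.inl i) + a (Sum.inr i) * b (Sum.inr i) +
    (c i : ℂ) * (a (Sum.inl i) * b (Sum.inr i) + a (Sum.inr i) * b (Sum.inl i))) /
      (1 - (c i : ℂ) ^ 2)

/-! ### Modes and the trial function -/

/-- orthonormal real modes on the torus, orthogonal to the constants, with orthogonal gradients -/
structure Modes (L : ℝ) (φ : ι → E3 → ℝ) (lam : ι → ℝ) : Prop where
  smooth : ∀ i, ContDiff ℝ (⊤ : ℕ∞) (φ i)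
  per : ∀ i x n, φ i (x + latt L n) = φ i x
  orth : ∀ i j, i ≠ j → ∫ x in cell L, φ i x * φ j x = 0
  norm : ∀ i, ∫ x in cell L, φ i x * φ i x = 1
  mean : ∀ i, ∫ x in cell L, φ i x = 0
  gradorth : ∀ i j, i ≠ j →
    ∑ a, ∫ x in cell L, fderiv ℝ (φ i) x (ea a) * fderiv ℝ (φ j) x (ea a) = 0
  gradnorm : ∀ i, ∑ a, ∫ x in cell L, fderiv ℝ (φ i) x (ea a) * fderiv ℝ (φ i) x (ea a) = lam i

/-- the random one-particle function `1 + ζ` -/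
def fld (τ : ι → ℂ) (φ : ι → E3 → ℝ) (ξ : ι → ℝ) (x : E3) : ℂ :=
  1 + ∑ i, τ i * (ξ i : ℂ) * (φ i x : ℂ)

/-- its derivative in the direction `a` -/
def dfld (τ : ι → ℂ) (φ : ι → E3 → ℝ) (a : Fin 3) (ξ : ι → ℝ) (x : E3) : ℂ :=
  ∑ i, τ i * (ξ i : ℂ) * (fderiv ℝ (φ i) x (ea a) : ℂ)

/-- the trial function -/
def psi (τ : ι → ℂ) (φ : ι → E3 → ℝ) (N : ℕ) (x : Fin N → E3) : ℂ :=
  ∫ ξ, ∏ j, fld τ φ ξ (x j) ∂(gm ι)

/-- the overlap of two one-particle functions -/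
def ov (L : ℝ) (τ : ι → ℂ) (p : (ι → ℝ) × (ι → ℝ)) : ℝ :=
  L ^ 3 + ∑ i, ‖τ i‖ ^ 2 * (p.1 i * p.2 i)

/-- the kinetic overlap -/
def kk (τ : ι → ℂ) (lam : ι → ℝ) (p : (ι → ℝ) × (ι → ℝ)) : ℝ :=
  ∑ i, ‖τ i‖ ^ 2 * lam i * (p.1 i * p.2 i)

/-- the product of the two one-particle functions -/
def hh (τ : ι → ℂ) (φ : ι → E3 → ℝ) (p : (ι → ℝ) × (ι → ℝ)) (x : E3) : ℂ :=
  conj (fld τ φ p.1 x) * fld τ φ p.2 x

/-- the measure on pairs of points of the cell -/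
def cc (L : ℝ) : Measure (E3 × E3) :=
  ((volume : Measure E3).restrict (cell L)).prod ((volume : Measure E3).restrict (cell L))

/-- the interaction overlap -/
def ww (W : E3 → ℝ) (L : ℝ) (τ : ι → ℂ) (φ : ι → E3 → ℝ) (p : (ι → ℝ) × (ι → ℝ)) : ℂ :=
  ∫ z, (W (z.1 - z.2) : ℂ) * (hh τ φ p z.1 * hh τ φ p z.2) ∂(cc L)

/-- an admissible interaction on the torus -/
structure Pot (L : ℝ) (W : E3 → ℝ) : Prop where
  nonneg : ∀ x, 0 ≤ W x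
  meas : Measurable W
  per : ∀ x n, W (x + latt L n) = W x
  int : IntegrableOn W (cell L)

/-- `γ = t ^ 2 / (1 - t ^ 2)` -/
def gam (t : ℝ) : ℝ := t ^ 2 / (1 - t ^ 2)

/-- `α = - t / (1 - t ^ 2)` -/
def alp (t : ℝ) : ℝ := -t / (1 - t ^ 2)

/-- `∑ a i φ i (x) φ i (y)` -/
def ker (φ : ι → E3 → ℝ) (a : ι → ℝ) (x y : E3) : ℝ := ∑ i, a i * (φ i x * φ i y)

/-- the pair density of the trial state -/
def pd2 (φ : ι → E3 → ℝ) (t : ι → ℝ) (z : ℝ) (x y : E3) : ℝ :=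
  (z + ker φ (fun i => gam (t i)) x x) * (z + ker φ (fun i => gam (t i)) y y) +
    2 * z * (ker φ (fun i => alp (t i)) x y + ker φ (fun i => gam (t i)) x y) +
    ker φ (fun i => alp (t i)) x y ^ 2 + ker φ (fun i => gam (t i)) x y ^ 2

/-! ### Hartley modes -/

/-- Hartley mode -/
def hart (L : ℝ) (p : Fin 3 → ℤ) (x : E3) : ℝ :=
  (√(L ^ 3))⁻¹ * (Real.cos (ph L p x) + Real.sin (ph L p x))

/-- finite volume cosine transform over a finite set of frequencies -/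
def As (L : ℝ) (S : Finset (Fin 3 → ℤ)) (a : E3 → ℝ) (x : E3) : ℝ :=
  (L ^ 3)⁻¹ * ∑ p ∈ S, a (frq L p) * Real.cos (ph L p x)

/-! ### The functional in the thermodynamic limit -/

/-- cosine transform -/
def ct (f : E3 → ℝ) (x : E3) : ℝ := ∫ y, Real.cos (2 * Real.pi * inner ℝ y x) * f y

/-- sine transform -/
def st (f : E3 → ℝ) (x : E3) : ℝ := ∫ y, Real.sin (2 * Real.pi * inner ℝ y x) * f y

/-- `4 π² |ξ|²` -/
def lm (ξ : E3) : ℝ := 4 * Real.pi ^ 2 * ‖ξ‖ ^ 2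

/-- the energy density of the trial state -/
def FF (m : ℝ) (v : E3 → ℝ) (t : E3 → ℝ) (z : ℝ) : ℝ :=
  1 / (2 * m) * (∫ ξ, lm ξ * gam (t ξ)) +
    1 / 2 * ((∫ x, v x) * (z + ∫ ξ, gam (t ξ)) ^ 2 +
      2 * z * (∫ x, v x * (ct (fun ξ => alp (t ξ)) x + ct (fun ξ => gam (t ξ)) x)) +
      ∫ x, v x * (ct (fun ξ => alp (t ξ)) x ^ 2 + ct (fun ξ => gam (t ξ)) x ^ 2))

/-- the data of a solution of the Simple equation in scaled form: `κ = m K`, `g = (1 - u) w` -/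
structure Sol (κ ρ : ℝ) (w u : E3 → ℝ) : Prop where
  hκ : 0 < κ
  hρ : 0 < ρ
  wm : Measurable w
  w0 : ∀ x, 0 ≤ w x
  weven : ∀ x, w (-x) = w x
  wi : Integrable w
  wpos : 0 < ∫ x, w x
  ui : Integrable u
  ub : ∀ᵐ x, 0 ≤ u x ∧ u x ≤ 1
  umass : ∫ x, u x = 1 / ρ
  gpos : 0 < ∫ x, (1 - u x) * w x
  /-- the Fourier transform of `u` is real -/
  ureal : ∀ ξ, st u ξ = 0
  eqn : ∀ ξ, lm ξ * ct u ξ = κ * ct (fun x => (1 - u x) * w x) ξ -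
    2 * ρ * κ * (∫ x, (1 - u x) * w x) * ct u ξ +
    ρ ^ 2 * κ * (∫ x, (1 - u x) * w x) * ct u ξ ^ 2

/-- `U = ρ û` -/
def UU (ρ : ℝ) (u : E3 → ℝ) (ξ : E3) : ℝ := ρ * ct u ξ

/-- the regularized `U` -/
def dmp (η ρ : ℝ) (u : E3 → ℝ) (ξ : E3) : ℝ := Real.exp (-η * ‖ξ‖ ^ 2) * UU ρ u ξ

/-- `b = ρ κ ∫ (1 - u) w`, twice the scaled energy -/
def bb (κ ρ : ℝ) (w u : E3 → ℝ) : ℝ := ρ * κ * ∫ x, (1 - u x) * w x

/-- `G = ĝ / ĝ (0)` -/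
def GG (w u : E3 → ℝ) (ξ : E3) : ℝ :=
  ct (fun x => (1 - u x) * w x) ξ / ∫ x, (1 - u x) * w x

/-- `x = 1 + λ / (2 b)` -/
def xx (κ ρ : ℝ) (w u : E3 → ℝ) (ξ : E3) : ℝ := 1 + lm ξ / (2 * bb κ ρ w u)

/-- `δ = U ^ 3 / (1 - U ^ 2)` -/
def del (t : ℝ) : ℝ := t ^ 3 / (1 - t ^ 2)

/-- `J = ∫ (ŵ (0) - ŵ) U ^ 2` -/
def JJ (ρ : ℝ) (w u : E3 → ℝ) : ℝ := ∫ ξ, ((∫ x, w x) - ct w ξ) * UU ρ u ξ ^ 2

/-- `Γ₀ = ∫ γ (U)` -/
def G0 (ρ : ℝ) (u : E3 → ℝ) : ℝ := ∫ ξ, gam (UU ρ u ξ)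

/-- the value of the functional at `t = U`, `z = ρ - Γ₀`, with `ct (α ∘ U)` replaced by
`- ρ u - ct (δ ∘ U)` -/
def FK (κ ρ : ℝ) (w u : E3 → ℝ) : ℝ :=
  1 / 2 * (∫ ξ, lm ξ * gam (UU ρ u ξ)) +
    κ / 2 * ((∫ x, w x) * ρ ^ 2 +
      2 * (ρ - G0 ρ u) * (∫ x, w x * (-(ρ * u x) - ct (fun ξ => del (UU ρ u ξ)) x +
        ct (fun ξ => gam (UU ρ u ξ)) x)) +
      ∫ x, w x * ((ρ * u x + ct (fun ξ => del (UU ρ u ξ)) x) ^ 2 +
        ct (fun ξ => gam (UU ρ u ξ)) x ^ 2))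

end Pool.Agent.BG
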