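import Pool.Agent.BG.Gauss

/-! MP_2d9608_mp, project BG, row BG-7 -/

set_option autoImplicit false

open MeasureTheory ProbabilityTheory H47.SE Filter
open scoped ComplexConjugate Topology ENNReal

noncomputable section

namespace Pool.Agent.BG

variable {ι : Type*} [Fintype ι]

theorem norm_sq_integral {L : ℝ} [hL : Fact (0 < L)] {N : ℕ} {f : Fin N → (ι → ℝ) → E3 → ℂ}
    (hf : ∀ j, Continuous fun q : (ι → ℝ) × E3 => f j q.1 q.2) {A : ℝ}
    (hb : ∀ j ξ x, ‖f j ξ x‖ ≤ Real.exp (A * (1 + nn ξ))) {G : (Fin N → E3) → ℝ}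
    (hG : IntegrableOn G (box (Fin N) L)) :
    ∫ x in box (Fin N) L, G x * ‖∫ ξ, ∏ j, f j ξ (x j) ∂(gm ι)‖ ^ 2 =
      (∫ p, (∫ x in box (Fin N) L, (G x : ℂ) *
        ∏ j, (conj (f j p.1 (x j)) * f j p.2 (x j))) ∂(gg ι)).re := by
  set Φ : (ι → ℝ) → (Fin N → E3) → ℂ := fun ξ x => ∏ j, f j ξ (x j) with hΦ
  have hΦc : Continuous fun q : (ι → ℝ) × (Fin N → E3) => Φ q.1 q.2 := by
    refine continuous_finset_prod _ fun j _ => ?_
    exact (hf j).comp (continuous_fst.prodMk ((continuous_apply j).comp continuous_snd))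
  set h : (ι → ℝ) → ℝ := fun ξ => Real.exp (N * A * (1 + nn ξ)) with hh
  have hΦb : ∀ ξ x, ‖Φ ξ x‖ ≤ h ξ := by
    intro ξ x
    simp only [hΦ, norm_prod]
    calc ∏ j, ‖f j ξ (x j)‖ ≤ ∏ _j : Fin N, Real.exp (A * (1 + nn ξ)) :=
          Finset.prod_le_prod (fun _ _ => norm_nonneg _) (fun j _ => hb j ξ (x j))
      _ = h ξ := by
          rw [Finset.prod_const, Finset.card_univ, Fintype.card_fin, ← Real.exp_nat_mul]
          simp only [hh]
          congr 1
          ring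
  have hhi : Integrable h (gm ι) := by
    have h1 := (integrable_exp_nn (ι := ι) (N * A)).const_mul (Real.exp (N * A))
    refine h1.congr (Eventually.of_forall fun ξ => ?_)
    simp only [hh]
    rw [← Real.exp_add]
    congr 1
    ring
  have hprod : ∀ (x : Fin N → E3) (p : (ι → ℝ) × (ι → ℝ)),
      ∏ j, (conj (f j p.1 (x j)) * f j p.2 (x j)) = conj (Φ p.1 x) * Φ p.2 x := by
    intro x p
    simp only [hΦ]
    rw [Finset.prod_mul_distrib, map_prod]
  have hint : Integrable (Function.uncurry fun (x : Fin N → E3) (p : (ι → ℝ) × (ι → ℝ)) =>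
      (G x : ℂ) * ∏ j, (conj (f j p.1 (x j)) * f j p.2 (x j)))
      ((volume.restrict (box (Fin N) L)).prod (gg ι)) := by
    have hd : Integrable (fun z : (Fin N → E3) × ((ι → ℝ) × (ι → ℝ)) =>
        ‖G z.1‖ * (h z.2.1 * h z.2.2)) ((volume.restrict (box (Fin N) L)).prod (gg ι)) :=
      hG.norm.mul_prod (hhi.mul_prod hhi)
    refine hd.mono' ?_ (Eventually.of_forall fun z => ?_)
    · refine AEStronglyMeasurable.mul ?_ ?_
      · exact (Complex.continuous_ofReal.comp_aestronglyMeasurable hG.aestronglyMeasurable).comp_fst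
      · have hc : Continuous fun z : (Fin N → E3) × ((ι → ℝ) × (ι → ℝ)) =>
            ∏ j, (conj (f j z.2.1 (z.1 j)) * f j z.2.2 (z.1 j)) := by
          refine continuous_finset_prod _ fun j _ => ?_
          have c1 : Continuous fun z : (Fin N → E3) × ((ι → ℝ) × (ι → ℝ)) => z.1 j :=
            (continuous_apply j).comp continuous_fst
          exact (Complex.continuous_conj.comp ((hf j).comp
            ((continuous_fst.comp continuous_snd).prodMk c1))).mul
            ((hf j).comp ((continuous_snd.comp continuous_snd).prodMk c1))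
        exact hc.aestronglyMeasurable
    · simp only [Function.uncurry]
      rw [hprod, norm_mul, norm_mul, RCLike.norm_conj, Complex.norm_real]
      exact mul_le_mul_of_nonneg_left
        (mul_le_mul (hΦb _ _) (hΦb _ _) (norm_nonneg _) (Real.exp_pos _).le) (norm_nonneg _)
  rw [← integral_integral_swap hint]
  have hin : ∀ x : Fin N → E3, ∫ p, (G x : ℂ) *
      ∏ j, (conj (f j p.1 (x j)) * f j p.2 (x j)) ∂(gg ι) =
      ((G x * ‖∫ ξ, Φ ξ x ∂(gm ι)‖ ^ 2 : ℝ) : ℂ) := by
    intro x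
    simp only [hprod]
    rw [integral_const_mul]
    have h1 : ∫ p, conj (Φ p.1 x) * Φ p.2 x ∂(gg ι) =
        (∫ ξ, conj (Φ ξ x) ∂(gm ι)) * ∫ ξ, Φ ξ x ∂(gm ι) :=
      integral_prod_mul (fun ξ => conj (Φ ξ x)) (fun ξ => Φ ξ x)
    rw [h1, integral_conj, Complex.conj_mul']
    push_cast
    ring
  have hfin : ∫ x in box (Fin N) L, ((G x * ‖∫ ξ, Φ ξ x ∂(gm ι)‖ ^ 2 : ℝ) : ℂ) =
      ((∫ x in box (Fin N) L, G x * ‖∫ ξ, Φ ξ x ∂(gm ι)‖ ^ 2 : ℝ) : ℂ) := integral_ofReal
  simp only [hin]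
  rw [hfin, Complex.ofReal_re]

end Pool.Agent.BG
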