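import Pool.Agent.BG.Defs

/-! MP_2d9608_mp, project BG, row BG-9 -/

set_option autoImplicit false

open MeasureTheory ProbabilityTheory H47.SE Filter
open scoped ComplexConjugate Topology ENNReal

noncomputable section

namespace Pool.Agent.BG

variable {ι : Type*} [Fintype ι]

omit [Fintype ι] in
private lemma bg9_continuous_fderiv {φ : ι → E3 → ℝ} (hφ : ∀ i, ContDiff ℝ (⊤ : ℕ∞) (φ i)) (i : ι)
    (v : E3) : Continuous fun x => fderiv ℝ (φ i) x v :=
  ((hφ i).continuous_fderiv (by simp)).clm_apply continuous_const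

theorem continuous_fld {φ : ι → E3 → ℝ} (hφ : ∀ i, ContDiff ℝ (⊤ : ℕ∞) (φ i)) (τ : ι → ℂ) :
    Continuous fun q : (ι → ℝ) × E3 => fld τ φ q.1 q.2 := by
  unfold fld
  refine continuous_const.add (continuous_finsetSum _ fun i _ => ?_)
  refine (continuous_const.mul ?_).mul ?_
  · exact Complex.continuous_ofReal.comp ((continuous_apply i).comp continuous_fst)
  · exact Complex.continuous_ofReal.comp ((hφ i).continuous.comp continuous_snd)

theorem continuous_dfld {φ : ι → E3 → ℝ} (hφ : ∀ i, ContDiff ℝ (⊤ : ℕ∞) (φ i)) (τ : ι → ℂ)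
    (a : Fin 3) : Continuous fun q : (ι → ℝ) × E3 => dfld τ φ a q.1 q.2 := by
  unfold dfld
  refine continuous_finsetSum _ fun i _ => ?_
  refine (continuous_const.mul ?_).mul ?_
  · exact Complex.continuous_ofReal.comp ((continuous_apply i).comp continuous_fst)
  · exact Complex.continuous_ofReal.comp ((bg9_continuous_fderiv hφ i _).comp continuous_snd)

private lemma bg9_cell_ball {L : ℝ} [hL : Fact (0 < L)] {x : E3} (hx : x ∈ cell L) :
    x ∈ Metric.closedBall (0 : E3) (L * 3) := by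
  have hL0 := hL.out
  rw [mem_closedBall_zero_iff, EuclideanSpace.norm_eq]
  have h1 : ∀ a, ‖x a‖ ^ 2 ≤ L ^ 2 := by
    intro a
    have := hx a
    rw [Set.mem_Ioc] at this
    rw [Real.norm_eq_abs, sq_abs]
    nlinarith [this.1, this.2]
  calc √(∑ a, ‖x a‖ ^ 2) ≤ √((L * 3) ^ 2) := by
        apply Real.sqrt_le_sqrt
        calc ∑ a, ‖x a‖ ^ 2 ≤ ∑ _a : Fin 3, L ^ 2 := Finset.sum_le_sum fun a _ => h1 a
          _ = 3 * L ^ 2 := by simp
          _ ≤ (L * 3) ^ 2 := by nlinarith [sq_nonneg L]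
    _ = L * 3 := Real.sqrt_sq (by positivity)

private lemma bg9_bound {L : ℝ} [hL : Fact (0 < L)] {g : E3 → ℝ} (hg : Continuous g)
    (hp : ∀ x n, g (x + latt L n) = g x) : ∃ C, 0 ≤ C ∧ ∀ x, |g x| ≤ C := by
  obtain ⟨C, hC⟩ := (isCompact_closedBall (0 : E3) (L * 3)).exists_bound_of_continuousOn
    hg.continuousOn
  refine ⟨max C 0, le_max_right _ _, fun x => ?_⟩
  obtain ⟨n, hn⟩ := exists_latt L x
  rw [← hp x n, ← hn]
  exact (hC _ (bg9_cell_ball (sec_mem_cell L _))).trans (le_max_left _ _)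

private lemma bg9_integrable {L : ℝ} [hL : Fact (0 < L)] {g : E3 → ℂ} (hg : Continuous g) :
    IntegrableOn g (cell L) := by
  have hK : IsCompact (Metric.closedBall (0 : E3) (L * 3)) := isCompact_closedBall _ _
  exact (hg.continuousOn.integrableOn_compact hK).mono_set fun x hx => bg9_cell_ball hx

private lemma bg9_sum_bound (τ : ι → ℂ) {b : ι → ℝ} {c : ι → ℝ} (hb : ∀ i, |b i| ≤ c i)
    (ξ : ι → ℝ) :
    ‖∑ i, τ i * (ξ i : ℂ) * (b i : ℂ)‖ ≤ (∑ i, ‖τ i‖ * c i) * nn ξ := by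
  calc ‖∑ i, τ i * (ξ i : ℂ) * (b i : ℂ)‖ ≤ ∑ i, ‖τ i * (ξ i : ℂ) * (b i : ℂ)‖ :=
        norm_sum_le _ _
    _ ≤ ∑ i, (∑ j, ‖τ j‖ * c j) * |ξ i| := by
        refine Finset.sum_le_sum fun i _ => ?_
        rw [norm_mul, norm_mul, Complex.norm_real, Complex.norm_real, Real.norm_eq_abs,
          Real.norm_eq_abs]
        have h0 : ∀ j, 0 ≤ ‖τ j‖ * c j := fun j =>
          mul_nonneg (norm_nonneg _) ((abs_nonneg _).trans (hb j))
        have h1 : ‖τ i‖ * c i ≤ ∑ j, ‖τ j‖ * c j :=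
          Finset.single_le_sum (f := fun j => ‖τ j‖ * c j) (fun j _ => h0 j) (Finset.mem_univ i)
        calc ‖τ i‖ * |ξ i| * |b i| = (‖τ i‖ * |b i|) * |ξ i| := by ring
          _ ≤ (‖τ i‖ * c i) * |ξ i| :=
            mul_le_mul_of_nonneg_right (mul_le_mul_of_nonneg_left (hb i) (norm_nonneg _))
              (abs_nonneg _)
          _ ≤ _ := mul_le_mul_of_nonneg_right h1 (abs_nonneg _)
    _ = (∑ i, ‖τ i‖ * c i) * nn ξ := by rw [← Finset.mul_sum, nn]

private lemma bg9_nn_nonneg (ξ : ι → ℝ) : 0 ≤ nn ξ := Finset.sum_nonneg fun _ _ => abs_nonneg _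

private lemma bg9_fderiv_per {L : ℝ} {f : E3 → ℝ} (hp : ∀ x n, f (x + latt L n) = f x)
    (x : E3) (n : Fin 3 → ℤ) : fderiv ℝ f (x + latt L n) = fderiv ℝ f x := by
  have h2 : fderiv ℝ (fun y => f (y + latt L n)) x = fderiv ℝ f (x + latt L n) :=
    fderiv_comp_add_right (f := f) (x := x) (latt L n)
  rw [← h2]
  congr 1
  ext y
  exact hp y n

theorem fld_bound {L : ℝ} [hL : Fact (0 < L)] {φ : ι → E3 → ℝ} {lam : ι → ℝ}
    (hM : Modes L φ lam) (τ : ι → ℂ) :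
    ∃ A, 0 ≤ A ∧ (∀ ξ x, ‖fld τ φ ξ x‖ ≤ Real.exp (A * (1 + nn ξ))) ∧
      ∀ a ξ x, ‖dfld τ φ a ξ x‖ ≤ Real.exp (A * (1 + nn ξ)) := by
  have h1 : ∀ i, ∃ C, 0 ≤ C ∧ ∀ x, |φ i x| ≤ C := fun i =>
    bg9_bound (hM.smooth i).continuous (hM.per i)
  have h2 : ∀ i (a : Fin 3), ∃ C, 0 ≤ C ∧ ∀ x, |fderiv ℝ (φ i) x (ea a)| ≤ C := fun i a =>
    bg9_bound (L := L) (bg9_continuous_fderiv hM.smooth i _) fun x n => by
      rw [bg9_fderiv_per (hM.per i)]
  choose C hC0 hC using h1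
  choose D hD0 hD using h2
  set B : ℝ := ∑ i, ‖τ i‖ * C i with hB
  set E : Fin 3 → ℝ := fun a => ∑ i, ‖τ i‖ * D i a with hE
  have hB0 : 0 ≤ B := Finset.sum_nonneg fun i _ => mul_nonneg (norm_nonneg _) (hC0 i)
  have hE0 : ∀ a, 0 ≤ E a := fun a =>
    Finset.sum_nonneg fun i _ => mul_nonneg (norm_nonneg _) (hD0 i a)
  have hES : ∀ a, E a ≤ ∑ b, E b := fun a =>
    Finset.single_le_sum (f := E) (fun b _ => hE0 b) (Finset.mem_univ a)
  have hS0 : 0 ≤ ∑ b, E b := Finset.sum_nonneg fun b _ => hE0 b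
  refine ⟨1 + B + ∑ a, E a, by positivity, fun ξ x => ?_, fun a ξ x => ?_⟩
  · have hn := bg9_nn_nonneg ξ
    have h3 := bg9_sum_bound τ (b := fun i => φ i x) (c := C) (fun i => hC i x) ξ
    have h4 : ‖fld τ φ ξ x‖ ≤ 1 + B * nn ξ := by
      unfold fld
      refine (norm_add_le _ _).trans ?_
      rw [norm_one]
      exact add_le_add le_rfl h3
    refine h4.trans (le_trans ?_ (Real.add_one_le_exp _))
    nlinarith [mul_nonneg hS0 hn, mul_nonneg hB0 hn]
  · have hn := bg9_nn_nonneg ξ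
    have h3 := bg9_sum_bound τ (b := fun i => fderiv ℝ (φ i) x (ea a)) (c := fun i => D i a)
      (fun i => hD i a x) ξ
    have h4 : ‖dfld τ φ a ξ x‖ ≤ E a * nn ξ := h3
    refine h4.trans (le_trans ?_ (Real.add_one_le_exp _))
    have h5 := mul_le_mul_of_nonneg_right (hES a) hn
    nlinarith [mul_nonneg hS0 hn, mul_nonneg hB0 hn]

private lemma bg9_conj_sum (τ : ι → ℂ) (ξ : ι → ℝ) (b : ι → ℝ) :
    conj (∑ i, τ i * (ξ i : ℂ) * (b i : ℂ)) = ∑ i, conj (τ i) * (ξ i : ℂ) * (b i : ℂ) := by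
  rw [map_sum]
  refine Finset.sum_congr rfl fun i _ => ?_
  rw [map_mul, map_mul, Complex.conj_ofReal, Complex.conj_ofReal]

private lemma bg9_prod_sum (τ : ι → ℂ) (p : (ι → ℝ) × (ι → ℝ)) (b : ι → ℝ) :
    conj (∑ i, τ i * (p.1 i : ℂ) * (b i : ℂ)) * (∑ i, τ i * (p.2 i : ℂ) * (b i : ℂ)) =
      ∑ i, ∑ j, (conj (τ i) * τ j * ((p.1 i : ℂ) * (p.2 j : ℂ))) * ((b i * b j : ℝ) : ℂ) := by
  rw [bg9_conj_sum, Finset.sum_mul_sum]
  refine Finset.sum_congr rfl fun i _ => Finset.sum_congr rfl fun j _ => ?_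
  push_cast
  ring

private lemma bg9_int_sum {L : ℝ} [hL : Fact (0 < L)] (τ : ι → ℂ) (p : (ι → ℝ) × (ι → ℝ))
    {b : ι → E3 → ℝ} (hb : ∀ i, Continuous (b i)) :
    ∫ x in cell L, conj (∑ i, τ i * (p.1 i : ℂ) * (b i x : ℂ)) *
        (∑ i, τ i * (p.2 i : ℂ) * (b i x : ℂ)) =
      ∑ i, ∑ j, (conj (τ i) * τ j * ((p.1 i : ℂ) * (p.2 j : ℂ))) *
        ((∫ x in cell L, b i x * b j x : ℝ) : ℂ) := by
  have hi : ∀ i j, IntegrableOn (fun x => (conj (τ i) * τ j * ((p.1 i : ℂ) * (p.2 j : ℂ))) *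
      ((b i x * b j x : ℝ) : ℂ)) (cell L) := fun i j =>
    bg9_integrable (continuous_const.mul (Complex.continuous_ofReal.comp ((hb i).mul (hb j))))
  simp_rw [bg9_prod_sum]
  rw [integral_finsetSum _ fun i _ => integrable_finsetSum _ fun j _ => hi i j]
  refine Finset.sum_congr rfl fun i _ => ?_
  rw [integral_finsetSum _ fun j _ => hi i j]
  refine Finset.sum_congr rfl fun j _ => ?_
  rw [integral_const_mul, integral_complex_ofReal]

private lemma bg9_normSq (z : ℂ) : conj z * z = ((‖z‖ ^ 2 : ℝ) : ℂ) := by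
  rw [mul_comm, Complex.mul_conj, Complex.normSq_eq_norm_sq]

private lemma bg9_split {L : ℝ} [hL : Fact (0 < L)] {a b : E3 → ℂ} (ha : Continuous a)
    (hb : Continuous b) : ∫ x in cell L, (1 + (a x + (b x + a x * b x))) =
      (∫ _x in cell L, (1 : ℂ)) + ((∫ x in cell L, a x) + ((∫ x in cell L, b x) +
        ∫ x in cell L, a x * b x)) := by
  have h1 : IntegrableOn (fun _ : E3 => (1 : ℂ)) (cell L) := bg9_integrable continuous_const
  have h2 : IntegrableOn a (cell L) := bg9_integrable ha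
  have h3 : IntegrableOn b (cell L) := bg9_integrable hb
  have h4 : IntegrableOn (fun x => a x * b x) (cell L) := bg9_integrable (ha.mul hb)
  have h5 : IntegrableOn (fun x => b x + a x * b x) (cell L) := h3.add h4
  have h6 : IntegrableOn (fun x => a x + (b x + a x * b x)) (cell L) := h2.add h5
  rw [integral_add h1 h6, integral_add h2 h5, integral_add h3 h4]

theorem int_hh {L : ℝ} [hL : Fact (0 < L)] {φ : ι → E3 → ℝ} {lam : ι → ℝ}
    (hM : Modes L φ lam) (τ : ι → ℂ) (p : (ι → ℝ) × (ι → ℝ)) :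
    ∫ x in cell L, hh τ φ p x = (ov L τ p : ℂ) := by
  classical
  have hc : ∀ i, Continuous (φ i) := fun i => (hM.smooth i).continuous
  have hS : ∀ ξ : ι → ℝ, Continuous fun x => ∑ i, τ i * (ξ i : ℂ) * (φ i x : ℂ) := fun ξ =>
    continuous_finsetSum _ fun i _ => continuous_const.mul (Complex.continuous_ofReal.comp (hc i))
  have hz : ∀ ξ : ι → ℝ, ∫ x in cell L, ∑ i, τ i * (ξ i : ℂ) * (φ i x : ℂ) = 0 := by
    intro ξ
    have hi : ∀ i, IntegrableOn (fun x => τ i * (ξ i : ℂ) * (φ i x : ℂ)) (cell L) := fun i =>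
      bg9_integrable (continuous_const.mul (Complex.continuous_ofReal.comp (hc i)))
    rw [integral_finsetSum _ fun i _ => hi i]
    refine Finset.sum_eq_zero fun i _ => ?_
    rw [integral_const_mul, integral_complex_ofReal, hM.mean i]
    simp
  have hzc : ∫ x in cell L, conj (∑ i, τ i * (p.1 i : ℂ) * (φ i x : ℂ)) = 0 := by
    rw [integral_conj, hz]
    simp
  have hvol : ∫ _x in cell L, (1 : ℂ) = ((L ^ 3 : ℝ) : ℂ) := by
    have hL0 := hL.out
    rw [setIntegral_const, Measure.real, volume_cell hL0, ENNReal.toReal_ofReal (by positivity)]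
    simp
  have e : ∀ x, hh τ φ p x = 1 + (conj (∑ i, τ i * (p.1 i : ℂ) * (φ i x : ℂ)) +
      ((∑ i, τ i * (p.2 i : ℂ) * (φ i x : ℂ)) +
      conj (∑ i, τ i * (p.1 i : ℂ) * (φ i x : ℂ)) * (∑ i, τ i * (p.2 i : ℂ) * (φ i x : ℂ)))) := by
    intro x
    unfold hh fld
    rw [map_add, map_one]
    ring
  have c1 : Continuous fun x => conj (∑ i, τ i * (p.1 i : ℂ) * (φ i x : ℂ)) :=
    Complex.continuous_conj.comp (hS p.1)
  simp_rw [e]
  rw [bg9_split c1 (hS p.2), hzc, hz, hvol, bg9_int_sum τ p hc]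
  have hd : ∀ i, ∑ j, (conj (τ i) * τ j * ((p.1 i : ℂ) * (p.2 j : ℂ))) *
      ((∫ x in cell L, φ i x * φ j x : ℝ) : ℂ) =
      ((‖τ i‖ ^ 2 * (p.1 i * p.2 i) : ℝ) : ℂ) := by
    intro i
    rw [Finset.sum_eq_single i]
    · rw [hM.norm i, bg9_normSq]
      push_cast
      ring
    · intro j _ hj
      rw [hM.orth i j (Ne.symm hj)]
      simp
    · intro h
      exact absurd (Finset.mem_univ i) h
  simp_rw [hd]
  unfold ov
  push_cast
  ring

theorem int_dfld {L : ℝ} [hL : Fact (0 < L)] {φ : ι → E3 → ℝ} {lam : ι → ℝ}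
    (hM : Modes L φ lam) (τ : ι → ℂ) (p : (ι → ℝ) × (ι → ℝ)) :
    ∑ a, ∫ x in cell L, conj (dfld τ φ a p.1 x) * dfld τ φ a p.2 x = (kk τ lam p : ℂ) := by
  classical
  have hc : ∀ a i, Continuous fun x => fderiv ℝ (φ i) x (ea a) := fun a i =>
    bg9_continuous_fderiv hM.smooth i _
  have h1 : ∀ a, ∫ x in cell L, conj (dfld τ φ a p.1 x) * dfld τ φ a p.2 x =
      ∑ i, ∑ j, (conj (τ i) * τ j * ((p.1 i : ℂ) * (p.2 j : ℂ))) *
        ((∫ x in cell L, fderiv ℝ (φ i) x (ea a) * fderiv ℝ (φ j) x (ea a) : ℝ) : ℂ) := fun a =>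
    bg9_int_sum τ p (hc a)
  simp_rw [h1]
  rw [Finset.sum_comm]
  unfold kk
  rw [Complex.ofReal_sum]
  refine Finset.sum_congr rfl fun i _ => ?_
  rw [Finset.sum_comm, Finset.sum_eq_single i]
  · rw [← Finset.mul_sum, ← Complex.ofReal_sum, hM.gradnorm i, bg9_normSq]
    push_cast
    ring
  · intro j _ hj
    rw [← Finset.mul_sum, ← Complex.ofReal_sum, hM.gradorth i j (Ne.symm hj)]
    simp
  · intro h
    exact absurd (Finset.mem_univ i) h

end Pool.Agent.BG
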