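import Pool.Agent.BG.Defs

/-! MP_2d9608_mp, project BG, row BG-8 -/

set_option autoImplicit false

open MeasureTheory ProbabilityTheory H47.SE Filter
open scoped ComplexConjugate Topology ENNReal

noncomputable section

namespace Pool.Agent.BG

variable {ι : Type*} [Fintype ι]

theorem box_prod {N : ℕ} {L : ℝ} (h : Fin N → E3 → ℂ) :
    ∫ x in box (Fin N) L, ∏ j, h j (x j) = ∏ j, ∫ x in cell L, h j x := by
  have h4 : (volume : Measure (Fin N → E3)).restrict (box (Fin N) L) =
      Measure.pi (fun _ => volume.restrict (cell L)) := by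
    rw [volume_pi, box_eq, Measure.restrict_pi_pi]
  rw [h4]
  exact integral_fintype_prod_eq_prod (𝕜 := ℂ) h

/-- the uniform measure on pairs -/
private theorem bg8_unif2 (L : ℝ) :
    (unif L).prod (unif L) = ((ENNReal.ofReal (L ^ 3))⁻¹ * (ENNReal.ofReal (L ^ 3))⁻¹) • cc L := by
  unfold unif cc
  rw [Measure.prod_smul_left, Measure.prod_smul_right, smul_smul]

theorem integrable_cc {L : ℝ} [hL : Fact (0 < L)] {W : E3 → ℝ} (hW : Pot L W) :
    Integrable (fun z : E3 × E3 => W (z.1 - z.2)) (cc L) := by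
  have hi : Integrable W (unif L) := (integrable_unif L W).1 hW.int
  obtain ⟨h1, -⟩ := integrable_diff hW.nonneg hW.meas hW.per hi 0
  simp only [add_zero] at h1
  have h3 : 0 < L ^ 3 := by have := hL.out; positivity
  rw [bg8_unif2, integrable_smul_measure] at h1
  · exact h1
  · simp
  · simp only [ne_eq]
    apply ENNReal.mul_ne_top <;> simp [h3]

theorem integrableOn_pair {L : ℝ} [hL : Fact (0 < L)] {W : E3 → ℝ} (hW : Pot L W) {N : ℕ}
    {k l : Fin N} (hkl : k ≠ l) :
    IntegrableOn (fun x : Fin N → E3 => W (x k - x l)) (box (Fin N) L) := by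
  have hi : Integrable W (unif L) := (integrable_unif L W).1 hW.int
  obtain ⟨h1, -⟩ := integrable_diffN (N := N) hW.nonneg hW.meas hW.per hi 0 hkl
  simp only [add_zero] at h1
  exact (integrable_unifN L _).2 h1

/-- the integral over the box as an expectation -/
private theorem bg8_box {N : ℕ} (L : ℝ) [hL : Fact (0 < L)] (F : (Fin N → E3) → ℂ) :
    ∫ x in box (Fin N) L, F x = ((L : ℂ) ^ 3) ^ N * ∫ x, F x ∂(unifN (Fin N) L) := by
  rw [unifN_eq, integral_smul_measure]
  have h3 : 0 < L ^ 3 := by have := hL.out; positivity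
  have h4 : (((ENNReal.ofReal (L ^ 3))⁻¹) ^ Fintype.card (Fin N)).toReal = ((L ^ 3) ^ N)⁻¹ := by
    rw [ENNReal.toReal_pow, ENNReal.toReal_inv, ENNReal.toReal_ofReal h3.le, inv_pow,
      Fintype.card_fin]
  have hc : ((L : ℂ) ^ 3) ^ N ≠ 0 := by
    have : (L : ℂ) ≠ 0 := by exact_mod_cast hL.out.ne'
    positivity
  rw [h4, Complex.real_smul]
  push_cast
  rw [← mul_assoc, mul_inv_cancel₀ hc, one_mul]

/-- the integral over pairs as an expectation -/
private theorem bg8_cc (L : ℝ) [hL : Fact (0 < L)] (F : E3 × E3 → ℂ) :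
    ∫ z, F z ∂(cc L) = ((L : ℂ) ^ 3) ^ 2 * ∫ z, F z ∂((unif L).prod (unif L)) := by
  rw [bg8_unif2, integral_smul_measure]
  have h3 : 0 < L ^ 3 := by have := hL.out; positivity
  have h4 : ((ENNReal.ofReal (L ^ 3))⁻¹ * (ENNReal.ofReal (L ^ 3))⁻¹).toReal =
      ((L ^ 3) ^ 2)⁻¹ := by
    rw [ENNReal.toReal_mul, ENNReal.toReal_inv, ENNReal.toReal_ofReal h3.le, ← mul_inv, ← sq]
  have hc : ((L : ℂ) ^ 3) ^ 2 ≠ 0 := by
    have : (L : ℂ) ≠ 0 := by exact_mod_cast hL.out.ne'
    positivity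
  rw [h4, Complex.real_smul]
  push_cast
  rw [← mul_assoc, mul_inv_cancel₀ hc, one_mul]

/-- the pair and the other particles are independent -/
private theorem bg8_pair {L : ℝ} [hL : Fact (0 < L)] {W : E3 → ℝ} (hW : Pot L W) {N : ℕ}
    {h : E3 → ℂ} (hc : Continuous h) {k l : Fin N} (hkl : k ≠ l) :
    ∫ x, (W (x k - x l) : ℂ) * ∏ j, h (x j) ∂(unifN (Fin N) L) =
      (∫ z, (W (z.1 - z.2) : ℂ) * (h z.1 * h z.2) ∂((unif L).prod (unif L))) *
        (∫ x, h x ∂(unif L)) ^ (N - 2) := by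
  classical
  let p : Fin N → Prop := fun j => j = k ∨ j = l
  let k' : {j // p j} := ⟨k, Or.inl rfl⟩
  let l' : {j // p j} := ⟨l, Or.inr rfl⟩
  have hkl' : k' ≠ l' := fun h => hkl (congrArg Subtype.val h)
  let A : ({j // p j} → E3) → ℂ := fun y => (W (y k' - y l') : ℂ) * ∏ j, h (y j)
  let B : ({j // ¬ p j} → E3) → ℂ := fun y => ∏ j, h (y j)
  have hmp := measurePreserving_piEquivPiSubtypeProd (fun _ : Fin N => unif L) p
  have h1 : ∫ x, (W (x k - x l) : ℂ) * ∏ j, h (x j) ∂(unifN (Fin N) L) =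
      ∫ z : ({j // p j} → E3) × ({j // ¬ p j} → E3), A z.1 * B z.2
        ∂((Measure.pi fun _ : {j // p j} => unif L).prod
          (Measure.pi fun _ : {j // ¬ p j} => unif L)) := by
    rw [← hmp.integral_comp' (g := fun z : ({j // p j} → E3) × ({j // ¬ p j} → E3) =>
      A z.1 * B z.2)]
    refine integral_congr_ae (Eventually.of_forall fun x => ?_)
    change (W (x k - x l) : ℂ) * ∏ j, h (x j) = ((W (x k - x l) : ℂ) * ∏ j : {j // p j}, h (x j)) *
      ∏ j : {j // ¬ p j}, h (x j)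
    rw [← Fintype.prod_subtype_mul_prod_subtype p (fun j => h (x j)), mul_assoc]
  have h2 : (Finset.univ : Finset {j // p j}) = {k', l'} := by
    ext j
    simp only [Finset.mem_univ, Finset.mem_insert, Finset.mem_singleton, true_iff]
    rcases j.2 with h | h
    · exact Or.inl (Subtype.ext h)
    · exact Or.inr (Subtype.ext h)
  have h3 : ∫ y, A y ∂(Measure.pi fun _ : {j // p j} => unif L) =
      ∫ z, (W (z.1 - z.2) : ℂ) * (h z.1 * h z.2) ∂((unif L).prod (unif L)) := by
    have hmq := mp_pair (fun _ : {j // p j} => unif L) hkl'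
    have hG : AEStronglyMeasurable (fun z : E3 × E3 => (W (z.1 - z.2) : ℂ) * (h z.1 * h z.2))
        ((unif L).prod (unif L)) := by
      refine (Measurable.mul ?_ ?_).aestronglyMeasurable
      · exact Complex.measurable_ofReal.comp (hW.meas.comp (measurable_fst.sub measurable_snd))
      · exact (hc.measurable.comp measurable_fst).mul (hc.measurable.comp measurable_snd)
    rw [← hmq.map_eq, integral_map hmq.measurable.aemeasurable (by rw [hmq.map_eq]; exact hG)]
    refine integral_congr_ae (Eventually.of_forall fun y => ?_)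
    change (W (y k' - y l') : ℂ) * ∏ j, h (y j) = (W (y k' - y l') : ℂ) * (h (y k') * h (y l'))
    rw [h2, Finset.prod_pair hkl']
  have h4 : ∫ y, B y ∂(Measure.pi fun _ : {j // ¬ p j} => unif L) =
      (∫ x, h x ∂(unif L)) ^ (N - 2) := by
    have h5 := integral_fintype_prod_eq_prod (𝕜 := ℂ) (μ := fun _ : {j // ¬ p j} => unif L)
      (fun _ : {j // ¬ p j} => h)
    change ∫ y : {j // ¬ p j} → E3, ∏ j, h (y j) ∂(Measure.pi fun _ : {j // ¬ p j} => unif L) = _
    rw [h5, Finset.prod_const]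
    congr 1
    have h6 : Fintype.card {j // p j} = 2 := by
      change (Finset.univ : Finset {j // p j}).card = 2
      rw [h2, Finset.card_pair hkl']
    rw [Finset.card_univ, Fintype.card_subtype_compl, h6, Fintype.card_fin]
  rw [h1, integral_prod_mul, h3, h4]

theorem pair_box {L : ℝ} [hL : Fact (0 < L)] {W : E3 → ℝ} (hW : Pot L W) {N : ℕ} {h : E3 → ℂ}
    (hc : Continuous h) {C : ℝ} (hb : ∀ x, ‖h x‖ ≤ C) {k l : Fin N} (hkl : k ≠ l) :
    ∫ x in box (Fin N) L, (W (x k - x l) : ℂ) * ∏ j, h (x j) =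
      (∫ z, (W (z.1 - z.2) : ℂ) * (h z.1 * h z.2) ∂(cc L)) *
        (∫ x in cell L, h x) ^ (N - 2) := by
  have hN : 2 ≤ N := by
    have h1 := k.2
    have h2 := l.2
    have h3 : (k : ℕ) ≠ l := fun h => hkl (Fin.ext h)
    omega
  have hu : ∫ x in cell L, h x = (L : ℂ) ^ 3 * ∫ x, h x ∂(unif L) := by
    rw [integral_unif, Complex.real_smul]
    push_cast
    have : (L : ℂ) ≠ 0 := by exact_mod_cast hL.out.ne'
    rw [← mul_assoc, mul_inv_cancel₀ (by positivity), one_mul]
  rw [bg8_box, bg8_pair hW hc hkl, bg8_cc, hu, mul_pow]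
  obtain ⟨M, rfl⟩ : ∃ M, N = M + 2 := ⟨N - 2, by omega⟩
  rw [Nat.add_sub_cancel]
  ring

end Pool.Agent.BG
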