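import Pool.Agent.BG.PsiSum
import Pool.Agent.BG.FubG
import Pool.Agent.BG.PairBox
import Pool.Agent.BG.Overlap

/-! MP_2d9608_mp, project BG, row BG-10 -/

set_option autoImplicit false

open MeasureTheory ProbabilityTheory H47.SE Filter
open scoped ComplexConjugate Topology ENNReal

noncomputable section

namespace Pool.Agent.BG

variable {ι : Type*} [Fintype ι]

theorem bg10_int {F : (ι → ℝ) × (ι → ℝ) → ℂ} (hF : AEStronglyMeasurable F (gg ι)) {A C : ℝ}
    (hb : ∀ p, ‖F p‖ ≤ C * Real.exp (A * (nn p.1 + nn p.2))) : Integrable F (gg ι) := by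
  have h1 : Integrable (fun p : (ι → ℝ) × (ι → ℝ) => Real.exp (A * nn p.1) * Real.exp (A * nn p.2))
      (gg ι) := (integrable_exp_nn A).mul_prod (integrable_exp_nn A)
  refine Integrable.mono' (h1.const_mul C) hF (Eventually.of_forall fun p => ?_)
  refine (hb p).trans (le_of_eq ?_)
  rw [← Real.exp_add, mul_add]

theorem bg10_box {L : ℝ} [hL : Fact (0 < L)] (N : ℕ) : volume (box (Fin N) L) ≠ ∞ := by
  rw [box_eq, volume_pi_pi]
  exact ENNReal.prod_ne_top fun i _ => by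
    rw [volume_cell hL.out]
    exact ENNReal.ofReal_ne_top

theorem bg10_key {L : ℝ} [hL : Fact (0 < L)] {N : ℕ} {f : Fin N → (ι → ℝ) → E3 → ℂ}
    (hf : ∀ j, Continuous fun q : (ι → ℝ) × E3 => f j q.1 q.2) {A : ℝ}
    (hb : ∀ j ξ x, ‖f j ξ x‖ ≤ Real.exp (A * (1 + nn ξ))) :
    ∫ x in box (Fin N) L, ‖∫ ξ, ∏ j, f j ξ (x j) ∂(gm ι)‖ ^ 2 =
      (∫ p, ∏ j, (∫ x in cell L, conj (f j p.1 x) * f j p.2 x) ∂(gg ι)).re := by
  have h1 := norm_sq_integral (L := L) hf hb (G := fun _ => 1)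
    (integrableOn_const (by exact bg10_box N))
  simp only [one_mul, Complex.ofReal_one] at h1
  rw [h1]
  congr 2
  funext p
  exact box_prod (fun j x => conj (f j p.1 x) * f j p.2 x)

/-- continuity and bounds of the products -/
theorem bg10_meas {L : ℝ} [hL : Fact (0 < L)] {f g : (ι → ℝ) → E3 → ℂ}
    (hf : Continuous fun q : (ι → ℝ) × E3 => f q.1 q.2)
    (hg : Continuous fun q : (ι → ℝ) × E3 => g q.1 q.2) :
    StronglyMeasurable fun p : (ι → ℝ) × (ι → ℝ) =>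
      ∫ x in cell L, conj (f p.1 x) * g p.2 x := by
  have h1 : Continuous fun q : ((ι → ℝ) × (ι → ℝ)) × E3 => conj (f q.1.1 q.2) * g q.1.2 q.2 := by
    have h2 : Continuous fun q : ((ι → ℝ) × (ι → ℝ)) × E3 => f q.1.1 q.2 :=
      hf.comp (by fun_prop : Continuous fun q : ((ι → ℝ) × (ι → ℝ)) × E3 => (q.1.1, q.2))
    have h3 : Continuous fun q : ((ι → ℝ) × (ι → ℝ)) × E3 => g q.1.2 q.2 :=
      hg.comp (by fun_prop : Continuous fun q : ((ι → ℝ) × (ι → ℝ)) × E3 => (q.1.2, q.2))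
    exact (Complex.continuous_conj.comp h2).mul h3
  exact h1.stronglyMeasurable.integral_prod_right'

theorem bg10_bd {L : ℝ} [hL : Fact (0 < L)] {f g : (ι → ℝ) → E3 → ℂ} {A : ℝ}
    (hf : ∀ ξ x, ‖f ξ x‖ ≤ Real.exp (A * (1 + nn ξ)))
    (hg : ∀ ξ x, ‖g ξ x‖ ≤ Real.exp (A * (1 + nn ξ))) (p : (ι → ℝ) × (ι → ℝ)) :
    ‖∫ x in cell L, conj (f p.1 x) * g p.2 x‖ ≤
      L ^ 3 * Real.exp (2 * A) * Real.exp (A * (nn p.1 + nn p.2)) := by
  have hv : volume (cell L) < ∞ := by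
    rw [volume_cell hL.out]
    exact ENNReal.ofReal_lt_top
  have h1 : ‖∫ x in cell L, conj (f p.1 x) * g p.2 x‖ ≤
      Real.exp (2 * A) * Real.exp (A * (nn p.1 + nn p.2)) * volume.real (cell L) := by
    refine norm_setIntegral_le_of_norm_le_const hv fun x _ => ?_
    rw [norm_mul, RCLike.norm_conj]
    calc ‖f p.1 x‖ * ‖g p.2 x‖ ≤ Real.exp (A * (1 + nn p.1)) * Real.exp (A * (1 + nn p.2)) :=
          mul_le_mul (hf _ _) (hg _ _) (norm_nonneg _) (Real.exp_pos _).le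
      _ = Real.exp (2 * A) * Real.exp (A * (nn p.1 + nn p.2)) := by
          rw [← Real.exp_add, ← Real.exp_add]
          congr 1
          ring
  refine h1.trans (le_of_eq ?_)
  rw [Measure.real, volume_cell hL.out, ENNReal.toReal_ofReal (pow_nonneg hL.out.le 3)]
  ring

theorem bg10_ov {L : ℝ} [hL : Fact (0 < L)] {φ : ι → E3 → ℝ} {lam : ι → ℝ}
    (hM : Modes L φ lam) (τ : ι → ℂ) {A : ℝ}
    (hA : ∀ ξ x, ‖fld τ φ ξ x‖ ≤ Real.exp (A * (1 + nn ξ))) (k : ℕ)
    (p : (ι → ℝ) × (ι → ℝ)) :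
    ‖(ov L τ p : ℂ) ^ k‖ ≤
      (L ^ 3 * Real.exp (2 * A)) ^ k * Real.exp ((k * A) * (nn p.1 + nn p.2)) := by
  rw [norm_pow]
  have h1 : ‖(ov L τ p : ℂ)‖ ≤ L ^ 3 * Real.exp (2 * A) * Real.exp (A * (nn p.1 + nn p.2)) := by
    rw [← int_hh hM τ p]
    exact bg10_bd hA hA p
  refine (pow_le_pow_left₀ (norm_nonneg _) h1 k).trans (le_of_eq ?_)
  rw [mul_pow, ← Real.exp_nat_mul, mul_assoc (k : ℝ)]

theorem bg10_ovm (L : ℝ) (τ : ι → ℂ) (k : ℕ) :
    Measurable fun p : (ι → ℝ) × (ι → ℝ) => (ov L τ p : ℂ) ^ k := by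
  have h1 : Measurable fun p : (ι → ℝ) × (ι → ℝ) => ov L τ p := by
    unfold ov
    fun_prop
  exact (Complex.measurable_ofReal.comp h1).pow_const k

theorem norm_psi {L : ℝ} [hL : Fact (0 < L)] {φ : ι → E3 → ℝ} {lam : ι → ℝ}
    (hM : Modes L φ lam) (τ : ι → ℂ) (N : ℕ) :
    ∫ x in box (Fin N) L, ‖psi τ φ N x‖ ^ 2 = ∫ p, ov L τ p ^ N ∂(gg ι) := by
  obtain ⟨A, hA0, hA, -⟩ := fld_bound hM τ
  have h1 := bg10_key (L := L) (N := N) (f := fun _ => fld τ φ)
    (fun _ => continuous_fld hM.smooth τ) (fun _ => hA)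
  have h2 : ∀ p : (ι → ℝ) × (ι → ℝ),
      ∏ _j : Fin N, (∫ x in cell L, conj (fld τ φ p.1 x) * fld τ φ p.2 x) =
        ((ov L τ p ^ N : ℝ) : ℂ) := by
    intro p
    rw [Finset.prod_const, Finset.card_univ, Fintype.card_fin]
    have h3 : (∫ x in cell L, conj (fld τ φ p.1 x) * fld τ φ p.2 x) = (ov L τ p : ℂ) :=
      int_hh hM τ p
    rw [h3]
    push_cast
    rfl
  simp only [h2] at h1
  rw [integral_complex_ofReal, Complex.ofReal_re] at h1
  exact h1

theorem kinetic_psi {L : ℝ} [hL : Fact (0 < L)] {φ : ι → E3 → ℝ} {lam : ι → ℝ}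
    (hM : Modes L φ lam) (τ : ι → ℂ) (m : ℝ) (N : ℕ) :
    kinetic m N L (psi τ φ N) =
      1 / (2 * m) * (N * ∫ p, kk τ lam p * ov L τ p ^ (N - 1) ∂(gg ι)) := by
  obtain ⟨A, hA0, hA, hA'⟩ := fld_bound hM τ
  let D : Fin 3 → (ι → ℝ) × (ι → ℝ) → ℂ := fun a p =>
    ∫ x in cell L, conj (dfld τ φ a p.1 x) * dfld τ φ a p.2 x
  have hD : ∀ p, ∑ a, D a p = (kk τ lam p : ℂ) := fun p => int_dfld hM τ p
  have h1 : ∀ (k : Fin N) (a : Fin 3),
      ∫ x in box (Fin N) L, ‖fderiv ℝ (psi τ φ N) x (dirE k a)‖ ^ 2 =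
        (∫ p, D a p * (ov L τ p : ℂ) ^ (N - 1) ∂(gg ι)).re := by
    intro k a
    have e1 := bg10_key (L := L) (N := N)
      (f := fun j ξ x => if j = k then dfld τ φ a ξ x else fld τ φ ξ x)
      (fun j => by
        by_cases hj : j = k
        · simp only [hj, if_true]
          exact continuous_dfld hM.smooth τ a
        · simp only [hj, if_false]
          exact continuous_fld hM.smooth τ)
      (A := A) (fun j ξ x => by
        by_cases hj : j = k
        · simp only [hj, if_true]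
          exact hA' a ξ x
        · simp only [hj, if_false]
          exact hA ξ x)
    simp only [fderiv_psi hM.smooth τ N]
    rw [e1]
    congr 2
    funext p
    have e2 : ∀ j : Fin N, (∫ x in cell L, conj (if j = k then dfld τ φ a p.1 x else
        fld τ φ p.1 x) * (if j = k then dfld τ φ a p.2 x else fld τ φ p.2 x)) =
        if j = k then D a p else (ov L τ p : ℂ) := by
      intro j
      by_cases hj : j = k
      · simp only [hj, if_true]
        rfl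
      · simp only [hj, if_false]
        exact int_hh hM τ p
    simp only [e2]
    rw [← Finset.mul_prod_erase Finset.univ _ (Finset.mem_univ k), if_pos rfl]
    congr 1
    rw [Finset.prod_congr rfl (g := fun _ => (ov L τ p : ℂ))
      (fun j hj => if_neg (Finset.ne_of_mem_erase hj)), Finset.prod_const,
      Finset.card_erase_of_mem (Finset.mem_univ k), Finset.card_univ, Fintype.card_fin]
  have hint : ∀ a, Integrable (fun p => D a p * (ov L τ p : ℂ) ^ (N - 1)) (gg ι) := by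
    intro a
    refine bg10_int (A := A + ((N - 1 : ℕ) : ℝ) * A)
      (C := L ^ 3 * Real.exp (2 * A) * (L ^ 3 * Real.exp (2 * A)) ^ (N - 1)) ?_ fun p => ?_
    · exact ((bg10_meas (continuous_dfld hM.smooth τ a)
        (continuous_dfld hM.smooth τ a)).measurable.mul (bg10_ovm L τ _)).aestronglyMeasurable
    · rw [norm_mul]
      refine (mul_le_mul (bg10_bd (hA' a) (hA' a) p) (bg10_ov hM τ hA (N - 1) p)
        (norm_nonneg _) (by
          have := hL.out
          positivity)).trans (le_of_eq ?_)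
      rw [add_mul, Real.exp_add]
      ring
  have h2 : ∀ k : Fin N, ∑ a, ∫ x in box (Fin N) L, ‖fderiv ℝ (psi τ φ N) x (dirE k a)‖ ^ 2 =
      ∫ p, kk τ lam p * ov L τ p ^ (N - 1) ∂(gg ι) := by
    intro k
    simp only [h1]
    rw [← Complex.re_sum, ← integral_finset_sum _ fun a _ => hint a]
    have e3 : ∀ p, ∑ a, D a p * (ov L τ p : ℂ) ^ (N - 1) =
        ((kk τ lam p * ov L τ p ^ (N - 1) : ℝ) : ℂ) := by
      intro p
      rw [← Finset.sum_mul, hD]
      push_cast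
      rfl
    simp only [e3]
    rw [integral_complex_ofReal, Complex.ofReal_re]
  unfold kinetic
  simp only [h2]
  rw [Finset.sum_const, Finset.card_univ, Fintype.card_fin, nsmul_eq_mul]

theorem bg10_mW {X : Type*} [MeasurableSpace X] {W : E3 → ℝ} (hW : Measurable W) {h : X → E3 → ℂ}
    (hh : Measurable fun q : X × E3 => h q.1 q.2) :
    Measurable fun q : X × (E3 × E3) => (W (q.2.1 - q.2.2) : ℂ) * (h q.1 q.2.1 * h q.1 q.2.2) := by
  have g0 : Measurable fun q : X × (E3 × E3) => q.2.1 - q.2.2 :=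
    (measurable_fst.comp measurable_snd).sub (measurable_snd.comp measurable_snd)
  have g1 : Measurable fun q : X × (E3 × E3) => (q.1, q.2.1) :=
    measurable_fst.prodMk (measurable_fst.comp measurable_snd)
  have g2 : Measurable fun q : X × (E3 × E3) => (q.1, q.2.2) :=
    measurable_fst.prodMk (measurable_snd.comp measurable_snd)
  have m1 : Measurable fun q : X × (E3 × E3) => (W (q.2.1 - q.2.2) : ℂ) :=
    Complex.measurable_ofReal.comp (hW.comp g0)
  have m2 : Measurable fun q : X × (E3 × E3) => h q.1 q.2.1 := hh.comp g1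
  have m3 : Measurable fun q : X × (E3 × E3) => h q.1 q.2.2 := hh.comp g2
  exact m1.mul (m2.mul m3)

theorem bg10_pairs (N : ℕ) (c : ℝ) :
    (∑ p : Fin N × Fin N, if p.1 < p.2 then c else 0) = N * (N - 1) / 2 * c := by
  rw [Fintype.sum_prod_type_right]
  have h1 : ∀ l : Fin N, (∑ k : Fin N, if k < l then c else 0) = (l : ℝ) * c := by
    intro l
    rw [← Finset.sum_filter, Finset.sum_const, nsmul_eq_mul]
    congr 2
    have : Finset.univ.filter (fun k : Fin N => k < l) = Finset.Iio l := by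
      ext k
      simp
    rw [this, Fin.card_Iio]
  simp only [h1]
  rw [← Finset.sum_mul]
  congr 1
  rw [Fin.sum_univ_eq_sum_range (fun i => (i : ℝ)) N]
  have h2 := Finset.sum_range_id_mul_two N
  rcases Nat.eq_zero_or_pos N with h | h
  · subst h
    simp
  · have h3 : ((∑ i ∈ Finset.range N, i : ℕ) : ℝ) * 2 = N * (N - 1) := by
      have h4 := congrArg (fun n : ℕ => (n : ℝ)) h2
      push_cast [Nat.cast_sub h] at h4
      push_cast
      exact h4
    push_cast at h3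
    linarith

theorem bg10_pc {f : (ι → ℝ) → E3 → ℂ} (hf : Continuous fun q : (ι → ℝ) × E3 => f q.1 q.2) :
    Continuous fun q : ((ι → ℝ) × (ι → ℝ)) × E3 => conj (f q.1.1 q.2) * f q.1.2 q.2 := by
  have g1 : Continuous fun q : ((ι → ℝ) × (ι → ℝ)) × E3 => (q.1.1, q.2) :=
    (continuous_fst.comp continuous_fst).prodMk continuous_snd
  have g2 : Continuous fun q : ((ι → ℝ) × (ι → ℝ)) × E3 => (q.1.2, q.2) :=
    (continuous_snd.comp continuous_fst).prodMk continuous_snd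
  have h2 : Continuous fun q : ((ι → ℝ) × (ι → ℝ)) × E3 => f q.1.1 q.2 := hf.comp g1
  have h3 : Continuous fun q : ((ι → ℝ) × (ι → ℝ)) × E3 => f q.1.2 q.2 := hf.comp g2
  exact (Complex.continuous_conj.comp h2).mul h3

theorem bg10_hhc {φ : ι → E3 → ℝ} (hφ : ∀ i, ContDiff ℝ (⊤ : ℕ∞) (φ i)) (τ : ι → ℂ) :
    Continuous fun q : ((ι → ℝ) × (ι → ℝ)) × E3 => hh τ φ q.1 q.2 := by
  simp only [hh]
  exact bg10_pc (continuous_fld hφ τ)

theorem bg10_hhb {φ : ι → E3 → ℝ} {τ : ι → ℂ} {A : ℝ}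
    (hA : ∀ ξ x, ‖fld τ φ ξ x‖ ≤ Real.exp (A * (1 + nn ξ))) (p : (ι → ℝ) × (ι → ℝ)) (x : E3) :
    ‖hh τ φ p x‖ ≤ Real.exp (2 * A) * Real.exp (A * (nn p.1 + nn p.2)) := by
  unfold hh
  rw [norm_mul, RCLike.norm_conj]
  calc ‖fld τ φ p.1 x‖ * ‖fld τ φ p.2 x‖
      ≤ Real.exp (A * (1 + nn p.1)) * Real.exp (A * (1 + nn p.2)) :=
        mul_le_mul (hA _ _) (hA _ _) (norm_nonneg _) (Real.exp_pos _).le
    _ = Real.exp (2 * A) * Real.exp (A * (nn p.1 + nn p.2)) := by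
        rw [← Real.exp_add, ← Real.exp_add]
        congr 1
        ring

theorem bg10_wwb {L : ℝ} [hL : Fact (0 < L)] {φ : ι → E3 → ℝ} {W : E3 → ℝ} (hW : Pot L W)
    {τ : ι → ℂ} {A : ℝ} (hA : ∀ ξ x, ‖fld τ φ ξ x‖ ≤ Real.exp (A * (1 + nn ξ)))
    (p : (ι → ℝ) × (ι → ℝ)) :
    ‖ww W L τ φ p‖ ≤ (∫ z, W (z.1 - z.2) ∂(cc L)) * Real.exp (2 * A) ^ 2 *
      Real.exp (2 * A * (nn p.1 + nn p.2)) := by
  have h0 : ∀ z : E3 × E3, ‖(W (z.1 - z.2) : ℂ) * (hh τ φ p z.1 * hh τ φ p z.2)‖ ≤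
      W (z.1 - z.2) * (Real.exp (2 * A) * Real.exp (A * (nn p.1 + nn p.2))) ^ 2 := by
    intro z
    rw [norm_mul, norm_mul, Complex.norm_real, Real.norm_eq_abs,
      abs_of_nonneg (hW.nonneg _), pow_two]
    exact mul_le_mul_of_nonneg_left (mul_le_mul (bg10_hhb hA _ _) (bg10_hhb hA _ _)
      (norm_nonneg _) (by positivity)) (hW.nonneg _)
  have h1 := norm_integral_le_of_norm_le ((integrable_cc hW).mul_const
    ((Real.exp (2 * A) * Real.exp (A * (nn p.1 + nn p.2))) ^ 2)) (Eventually.of_forall h0)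
  unfold ww
  refine h1.trans (le_of_eq ?_)
  rw [integral_mul_const, mul_pow, ← Real.exp_nat_mul (A * (nn p.1 + nn p.2))]
  push_cast
  rw [show (2 : ℝ) * (A * (nn p.1 + nn p.2)) = 2 * A * (nn p.1 + nn p.2) by ring]
  ring

theorem bg10_wwm (L : ℝ) {φ : ι → E3 → ℝ} (hφ : ∀ i, ContDiff ℝ (⊤ : ℕ∞) (φ i)) {W : E3 → ℝ}
    (hW : Measurable W) (τ : ι → ℂ) : StronglyMeasurable fun p => ww W L τ φ p := by
  have h1 := (bg10_mW hW (bg10_hhc hφ τ).measurable).stronglyMeasurable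
  haveI : SFinite (cc L) := by unfold cc; infer_instance
  exact h1.integral_prod_right' (ν := cc L)

theorem bg10_wwi {L : ℝ} [hL : Fact (0 < L)] {φ : ι → E3 → ℝ} {lam : ι → ℝ}
    (hM : Modes L φ lam) {W : E3 → ℝ} (hW : Pot L W) (τ : ι → ℂ) (k : ℕ) :
    Integrable (fun p => ww W L τ φ p * (ov L τ p : ℂ) ^ k) (gg ι) := by
  obtain ⟨A, hA0, hA, -⟩ := fld_bound hM τ
  refine bg10_int (A := 2 * A + (k : ℝ) * A)
    (C := (∫ z, W (z.1 - z.2) ∂(cc L)) * Real.exp (2 * A) ^ 2 *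
      (L ^ 3 * Real.exp (2 * A)) ^ k) ?_ fun p => ?_
  · exact ((bg10_wwm L hM.smooth hW.meas τ).measurable.mul
      (bg10_ovm L τ k)).aestronglyMeasurable
  · rw [norm_mul]
    have hI : 0 ≤ ∫ z, W (z.1 - z.2) ∂(cc L) := integral_nonneg fun z => hW.nonneg _
    refine (mul_le_mul (bg10_wwb hW hA p) (bg10_ov hM τ hA k p) (norm_nonneg _)
      (by positivity)).trans (le_of_eq ?_)
    rw [add_mul, Real.exp_add]
    ring

theorem bg10_val {L : ℝ} [hL : Fact (0 < L)] {φ : ι → E3 → ℝ} {lam : ι → ℝ}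
    (hM : Modes L φ lam) {W : E3 → ℝ} (hW : Pot L W) (τ : ι → ℂ) {N : ℕ} {k l : Fin N}
    (hkl : k ≠ l) :
    ∫ x in box (Fin N) L, W (x k - x l) * ‖psi τ φ N x‖ ^ 2 =
      ∫ p, (ww W L τ φ p).re * ov L τ p ^ (N - 2) ∂(gg ι) := by
  obtain ⟨A, hA0, hA, -⟩ := fld_bound hM τ
  have e1 := norm_sq_integral (L := L) (N := N) (f := fun _ => fld τ φ)
    (fun _ => continuous_fld hM.smooth τ) (A := A) (fun _ => hA) (integrableOn_pair hW hkl)
  have e2 : ∀ p : (ι → ℝ) × (ι → ℝ), (∫ x in box (Fin N) L, (W (x k - x l) : ℂ) *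
      ∏ j, (conj (fld τ φ p.1 (x j)) * fld τ φ p.2 (x j))) =
      ww W L τ φ p * (ov L τ p : ℂ) ^ (N - 2) := by
    intro p
    have g : Continuous fun x : E3 => (p, x) := Continuous.prodMk_right p
    have hc0 := (bg10_hhc hM.smooth τ).comp g
    have hc : Continuous fun x => hh τ φ p x := by
      simpa only [Function.comp_def] using hc0
    have e3 := pair_box hW hc (bg10_hhb hA p) hkl
    rw [int_hh hM τ p] at e3
    exact e3
  have e5 : (∫ p, (∫ x in box (Fin N) L, (W (x k - x l) : ℂ) *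
      ∏ j, (conj (fld τ φ p.1 (x j)) * fld τ φ p.2 (x j))) ∂(gg ι)) =
      ∫ p, ww W L τ φ p * (ov L τ p : ℂ) ^ (N - 2) ∂(gg ι) := by
    congr 1
    funext p
    exact e2 p
  have e4 := integral_re (bg10_wwi hM hW τ (N - 2))
  have e6 : ∀ p, RCLike.re (ww W L τ φ p * (ov L τ p : ℂ) ^ (N - 2)) =
      (ww W L τ φ p).re * ov L τ p ^ (N - 2) := by
    intro p
    rw [RCLike.re_eq_complex_re, ← Complex.ofReal_pow, Complex.re_mul_ofReal]
  simp only [e6] at e4
  rw [e4, RCLike.re_eq_complex_re, ← e5]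
  exact e1

theorem potential_psi {L : ℝ} [hL : Fact (0 < L)] {φ : ι → E3 → ℝ} {lam : ι → ℝ}
    (hM : Modes L φ lam) {W : E3 → ℝ} (hW : Pot L W) (τ : ι → ℂ) (N : ℕ) :
    potential W N L (psi τ φ N) =
      N * (N - 1) / 2 * ∫ p, (ww W L τ φ p).re * ov L τ p ^ (N - 2) ∂(gg ι) := by
  unfold potential
  rw [← bg10_pairs N]
  refine Finset.sum_congr rfl fun q _ => ?_
  split_ifs with h
  · exact bg10_val hM hW τ h.ne
  · rfl

end Pool.Agent.BG
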