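import Pool.Agent.BG.LimitCC

/-! MP_2d9608_mp, project BG, row BG-20 -/

set_option autoImplicit false

open MeasureTheory ProbabilityTheory H47.SE Filter
open scoped ComplexConjugate Topology ENNReal

noncomputable section

namespace Pool.Agent.BG

/-- damping factor -/
def bg20_r (k : ℕ) : ℝ := 1 - 1 / ((k : ℝ) + 1)

/-- cut-off function -/
def bg20_chi (k : ℕ) (ξ : E3) : ℝ := max 0 (min 1 ((k : ℝ) + 2 - ‖ξ‖))

/-- the approximating functions -/
def bg20_t (t : E3 → ℝ) (k : ℕ) (ξ : E3) : ℝ := bg20_r k * (bg20_chi k ξ * t ξ)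

theorem bg20_r_nonneg (k : ℕ) : 0 ≤ bg20_r k := by
  unfold bg20_r
  have h : (0 : ℝ) < (k : ℝ) + 1 := by positivity
  rw [sub_nonneg, div_le_one h]
  have : (0 : ℝ) ≤ (k : ℝ) := by positivity
  linarith

theorem bg20_r_lt (k : ℕ) : bg20_r k < 1 := by
  unfold bg20_r
  have h : (0 : ℝ) < 1 / ((k : ℝ) + 1) := by positivity
  linarith

theorem bg20_r_tendsto : Tendsto bg20_r atTop (𝓝 1) := by
  have h := (tendsto_one_div_add_atTop_nhds_zero_nat (𝕜 := ℝ)).const_sub 1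
  rw [sub_zero] at h
  exact h

theorem bg20_chi_nonneg (k : ℕ) (ξ : E3) : 0 ≤ bg20_chi k ξ := le_max_left _ _

theorem bg20_chi_le (k : ℕ) (ξ : E3) : bg20_chi k ξ ≤ 1 :=
  max_le zero_le_one (min_le_left _ _)

theorem bg20_chi_zero (k : ℕ) (ξ : E3) (h : (k : ℝ) + 2 ≤ ‖ξ‖) : bg20_chi k ξ = 0 := by
  unfold bg20_chi
  refine max_eq_left ?_
  refine (min_le_right _ _).trans ?_
  linarith

theorem bg20_chi_one (k : ℕ) (ξ : E3) (h : ‖ξ‖ ≤ (k : ℝ) + 1) : bg20_chi k ξ = 1 := by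
  unfold bg20_chi
  have h1 : min (1 : ℝ) ((k : ℝ) + 2 - ‖ξ‖) = 1 := min_eq_left (by linarith)
  rw [h1]
  exact max_eq_right zero_le_one

theorem bg20_chi_cont (k : ℕ) : Continuous (bg20_chi k) := by
  unfold bg20_chi
  fun_prop

theorem bg20_t_cont {t : E3 → ℝ} (htc : Continuous t) (k : ℕ) : Continuous (bg20_t t k) := by
  unfold bg20_t
  exact continuous_const.mul ((bg20_chi_cont k).mul htc)

theorem bg20_t_supp (t : E3 → ℝ) (k : ℕ) : HasCompactSupport (bg20_t t k) := by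
  refine HasCompactSupport.intro (isCompact_closedBall (0 : E3) ((k : ℝ) + 2)) ?_
  intro ξ hξ
  rw [mem_closedBall_zero_iff, not_le] at hξ
  unfold bg20_t
  rw [bg20_chi_zero k ξ hξ.le]
  ring

theorem bg20_t_even {t : E3 → ℝ} (heven : ∀ ξ, t (-ξ) = t ξ) (k : ℕ) (ξ : E3) :
    bg20_t t k (-ξ) = bg20_t t k ξ := by
  unfold bg20_t bg20_chi
  rw [heven, norm_neg]

theorem bg20_t_le (t : E3 → ℝ) (k : ℕ) (ξ : E3) : |bg20_t t k ξ| ≤ bg20_r k * |t ξ| := by
  unfold bg20_t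
  rw [abs_mul, abs_mul, abs_of_nonneg (bg20_r_nonneg k), abs_of_nonneg (bg20_chi_nonneg k ξ)]
  refine mul_le_mul_of_nonneg_left ?_ (bg20_r_nonneg k)
  exact mul_le_of_le_one_left (abs_nonneg _) (bg20_chi_le k ξ)

theorem bg20_t_le' (t : E3 → ℝ) (k : ℕ) (ξ : E3) : |bg20_t t k ξ| ≤ |t ξ| :=
  (bg20_t_le t k ξ).trans (mul_le_of_le_one_left (abs_nonneg _) (bg20_r_lt k).le)

theorem bg20_t_tendsto (t : E3 → ℝ) (ξ : E3) :
    Tendsto (fun k => bg20_t t k ξ) atTop (𝓝 (t ξ)) := by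
  have h1 : Tendsto (fun k => bg20_r k * t ξ) atTop (𝓝 (1 * t ξ)) :=
    bg20_r_tendsto.mul_const _
  rw [one_mul] at h1
  refine h1.congr' ?_
  obtain ⟨k0, hk0⟩ := exists_nat_ge ‖ξ‖
  filter_upwards [eventually_ge_atTop k0] with k hk
  unfold bg20_t
  have h2 : ‖ξ‖ ≤ (k : ℝ) + 1 := by
    have : (k0 : ℝ) ≤ (k : ℝ) := by exact_mod_cast hk
    linarith
  rw [bg20_chi_one k ξ h2, one_mul]

/-- the bound holds everywhere by continuity -/
theorem bg20_abs_le_one {t : E3 → ℝ} (htc : Continuous t) (ht : ∀ ξ, ξ ≠ 0 → |t ξ| < 1)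
    (ξ : E3) : |t ξ| ≤ 1 := by
  have h1 : IsClosed {ξ : E3 | |t ξ| ≤ 1} := isClosed_le htc.abs continuous_const
  have h2 : Dense ({0}ᶜ : Set E3) := dense_compl_singleton 0
  have h3 : closure ({0}ᶜ : Set E3) ⊆ {ξ : E3 | |t ξ| ≤ 1} :=
    closure_minimal (fun ξ hξ => (ht ξ hξ).le) h1
  rw [h2.closure_eq] at h3
  exact h3 (Set.mem_univ ξ)

theorem bg20_gam_nonneg {a : ℝ} (ha : |a| ≤ 1) : 0 ≤ gam a := by
  unfold gam
  have h : a ^ 2 ≤ 1 := by
    rw [← sq_abs]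
    exact pow_le_one₀ (abs_nonneg a) ha
  exact div_nonneg (sq_nonneg a) (by linarith)

theorem bg20_one_sub {b : ℝ} (hb : |b| < 1) : 0 < 1 - b ^ 2 := by
  have h : b ^ 2 < 1 := by
    rw [← sq_abs]
    exact pow_lt_one₀ (abs_nonneg b) hb two_ne_zero
  linarith

theorem bg20_gam_mono {a b : ℝ} (hab : |a| ≤ |b|) (hb : |b| < 1) : gam a ≤ gam b := by
  unfold gam
  have h1 : a ^ 2 ≤ b ^ 2 := sq_le_sq.2 hab
  exact div_le_div₀ (sq_nonneg b) h1 (bg20_one_sub hb) (by linarith)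

theorem bg20_alp_mono {a b : ℝ} (hab : |a| ≤ |b|) (hb : |b| < 1) : |alp a| ≤ |alp b| := by
  unfold alp
  have h1 : a ^ 2 ≤ b ^ 2 := sq_le_sq.2 hab
  have h2 := bg20_one_sub hb
  rw [abs_div, abs_div, abs_neg, abs_neg, abs_of_pos h2,
    abs_of_pos (show 0 < 1 - a ^ 2 by linarith)]
  exact div_le_div₀ (abs_nonneg b) hab h2 (by linarith)

theorem bg20_gam_meas : Measurable gam := by
  unfold gam
  fun_prop

theorem bg20_alp_meas : Measurable alp := by
  unfold alp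
  fun_prop

theorem bg20_lm_meas : Measurable lm := by
  unfold lm
  fun_prop

theorem bg20_gam_cont {b : ℝ} (hb : |b| < 1) : ContinuousAt gam b := by
  unfold gam
  exact ContinuousAt.div (by fun_prop) (by fun_prop) (bg20_one_sub hb).ne'

theorem bg20_alp_cont {b : ℝ} (hb : |b| < 1) : ContinuousAt alp b := by
  unfold alp
  exact ContinuousAt.div (by fun_prop) (by fun_prop) (bg20_one_sub hb).ne'

/-- almost every point is different from zero -/
theorem bg20_ae : ∀ᵐ ξ : E3, ξ ≠ 0 := by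
  have h : ({0}ᶜ : Set E3) ∈ ae (volume : Measure E3) := by
    rw [mem_ae_iff, compl_compl]
    exact measure_singleton 0
  filter_upwards [h] with ξ hξ
  exact hξ

section

variable {t : E3 → ℝ}

theorem bg20_int_gam (htc : Continuous t) (ht : ∀ ξ, ξ ≠ 0 → |t ξ| < 1)
    (hg : Integrable fun ξ => gam (t ξ)) (k : ℕ) : Integrable fun ξ => gam (bg20_t t k ξ) := by
  refine hg.mono' ((bg20_gam_meas.comp (bg20_t_cont htc k).measurable).aestronglyMeasurable) ?_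
  filter_upwards [bg20_ae] with ξ hξ
  rw [Real.norm_of_nonneg (bg20_gam_nonneg ((bg20_t_le' t k ξ).trans (ht ξ hξ).le))]
  exact bg20_gam_mono (bg20_t_le' t k ξ) (ht ξ hξ)

theorem bg20_int_alp (htc : Continuous t) (ht : ∀ ξ, ξ ≠ 0 → |t ξ| < 1)
    (ha : Integrable fun ξ => alp (t ξ)) (k : ℕ) : Integrable fun ξ => alp (bg20_t t k ξ) := by
  refine ha.norm.mono' ((bg20_alp_meas.comp (bg20_t_cont htc k).measurable).aestronglyMeasurable) ?_
  filter_upwards [bg20_ae] with ξ hξ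
  rw [Real.norm_eq_abs, Real.norm_eq_abs]
  exact bg20_alp_mono (bg20_t_le' t k ξ) (ht ξ hξ)

theorem bg20_lim_gam (htc : Continuous t) (ht : ∀ ξ, ξ ≠ 0 → |t ξ| < 1)
    (hg : Integrable fun ξ => gam (t ξ)) :
    Tendsto (fun k => ∫ ξ, gam (bg20_t t k ξ)) atTop (𝓝 (∫ ξ, gam (t ξ))) := by
  refine tendsto_integral_of_dominated_convergence (fun ξ => gam (t ξ))
    (fun k => (bg20_int_gam htc ht hg k).aestronglyMeasurable) hg ?_ ?_
  · intro k
    filter_upwards [bg20_ae] with ξ hξ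
    rw [Real.norm_of_nonneg (bg20_gam_nonneg ((bg20_t_le' t k ξ).trans (ht ξ hξ).le))]
    exact bg20_gam_mono (bg20_t_le' t k ξ) (ht ξ hξ)
  · filter_upwards [bg20_ae] with ξ hξ
    exact (bg20_gam_cont (ht ξ hξ)).tendsto.comp (bg20_t_tendsto t ξ)

theorem bg20_lim_kin (htc : Continuous t) (ht : ∀ ξ, ξ ≠ 0 → |t ξ| < 1)
    (hl : Integrable fun ξ => lm ξ * gam (t ξ)) :
    Tendsto (fun k => ∫ ξ, lm ξ * gam (bg20_t t k ξ)) atTop (𝓝 (∫ ξ, lm ξ * gam (t ξ))) := by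
  have hlm : ∀ ξ, 0 ≤ lm ξ := fun ξ => by unfold lm; positivity
  refine tendsto_integral_of_dominated_convergence (fun ξ => lm ξ * gam (t ξ))
    (fun k => (bg20_lm_meas.mul (bg20_gam_meas.comp
      (bg20_t_cont htc k).measurable)).aestronglyMeasurable) hl ?_ ?_
  · intro k
    filter_upwards [bg20_ae] with ξ hξ
    have h1 := bg20_gam_nonneg ((bg20_t_le' t k ξ).trans (ht ξ hξ).le)
    rw [Real.norm_of_nonneg (mul_nonneg (hlm ξ) h1)]
    exact mul_le_mul_of_nonneg_left (bg20_gam_mono (bg20_t_le' t k ξ) (ht ξ hξ)) (hlm ξ)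
  · filter_upwards [bg20_ae] with ξ hξ
    exact ((bg20_gam_cont (ht ξ hξ)).tendsto.comp (bg20_t_tendsto t ξ)).const_mul _

theorem bg20_lim_ct_gam (htc : Continuous t) (ht : ∀ ξ, ξ ≠ 0 → |t ξ| < 1)
    (hg : Integrable fun ξ => gam (t ξ)) (x : E3) :
    Tendsto (fun k => ct (fun ξ => gam (bg20_t t k ξ)) x) atTop
      (𝓝 (ct (fun ξ => gam (t ξ)) x)) := by
  unfold ct
  refine tendsto_integral_of_dominated_convergence (fun ξ => gam (t ξ)) (fun k => ?_) hg ?_ ?_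
  · refine Measurable.aestronglyMeasurable ?_
    refine Measurable.mul ?_ (bg20_gam_meas.comp (bg20_t_cont htc k).measurable)
    exact (by fun_prop : Continuous fun y : E3 =>
      Real.cos (2 * Real.pi * inner ℝ y x)).measurable
  · intro k
    filter_upwards [bg20_ae] with ξ hξ
    have h1 := bg20_gam_nonneg ((bg20_t_le' t k ξ).trans (ht ξ hξ).le)
    rw [norm_mul, Real.norm_eq_abs, Real.norm_of_nonneg h1]
    exact (mul_le_of_le_one_left h1 (Real.abs_cos_le_one _)).trans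
      (bg20_gam_mono (bg20_t_le' t k ξ) (ht ξ hξ))
  · filter_upwards [bg20_ae] with ξ hξ
    exact ((bg20_gam_cont (ht ξ hξ)).tendsto.comp (bg20_t_tendsto t ξ)).const_mul _

theorem bg20_lim_ct_alp (htc : Continuous t) (ht : ∀ ξ, ξ ≠ 0 → |t ξ| < 1)
    (ha : Integrable fun ξ => alp (t ξ)) (x : E3) :
    Tendsto (fun k => ct (fun ξ => alp (bg20_t t k ξ)) x) atTop
      (𝓝 (ct (fun ξ => alp (t ξ)) x)) := by
  unfold ct
  refine tendsto_integral_of_dominated_convergence (fun ξ => |alp (t ξ)|) (fun k => ?_) ha.abs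
    ?_ ?_
  · refine Measurable.aestronglyMeasurable ?_
    refine Measurable.mul ?_ (bg20_alp_meas.comp (bg20_t_cont htc k).measurable)
    exact (by fun_prop : Continuous fun y : E3 =>
      Real.cos (2 * Real.pi * inner ℝ y x)).measurable
  · intro k
    filter_upwards [bg20_ae] with ξ hξ
    rw [norm_mul, Real.norm_eq_abs, Real.norm_eq_abs]
    exact (mul_le_of_le_one_left (abs_nonneg _) (Real.abs_cos_le_one _)).trans
      (bg20_alp_mono (bg20_t_le' t k ξ) (ht ξ hξ))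
  · filter_upwards [bg20_ae] with ξ hξ
    exact ((bg20_alp_cont (ht ξ hξ)).tendsto.comp (bg20_t_tendsto t ξ)).const_mul _

theorem bg20_ct_gam_le (ht : ∀ ξ, ξ ≠ 0 → |t ξ| < 1)
    (hg : Integrable fun ξ => gam (t ξ)) (htc : Continuous t) (k : ℕ) (x : E3) :
    |ct (fun ξ => gam (bg20_t t k ξ)) x| ≤ ∫ ξ, gam (t ξ) := by
  refine (abs_ct_le (bg20_int_gam htc ht hg k) x).trans ?_
  refine integral_mono_ae (bg20_int_gam htc ht hg k).abs hg ?_
  filter_upwards [bg20_ae] with ξ hξ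
  rw [abs_of_nonneg (bg20_gam_nonneg ((bg20_t_le' t k ξ).trans (ht ξ hξ).le))]
  exact bg20_gam_mono (bg20_t_le' t k ξ) (ht ξ hξ)

theorem bg20_ct_alp_le (ht : ∀ ξ, ξ ≠ 0 → |t ξ| < 1)
    (ha : Integrable fun ξ => alp (t ξ)) (htc : Continuous t) (k : ℕ) (x : E3) :
    |ct (fun ξ => alp (bg20_t t k ξ)) x| ≤ ∫ ξ, |alp (t ξ)| := by
  refine (abs_ct_le (bg20_int_alp htc ht ha k) x).trans ?_
  refine integral_mono_ae (bg20_int_alp htc ht ha k).abs ha.abs ?_
  filter_upwards [bg20_ae] with ξ hξ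
  exact bg20_alp_mono (bg20_t_le' t k ξ) (ht ξ hξ)

theorem bg20_lim_FF {m : ℝ} {w : E3 → ℝ} (hw0 : ∀ x, 0 ≤ w x) (hwm : Measurable w)
    (hwi : Integrable w) (htc : Continuous t) (ht : ∀ ξ, ξ ≠ 0 → |t ξ| < 1)
    (hg : Integrable fun ξ => gam (t ξ)) (ha : Integrable fun ξ => alp (t ξ))
    (hl : Integrable fun ξ => lm ξ * gam (t ξ)) (z : ℝ) :
    Tendsto (fun k => FF m w (bg20_t t k) z) atTop (𝓝 (FF m w t z)) := by
  have hca : ∀ k, Continuous (ct (fun ξ => alp (bg20_t t k ξ))) := fun k =>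
    continuous_ct (bg20_int_alp htc ht ha k)
  have hcg : ∀ k, Continuous (ct (fun ξ => gam (bg20_t t k ξ))) := fun k =>
    continuous_ct (bg20_int_gam htc ht hg k)
  have h1 : Tendsto (fun k => ∫ x, w x * (ct (fun ξ => alp (bg20_t t k ξ)) x +
      ct (fun ξ => gam (bg20_t t k ξ)) x)) atTop (𝓝 (∫ x, w x * (ct (fun ξ => alp (t ξ)) x +
      ct (fun ξ => gam (t ξ)) x))) := by
    refine tendsto_integral_of_dominated_convergence
      (fun x => w x * ((∫ ξ, |alp (t ξ)|) + ∫ ξ, gam (t ξ))) (fun k => ?_) (hwi.mul_const _) ?_ ?_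
    · exact (hwm.mul ((hca k).add (hcg k)).measurable).aestronglyMeasurable
    · intro k
      filter_upwards with x
      rw [norm_mul, Real.norm_of_nonneg (hw0 x), Real.norm_eq_abs]
      refine mul_le_mul_of_nonneg_left ?_ (hw0 x)
      exact (abs_add_le _ _).trans (add_le_add (bg20_ct_alp_le ht ha htc k x)
        (bg20_ct_gam_le ht hg htc k x))
    · filter_upwards with x
      exact ((bg20_lim_ct_alp htc ht ha x).add (bg20_lim_ct_gam htc ht hg x)).const_mul _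
  have h2 : Tendsto (fun k => ∫ x, w x * (ct (fun ξ => alp (bg20_t t k ξ)) x ^ 2 +
      ct (fun ξ => gam (bg20_t t k ξ)) x ^ 2)) atTop
      (𝓝 (∫ x, w x * (ct (fun ξ => alp (t ξ)) x ^ 2 + ct (fun ξ => gam (t ξ)) x ^ 2))) := by
    refine tendsto_integral_of_dominated_convergence
      (fun x => w x * ((∫ ξ, |alp (t ξ)|) ^ 2 + (∫ ξ, gam (t ξ)) ^ 2)) (fun k => ?_)
      (hwi.mul_const _) ?_ ?_
    · exact (hwm.mul (((hca k).pow 2).add ((hcg k).pow 2)).measurable).aestronglyMeasurable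
    · intro k
      filter_upwards with x
      rw [norm_mul, Real.norm_of_nonneg (hw0 x),
        Real.norm_of_nonneg (add_nonneg (sq_nonneg _) (sq_nonneg _))]
      refine mul_le_mul_of_nonneg_left ?_ (hw0 x)
      refine add_le_add ?_ ?_
      · rw [← sq_abs]
        exact pow_le_pow_left₀ (abs_nonneg _) (bg20_ct_alp_le ht ha htc k x) 2
      · rw [← sq_abs]
        exact pow_le_pow_left₀ (abs_nonneg _) (bg20_ct_gam_le ht hg htc k x) 2
    · filter_upwards with x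
      exact (((bg20_lim_ct_alp htc ht ha x).pow 2).add
        ((bg20_lim_ct_gam htc ht hg x).pow 2)).const_mul _
  unfold FF
  refine ((bg20_lim_kin htc ht hl).const_mul _).add ((((?_ : Tendsto _ _ _).add
    (h1.const_mul _)).add h2).const_mul _)
  exact (((bg20_lim_gam htc ht hg).const_add z).pow 2).const_mul _

end

theorem limit_gen {m : ℝ} (hm : 0 < m) {w : E3 → ℝ} (hw0 : ∀ x, 0 ≤ w x) (hwm : Measurable w)
    (hwi : Integrable w) {ρ : ℝ} (hρ : 0 < ρ) {t : E3 → ℝ} (htc : Continuous t)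
    (heven : ∀ ξ, t (-ξ) = t ξ) (ht : ∀ ξ, ξ ≠ 0 → |t ξ| < 1)
    (hg : Integrable fun ξ => gam (t ξ)) (ha : Integrable fun ξ => alp (t ξ))
    (hl : Integrable fun ξ => lm ξ * gam (t ξ)) {z : ℝ}
    (hz : 0 < z) (hρz : ρ < z + ∫ ξ, gam (t ξ)) {E : ℕ → ℝ}
    (hE : ∀ N, 0 < N → E N ≤ groundEnergy m (perPot w (side ρ N)) N (side ρ N)) {e0 : ℝ}
    (he0 : Tendsto (fun N : ℕ => E N / N) atTop (𝓝 e0)) :
    ρ * e0 ≤ FF m w t z := by
  refine ge_of_tendsto (bg20_lim_FF (m := m) hw0 hwm hwi htc ht hg ha hl z) ?_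
  have h1 : Tendsto (fun k => z + ∫ ξ, gam (bg20_t t k ξ)) atTop (𝓝 (z + ∫ ξ, gam (t ξ))) :=
    (bg20_lim_gam htc ht hg).const_add z
  filter_upwards [h1.eventually (lt_mem_nhds hρz)] with k hk
  refine limit_cc hm hw0 hwm hwi hρ (bg20_t_cont htc k) (bg20_t_supp t k) (bg20_t_even heven k)
    (fun ξ => ?_) hz hk hE he0
  refine (bg20_t_le t k ξ).trans_lt ?_
  calc bg20_r k * |t ξ| ≤ bg20_r k * 1 :=
        mul_le_mul_of_nonneg_left (bg20_abs_le_one htc ht ξ) (bg20_r_nonneg k)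
    _ < 1 := by rw [mul_one]; exact bg20_r_lt k

end Pool.Agent.BG
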