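import Pool.Agent.BG.PairBox

/-! MP_2d9608_mp, project BG, row BG-14 -/

set_option autoImplicit false

open MeasureTheory ProbabilityTheory H47.SE Filter
open scoped ComplexConjugate Topology ENNReal

noncomputable section

namespace Pool.Agent.BG

variable {ι : Type*} [Fintype ι]

/-- adding a particle -/
private def bg14_c {N : ℕ} (y : E3) (x : Fin N → E3) : Fin (N + 1) → E3 := Fin.cons y x

private theorem bg14_c_zero {N : ℕ} (y : E3) (x : Fin N → E3) : bg14_c y x 0 = y := rfl

private theorem bg14_c_succ {N : ℕ} (y : E3) (x : Fin N → E3) (j : Fin N) :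
    bg14_c y x j.succ = x j := rfl

/-- the measure on the box of `N + 1` particles -/
private theorem bg14_mp (N : ℕ) (L : ℝ) :
    MeasurePreserving (MeasurableEquiv.piFinSuccAbove (fun _ : Fin (N + 1) => E3) 0)
      ((volume : Measure (Fin (N + 1) → E3)).restrict (box (Fin (N + 1)) L))
      (((volume : Measure E3).restrict (cell L)).prod
        ((volume : Measure (Fin N → E3)).restrict (box (Fin N) L))) := by
  have h1 : ∀ M : ℕ, (volume : Measure (Fin M → E3)).restrict (box (Fin M) L) =
      Measure.pi (fun _ => volume.restrict (cell L)) := by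
    intro M
    rw [volume_pi, box_eq, Measure.restrict_pi_pi]
  rw [h1, h1]
  exact measurePreserving_piFinSuccAbove (fun _ : Fin (N + 1) => volume.restrict (cell L)) 0

private theorem bg14_int {N : ℕ} {L : ℝ} {F : (Fin (N + 1) → E3) → ℝ}
    (hF : IntegrableOn F (box (Fin (N + 1)) L)) :
    Integrable (fun z : E3 × (Fin N → E3) => F (bg14_c z.1 z.2))
      (((volume : Measure E3).restrict (cell L)).prod
        ((volume : Measure (Fin N → E3)).restrict (box (Fin N) L))) := by
  have h := (bg14_mp N L).symm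
  have h2 := (h.integrable_comp_emb
    (MeasurableEquiv.piFinSuccAbove (fun _ : Fin (N + 1) => E3) 0).symm.measurableEmbedding
    (g := F)).2 hF
  refine h2.congr (Eventually.of_forall fun z => ?_)
  simp only [Function.comp]
  congr 1
  ext i : 1
  refine Fin.cases ?_ (fun j => ?_) i <;> rfl

private theorem bg14_fub {N : ℕ} {L : ℝ} {F : (Fin (N + 1) → E3) → ℝ}
    (hF : IntegrableOn F (box (Fin (N + 1)) L)) :
    ∫ x in box (Fin (N + 1)) L, F x =
      ∫ y in cell L, ∫ x in box (Fin N) L, F (bg14_c y x) := by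
  have h1 := (bg14_mp N L).integral_comp'
    (g := fun z : E3 × (Fin N → E3) => F (bg14_c z.1 z.2))
  rw [integral_prod _ (bg14_int hF)] at h1
  rw [← h1]
  refine integral_congr_ae (Eventually.of_forall fun x => ?_)
  simp only
  congr 1
  ext i : 1
  refine Fin.cases ?_ (fun j => ?_) i <;> rfl

private theorem bg14_cont {N : ℕ} {L : ℝ} [hL : Fact (0 < L)] {g : (Fin N → E3) → ℝ}
    (hg : Continuous g) : IntegrableOn g (box (Fin N) L) := by
  rw [integrable_unifN]
  obtain ⟨C, -, hC⟩ := exists_bound_box (L := L) _ hg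
  refine Integrable.mono' (integrable_const C) hg.aestronglyMeasurable ?_
  filter_upwards [ae_mem_box] with x hx using hC x hx

private theorem bg14_potint {N : ℕ} {L : ℝ} [hL : Fact (0 < L)] {W : E3 → ℝ} (hW : Pot L W)
    {g : (Fin N → E3) → ℝ} (hg : Continuous g) {k l : Fin N} (hkl : k ≠ l) :
    IntegrableOn (fun x : Fin N → E3 => W (x k - x l) * g x) (box (Fin N) L) := by
  obtain ⟨C, -, hC⟩ := exists_bound_box (L := L) _ hg
  refine (integrableOn_pair hW hkl).mul_bdd (c := C) hg.aestronglyMeasurable ?_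
  filter_upwards [ae_restrict_mem (measurableSet_box L)] with x hx using hC x hx

/-- the linear part -/
private def bg14_l (N : ℕ) : (Fin N → E3) →L[ℝ] (Fin (N + 1) → E3) :=
  ContinuousLinearMap.pi (fun i => Fin.cases 0 (fun j => ContinuousLinearMap.proj j) i)

private theorem bg14_l_zero {N : ℕ} (x : Fin N → E3) : bg14_l N x 0 = 0 := rfl

private theorem bg14_l_succ {N : ℕ} (x : Fin N → E3) (j : Fin N) :
    bg14_l N x j.succ = x j := rfl

private theorem bg14_eq {N : ℕ} (y : E3) (x : Fin N → E3) :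
    bg14_c y x = bg14_c y 0 + bg14_l N x := by
  ext i : 1
  refine Fin.cases ?_ (fun j => ?_) i
  · rw [Pi.add_apply, bg14_c_zero, bg14_c_zero, bg14_l_zero, add_zero]
  · rw [Pi.add_apply, bg14_c_succ, bg14_c_succ, bg14_l_succ, Pi.zero_apply, zero_add]

private theorem bg14_l_dir {N : ℕ} (j : Fin N) (a : Fin 3) :
    bg14_l N (dirE j a) = dirE j.succ a := by
  ext i : 1
  refine Fin.cases ?_ (fun k => ?_) i
  · rw [bg14_l_zero, dirE, Pi.single_eq_of_ne (Fin.succ_ne_zero j).symm]
  · rw [bg14_l_succ, dirE, dirE]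
    by_cases h : k = j
    · subst h
      rw [Pi.single_eq_same, Pi.single_eq_same]
    · rw [Pi.single_eq_of_ne h, Pi.single_eq_of_ne (fun h2 => h (Fin.succ_injective _ h2))]

private theorem bg14_contDiff {N : ℕ} (y : E3) :
    ContDiff ℝ (⊤ : ℕ∞) (fun x : Fin N → E3 => bg14_c y x) := by
  have : (fun x : Fin N → E3 => bg14_c y x) = fun x => bg14_c y 0 + bg14_l N x := by
    funext x
    exact bg14_eq y x
  rw [this]
  exact contDiff_const.add (bg14_l N).contDiff

private theorem bg14_hasF {N : ℕ} (y : E3) (x : Fin N → E3) :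
    HasFDerivAt (fun x : Fin N → E3 => bg14_c y x) (bg14_l N) x := by
  have : (fun x : Fin N → E3 => bg14_c y x) = fun x => bg14_c y 0 + bg14_l N x := by
    funext x
    exact bg14_eq y x
  rw [this]
  exact ((bg14_l N).hasFDerivAt).const_add _

private theorem bg14_fderiv {N : ℕ} {ψ : (Fin (N + 1) → E3) → ℂ} (hψ : ContDiff ℝ (⊤ : ℕ∞) ψ)
    (y : E3) (x : Fin N → E3) (j : Fin N) (a : Fin 3) :
    fderiv ℝ (fun x => ψ (bg14_c y x)) x (dirE j a) =
      fderiv ℝ ψ (bg14_c y x) (dirE j.succ a) := by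
  have h1 : HasFDerivAt ψ (fderiv ℝ ψ (bg14_c y x)) (bg14_c y x) :=
    (hψ.differentiable (by simp)).differentiableAt.hasFDerivAt
  have h2 := h1.comp x (bg14_hasF y x)
  have h3 : fderiv ℝ (fun x => ψ (bg14_c y x)) x =
      (fderiv ℝ ψ (bg14_c y x)).comp (bg14_l N) := h2.fderiv
  rw [h3, ContinuousLinearMap.comp_apply, bg14_l_dir]

/-- the inequality for one slice -/
private theorem bg14_slice {N : ℕ} {L : ℝ} {m : ℝ} (hm : 0 < m) {W : E3 → ℝ}
    (hW : Pot L W) {ψ : (Fin (N + 1) → E3) → ℂ} (hψ : IsTrial (N + 1) L ψ) (y : E3) :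
    groundEnergy m W N L * (∫ x in box (Fin N) L, ‖ψ (bg14_c y x)‖ ^ 2) ≤
      kinetic m N L (fun x => ψ (bg14_c y x)) + potential W N L (fun x => ψ (bg14_c y x)) := by
  by_cases h : 0 < ∫ x in box (Fin N) L, ‖ψ (bg14_c y x)‖ ^ 2
  · refine groundEnergy_le hm hW.nonneg (ψ := fun x => ψ (bg14_c y x)) ⟨?_, ?_, h⟩
    · exact hψ.smooth.comp (bg14_contDiff y)
    · intro x n
      have h1 := hψ.periodic (bg14_c y x) (Fin.cons 0 n)
      simp only
      rw [← h1]
      congr 1
      ext i : 1
      refine Fin.cases ?_ (fun j => ?_) i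
      · have h2 : latt L 0 = 0 := by
          ext a
          simp
        rw [bg14_c_zero, bg14_c_zero, Fin.cons_zero, h2, add_zero]
      · rw [bg14_c_succ, bg14_c_succ, Fin.cons_succ]
  · have h0 : ∫ x in box (Fin N) L, ‖ψ (bg14_c y x)‖ ^ 2 = 0 :=
      le_antisymm (not_lt.1 h) (integral_nonneg fun x => by positivity)
    rw [h0, mul_zero]
    apply add_nonneg
    · unfold kinetic
      apply mul_nonneg (by positivity)
      apply Finset.sum_nonneg; intro i _
      apply Finset.sum_nonneg; intro a _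
      exact integral_nonneg fun x => by positivity
    · unfold potential
      apply Finset.sum_nonneg; intro p _
      split_ifs
      · exact integral_nonneg fun x => mul_nonneg (hW.nonneg _) (by positivity)
      · exact le_refl _

private theorem bg14_intcell {N : ℕ} {L : ℝ} {F : (Fin (N + 1) → E3) → ℝ}
    (hF : IntegrableOn F (box (Fin (N + 1)) L)) :
    IntegrableOn (fun y => ∫ x in box (Fin N) L, F (bg14_c y x)) (cell L) :=
  (bg14_int hF).integral_prod_left

private theorem bg14_kin {N : ℕ} {L : ℝ} [hL : Fact (0 < L)] {m : ℝ} (hm : 0 < m)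
    {ψ : (Fin (N + 1) → E3) → ℂ} (hψ : IsTrial (N + 1) L ψ) :
    IntegrableOn (fun y => kinetic m N L (fun x => ψ (bg14_c y x))) (cell L) ∧
    ∫ y in cell L, kinetic m N L (fun x => ψ (bg14_c y x)) ≤ kinetic m (N + 1) L ψ := by
  have hc : ∀ i : Fin (N + 1), ∀ a : Fin 3,
      Continuous (fun x => ‖fderiv ℝ ψ x (dirE i a)‖ ^ 2) := by
    intro i a
    have h1 : Continuous (fderiv ℝ ψ) := hψ.smooth.continuous_fderiv (by simp)
    exact ((h1.clm_apply continuous_const).norm).pow 2
  have hi : ∀ i : Fin (N + 1), ∀ a : Fin 3,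
      IntegrableOn (fun x => ‖fderiv ℝ ψ x (dirE i a)‖ ^ 2) (box (Fin (N + 1)) L) :=
    fun i a => bg14_cont (hc i a)
  have he : (fun y => kinetic m N L (fun x => ψ (bg14_c y x))) = fun y => 1 / (2 * m) *
      ∑ j : Fin N, ∑ a : Fin 3, ∫ x in box (Fin N) L,
        ‖fderiv ℝ ψ (bg14_c y x) (dirE j.succ a)‖ ^ 2 := by
    funext y
    unfold kinetic
    simp only [bg14_fderiv hψ.smooth]
  have hj : ∀ j : Fin N, ∀ a : Fin 3, IntegrableOn (fun y => ∫ x in box (Fin N) L,
        ‖fderiv ℝ ψ (bg14_c y x) (dirE j.succ a)‖ ^ 2) (cell L) :=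
    fun j a => bg14_intcell (hi j.succ a)
  rw [he]
  constructor
  · apply Integrable.const_mul
    apply integrable_finsetSum; intro j _
    apply integrable_finsetSum; intro a _
    exact hj j a
  · rw [integral_const_mul, integral_finsetSum _ fun j _ => integrable_finsetSum _ fun a _ => hj j a]
    unfold kinetic
    apply mul_le_mul_of_nonneg_left _ (by positivity)
    rw [Fin.sum_univ_succ]
    refine le_add_of_nonneg_of_le (Finset.sum_nonneg fun a _ =>
      integral_nonneg fun x => by positivity) (le_of_eq ?_)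
    refine Finset.sum_congr rfl fun j _ => ?_
    rw [integral_finsetSum _ fun a _ => hj j a]
    refine Finset.sum_congr rfl fun a _ => ?_
    rw [bg14_fub (hi j.succ a)]

private theorem bg14_pot {N : ℕ} {L : ℝ} [hL : Fact (0 < L)] {W : E3 → ℝ} (hW : Pot L W)
    {ψ : (Fin (N + 1) → E3) → ℂ} (hψ : IsTrial (N + 1) L ψ) :
    IntegrableOn (fun y => potential W N L (fun x => ψ (bg14_c y x))) (cell L) ∧
    ∫ y in cell L, potential W N L (fun x => ψ (bg14_c y x)) ≤ potential W (N + 1) L ψ := by
  have hc : Continuous (fun x => ‖ψ x‖ ^ 2) := (hψ.smooth.continuous.norm).pow 2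
  have hj : ∀ p : Fin N × Fin N, IntegrableOn (fun y => if p.1 < p.2 then
      ∫ x in box (Fin N) L, W (x p.1 - x p.2) * ‖ψ (bg14_c y x)‖ ^ 2 else 0) (cell L) := by
    intro p
    split_ifs with h
    · exact bg14_intcell (bg14_potint hW hc (k := p.1.succ) (l := p.2.succ)
        (fun h2 => h.ne (Fin.succ_injective _ h2)))
    · exact integrable_zero _ _ _
  unfold potential
  constructor
  · apply integrable_finsetSum; intro p _
    exact hj p
  · rw [integral_finsetSum _ fun p _ => hj p, Fintype.sum_prod_type, Fintype.sum_prod_type]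
    have h0 : ∀ i j : Fin (N + 1), 0 ≤ (if i < j then
        ∫ x in box (Fin (N + 1)) L, W (x i - x j) * ‖ψ x‖ ^ 2 else 0) := by
      intro i j
      split_ifs
      · exact integral_nonneg fun x => mul_nonneg (hW.nonneg _) (by positivity)
      · exact le_refl _
    rw [Fin.sum_univ_succ (f := fun i : Fin (N + 1) => ∑ j, _)]
    refine le_add_of_nonneg_of_le (Finset.sum_nonneg fun j _ => h0 0 j) ?_
    refine Finset.sum_le_sum fun i _ => ?_
    rw [Fin.sum_univ_succ]
    refine le_add_of_nonneg_of_le (h0 _ _) (le_of_eq ?_)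
    refine Finset.sum_congr rfl fun j _ => ?_
    simp only [Fin.succ_lt_succ_iff]
    split_ifs with h
    · rw [bg14_fub (bg14_potint hW hc (k := i.succ) (l := j.succ)
        (fun h2 => h.ne (Fin.succ_injective _ h2)))]
      rfl
    · simp

theorem groundEnergy_succ {L : ℝ} [hL : Fact (0 < L)] {m : ℝ} (hm : 0 < m) {W : E3 → ℝ}
    (hW : Pot L W) (N : ℕ) : groundEnergy m W N L ≤ groundEnergy m W (N + 1) L := by
  unfold groundEnergy
  apply le_csInf
  · refine ⟨_, fun _ => 1, ?_, rfl⟩
    refine ⟨contDiff_const, fun x n => rfl, ?_⟩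
    have h3 : 0 < (L ^ 3) ^ Fintype.card (Fin (N + 1)) := by have := hL.out; positivity
    have h4 := integral_unifN (ι := Fin (N + 1)) L (fun _ => ‖(1 : ℂ)‖ ^ 2)
    rw [h4]
    simp only [norm_one, one_pow, integral_const, probReal_univ, one_smul, mul_one]
    exact h3
  · rintro r ⟨ψ, hψ, rfl⟩
    change groundEnergy m W N L ≤ _
    rw [le_div_iff₀ hψ.pos]
    have hc : Continuous (fun x => ‖ψ x‖ ^ 2) := (hψ.smooth.continuous.norm).pow 2
    obtain ⟨k1, k2⟩ := bg14_kin hm hψ
    obtain ⟨p1, p2⟩ := bg14_pot hW hψ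
    calc groundEnergy m W N L * ∫ x in box (Fin (N + 1)) L, ‖ψ x‖ ^ 2
        = ∫ y in cell L, groundEnergy m W N L * ∫ x in box (Fin N) L, ‖ψ (bg14_c y x)‖ ^ 2 := by
          rw [integral_const_mul, bg14_fub (bg14_cont hc)]
      _ ≤ ∫ y in cell L, (kinetic m N L (fun x => ψ (bg14_c y x)) +
            potential W N L (fun x => ψ (bg14_c y x))) := by
          refine integral_mono ((bg14_intcell (bg14_cont hc)).const_mul _) (k1.add p1) fun y => ?_
          exact bg14_slice hm hW hψ y
      _ = (∫ y in cell L, kinetic m N L (fun x => ψ (bg14_c y x))) +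
            ∫ y in cell L, potential W N L (fun x => ψ (bg14_c y x)) := integral_add k1 p1
      _ ≤ _ := add_le_add k2 p2

end Pool.Agent.BG
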