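import Pool.Agent.BG.Defs

/-! MP_2d9608_mp, project BG, row BG-1: integrability of exponentials for Gaussian vectors -/

set_option autoImplicit false

open MeasureTheory ProbabilityTheory H47.SE Filter
open scoped ComplexConjugate Topology ENNReal

noncomputable section

namespace Pool.Agent.BG

variable {ι : Type*} [Fintype ι]

private theorem bg1_abs (A : ℝ) :
    Integrable (fun x : ℝ => Real.exp (A * |x|)) (gaussianReal 0 1) :=
  integrable_exp_mul_abs (X := fun x : ℝ => x) (integrable_exp_mul_gaussianReal A)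
    (integrable_exp_mul_gaussianReal (-A))

private theorem bg1_nn (A : ℝ) (ξ : ι → ℝ) :
    Real.exp (A * nn ξ) = ∏ i, Real.exp (A * |ξ i|) := by
  unfold nn
  rw [Finset.mul_sum, Real.exp_sum]

theorem integrable_exp_nn (A : ℝ) :
    Integrable (fun ξ : ι → ℝ => Real.exp (A * nn ξ)) (gm ι) := by
  simp only [bg1_nn]
  exact Integrable.fintype_prod (f := fun (_ : ι) (x : ℝ) => Real.exp (A * |x|))
    fun _ => bg1_abs A

private theorem bg1_one (A : ℝ) {c : ℝ} (hc : c < 1) :
    Integrable (fun x : ℝ => Real.exp (A * |x| + c * x ^ 2 / 2)) (gaussianReal 0 1) := by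
  rw [gaussianReal_of_var_ne_zero 0 one_ne_zero,
    integrable_withDensity_iff_integrable_smul' (measurable_gaussianPDF 0 1)
      (ae_of_all _ fun x => gaussianPDF_lt_top)]
  have hd : 0 < (1 - c) / 4 := by linarith
  have h1 := (integrable_exp_neg_mul_sq hd).const_mul
    ((√(2 * Real.pi * ((1 : NNReal) : ℝ)))⁻¹ * Real.exp (A ^ 2 / (1 - c)))
  refine h1.mono' ?_ (ae_of_all _ fun x => ?_)
  · have h2 : Measurable (fun x : ℝ => (gaussianPDF 0 1 x).toReal •
        Real.exp (A * |x| + c * x ^ 2 / 2)) := by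
      refine ((measurable_gaussianPDF 0 1).ennreal_toReal).smul ?_
      fun_prop
    exact h2.aestronglyMeasurable
  · have h3 : (gaussianPDF 0 1 x).toReal = gaussianPDFReal 0 1 x := toReal_gaussianPDF x
    rw [h3, norm_smul, Real.norm_of_nonneg (gaussianPDFReal_nonneg 0 1 x),
      Real.norm_of_nonneg (Real.exp_nonneg _)]
    unfold gaussianPDFReal
    rw [mul_assoc (√(2 * Real.pi * ((1 : NNReal) : ℝ)))⁻¹ (Real.exp (-(x - 0) ^ 2 / _)),
      mul_assoc (√(2 * Real.pi * ((1 : NNReal) : ℝ)))⁻¹ (Real.exp (A ^ 2 / (1 - c))),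
      ← Real.exp_add, ← Real.exp_add]
    refine mul_le_mul_of_nonneg_left ?_ (by positivity)
    refine Real.exp_le_exp.2 ?_
    have h4 : A * |x| ≤ (1 - c) / 4 * x ^ 2 + A ^ 2 / (1 - c) := by
      have h5 : 0 ≤ ((1 - c) * |x| / 2 - A) ^ 2 / (1 - c) :=
        div_nonneg (sq_nonneg _) (by linarith)
      have h6 : ((1 - c) * |x| / 2 - A) ^ 2 / (1 - c) =
          (1 - c) / 4 * |x| ^ 2 + A ^ 2 / (1 - c) - A * |x| := by
        have h7 : (1 - c) ≠ 0 := by linarith
        field_simp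
        ring
      rw [h6, sq_abs] at h5
      linarith
    have h8 : -(x - 0) ^ 2 / (2 * ((1 : NNReal) : ℝ)) = -(x ^ 2) / 2 := by
      simp
    rw [h8]
    linarith

theorem integrable_exp_pair {c : ι → ℝ} (hc0 : ∀ i, 0 ≤ c i) (hc1 : ∀ i, c i < 1) (A : ℝ) :
    Integrable (fun p : (ι → ℝ) × (ι → ℝ) =>
      Real.exp (A * (nn p.1 + nn p.2) + ∑ i, c i * |p.1 i * p.2 i|)) (gg ι) := by
  have h1 : Integrable (fun ξ : ι → ℝ => ∏ i, Real.exp (A * |ξ i| + c i * ξ i ^ 2 / 2)) (gm ι) :=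
    Integrable.fintype_prod (f := fun (i : ι) (x : ℝ) => Real.exp (A * |x| + c i * x ^ 2 / 2))
      fun i => bg1_one A (hc1 i)
  have h2 := h1.mul_prod h1
  refine h2.mono' ?_ (ae_of_all _ fun p => ?_)
  · refine Measurable.aestronglyMeasurable ?_
    unfold nn
    fun_prop
  · rw [Real.norm_of_nonneg (Real.exp_nonneg _), ← Real.exp_sum, ← Real.exp_sum, ← Real.exp_add]
    refine Real.exp_le_exp.2 ?_
    unfold nn
    rw [mul_add, Finset.mul_sum, Finset.mul_sum, ← Finset.sum_add_distrib, ← Finset.sum_add_distrib,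
      ← Finset.sum_add_distrib]
    refine Finset.sum_le_sum fun i _ => ?_
    have h3 : |p.1 i * p.2 i| ≤ (p.1 i ^ 2 + p.2 i ^ 2) / 2 := by
      rw [abs_mul]
      nlinarith [sq_nonneg (|p.1 i| - |p.2 i|), sq_abs (p.1 i), sq_abs (p.2 i)]
    have h4 := mul_le_mul_of_nonneg_left h3 (hc0 i)
    linarith

theorem integrable_wt_mul {c : ι → ℝ} (hc : ∀ i, |c i| < 1) {f : (ι → ℝ) × (ι → ℝ) → ℂ}
    (hf : Measurable f) {A C : ℝ} (hb : ∀ p, ‖f p‖ ≤ C * Real.exp (A * (nn p.1 + nn p.2))) :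
    Integrable (fun p => (wt c p : ℂ) * f p) (gg ι) := by
  have h1 := (integrable_exp_pair (c := fun i => |c i|) (fun i => abs_nonneg _) hc A).const_mul C
  refine h1.mono' ?_ (ae_of_all _ fun p => ?_)
  · have h2 : Measurable (fun p : (ι → ℝ) × (ι → ℝ) => wt c p) := by
      unfold wt
      fun_prop
    exact ((Complex.measurable_ofReal.comp h2).mul hf).aestronglyMeasurable
  · have h0 : 0 ≤ wt c p := Real.exp_nonneg _
    rw [norm_mul, Complex.norm_real, Real.norm_of_nonneg h0]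
    have h3 : wt c p ≤ Real.exp (∑ i, |c i| * |p.1 i * p.2 i|) := by
      unfold wt
      refine Real.exp_le_exp.2 (Finset.sum_le_sum fun i _ => ?_)
      rw [← abs_mul]
      exact le_abs_self _
    have h4 : 0 ≤ C * Real.exp (A * (nn p.1 + nn p.2)) := (norm_nonneg _).trans (hb p)
    calc wt c p * ‖f p‖ ≤ Real.exp (∑ i, |c i| * |p.1 i * p.2 i|) *
          (C * Real.exp (A * (nn p.1 + nn p.2))) :=
          mul_le_mul h3 (hb p) (norm_nonneg _) (Real.exp_nonneg _)
      _ = C * Real.exp (A * (nn p.1 + nn p.2) + ∑ i, |c i| * |p.1 i * p.2 i|) := by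
          rw [Real.exp_add]
          ring

end Pool.Agent.BG
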