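import Pool.Agent.BG.TiltWick
import Pool.Agent.BG.Gauss

/-! MP_2d9608_mp, project BG, row BG-5 -/

set_option autoImplicit false

open MeasureTheory ProbabilityTheory H47.SE Filter
open scoped ComplexConjugate Topology ENNReal

noncomputable section

namespace Pool.Agent.BG

variable {ι : Type*} [Fintype ι]

/-! ### integrability of polynomials -/

/-- measurable functions of at most exponential growth -/
private def bg5_good (f : (ι → ℝ) × (ι → ℝ) → ℂ) : Prop :=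
  Measurable f ∧ ∃ A C : ℝ, 0 ≤ A ∧ 0 ≤ C ∧ ∀ p, ‖f p‖ ≤ C * Real.exp (A * (nn p.1 + nn p.2))

private theorem bg5_nn (ξ : ι → ℝ) : 0 ≤ nn ξ := Finset.sum_nonneg fun _ _ => abs_nonneg _

private theorem bg5_good_one : bg5_good (fun _ : (ι → ℝ) × (ι → ℝ) => (1 : ℂ)) :=
  ⟨measurable_const, 0, 1, le_rfl, zero_le_one, fun p => by simp⟩

private theorem bg5_good_mul {f g : (ι → ℝ) × (ι → ℝ) → ℂ} (hf : bg5_good f) (hg : bg5_good g) :
    bg5_good (fun p => f p * g p) := by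
  obtain ⟨mf, A, C, hA, hC, h⟩ := hf
  obtain ⟨mg, B, D, hB, hD, k⟩ := hg
  refine ⟨mf.mul mg, A + B, C * D, by positivity, by positivity, fun p => ?_⟩
  rw [norm_mul]
  calc ‖f p‖ * ‖g p‖ ≤ (C * Real.exp (A * (nn p.1 + nn p.2))) *
        (D * Real.exp (B * (nn p.1 + nn p.2))) :=
        mul_le_mul (h p) (k p) (norm_nonneg _) (by positivity)
    _ = C * D * Real.exp ((A + B) * (nn p.1 + nn p.2)) := by
        rw [add_mul A B, Real.exp_add]
        ring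

private theorem bg5_good_lf (a : ι ⊕ ι → ℂ) : bg5_good (lf a) := by
  refine ⟨?_, 1, ∑ i, (‖a (Sum.inl i)‖ + ‖a (Sum.inr i)‖), zero_le_one,
    Finset.sum_nonneg fun _ _ => by positivity, fun p => ?_⟩
  · unfold lf
    fun_prop
  · unfold lf
    rw [Finset.sum_mul]
    refine (norm_sum_le _ _).trans (Finset.sum_le_sum fun i _ => ?_)
    have h1 : |p.1 i| ≤ nn p.1 :=
      Finset.single_le_sum (f := fun i => |p.1 i|) (fun _ _ => abs_nonneg _) (Finset.mem_univ i)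
    have h2 : |p.2 i| ≤ nn p.2 :=
      Finset.single_le_sum (f := fun i => |p.2 i|) (fun _ _ => abs_nonneg _) (Finset.mem_univ i)
    have h3 := bg5_nn p.1
    have h4 := bg5_nn p.2
    have h5 := Real.add_one_le_exp (1 * (nn p.1 + nn p.2))
    refine (norm_add_le _ _).trans ?_
    rw [norm_mul, norm_mul, Complex.norm_real, Complex.norm_real, Real.norm_eq_abs,
      Real.norm_eq_abs, add_mul]
    refine add_le_add (mul_le_mul_of_nonneg_left ?_ (norm_nonneg _))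
      (mul_le_mul_of_nonneg_left ?_ (norm_nonneg _)) <;> linarith

/-! ### expectations -/

/-- the weighted integral of `f` exists and is `v` -/
private structure bg5_I (c : ι → ℝ) (f : (ι → ℝ) × (ι → ℝ) → ℂ) (v : ℂ) : Prop where
  int : Integrable (fun p => (wt c p : ℂ) * f p) (gg ι)
  val : ∫ p, (wt c p : ℂ) * f p ∂(gg ι) = v

private theorem bg5_of_good {c : ι → ℝ} (hc : ∀ i, |c i| < 1) {f : (ι → ℝ) × (ι → ℝ) → ℂ} {v : ℂ}
    (hf : bg5_good f) (hv : ∫ p, (wt c p : ℂ) * f p ∂(gg ι) = v) : bg5_I c f v := by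
  obtain ⟨mf, A, C, _, _, h⟩ := hf
  exact ⟨integrable_wt_mul hc mf h, hv⟩

private theorem bg5_add {c : ι → ℝ} {f g : (ι → ℝ) × (ι → ℝ) → ℂ} {v w : ℂ} (hf : bg5_I c f v)
    (hg : bg5_I c g w) : bg5_I c (fun p => f p + g p) (v + w) := by
  have e : (fun p => (wt c p : ℂ) * (f p + g p)) =
      fun p => (wt c p : ℂ) * f p + (wt c p : ℂ) * g p := by
    funext p
    ring
  refine ⟨?_, ?_⟩
  · rw [e]
    exact hf.int.add hg.int
  · rw [e, integral_add hf.int hg.int, hf.val, hg.val]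

private theorem bg5_smul {c : ι → ℝ} {f : (ι → ℝ) × (ι → ℝ) → ℂ} {v : ℂ} (hf : bg5_I c f v)
    (k : ℂ) : bg5_I c (fun p => k * f p) (k * v) := by
  have e : (fun p => (wt c p : ℂ) * (k * f p)) = fun p => k * ((wt c p : ℂ) * f p) := by
    funext p
    ring
  refine ⟨?_, ?_⟩
  · rw [e]
    exact hf.int.const_mul k
  · rw [e, integral_const_mul, hf.val]

private theorem bg5_sum {c : ι → ℝ} {f : ι → (ι → ℝ) × (ι → ℝ) → ℂ} {v : ι → ℂ}
    (hf : ∀ i, bg5_I c (f i) (v i)) : bg5_I c (fun p => ∑ i, f i p) (∑ i, v i) := by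
  have e : (fun p => (wt c p : ℂ) * ∑ i, f i p) = fun p => ∑ i, (wt c p : ℂ) * f i p := by
    funext p
    rw [Finset.mul_sum]
  refine ⟨?_, ?_⟩
  · rw [e]
    exact integrable_finsetSum _ fun i _ => (hf i).int
  · rw [e, integral_finsetSum _ fun i _ => (hf i).int]
    exact Finset.sum_congr rfl fun i _ => (hf i).val

private theorem bg5_E4 {c : ι → ℝ} (hc : ∀ i, |c i| < 1) (a b d e : ι ⊕ ι → ℂ) :
    ∫ p, (wt c p : ℂ) * ((1 + lf a p) * (1 + lf b p) * ((1 + lf d p) * (1 + lf e p))) ∂(gg ι) =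
      (zc c : ℂ) * (1 + cv c a b + cv c a d + cv c a e + cv c b d + cv c b e + cv c d e +
        (cv c a b * cv c d e + cv c a d * cv c b e + cv c a e * cv c b d)) := by
  have g0 : bg5_I c (fun _ => (1 : ℂ)) (zc c) :=
    bg5_of_good hc bg5_good_one (by simpa using twick0 hc)
  have g1 : ∀ a, bg5_I c (lf a) 0 := fun a => bg5_of_good hc (bg5_good_lf a) (twick1 hc a)
  have g2 : ∀ a b, bg5_I c (fun p => lf a p * lf b p) ((zc c : ℂ) * cv c a b) := fun a b =>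
    bg5_of_good hc (bg5_good_mul (bg5_good_lf a) (bg5_good_lf b)) (twick2 hc a b)
  have g3 : ∀ a b d, bg5_I c (fun p => lf a p * lf b p * lf d p) 0 := fun a b d =>
    bg5_of_good hc (bg5_good_mul (bg5_good_mul (bg5_good_lf a) (bg5_good_lf b)) (bg5_good_lf d))
      (twick3 hc a b d)
  have g4 := bg5_of_good hc (bg5_good_mul (bg5_good_mul (bg5_good_mul (bg5_good_lf a)
    (bg5_good_lf b)) (bg5_good_lf d)) (bg5_good_lf e)) (twick4 hc a b d e)
  have H := bg5_add (bg5_add (bg5_add (bg5_add (bg5_add (bg5_add (bg5_add (bg5_add (bg5_add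
    (bg5_add (bg5_add (bg5_add (bg5_add (bg5_add (bg5_add g0 (g1 a)) (g1 b)) (g1 d)) (g1 e))
    (g2 a b)) (g2 a d)) (g2 a e)) (g2 b d)) (g2 b e)) (g2 d e)) (g3 a b d)) (g3 a b e))
    (g3 a d e)) (g3 b d e)) g4
  have hv := H.val
  have he : (fun p => (wt c p : ℂ) * ((1 + lf a p) * (1 + lf b p) *
      ((1 + lf d p) * (1 + lf e p)))) = fun p => (wt c p : ℂ) *
      (1 + lf a p + lf b p + lf d p + lf e p + lf a p * lf b p + lf a p * lf d p +
        lf a p * lf e p + lf b p * lf d p + lf b p * lf e p + lf d p * lf e p +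
        lf a p * lf b p * lf d p + lf a p * lf b p * lf e p + lf a p * lf d p * lf e p +
        lf b p * lf d p * lf e p + lf a p * lf b p * lf d p * lf e p) := by
    funext p
    ring
  rw [he, hv]
  ring

/-! ### the modes -/

/-- the coefficients of the first factor -/
private def bg5_X (τ : ι → ℂ) (φ : ι → E3 → ℝ) (x : E3) : ι ⊕ ι → ℂ :=
  Sum.elim (fun i => conj (τ i) * (φ i x : ℂ)) (fun _ => 0)

/-- the coefficients of the second factor -/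
private def bg5_Y (τ : ι → ℂ) (φ : ι → E3 → ℝ) (x : E3) : ι ⊕ ι → ℂ :=
  Sum.elim (fun _ => 0) (fun i => τ i * (φ i x : ℂ))

private theorem bg5_hh (τ : ι → ℂ) (φ : ι → E3 → ℝ) (p : (ι → ℝ) × (ι → ℝ)) (x : E3) :
    hh τ φ p x = (1 + lf (bg5_X τ φ x) p) * (1 + lf (bg5_Y τ φ x) p) := by
  unfold hh fld lf bg5_X bg5_Y
  simp only [Sum.elim_inl, Sum.elim_inr, zero_mul, add_zero, zero_add, map_add, map_one, map_sum,
    map_mul, Complex.conj_ofReal]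
  congr 2
  · exact Finset.sum_congr rfl fun i _ => by ring
  · exact Finset.sum_congr rfl fun i _ => by ring

omit [Fintype ι] in
private theorem bg5_sq {t : ι → ℝ} {z : ℝ} (hz : 0 < z) {τ : ι → ℂ}
    (hτ : ∀ i, τ i ^ 2 = ((-(t i) / z : ℝ) : ℂ)) (i : ι) : ‖τ i‖ ^ 2 = |t i| / z := by
  have h := congrArg norm (hτ i)
  rw [norm_pow, Complex.norm_real, Real.norm_eq_abs, abs_div, abs_neg, abs_of_pos hz] at h
  exact h

omit [Fintype ι] in
private theorem bg5_conj_sq {t : ι → ℝ} {z : ℝ} {τ : ι → ℂ}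
    (hτ : ∀ i, τ i ^ 2 = ((-(t i) / z : ℝ) : ℂ)) (i : ι) :
    conj (τ i) ^ 2 = ((-(t i) / z : ℝ) : ℂ) := by
  rw [← map_pow, hτ, Complex.conj_ofReal]

omit [Fintype ι] in
private theorem bg5_conj_mul {t : ι → ℝ} {z : ℝ} (hz : 0 < z) {τ : ι → ℂ}
    (hτ : ∀ i, τ i ^ 2 = ((-(t i) / z : ℝ) : ℂ)) (i : ι) :
    conj (τ i) * τ i = ((|t i| / z : ℝ) : ℂ) := by
  rw [Complex.conj_mul', ← bg5_sq hz hτ i]
  push_cast
  ring

private theorem bg5_XX (φ : ι → E3 → ℝ) {t : ι → ℝ} (_ht : ∀ i, |t i| < 1) {z : ℝ} (hz : 0 < z)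
    {τ : ι → ℂ} (hτ : ∀ i, τ i ^ 2 = ((-(t i) / z : ℝ) : ℂ)) (x y : E3) :
    cv (fun i => |t i|) (bg5_X τ φ x) (bg5_X τ φ y) =
      ((ker φ (fun i => alp (t i)) x y / z : ℝ) : ℂ) := by
  unfold cv ker bg5_X alp
  simp only [Sum.elim_inl, Sum.elim_inr, mul_zero, add_zero, zero_mul]
  rw [Finset.sum_div]
  push_cast
  refine Finset.sum_congr rfl fun i _ => ?_
  have h := bg5_conj_sq hτ i
  push_cast at h
  have ha : ((|t i| : ℝ) : ℂ) ^ 2 = (t i : ℂ) ^ 2 := by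
    rw [← Complex.ofReal_pow, sq_abs, Complex.ofReal_pow]
  have hz' : (z : ℂ) ≠ 0 := by exact_mod_cast hz.ne'
  rw [ha]
  calc conj (τ i) * (φ i x : ℂ) * (conj (τ i) * (φ i y : ℂ)) / (1 - (t i : ℂ) ^ 2) =
      conj (τ i) ^ 2 * ((φ i x : ℂ) * (φ i y : ℂ)) / (1 - (t i : ℂ) ^ 2) := by ring
    _ = _ := by
      rw [h]
      ring

private theorem bg5_YY (φ : ι → E3 → ℝ) {t : ι → ℝ} (_ht : ∀ i, |t i| < 1) {z : ℝ} (hz : 0 < z)
    {τ : ι → ℂ} (hτ : ∀ i, τ i ^ 2 = ((-(t i) / z : ℝ) : ℂ)) (x y : E3) :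
    cv (fun i => |t i|) (bg5_Y τ φ x) (bg5_Y τ φ y) =
      ((ker φ (fun i => alp (t i)) x y / z : ℝ) : ℂ) := by
  unfold cv ker bg5_Y alp
  simp only [Sum.elim_inl, Sum.elim_inr, mul_zero, add_zero, zero_mul, zero_add]
  rw [Finset.sum_div]
  push_cast
  refine Finset.sum_congr rfl fun i _ => ?_
  have h := hτ i
  push_cast at h
  have ha : ((|t i| : ℝ) : ℂ) ^ 2 = (t i : ℂ) ^ 2 := by
    rw [← Complex.ofReal_pow, sq_abs, Complex.ofReal_pow]
  have hz' : (z : ℂ) ≠ 0 := by exact_mod_cast hz.ne'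
  rw [ha]
  calc τ i * (φ i x : ℂ) * (τ i * (φ i y : ℂ)) / (1 - (t i : ℂ) ^ 2) =
      τ i ^ 2 * ((φ i x : ℂ) * (φ i y : ℂ)) / (1 - (t i : ℂ) ^ 2) := by ring
    _ = _ := by
      rw [h]
      ring

private theorem bg5_XY (φ : ι → E3 → ℝ) {t : ι → ℝ} (_ht : ∀ i, |t i| < 1) {z : ℝ} (hz : 0 < z)
    {τ : ι → ℂ} (hτ : ∀ i, τ i ^ 2 = ((-(t i) / z : ℝ) : ℂ)) (x y : E3) :
    cv (fun i => |t i|) (bg5_X τ φ x) (bg5_Y τ φ y) =
      ((ker φ (fun i => gam (t i)) x y / z : ℝ) : ℂ) := by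
  unfold cv ker bg5_X bg5_Y gam
  simp only [Sum.elim_inl, Sum.elim_inr, mul_zero, add_zero, zero_mul, zero_add]
  rw [Finset.sum_div]
  push_cast
  refine Finset.sum_congr rfl fun i _ => ?_
  have h := bg5_conj_mul hz hτ i
  push_cast at h
  have ha : ((|t i| : ℝ) : ℂ) ^ 2 = (t i : ℂ) ^ 2 := by
    rw [← Complex.ofReal_pow, sq_abs, Complex.ofReal_pow]
  have hz' : (z : ℂ) ≠ 0 := by exact_mod_cast hz.ne'
  calc ((|t i| : ℝ) : ℂ) * (conj (τ i) * (φ i x : ℂ) * (τ i * (φ i y : ℂ))) /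
        (1 - ((|t i| : ℝ) : ℂ) ^ 2) =
      ((|t i| : ℝ) : ℂ) * (conj (τ i) * τ i) * ((φ i x : ℂ) * (φ i y : ℂ)) /
        (1 - ((|t i| : ℝ) : ℂ) ^ 2) := by ring
    _ = ((|t i| : ℝ) : ℂ) ^ 2 * ((φ i x : ℂ) * (φ i y : ℂ)) / z /
        (1 - ((|t i| : ℝ) : ℂ) ^ 2) := by
      rw [h]
      ring
    _ = _ := by
      rw [ha]
      ring

private theorem bg5_cv_symm (c : ι → ℝ) (a b : ι ⊕ ι → ℂ) : cv c a b = cv c b a := by
  unfold cv
  exact Finset.sum_congr rfl fun i _ => by ring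

private theorem bg5_ker_symm (φ : ι → E3 → ℝ) (a : ι → ℝ) (x y : E3) :
    ker φ a x y = ker φ a y x := by
  unfold ker
  exact Finset.sum_congr rfl fun i _ => by ring

theorem quart (φ : ι → E3 → ℝ) {t : ι → ℝ} (ht : ∀ i, |t i| < 1) {z : ℝ} (hz : 0 < z)
    {τ : ι → ℂ} (hτ : ∀ i, τ i ^ 2 = ((-(t i) / z : ℝ) : ℂ)) (x y : E3) :
    (z : ℂ) ^ 2 * ∫ p, (wt (fun i => |t i|) p : ℂ) * (hh τ φ p x * hh τ φ p y) ∂(gg ι) =
      ((zc (fun i => |t i|) * pd2 φ t z x y : ℝ) : ℂ) := by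
  have hc : ∀ i, |(fun i => |t i|) i| < 1 := fun i => by
    simpa using ht i
  simp only [bg5_hh]
  rw [bg5_E4 hc, bg5_XY φ ht hz hτ x x, bg5_XX φ ht hz hτ x y, bg5_XY φ ht hz hτ x y,
    bg5_cv_symm _ (bg5_Y τ φ x) (bg5_X τ φ y), bg5_XY φ ht hz hτ y x, bg5_YY φ ht hz hτ x y,
    bg5_XY φ ht hz hτ y y, bg5_ker_symm φ (fun i => gam (t i)) y x]
  unfold pd2
  have hz' : (z : ℂ) ≠ 0 := by exact_mod_cast hz.ne'
  push_cast
  field_simp
  ring

theorem kin_tilt {t : ι → ℝ} (ht : ∀ i, |t i| < 1) {z : ℝ} (hz : 0 < z)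
    {τ : ι → ℂ} (hτ : ∀ i, τ i ^ 2 = ((-(t i) / z : ℝ) : ℂ)) (lam : ι → ℝ) :
    z * ∫ p, kk τ lam p * wt (fun i => |t i|) p ∂(gg ι) =
      zc (fun i => |t i|) * ∑ i, lam i * gam (t i) := by
  classical
  have hc : ∀ i, |(fun i => |t i|) i| < 1 := fun i => by
    simpa using ht i
  have h1 : ∀ i, bg5_I (fun i => |t i|) (fun p => (p.1 i : ℂ) * (p.2 i : ℂ))
      ((zc (fun i => |t i|) : ℂ) * (((|t i| : ℝ) : ℂ) / (1 - ((|t i| : ℝ) : ℂ) ^ 2))) := fun i => by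
    have e1 : lf (Pi.single (Sum.inl i) (1 : ℂ)) = fun p : (ι → ℝ) × (ι → ℝ) => (p.1 i : ℂ) := by
      funext p
      unfold lf
      simp [Pi.single_apply]
    have e2 : lf (Pi.single (Sum.inr i) (1 : ℂ)) = fun p : (ι → ℝ) × (ι → ℝ) => (p.2 i : ℂ) := by
      funext p
      unfold lf
      simp [Pi.single_apply]
    have e3 : cv (fun i => |t i|) (Pi.single (Sum.inl i) (1 : ℂ)) (Pi.single (Sum.inr i) (1 : ℂ)) =
        ((|t i| : ℝ) : ℂ) / (1 - ((|t i| : ℝ) : ℂ) ^ 2) := by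
      unfold cv
      rw [Finset.sum_eq_single i]
      · simp
      · intro j _ hj
        simp [hj]
      · intro h
        exact absurd (Finset.mem_univ i) h
    have g := bg5_of_good hc (bg5_good_mul (bg5_good_lf (Pi.single (Sum.inl i) (1 : ℂ)))
      (bg5_good_lf (Pi.single (Sum.inr i) (1 : ℂ)))) (twick2 hc _ _)
    rw [e3] at g
    rw [e1, e2] at g
    exact g
  have h2 := (bg5_sum fun i => bg5_smul (h1 i) ((‖τ i‖ ^ 2 * lam i : ℝ) : ℂ)).val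
  have h3 : (fun p : (ι → ℝ) × (ι → ℝ) => (wt (fun i => |t i|) p : ℂ) *
      ∑ i, ((‖τ i‖ ^ 2 * lam i : ℝ) : ℂ) * ((p.1 i : ℂ) * (p.2 i : ℂ))) =
      fun p => ((kk τ lam p * wt (fun i => |t i|) p : ℝ) : ℂ) := by
    funext p
    unfold kk
    push_cast
    rw [mul_comm]
  have h5 : ∫ p, ((kk τ lam p * wt (fun i => |t i|) p : ℝ) : ℂ) ∂(gg ι) =
      ((∫ p, kk τ lam p * wt (fun i => |t i|) p ∂(gg ι) : ℝ) : ℂ) := integral_ofReal
  rw [h3, h5] at h2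
  apply Complex.ofReal_injective
  push_cast
  push_cast at h2
  rw [h2, Finset.mul_sum, Finset.mul_sum]
  refine Finset.sum_congr rfl fun i _ => ?_
  have h4 : ((‖τ i‖ : ℝ) : ℂ) ^ 2 = ((|t i| : ℝ) : ℂ) / z := by
    rw [← Complex.ofReal_pow, bg5_sq hz hτ i]
    push_cast
    rfl
  have ha : ((|t i| : ℝ) : ℂ) ^ 2 = (t i : ℂ) ^ 2 := by
    rw [← Complex.ofReal_pow, sq_abs, Complex.ofReal_pow]
  have hz' : (z : ℂ) ≠ 0 := by exact_mod_cast hz.ne'
  rw [h4]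
  unfold gam
  push_cast
  calc (z : ℂ) * (((|t i| : ℝ) : ℂ) / z * (lam i : ℂ) *
        ((zc (fun i => |t i|) : ℂ) * (((|t i| : ℝ) : ℂ) / (1 - ((|t i| : ℝ) : ℂ) ^ 2)))) =
      (zc (fun i => |t i|) : ℂ) * ((lam i : ℂ) * (((|t i| : ℝ) : ℂ) ^ 2 /
        (1 - ((|t i| : ℝ) : ℂ) ^ 2))) := by
        field_simp
    _ = _ := by
      rw [ha]

end Pool.Agent.BG
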