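import Pool.Agent.BG.Energies
import Pool.Agent.BG.Quart

/-! MP_2d9608_mp, project BG, row BG-12 -/

set_option autoImplicit false

open MeasureTheory ProbabilityTheory H47.SE Filter
open scoped ComplexConjugate Topology ENNReal

noncomputable section

namespace Pool.Agent.BG

variable {ι : Type*} [Fintype ι]

private theorem bg12_exp (x : ℝ) : HasSum (fun N : ℕ => x ^ N / N.factorial) (Real.exp x) := by
  rw [Real.exp_eq_exp_ℝ]
  exact NormedSpace.expSeries_div_hasSum_exp x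

private theorem bg12_exp2 (z x : ℝ) :
    HasSum (fun N : ℕ => z ^ N / N.factorial * (N * (N - 1) / 2 * x ^ (N - 2)))
      (z ^ 2 / 2 * Real.exp (z * x)) := by
  rw [← hasSum_nat_add_iff' 2]
  have h := (bg12_exp (z * x)).mul_left (z ^ 2 / 2)
  have e : z ^ 2 / 2 * Real.exp (z * x) - ∑ i ∈ Finset.range 2,
      z ^ i / (i.factorial : ℝ) * ((i : ℝ) * ((i : ℝ) - 1) / 2 * x ^ (i - 2)) =
        z ^ 2 / 2 * Real.exp (z * x) := by
    simp [Finset.sum_range_succ]
  rw [e]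
  have e2 : (fun n : ℕ => z ^ (n + 2) / ((n + 2).factorial : ℝ) *
      (((n + 2 : ℕ) : ℝ) * (((n + 2 : ℕ) : ℝ) - 1) / 2 * x ^ (n + 2 - 2))) =
        fun n : ℕ => z ^ 2 / 2 * ((z * x) ^ n / (n.factorial : ℝ)) := by
    funext n
    have h1 : ((n : ℝ) + 1) ≠ 0 := by positivity
    have h3 : ((n : ℝ) + 2) ≠ 0 := by positivity
    have h2 : (n.factorial : ℝ) ≠ 0 := by positivity
    rw [Nat.factorial_succ, Nat.factorial_succ, Nat.add_sub_cancel, mul_pow, pow_add]
    push_cast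
    have h4 : ((n : ℝ) + 1 + 1) ≠ 0 := by positivity
    field_simp
    ring
  rw [e2]
  exact h

/-- the bound of the overlap -/
private def bg12_B (L : ℝ) (τ : ι → ℂ) (p : (ι → ℝ) × (ι → ℝ)) : ℝ :=
  L ^ 3 + ∑ i, ‖τ i‖ ^ 2 * |p.1 i * p.2 i|

private theorem bg12_ov {L : ℝ} (hL : 0 < L) (τ : ι → ℂ) (p : (ι → ℝ) × (ι → ℝ)) :
    |ov L τ p| ≤ bg12_B L τ p := by
  unfold ov bg12_B
  refine (abs_add_le _ _).trans ?_
  rw [abs_of_pos (pow_pos hL 3)]
  refine add_le_add_right ((Finset.abs_sum_le_sum_abs _ _).trans (le_of_eq ?_)) _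
  refine Finset.sum_congr rfl fun i _ => ?_
  rw [abs_mul, abs_of_nonneg (sq_nonneg ‖τ i‖)]

private theorem bg12_expB {L : ℝ} {τ : ι → ℂ} {z : ℝ} {c : ι → ℝ}
    (hτ : ∀ i, z * ‖τ i‖ ^ 2 = c i) (p : (ι → ℝ) × (ι → ℝ)) :
    z * bg12_B L τ p = z * L ^ 3 + ∑ i, c i * |p.1 i * p.2 i| := by
  unfold bg12_B
  rw [mul_add, Finset.mul_sum]
  congr 1
  refine Finset.sum_congr rfl fun i _ => ?_
  rw [← hτ i, mul_assoc]

private theorem bg12_expov {L : ℝ} {τ : ι → ℂ} {z : ℝ} {c : ι → ℝ}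
    (hτ : ∀ i, z * ‖τ i‖ ^ 2 = c i) (p : (ι → ℝ) × (ι → ℝ)) :
    Real.exp (z * ov L τ p) = Real.exp (z * L ^ 3) * wt c p := by
  unfold ov wt
  rw [← Real.exp_add, mul_add, Finset.mul_sum]
  congr 2
  refine Finset.sum_congr rfl fun i _ => ?_
  simp only [← hτ i]
  ring

private theorem bg12_mov (L : ℝ) (τ : ι → ℂ) : Measurable (ov L τ) := by
  unfold ov
  fun_prop

private theorem bg12_wt {c : ι → ℝ} (p : (ι → ℝ) × (ι → ℝ)) :
    wt c p ≤ Real.exp (∑ i, |c i| * |p.1 i * p.2 i|) := by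
  unfold wt
  refine Real.exp_le_exp.2 (Finset.sum_le_sum fun i _ => ?_)
  rw [← abs_mul]
  exact le_abs_self _

/-- the product is jointly continuous -/
private theorem bg12_cont {φ : ι → E3 → ℝ} (hφ : ∀ i, ContDiff ℝ (⊤ : ℕ∞) (φ i)) (τ : ι → ℂ) :
    Continuous fun q : (E3 × E3) × ((ι → ℝ) × (ι → ℝ)) =>
      hh τ φ q.2 q.1.1 * hh τ φ q.2 q.1.2 := by
  have h := continuous_fld hφ τ
  have h1 : Continuous fun q : (E3 × E3) × ((ι → ℝ) × (ι → ℝ)) => fld τ φ q.2.1 q.1.1 :=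
    h.comp (f := fun q : (E3 × E3) × ((ι → ℝ) × (ι → ℝ)) => (q.2.1, q.1.1)) (by fun_prop)
  have h2 : Continuous fun q : (E3 × E3) × ((ι → ℝ) × (ι → ℝ)) => fld τ φ q.2.2 q.1.1 :=
    h.comp (f := fun q : (E3 × E3) × ((ι → ℝ) × (ι → ℝ)) => (q.2.2, q.1.1)) (by fun_prop)
  have h3 : Continuous fun q : (E3 × E3) × ((ι → ℝ) × (ι → ℝ)) => fld τ φ q.2.1 q.1.2 :=
    h.comp (f := fun q : (E3 × E3) × ((ι → ℝ) × (ι → ℝ)) => (q.2.1, q.1.2)) (by fun_prop)
  have h4 : Continuous fun q : (E3 × E3) × ((ι → ℝ) × (ι → ℝ)) => fld τ φ q.2.2 q.1.2 :=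
    h.comp (f := fun q : (E3 × E3) × ((ι → ℝ) × (ι → ℝ)) => (q.2.2, q.1.2)) (by fun_prop)
  unfold hh
  exact ((Complex.continuous_conj.comp h1).mul h2).mul ((Complex.continuous_conj.comp h3).mul h4)

private theorem bg12_bd {τ : ι → ℂ} {φ : ι → E3 → ℝ} {A : ℝ}
    (hA : ∀ ξ x, ‖fld τ φ ξ x‖ ≤ Real.exp (A * (1 + nn ξ))) (p : (ι → ℝ) × (ι → ℝ)) (x y : E3) :
    ‖hh τ φ p x * hh τ φ p y‖ ≤ Real.exp (4 * A) * Real.exp (2 * A * (nn p.1 + nn p.2)) := by
  unfold hh
  rw [norm_mul, norm_mul, norm_mul, RCLike.norm_conj, RCLike.norm_conj]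
  have e : Real.exp (4 * A) * Real.exp (2 * A * (nn p.1 + nn p.2)) =
      (Real.exp (A * (1 + nn p.1)) * Real.exp (A * (1 + nn p.2))) *
        (Real.exp (A * (1 + nn p.1)) * Real.exp (A * (1 + nn p.2))) := by
    rw [← Real.exp_add, ← Real.exp_add, ← Real.exp_add]
    congr 1
    ring
  rw [e]
  have h := fun x => mul_le_mul (hA p.1 x) (hA p.2 x) (norm_nonneg _) (Real.exp_pos _).le
  exact mul_le_mul (h x) (h y) (by positivity) (by positivity)

theorem sum_pot {L : ℝ} [hL : Fact (0 < L)] {φ : ι → E3 → ℝ} {lam : ι → ℝ}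
    (hM : Modes L φ lam) {W : E3 → ℝ} (hW : Pot L W) {t : ι → ℝ} (ht : ∀ i, |t i| < 1)
    {z : ℝ} (hz : 0 < z) {τ : ι → ℂ} (hτ : ∀ i, τ i ^ 2 = ((-(t i) / z : ℝ) : ℂ)) :
    HasSum (fun N : ℕ => z ^ N / N.factorial * potential W N L (psi τ φ N))
      (Real.exp (z * L ^ 3) * zc (fun i => |t i|) *
        (1 / 2 * ∫ q, W (q.1 - q.2) * pd2 φ t z q.1 q.2 ∂(cc L))) := by
  have hc : ∀ i, z * ‖τ i‖ ^ 2 = |t i| := by
    intro i
    have h := congrArg norm (hτ i)
    rw [norm_pow, Complex.norm_real, Real.norm_eq_abs, abs_div, abs_neg, abs_of_pos hz] at h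
    rw [h, mul_div_cancel₀ _ hz.ne']
  obtain ⟨A, hA0, hA, -⟩ := fld_bound hM τ
  have hWi := integrable_cc hW
  have hcont := bg12_cont hM.smooth τ
  have : SFinite (cc L) := by unfold cc; infer_instance
  -- the weighted function on the product
  have hmW : Measurable fun q : (E3 × E3) × ((ι → ℝ) × (ι → ℝ)) => W (q.1.1 - q.1.2) :=
    hW.meas.comp (by fun_prop)
  have hmwt : Measurable fun p : (ι → ℝ) × (ι → ℝ) => wt (fun i => |t i|) p := by
    unfold wt
    fun_prop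
  have hm1 : Measurable fun q : (E3 × E3) × ((ι → ℝ) × (ι → ℝ)) =>
      (W (q.1.1 - q.1.2) : ℂ) * (hh τ φ q.2 q.1.1 * hh τ φ q.2 q.1.2) :=
    (Complex.measurable_ofReal.comp hmW).mul hcont.measurable
  have hww : StronglyMeasurable (ww W L τ φ) := by
    have h := hm1.stronglyMeasurable
    exact StronglyMeasurable.integral_prod_left' (μ := cc L) h
  -- bound of the interaction overlap
  obtain ⟨K, hK⟩ : ∃ K, K = (∫ q, |W (q.1 - q.2)| ∂(cc L)) * Real.exp (4 * A) := ⟨_, rfl⟩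
  have hwb : ∀ p : (ι → ℝ) × (ι → ℝ), |(ww W L τ φ p).re| ≤
      K * Real.exp (2 * A * (nn p.1 + nn p.2)) := by
    intro p
    refine (Complex.abs_re_le_norm _).trans ((norm_integral_le_integral_norm _).trans ?_)
    calc ∫ q, ‖(W (q.1 - q.2) : ℂ) * (hh τ φ p q.1 * hh τ φ p q.2)‖ ∂(cc L)
        ≤ ∫ q, |W (q.1 - q.2)| * (Real.exp (4 * A) * Real.exp (2 * A * (nn p.1 + nn p.2)))
          ∂(cc L) := by
          refine integral_mono_of_nonneg (Eventually.of_forall fun q => norm_nonneg _)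
            (hWi.abs.mul_const _) (Eventually.of_forall fun q => ?_)
          show ‖_‖ ≤ _
          rw [norm_mul, Complex.norm_real, Real.norm_eq_abs]
          exact mul_le_mul_of_nonneg_left (bg12_bd hA p _ _) (abs_nonneg _)
      _ = K * Real.exp (2 * A * (nn p.1 + nn p.2)) := by
          rw [integral_mul_const, hK]; ring
  have key := hasSum_integral_of_dominated_convergence (μ := gg ι)
    (F := fun (N : ℕ) p => z ^ N / N.factorial *
      (N * (N - 1) / 2 * ((ww W L τ φ p).re * ov L τ p ^ (N - 2))))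
    (f := fun p => z ^ 2 / 2 * ((ww W L τ φ p).re * Real.exp (z * ov L τ p)))
    (fun (N : ℕ) p => (K * Real.exp (2 * A * (nn p.1 + nn p.2))) *
      (z ^ N / N.factorial * (N * (N - 1) / 2 * bg12_B L τ p ^ (N - 2))))
    (fun N => by
      have h1 := bg12_mov L τ
      have h2 : Measurable fun p => (ww W L τ φ p).re := Complex.measurable_re.comp hww.measurable
      exact (by fun_prop : Measurable fun p => z ^ N / (N.factorial : ℝ) *
        (N * (N - 1) / 2 * ((ww W L τ φ p).re * ov L τ p ^ (N - 2)))).aestronglyMeasurable)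
    (fun N => Eventually.of_forall fun p => by
      have hN : (0 : ℝ) ≤ N * (N - 1) / 2 := by
        rcases Nat.eq_zero_or_pos N with h | h
        · simp [h]
        · have : (1 : ℝ) ≤ N := by exact_mod_cast h
          have h2 : (0 : ℝ) ≤ N - 1 := by linarith
          positivity
      rw [Real.norm_eq_abs, abs_mul, abs_mul, abs_mul, abs_pow, abs_of_nonneg hN,
        abs_of_nonneg (by positivity : (0 : ℝ) ≤ z ^ N / N.factorial)]
      have h1 := hwb p
      have h2 := pow_le_pow_left₀ (abs_nonneg _) (bg12_ov hL.out τ p) (N - 2)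
      have h3 : |(ww W L τ φ p).re| * |ov L τ p| ^ (N - 2) ≤
          (K * Real.exp (2 * A * (nn p.1 + nn p.2))) * bg12_B L τ p ^ (N - 2) :=
        mul_le_mul h1 h2 (by positivity) ((abs_nonneg _).trans h1)
      calc _ ≤ z ^ N / (N.factorial : ℝ) * (N * (N - 1) / 2 *
          ((K * Real.exp (2 * A * (nn p.1 + nn p.2))) * bg12_B L τ p ^ (N - 2))) := by gcongr
        _ = _ := by ring)
    (Eventually.of_forall fun p => ((bg12_exp2 _ _).mul_left _).summable)
    (by
      have e : (fun p => ∑' N : ℕ, (K * Real.exp (2 * A * (nn p.1 + nn p.2))) *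
          (z ^ N / (N.factorial : ℝ) * (N * (N - 1) / 2 * bg12_B L τ p ^ (N - 2)))) =
          fun p : (ι → ℝ) × (ι → ℝ) => (K * (z ^ 2 / 2) * Real.exp (z * L ^ 3)) *
            Real.exp (2 * A * (nn p.1 + nn p.2) + ∑ i, |t i| * |p.1 i * p.2 i|) := by
        funext p
        rw [((bg12_exp2 _ _).mul_left _).tsum_eq, bg12_expB hc, Real.exp_add, Real.exp_add]
        ring
      rw [e]
      exact (integrable_exp_pair (fun i => abs_nonneg _) ht (2 * A)).const_mul _)
    (Eventually.of_forall fun p => by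
      have h := (bg12_exp2 z (ov L τ p)).mul_left (ww W L τ φ p).re
      have e : (fun N : ℕ => (ww W L τ φ p).re * (z ^ N / (N.factorial : ℝ) *
          (N * (N - 1) / 2 * ov L τ p ^ (N - 2)))) =
          fun N : ℕ => z ^ N / (N.factorial : ℝ) *
            (N * (N - 1) / 2 * ((ww W L τ φ p).re * ov L τ p ^ (N - 2))) := by
        funext N
        ring
      have e' : (ww W L τ φ p).re * (z ^ 2 / 2 * Real.exp (z * ov L τ p)) =
          z ^ 2 / 2 * ((ww W L τ φ p).re * Real.exp (z * ov L τ p)) := by ring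
      rwa [e, e'] at h)
  simp only [bg12_expov hc] at key
  have e1 : ∀ p : (ι → ℝ) × (ι → ℝ), z ^ 2 / 2 * ((ww W L τ φ p).re * (Real.exp (z * L ^ 3) *
      wt (fun i => |t i|) p)) = Real.exp (z * L ^ 3) * (1 / 2) *
        (z ^ 2 * (wt (fun i => |t i|) p * (ww W L τ φ p).re)) :=
    fun p => by ring
  simp only [e1, integral_const_mul] at key
  -- the interaction overlap against the weight
  have hint : Integrable (fun q : (E3 × E3) × ((ι → ℝ) × (ι → ℝ)) =>
      (W (q.1.1 - q.1.2) : ℂ) * ((wt (fun i => |t i|) q.2 : ℂ) *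
        (hh τ φ q.2 q.1.1 * hh τ φ q.2 q.1.2))) ((cc L).prod (gg ι)) := by
    have hbi := (hWi.abs.mul_prod
      ((integrable_exp_pair (fun i => abs_nonneg (t i)) ht (2 * A)).const_mul (Real.exp (4 * A))))
    refine Integrable.mono' hbi ?_ (Eventually.of_forall fun q => ?_)
    · exact ((Complex.measurable_ofReal.comp hmW).mul
        ((Complex.measurable_ofReal.comp (hmwt.comp measurable_snd)).mul
          hcont.measurable)).aestronglyMeasurable
    · rw [norm_mul, norm_mul, Complex.norm_real, Complex.norm_real, Real.norm_eq_abs,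
        Real.norm_eq_abs]
      have h1 : |wt (fun i => |t i|) q.2| ≤ Real.exp (∑ i, |t i| * |q.2.1 i * q.2.2 i|) := by
        have h0 : 0 < wt (fun i => |t i|) q.2 := Real.exp_pos _
        rw [abs_of_pos h0]
        refine (bg12_wt q.2).trans (le_of_eq ?_)
        simp only [abs_abs]
      have h2 := bg12_bd hA q.2 q.1.1 q.1.2
      have h3 : |wt (fun i => |t i|) q.2| * ‖hh τ φ q.2 q.1.1 * hh τ φ q.2 q.1.2‖ ≤
          Real.exp (4 * A) * Real.exp (2 * A * (nn q.2.1 + nn q.2.2) +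
            ∑ i, |t i| * |q.2.1 i * q.2.2 i|) := by
        refine (mul_le_mul h1 h2 (norm_nonneg _) (Real.exp_pos _).le).trans (le_of_eq ?_)
        rw [Real.exp_add]
        ring
      exact mul_le_mul_of_nonneg_left h3 (abs_nonneg _)
  have hfub : ∫ p, (wt (fun i => |t i|) p : ℂ) * ww W L τ φ p ∂(gg ι) =
      ∫ q, (W (q.1 - q.2) : ℂ) * ∫ p, (wt (fun i => |t i|) p : ℂ) *
        (hh τ φ p q.1 * hh τ φ p q.2) ∂(gg ι) ∂(cc L) := by
    have h := integral_integral_swap (f := fun (q : E3 × E3) (p : (ι → ℝ) × (ι → ℝ)) =>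
      (W (q.1 - q.2) : ℂ) * ((wt (fun i => |t i|) p : ℂ) *
        (hh τ φ p q.1 * hh τ φ p q.2))) hint
    simp only [integral_const_mul] at h
    rw [h]
    refine integral_congr_ae (Eventually.of_forall fun p => ?_)
    show (wt (fun i => |t i|) p : ℂ) * ww W L τ φ p = _
    unfold ww
    rw [← integral_const_mul]
    refine integral_congr_ae (Eventually.of_forall fun q => ?_)
    show _ * (_ * _) = _ * (_ * _)
    ring
  have hz2 : (z : ℂ) ^ 2 ≠ 0 := pow_ne_zero _ (by exact_mod_cast hz.ne')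
  have hq : (z : ℂ) ^ 2 * ∫ p, (wt (fun i => |t i|) p : ℂ) * ww W L τ φ p ∂(gg ι) =
      ((zc (fun i => |t i|) * ∫ q, W (q.1 - q.2) * pd2 φ t z q.1 q.2 ∂(cc L) : ℝ) : ℂ) := by
    rw [hfub, ← integral_const_mul]
    have e3 : ∀ q : E3 × E3, (z : ℂ) ^ 2 * ((W (q.1 - q.2) : ℂ) *
        ∫ p, (wt (fun i => |t i|) p : ℂ) * (hh τ φ p q.1 * hh τ φ p q.2) ∂(gg ι)) =
        ((zc (fun i => |t i|) * (W (q.1 - q.2) * pd2 φ t z q.1 q.2) : ℝ) : ℂ) := by
      intro q
      have h := quart φ ht hz hτ q.1 q.2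
      calc _ = (W (q.1 - q.2) : ℂ) * ((z : ℂ) ^ 2 *
          ∫ p, (wt (fun i => |t i|) p : ℂ) * (hh τ φ p q.1 * hh τ φ p q.2) ∂(gg ι)) := by ring
        _ = _ := by
          rw [h]
          push_cast
          ring
    simp only [e3]
    rw [integral_complex_ofReal, integral_const_mul]
  have hre : z ^ 2 * ∫ p, wt (fun i => |t i|) p * (ww W L τ φ p).re ∂(gg ι) =
      zc (fun i => |t i|) * ∫ q, W (q.1 - q.2) * pd2 φ t z q.1 q.2 ∂(cc L) := by
    have hi : Integrable (fun p => (wt (fun i => |t i|) p : ℂ) * ww W L τ φ p) (gg ι) := by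
      refine integrable_wt_mul (A := 2 * A) (C := K) (fun i => by rw [abs_abs]; exact ht i)
        hww.measurable (fun p => ?_)
      refine (norm_integral_le_integral_norm _).trans ?_
      calc ∫ q, ‖(W (q.1 - q.2) : ℂ) * (hh τ φ p q.1 * hh τ φ p q.2)‖ ∂(cc L)
          ≤ ∫ q, |W (q.1 - q.2)| * (Real.exp (4 * A) * Real.exp (2 * A * (nn p.1 + nn p.2)))
            ∂(cc L) := by
            refine integral_mono_of_nonneg (Eventually.of_forall fun q => norm_nonneg _)
              (hWi.abs.mul_const _) (Eventually.of_forall fun q => ?_)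
            show ‖_‖ ≤ _
            rw [norm_mul, Complex.norm_real, Real.norm_eq_abs]
            exact mul_le_mul_of_nonneg_left (bg12_bd hA p _ _) (abs_nonneg _)
        _ = K * Real.exp (2 * A * (nn p.1 + nn p.2)) := by
            rw [integral_mul_const, hK]; ring
    have h := congrArg Complex.re hq
    rw [Complex.ofReal_re] at h
    rw [← h]
    have e4 : ((z : ℂ) ^ 2 * ∫ p, (wt (fun i => |t i|) p : ℂ) * ww W L τ φ p ∂(gg ι)).re =
        z ^ 2 * (∫ p, (wt (fun i => |t i|) p : ℂ) * ww W L τ φ p ∂(gg ι)).re := by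
      have : (z : ℂ) ^ 2 = ((z ^ 2 : ℝ) : ℂ) := by push_cast; rfl
      rw [this, Complex.re_ofReal_mul]
    rw [e4]
    congr 1
    have h5 := integral_re hi
    have h6 : (∫ p, (wt (fun i => |t i|) p : ℂ) * ww W L τ φ p ∂(gg ι)).re =
        ∫ p, ((wt (fun i => |t i|) p : ℂ) * ww W L τ φ p).re ∂(gg ι) := h5.symm
    rw [h6]
    refine integral_congr_ae (Eventually.of_forall fun p => ?_)
    show _ = (_ * _ : ℂ).re
    rw [Complex.re_ofReal_mul]
  rw [hre] at key
  have e2 : (fun N : ℕ => z ^ N / (N.factorial : ℝ) * potential W N L (psi τ φ N)) =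
      fun N : ℕ => z ^ N / (N.factorial : ℝ) * ((N : ℝ) * (N - 1) / 2 *
        ∫ p, (ww W L τ φ p).re * ov L τ p ^ (N - 2) ∂(gg ι)) := by
    funext N
    rw [potential_psi hM hW]
  have e3 : Real.exp (z * L ^ 3) * zc (fun i => |t i|) *
      (1 / 2 * ∫ q, W (q.1 - q.2) * pd2 φ t z q.1 q.2 ∂(cc L)) =
        Real.exp (z * L ^ 3) * (1 / 2) * (zc (fun i => |t i|) *
          ∫ q, W (q.1 - q.2) * pd2 φ t z q.1 q.2 ∂(cc L)) := by ring
  rw [e2, e3]
  exact key

end Pool.Agent.BG
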