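import Pool.Agent.BG.SumN
import Pool.Agent.BG.SumPot
import Pool.Agent.BG.Chernoff
import Pool.Agent.BG.MonoN

/-! MP_2d9608_mp, project BG, row BG-15 -/

set_option autoImplicit false

open MeasureTheory ProbabilityTheory H47.SE Filter
open scoped ComplexConjugate Topology ENNReal

noncomputable section

namespace Pool.Agent.BG

variable {ι : Type*} [Fintype ι]

private theorem bg15_kin_nonneg {m : ℝ} (hm : 0 < m) (n : ℕ) (L : ℝ) (ψ : (Fin n → E3) → ℂ) :
    0 ≤ kinetic m n L ψ := by
  unfold kinetic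
  apply mul_nonneg (by positivity)
  apply Finset.sum_nonneg; intro i _
  apply Finset.sum_nonneg; intro a _
  exact integral_nonneg fun x => by positivity

private theorem bg15_pot_nonneg {W : E3 → ℝ} (hW : ∀ x, 0 ≤ W x) (n : ℕ) (L : ℝ)
    (ψ : (Fin n → E3) → ℂ) : 0 ≤ potential W n L ψ := by
  unfold potential
  apply Finset.sum_nonneg; intro p _
  split_ifs
  · exact integral_nonneg fun x => mul_nonneg (hW _) (by positivity)
  · exact le_refl _

private theorem bg15_ge_nonneg {m : ℝ} (hm : 0 < m) {W : E3 → ℝ} (hW : ∀ x, 0 ≤ W x) (n : ℕ)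
    (L : ℝ) : 0 ≤ groundEnergy m W n L := by
  unfold groundEnergy
  apply Real.sInf_nonneg
  rintro r ⟨ψ, hψ, rfl⟩
  exact div_nonneg (add_nonneg (bg15_kin_nonneg hm n L ψ) (bg15_pot_nonneg hW n L ψ)) hψ.pos.le

private theorem bg15_mono {L : ℝ} [hL : Fact (0 < L)] {m : ℝ} (hm : 0 < m) {W : E3 → ℝ}
    (hW : Pot L W) {N n : ℕ} (h : N ≤ n) : groundEnergy m W N L ≤ groundEnergy m W n L := by
  induction n, h using Nat.le_induction with
  | base => exact le_rfl
  | succ n _ ih => exact ih.trans (groundEnergy_succ hm hW n)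

theorem fin_vol {L : ℝ} [hL : Fact (0 < L)] {m : ℝ} (hm : 0 < m) {φ : ι → E3 → ℝ}
    {lam : ι → ℝ} (hM : Modes L φ lam) {W : E3 → ℝ} (hW : Pot L W) {t : ι → ℝ}
    (ht : ∀ i, |t i| < 1) {z : ℝ} (hz : 0 < z) (N : ℕ) {s : ℝ} (hs : 0 ≤ s) :
    groundEnergy m W N L * (1 - Real.exp (-s * (z * L ^ 3 + ∑ i, gam (t i) - N) +
        s ^ 2 * (z * L ^ 3 / 2 + ∑ i, gam (t i) + ∑ i, gam (t i) ^ 2))) ≤
      1 / (2 * m) * (∑ i, lam i * gam (t i)) +
        1 / 2 * ∫ q, W (q.1 - q.2) * pd2 φ t z q.1 q.2 ∂(cc L) := by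
  classical
  have hL3 : 0 < L ^ 3 := pow_pos hL.out 3
  choose τ hτ using fun i => IsAlgClosed.exists_pow_nat_eq ((-(t i) / z : ℝ) : ℂ) (n := 2) (by norm_num)
  have hτn : ∀ i, z * ‖τ i‖ ^ 2 = |t i| := fun i => by
    rw [← norm_pow, hτ i, Complex.norm_real, Real.norm_eq_abs, abs_div, abs_neg, abs_of_pos hz]
    field_simp
  set c : ι → ℝ := fun i => |t i| with hc
  have hc0 : ∀ i, 0 ≤ c i := fun i => abs_nonneg _
  have hgam : ∀ i, gam (c i) = gam (t i) := fun i => by simp only [gam, hc, sq_abs]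
  set E := groundEnergy m W N L with hE
  have hE0 : 0 ≤ E := bg15_ge_nonneg hm hW.nonneg N L
  set B : ℕ → ℝ := fun n => ∫ x in box (Fin n) L, ‖psi τ φ n x‖ ^ 2 with hB
  have hB0 : ∀ n, 0 ≤ B n := fun n => integral_nonneg fun x => by positivity
  set F : ℕ → ℝ := fun n => kinetic m n L (psi τ φ n) + potential W n L (psi τ φ n) with hF
  have hF0 : ∀ n, 0 ≤ F n := fun n =>
    add_nonneg (bg15_kin_nonneg hm n L _) (bg15_pot_nonneg hW.nonneg n L _)
  have hFB : ∀ n, N ≤ n → E * B n ≤ F n := fun n hn => by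
    rcases (hB0 n).lt_or_eq with h | h
    · have h1 := groundEnergy_le hm hW.nonneg (N := n) (L := L) (ψ := psi τ φ n)
        ⟨contDiff_psi hM.smooth τ n, periodic_psi hM.per τ n, h⟩
      exact (mul_le_mul_of_nonneg_right (bg15_mono hm hW hn) (hB0 n)).trans h1
    · rw [← h, mul_zero]
      exact hF0 n
  set Z := Real.exp (z * L ^ 3) * zc c with hZ
  have hZ0 : 0 < Z := by
    refine mul_pos (Real.exp_pos _) (Finset.prod_pos fun i _ => ?_)
    have h1 : c i ^ 2 < 1 := by
      have h2 := ht i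
      have h3 := hc0 i
      simp only [hc] at h3 ⊢
      nlinarith
    exact inv_pos.2 (Real.sqrt_pos.2 (by linarith))
  have s1 := sum_norm hM hz hτn ht (s := 1) zero_le_one le_rfl
  have e1 : (fun i => 1 * c i) = c := funext fun i => one_mul _
  simp only [one_mul] at s1
  have hs1 : Real.exp (-s) ≤ 1 := Real.exp_le_one_iff.2 (by linarith)
  have s2 := sum_norm hM hz hτn ht (s := Real.exp (-s)) (Real.exp_pos _).le hs1
  have s3 := (sum_kin hM ht hz hτ m).add (sum_pot hM hW ht hz hτ)
  have s4 := (s1.sub (s2.mul_left (Real.exp (s * N)))).mul_left E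
  have hle := hasSum_le (fun n => ?_) s4 s3
  · have hch := chernoff hc0 ht hz.le hL3.le hs N
    simp only [hgam] at hch
    set X := Real.exp (-s * (z * L ^ 3 + ∑ i, gam (t i) - N) +
        s ^ 2 * (z * L ^ 3 / 2 + ∑ i, gam (t i) + ∑ i, gam (t i) ^ 2)) with hX
    have h5 : E * (Z - Z * X) ≤ E * (Z - Real.exp (s * N) *
        (Real.exp (Real.exp (-s) * z * L ^ 3) * zc fun i => Real.exp (-s) * c i)) := by
      apply mul_le_mul_of_nonneg_left _ hE0
      linarith
    have h6 := h5.trans hle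
    have h7 : Z * (E * (1 - X)) ≤ Z * (1 / (2 * m) * (∑ i, lam i * gam (t i)) +
        1 / 2 * ∫ q, W (q.1 - q.2) * pd2 φ t z q.1 q.2 ∂(cc L)) := by
      calc Z * (E * (1 - X)) = E * (Z - Z * X) := by ring
        _ ≤ _ := h6
        _ = _ := by ring
    exact le_of_mul_le_mul_left h7 hZ0
  · -- pointwise
    have hfac : (0 : ℝ) < n.factorial := by exact_mod_cast Nat.factorial_pos n
    have ha : 0 < z ^ n / n.factorial := by positivity
    have e2 : Real.exp (s * N) * ((Real.exp (-s) * z) ^ n / n.factorial * B n) =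
        z ^ n / n.factorial * (Real.exp (s * (N - n)) * B n) := by
      rw [mul_pow, ← Real.exp_nat_mul]
      have : Real.exp (s * (N - n)) = Real.exp (s * N) * Real.exp (n * -s) := by
        rw [← Real.exp_add]
        congr 1
        ring
      rw [this]
      ring
    have e3 : z ^ n / n.factorial * kinetic m n L (psi τ φ n) +
        z ^ n / n.factorial * potential W n L (psi τ φ n) = z ^ n / n.factorial * F n := by
      rw [← mul_add]
    change E * (z ^ n / n.factorial * B n -
      Real.exp (s * N) * ((Real.exp (-s) * z) ^ n / n.factorial * B n)) ≤ _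
    rw [e2, e3]
    have e4 : E * (z ^ n / n.factorial * B n - z ^ n / n.factorial * (Real.exp (s * (N - n)) * B n)) =
        z ^ n / n.factorial * (E * (B n - Real.exp (s * (N - n)) * B n)) := by ring
    rw [e4]
    apply mul_le_mul_of_nonneg_left _ ha.le
    rcases lt_or_ge n N with h | h
    · have h1 : 1 ≤ Real.exp (s * (N - n)) := by
        apply Real.one_le_exp
        have : (n : ℝ) ≤ N := by exact_mod_cast h.le
        exact mul_nonneg hs (by linarith)
      have h2 : B n - Real.exp (s * (N - n)) * B n ≤ 0 := by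
        nlinarith [hB0 n]
      exact (mul_nonpos_of_nonneg_of_nonpos hE0 h2).trans (hF0 n)
    · refine le_trans ?_ (hFB n h)
      apply mul_le_mul_of_nonneg_left _ hE0
      have : 0 ≤ Real.exp (s * (N - n)) * B n := mul_nonneg (Real.exp_pos _).le (hB0 n)
      linarith

end Pool.Agent.BG
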