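import Pool.Agent.BG.Defs

/-! MP_2d9608_mp, project BG, row BG-16 -/

set_option autoImplicit false

open MeasureTheory ProbabilityTheory H47.SE Filter
open scoped ComplexConjugate Topology ENNReal

noncomputable section

namespace Pool.Agent.BG

private lemma bg16_ch (L : ℝ) (p : Fin 3 → ℤ) (x : E3) :
    ch L p x = (Real.cos (ph L p x) : ℂ) + (Real.sin (ph L p x) : ℂ) * Complex.I := by
  rw [ch, Complex.exp_mul_I]
  push_cast
  rfl

private lemma bg16_ch_int {L : ℝ} [hL : Fact (0 < L)] (p : Fin 3 → ℤ) :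
    Integrable (fun x => ch L p x) (unif L) :=
  (integrable_const (1 : ℝ)).mono' (continuous_ch _).aestronglyMeasurable
    (Filter.Eventually.of_forall fun x => by rw [norm_ch])

private lemma bg16_cos {L : ℝ} [hL : Fact (0 < L)] (p : Fin 3 → ℤ) :
    ∫ x, Real.cos (ph L p x) ∂(unif L) = if p = 0 then 1 else 0 := by
  have h := congrArg Complex.re (integral_ch (L := L) p)
  have h2 : (∫ x, ch L p x ∂(unif L)).re = ∫ x, (ch L p x).re ∂(unif L) :=
    (integral_re (bg16_ch_int p)).symm
  rw [h2] at h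
  have h3 : (fun x => (ch L p x).re) = fun x => Real.cos (ph L p x) := by
    funext x
    rw [bg16_ch, Complex.add_re, Complex.re_ofReal_mul, Complex.ofReal_re, Complex.I_re, mul_zero,
      add_zero]
  rw [h3] at h
  rw [h]
  split_ifs <;> simp

private lemma bg16_sin {L : ℝ} [hL : Fact (0 < L)] (p : Fin 3 → ℤ) :
    ∫ x, Real.sin (ph L p x) ∂(unif L) = 0 := by
  have h := congrArg Complex.im (integral_ch (L := L) p)
  have h2 : (∫ x, ch L p x ∂(unif L)).im = ∫ x, (ch L p x).im ∂(unif L) :=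
    (integral_im (bg16_ch_int p)).symm
  rw [h2] at h
  have h3 : (fun x => (ch L p x).im) = fun x => Real.sin (ph L p x) := by
    funext x
    rw [bg16_ch, Complex.add_im, Complex.im_ofReal_mul, Complex.ofReal_im, Complex.I_im, mul_one,
      zero_add]
  rw [h3] at h
  rw [h]
  split_ifs <;> simp

private lemma bg16_cos_int {L : ℝ} [hL : Fact (0 < L)] (p : Fin 3 → ℤ) :
    Integrable (fun x => Real.cos (ph L p x)) (unif L) :=
  (integrable_const (1 : ℝ)).mono'
    (Real.continuous_cos.comp (continuous_ph p)).aestronglyMeasurable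
    (Filter.Eventually.of_forall fun x => by
      rw [Real.norm_eq_abs]; exact Real.abs_cos_le_one _)

private lemma bg16_sin_int {L : ℝ} [hL : Fact (0 < L)] (p : Fin 3 → ℤ) :
    Integrable (fun x => Real.sin (ph L p x)) (unif L) :=
  (integrable_const (1 : ℝ)).mono'
    (Real.continuous_sin.comp (continuous_ph p)).aestronglyMeasurable
    (Filter.Eventually.of_forall fun x => by
      rw [Real.norm_eq_abs]; exact Real.abs_sin_le_one _)

private lemma bg16_cell {L : ℝ} [hL : Fact (0 < L)] (F : E3 → ℝ) :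
    ∫ x in cell L, F x = L ^ 3 * ∫ x, F x ∂(unif L) := by
  have h3 : (L ^ 3 : ℝ) ≠ 0 := by have := hL.out; positivity
  rw [integral_unif, smul_eq_mul, ← mul_assoc, mul_inv_cancel₀ h3, one_mul]

/-- the basic integral -/
private lemma bg16_basic {L : ℝ} [hL : Fact (0 < L)] (p q : Fin 3 → ℤ) (A B C : ℝ) :
    ∫ x in cell L, C * (A * Real.cos (ph L p x) + B * Real.sin (ph L q x)) =
      L ^ 3 * (C * (A * if p = 0 then 1 else 0)) := by
  rw [bg16_cell, integral_const_mul, integral_add ((bg16_cos_int p).const_mul A)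
    ((bg16_sin_int q).const_mul B), integral_const_mul, integral_const_mul, bg16_cos, bg16_sin]
  ring

private lemma bg16_sq (L : ℝ) [hL : Fact (0 < L)] : (√(L ^ 3))⁻¹ * (√(L ^ 3))⁻¹ = (L ^ 3)⁻¹ := by
  have h3 : (0 : ℝ) ≤ L ^ 3 := by have := hL.out; positivity
  rw [← mul_inv, Real.mul_self_sqrt h3]

/-- product of two Hartley modes at two points -/
private lemma bg16_mul {L : ℝ} [hL : Fact (0 < L)] (p : Fin 3 → ℤ) (x y : E3) :
    hart L p x * hart L p y =
      (L ^ 3)⁻¹ * (Real.cos (ph L p (x - y)) + Real.sin (ph L p (x + y))) := by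
  unfold hart
  rw [ph_sub, ph_add, Real.cos_sub, Real.sin_add, ← bg16_sq L]
  ring

/-- product of two Hartley modes at one point -/
private lemma bg16_mul' {L : ℝ} [hL : Fact (0 < L)] (p q : Fin 3 → ℤ) (x : E3) :
    hart L p x * hart L q x =
      (L ^ 3)⁻¹ * (1 * Real.cos (ph L (p - q) x) + 1 * Real.sin (ph L (p + q) x)) := by
  unfold hart
  have e : ph L (p - q) x = ph L p x - ph L q x := by
    rw [sub_eq_add_neg, ph_add_left, ph_neg_left]; ring
  rw [e, ph_add_left, Real.cos_sub, Real.sin_add, ← bg16_sq L]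
  ring

private lemma bg16_ph_smooth (L : ℝ) (p : Fin 3 → ℤ) : ContDiff ℝ (⊤ : ℕ∞) (ph L p) := by
  unfold ph
  fun_prop

private lemma bg16_hart_smooth (L : ℝ) (p : Fin 3 → ℤ) : ContDiff ℝ (⊤ : ℕ∞) (hart L p) := by
  unfold hart
  exact contDiff_const.mul ((Real.contDiff_cos.comp (bg16_ph_smooth L p)).add
    (Real.contDiff_sin.comp (bg16_ph_smooth L p)))

private lemma bg16_ph_line (L : ℝ) (p : Fin 3 → ℤ) (x : E3) (a : Fin 3) (s : ℝ) :
    ph L p (x + s • ea a) = ph L p x + s * (2 * Real.pi * p a / L) := by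
  rw [ph_add]
  congr 1
  unfold ph
  have h2 : ∑ b, (p b : ℝ) * (s • ea a : E3) b = p a * s := by
    rw [Finset.sum_eq_single a]
    · simp
    · intro b _ hb; simp [hb]
    · simp
  rw [h2]
  ring

/-- the derivative of a Hartley mode -/
private lemma bg16_fderiv (L : ℝ) (p : Fin 3 → ℤ) (x : E3) (a : Fin 3) :
    fderiv ℝ (hart L p) x (ea a) = (√(L ^ 3))⁻¹ * ((2 * Real.pi * p a / L) *
      (Real.cos (ph L p x) - Real.sin (ph L p x))) := by
  have hd : DifferentiableAt ℝ (hart L p) x :=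
    ((bg16_hart_smooth L p).differentiable (by simp)).differentiableAt
  have h1 := hd.lineDeriv_eq_fderiv (v := ea a)
  rw [← h1]
  have h2 : HasLineDerivAt ℝ (hart L p) ((√(L ^ 3))⁻¹ * ((2 * Real.pi * p a / L) *
      (Real.cos (ph L p x) - Real.sin (ph L p x)))) x (ea a) := by
    unfold HasLineDerivAt
    have e : (fun t : ℝ => hart L p (x + t • ea a)) = fun t : ℝ => (√(L ^ 3))⁻¹ *
        (Real.cos (ph L p x + t * (2 * Real.pi * p a / L)) +
          Real.sin (ph L p x + t * (2 * Real.pi * p a / L))) := by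
      funext t
      unfold hart
      rw [bg16_ph_line]
    rw [e]
    have h3 : HasDerivAt (fun t : ℝ => ph L p x + t * (2 * Real.pi * p a / L))
        (2 * Real.pi * p a / L) 0 := by
      simpa using ((hasDerivAt_id (0 : ℝ)).mul_const (2 * Real.pi * p a / L)).const_add (ph L p x)
    have h4 := (h3.cos.add h3.sin).const_mul ((√(L ^ 3))⁻¹)
    refine h4.congr_deriv ?_
    simp only [zero_mul, add_zero]
    ring
  exact h2.lineDeriv

private lemma bg16_gmul {L : ℝ} [hL : Fact (0 < L)] (p q : Fin 3 → ℤ) (x : E3) (a : Fin 3) :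
    fderiv ℝ (hart L p) x (ea a) * fderiv ℝ (hart L q) x (ea a) =
      ((L ^ 3)⁻¹ * ((2 * Real.pi * p a / L) * (2 * Real.pi * q a / L))) *
        (1 * Real.cos (ph L (p - q) x) + (-1) * Real.sin (ph L (p + q) x)) := by
  rw [bg16_fderiv, bg16_fderiv]
  have e : ph L (p - q) x = ph L p x - ph L q x := by
    rw [sub_eq_add_neg, ph_add_left, ph_neg_left]; ring
  rw [e, ph_add_left, Real.cos_sub, Real.sin_add, ← bg16_sq L]
  ring

private lemma bg16_gint {L : ℝ} [hL : Fact (0 < L)] (p q : Fin 3 → ℤ) (a : Fin 3) :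
    ∫ x in cell L, fderiv ℝ (hart L p) x (ea a) * fderiv ℝ (hart L q) x (ea a) =
      (2 * Real.pi * p a / L) * (2 * Real.pi * q a / L) * (if p - q = 0 then 1 else 0) := by
  have h3 : (L ^ 3 : ℝ) ≠ 0 := by have := hL.out; positivity
  simp_rw [bg16_gmul]
  rw [bg16_basic]
  field_simp

private lemma bg16_hper {L : ℝ} [hL : Fact (0 < L)] (p : Fin 3 → ℤ) (x : E3) (n : Fin 3 → ℤ) :
    hart L p (x + latt L n) = hart L p x := by
  have h := ch_periodic (L := L) p x n
  rw [bg16_ch, bg16_ch] at h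
  have hr := congrArg Complex.re h
  have hi := congrArg Complex.im h
  simp only [Complex.add_re, Complex.ofReal_re, Complex.mul_re, Complex.I_re, mul_zero,
    Complex.ofReal_im, Complex.I_im, mul_one, sub_self, add_zero] at hr
  simp only [Complex.add_im, Complex.ofReal_im, Complex.mul_im, Complex.ofReal_re, Complex.I_im,
    mul_one, Complex.I_re, mul_zero, add_zero, zero_add] at hi
  unfold hart
  rw [hr, hi]

theorem modes_hart {L : ℝ} [hL : Fact (0 < L)] (S : Finset (Fin 3 → ℤ)) (h0 : (0 : Fin 3 → ℤ) ∉ S) :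
    Modes L (fun (i : S) => hart L i) (fun i : S => lm (frq L i)) := by
  have h3 : (L ^ 3 : ℝ) ≠ 0 := by have := hL.out; positivity
  refine ⟨fun i => bg16_hart_smooth L i, fun i x n => bg16_hper _ x n, ?_, ?_, ?_, ?_, ?_⟩
  · intro i j hij
    simp_rw [bg16_mul']
    rw [bg16_basic, if_neg]
    · ring
    · intro h
      exact hij (Subtype.ext (sub_eq_zero.mp h))
  · intro i
    simp_rw [bg16_mul']
    rw [bg16_basic, if_pos (sub_self _), mul_one, mul_one, mul_inv_cancel₀ h3]
  · intro i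
    have hi : (i : Fin 3 → ℤ) ≠ 0 := fun h => h0 (h ▸ i.2)
    have e : ∀ x, hart L i x = (√(L ^ 3))⁻¹ * (1 * Real.cos (ph L i x) + 1 * Real.sin (ph L i x)) := by
      intro x
      unfold hart
      ring
    simp_rw [e]
    rw [bg16_basic, if_neg hi]
    ring
  · intro i j hij
    apply Finset.sum_eq_zero
    intro a _
    rw [bg16_gint, if_neg, mul_zero]
    intro h
    exact hij (Subtype.ext (sub_eq_zero.mp h))
  · intro i
    simp_rw [bg16_gint]
    simp only [sub_self, if_true, mul_one]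
    unfold lm
    rw [EuclideanSpace.norm_sq_eq, Finset.mul_sum]
    apply Finset.sum_congr rfl
    intro a _
    rw [frq_apply, Real.norm_eq_abs, sq_abs]
    ring

theorem ker_hart {L : ℝ} [hL : Fact (0 < L)] {S : Finset (Fin 3 → ℤ)} (hS : ∀ p ∈ S, -p ∈ S)
    {a : E3 → ℝ} (ha : ∀ ξ, a (-ξ) = a ξ) (x y : E3) :
    ker (fun (i : S) => hart L i) (fun i : S => a (frq L i)) x y = As L S a (x - y) := by
  unfold ker As
  simp_rw [bg16_mul]
  rw [Finset.sum_coe_sort S (fun p => a (frq L p) * ((L ^ 3)⁻¹ *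
    (Real.cos (ph L p (x - y)) + Real.sin (ph L p (x + y)))))]
  have h0 : ∑ p ∈ S, a (frq L p) * Real.sin (ph L p (x + y)) = 0 := by
    have hneg : ∑ p ∈ S, a (frq L p) * Real.sin (ph L p (x + y)) =
        ∑ p ∈ S, -(a (frq L p) * Real.sin (ph L p (x + y))) := by
      refine Finset.sum_bij' (fun p _ => -p) (fun p _ => -p) (fun p hp => hS p hp)
        (fun p hp => hS p hp) (fun p _ => neg_neg p) (fun p _ => neg_neg p) ?_
      intro p _
      have e1 : frq L (-p) = -frq L p := by
        ext b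
        simp [frq_apply, neg_div]
      rw [e1, ha, ph_neg_left, Real.sin_neg]
      ring
    rw [Finset.sum_neg_distrib] at hneg
    linarith
  have h1 : ∑ p ∈ S, a (frq L p) * ((L ^ 3)⁻¹ *
      (Real.cos (ph L p (x - y)) + Real.sin (ph L p (x + y)))) =
      (L ^ 3)⁻¹ * ∑ p ∈ S, a (frq L p) * Real.cos (ph L p (x - y)) +
      (L ^ 3)⁻¹ * ∑ p ∈ S, a (frq L p) * Real.sin (ph L p (x + y)) := by
    rw [Finset.mul_sum, Finset.mul_sum, ← Finset.sum_add_distrib]
    apply Finset.sum_congr rfl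
    intro p _
    ring
  rw [h1, h0, mul_zero, add_zero]

end Pool.Agent.BG
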