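import Pool.Agent.BG.Defs

/-! MP_2d9608_mp, project BG, row BG-17 -/

set_option autoImplicit false

open MeasureTheory ProbabilityTheory H47.SE Filter
open scoped ComplexConjugate Topology ENNReal

noncomputable section

namespace Pool.Agent.BG

private lemma bg17_shift {L : ℝ} [hL : Fact (0 < L)] {F : E3 → ℝ}
    (hF : ∀ x n, F (x + latt L n) = F x) (hm : StronglyMeasurable F) (s : E3) :
    ∫ x in cell L, F (x + s) = ∫ x in cell L, F x := by
  have h := unif_shift hF hm s
  have h3 : (0 : ℝ) < L ^ 3 := by have := hL.out; positivity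
  rw [integral_unif, integral_unif, smul_eq_mul, smul_eq_mul] at h
  exact mul_left_cancel₀ (inv_ne_zero h3.ne') h

private lemma bg17_ishift {L : ℝ} [hL : Fact (0 < L)] {F : E3 → ℝ}
    (hF : ∀ x n, F (x + latt L n) = F x) (hm : StronglyMeasurable F) (s : E3)
    (hi : IntegrableOn F (cell L)) : IntegrableOn (fun x => F (x + s)) (cell L) := by
  rw [integrable_unif] at hi ⊢
  exact unif_integrable_shift hF hm s hi

private lemma bg17_unfold {L : ℝ} [hL : Fact (0 < L)] {w : E3 → ℝ} (hwi : Integrable w)
    {q : E3 → ℝ} (hq : Continuous q) {C : ℝ}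
    (hb : ∀ x, |q x| ≤ C) (hper : ∀ x n, q (x + latt L n) = q x) :
    ∫ x in cell L, perPot w L x * q x = ∫ x, w x * q x := by
  have hC : 0 ≤ C := (abs_nonneg (q 0)).trans (hb 0)
  have hvi : ∀ n : Fin 3 → ℤ, Integrable (fun x => w (x + latt L n)) (volume.restrict (cell L)) :=
    fun n => (hwi.comp_add_right (latt L n)).integrableOn
  have hF : ∀ n : Fin 3 → ℤ, Integrable (fun x => w (x + latt L n) * q x)
      (volume.restrict (cell L)) := fun n =>
    (hvi n).mul_bdd (c := C) hq.aestronglyMeasurable
      (Eventually.of_forall fun x => by rw [Real.norm_eq_abs]; exact hb x)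
  have hS : Summable fun n : Fin 3 → ℤ =>
      ∫ x in cell L, ‖w (x + latt L n) * q x‖ := by
    have h1 := (hasSum_integral_iUnion (f := fun x => ‖w x‖) (μ := volume)
      (measurableSet_cellAt L) (disjoint_cellAt L) hwi.norm.integrableOn).summable
    refine Summable.of_nonneg_of_le (fun n => integral_nonneg fun x => norm_nonneg _) ?_
      (h1.mul_right C)
    intro n
    rw [← setIntegral_shift (L := L) n (fun x => ‖w x‖), ← integral_mul_const]
    apply integral_mono (hF n).norm ((hvi n).norm.mul_const C)
    intro x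
    simp only
    rw [norm_mul]
    exact mul_le_mul_of_nonneg_left (by rw [Real.norm_eq_abs]; exact hb x) (norm_nonneg _)
  have h2 := integral_tsum_of_summable_integral_norm hF hS
  have h3 : ∀ x, ∑' n : Fin 3 → ℤ, w (x + latt L n) * q x = perPot w L x * q x := by
    intro x
    rw [tsum_mul_right, perPot]
  simp_rw [h3] at h2
  rw [← h2]
  have h4 : ∀ n : Fin 3 → ℤ, ∫ x in cell L, w (x + latt L n) * q x =
      ∫ x in cellAt L n, w x * q x := by
    intro n
    rw [← setIntegral_shift (L := L) n (fun x => w x * q x)]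
    simp_rw [hper]
  simp_rw [h4]
  have hvg : Integrable (fun x => w x * q x) :=
    hwi.mul_bdd (c := C) hq.aestronglyMeasurable
      (Eventually.of_forall fun x => by rw [Real.norm_eq_abs]; exact hb x)
  rw [← integral_iUnion (measurableSet_cellAt L) (disjoint_cellAt L) hvg.integrableOn,
    iUnion_cellAt, Measure.restrict_univ]

theorem pot_perPot {L : ℝ} [hL : Fact (0 < L)] {w : E3 → ℝ} (hw0 : ∀ x, 0 ≤ w x)
    (hwm : Measurable w) (hwi : Integrable w) : Pot L (perPot w L) where
  nonneg := perPot_nonneg hw0 L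
  meas := measurable_perPot hw0 hwm L
  per := perPot_periodic w L
  int := integrableOn_perPot hw0 hwm hwi

theorem unfold_cc {L : ℝ} [hL : Fact (0 < L)] {w : E3 → ℝ} (hw0 : ∀ x, 0 ≤ w x)
    (hwm : Measurable w) (hwi : Integrable w) {q : E3 → ℝ} (hq : Continuous q) {C : ℝ}
    (hb : ∀ x, |q x| ≤ C) (hper : ∀ x n, q (x + latt L n) = q x) :
    ∫ z, perPot w L (z.1 - z.2) * q (z.1 - z.2) ∂(cc L) = L ^ 3 * ∫ x, w x * q x := by
  have hP := pot_perPot (L := L) hw0 hwm hwi
  have h3 : (0 : ℝ) < L ^ 3 := by have := hL.out; positivity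
  set F : E3 → ℝ := fun x => perPot w L x * q x with hFdef
  have hFm : Measurable F := hP.meas.mul hq.measurable
  have hFp : ∀ x n, F (x + latt L n) = F x := fun x n => by
    simp only [hFdef, hP.per, hper]
  have hFi : IntegrableOn F (cell L) :=
    hP.int.mul_bdd (c := C) hq.aestronglyMeasurable
      (Eventually.of_forall fun x => by rw [Real.norm_eq_abs]; exact hb x)
  have hfin : IsFiniteMeasure (volume.restrict (cell L)) := by
    constructor
    rw [Measure.restrict_apply MeasurableSet.univ, Set.univ_inter, volume_cell hL.out]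
    exact ENNReal.ofReal_lt_top
  have e : ∀ z, ∫ y in cell L, F (y - z) = ∫ x in cell L, F x := by
    intro z
    have := bg17_shift hFp hFm.stronglyMeasurable (-z)
    rw [← this]
    simp only [sub_eq_add_neg]
  have hNm : Measurable (fun x => ‖F x‖) := hFm.norm
  have hNp : ∀ x n, (fun x => ‖F x‖) (x + latt L n) = (fun x => ‖F x‖) x := fun x n => by
    simp only [hFp]
  have e2 : ∀ z, ∫ y in cell L, ‖F (y - z)‖ = ∫ x in cell L, ‖F x‖ := by
    intro z
    have := bg17_shift hNp hNm.stronglyMeasurable (-z)
    rw [← this]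
    simp only [sub_eq_add_neg]
  have hms : AEStronglyMeasurable (fun p : E3 × E3 => F (p.1 - p.2)) (cc L) :=
    (hFm.comp (measurable_fst.sub measurable_snd)).aestronglyMeasurable
  have hi : Integrable (fun p : E3 × E3 => F (p.1 - p.2)) (cc L) := by
    unfold cc at hms ⊢
    rw [integrable_prod_iff' hms]
    constructor
    · refine Eventually.of_forall fun z => ?_
      have := bg17_ishift hFp hFm.stronglyMeasurable (-z) hFi
      unfold IntegrableOn at this
      simpa only [sub_eq_add_neg] using this
    · simp only [e2]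
      exact integrable_const _
  change ∫ z, F (z.1 - z.2) ∂(cc L) = _
  unfold cc at hi ⊢
  rw [integral_prod_symm _ hi]
  simp only [e]
  rw [integral_const, smul_eq_mul, Measure.real, Measure.restrict_apply MeasurableSet.univ,
    Set.univ_inter, volume_cell hL.out, ENNReal.toReal_ofReal h3.le]
  congr 1
  exact bg17_unfold hwi hq hb hper

end Pool.Agent.BG
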