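import Pool.Agent.BG.FinVol
import Pool.Agent.BG.Hartley
import Pool.Agent.BG.Unfold

/-! MP_2d9608_mp, project BG, row BG-18 -/

set_option autoImplicit false

open MeasureTheory ProbabilityTheory H47.SE Filter
open scoped ComplexConjugate Topology ENNReal

noncomputable section

namespace Pool.Agent.BG

theorem bg18_continuous (L : ℝ) (S : Finset (Fin 3 → ℤ)) (a : E3 → ℝ) :
    Continuous (As L S a) := by
  unfold As
  refine continuous_const.mul (continuous_finsetSum _ fun p _ => continuous_const.mul ?_)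
  exact Real.continuous_cos.comp (continuous_ph p)

theorem bg18_bound {L : ℝ} (hL : 0 < L) (S : Finset (Fin 3 → ℤ)) (a : E3 → ℝ) (x : E3) :
    |As L S a x| ≤ (L ^ 3)⁻¹ * ∑ p ∈ S, |a (frq L p)| := by
  unfold As
  rw [abs_mul, abs_of_pos (by positivity : (0 : ℝ) < (L ^ 3)⁻¹)]
  refine mul_le_mul_of_nonneg_left ?_ (by positivity)
  refine (Finset.abs_sum_le_sum_abs _ _).trans (Finset.sum_le_sum fun p _ => ?_)
  rw [abs_mul]
  exact mul_le_of_le_one_right (abs_nonneg _) (Real.abs_cos_le_one _)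

theorem bg18_ph {L : ℝ} (hL : 0 < L) (p n : Fin 3 → ℤ) :
    ph L p (latt L n) = ((∑ a, p a * n a : ℤ) : ℝ) * (2 * Real.pi) := by
  unfold ph latt
  push_cast
  rw [Finset.mul_sum, Finset.sum_div, Finset.sum_mul]
  refine Finset.sum_congr rfl fun a _ => ?_
  field_simp

theorem bg18_per {L : ℝ} (hL : 0 < L) (S : Finset (Fin 3 → ℤ)) (a : E3 → ℝ) (x : E3)
    (n : Fin 3 → ℤ) : As L S a (x + latt L n) = As L S a x := by
  unfold As
  congr 1
  refine Finset.sum_congr rfl fun p _ => ?_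
  rw [ph_add, bg18_ph hL, Real.cos_add_int_mul_two_pi]

theorem bg18_zero {L : ℝ} (hL : 0 < L) (S : Finset (Fin 3 → ℤ)) (a : E3 → ℝ) :
    L ^ 3 * As L S a 0 = ∑ i : S, a (frq L i) := by
  unfold As
  rw [← mul_assoc, mul_inv_cancel₀ (by positivity), one_mul,
    Finset.sum_coe_sort S (fun p => a (frq L p))]
  refine Finset.sum_congr rfl fun p _ => ?_
  have : ph L p 0 = 0 := by unfold ph; simp
  rw [this, Real.cos_zero, mul_one]

theorem fin_vol2 {L : ℝ} [hL : Fact (0 < L)] {m : ℝ} (hm : 0 < m) {w : E3 → ℝ}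
    (hw0 : ∀ x, 0 ≤ w x) (hwm : Measurable w) (hwi : Integrable w) {t : E3 → ℝ}
    (heven : ∀ ξ, t (-ξ) = t ξ) (ht : ∀ ξ, |t ξ| < 1) {z : ℝ} (hz : 0 < z)
    {S : Finset (Fin 3 → ℤ)} (h0 : (0 : Fin 3 → ℤ) ∉ S) (hS : ∀ p ∈ S, -p ∈ S)
    (N : ℕ) {s : ℝ} (hs : 0 ≤ s) :
    groundEnergy m (perPot w L) N L *
      (1 - Real.exp (-s * (L ^ 3 * (z + As L S (fun ξ => gam (t ξ)) 0) - N) +
        s ^ 2 * (L ^ 3 * (z / 2 + As L S (fun ξ => gam (t ξ)) 0 +
          As L S (fun ξ => gam (t ξ) ^ 2) 0)))) ≤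
      L ^ 3 * (1 / (2 * m) * As L S (fun ξ => lm ξ * gam (t ξ)) 0 +
        1 / 2 * ∫ x, w x * ((z + As L S (fun ξ => gam (t ξ)) 0) ^ 2 +
          2 * z * (As L S (fun ξ => alp (t ξ)) x + As L S (fun ξ => gam (t ξ)) x) +
          As L S (fun ξ => alp (t ξ)) x ^ 2 + As L S (fun ξ => gam (t ξ)) x ^ 2)) := by
  have hL0 : 0 < L := hL.out
  have key := fin_vol hm (modes_hart (L := L) S h0) (pot_perPot (L := L) hw0 hwm hwi)
    (t := fun i : S => t (frq L i)) (fun i => ht _) hz N hs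
  set Q : E3 → ℝ := fun x => (z + As L S (fun ξ => gam (t ξ)) 0) ^ 2 +
          2 * z * (As L S (fun ξ => alp (t ξ)) x + As L S (fun ξ => gam (t ξ)) x) +
          As L S (fun ξ => alp (t ξ)) x ^ 2 + As L S (fun ξ => gam (t ξ)) x ^ 2 with hQ
  have hpd : ∀ q : E3 × E3, pd2 (fun (i : S) => hart L i) (fun i : S => t (frq L i)) z q.1 q.2 =
      Q (q.1 - q.2) := by
    intro q
    have e1 : ∀ x y, ker (fun (i : S) => hart L i) (fun i : S => gam (t (frq L i))) x y =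
        As L S (fun ξ => gam (t ξ)) (x - y) := fun x y =>
      ker_hart (a := fun ξ => gam (t ξ)) hS (fun ξ => by simp only [heven]) x y
    have e2 : ∀ x y, ker (fun (i : S) => hart L i) (fun i : S => alp (t (frq L i))) x y =
        As L S (fun ξ => alp (t ξ)) (x - y) := fun x y =>
      ker_hart (a := fun ξ => alp (t ξ)) hS (fun ξ => by simp only [heven]) x y
    simp only [pd2, e1, e2, sub_self, hQ]
    ring
  have hQc : Continuous Q := by
    have c1 := bg18_continuous L S (fun ξ => gam (t ξ))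
    have c2 := bg18_continuous L S (fun ξ => alp (t ξ))
    fun_prop
  have hQp : ∀ x n, Q (x + latt L n) = Q x := by
    intro x n
    simp only [hQ, bg18_per hL0]
  have hQb : ∃ C, ∀ x, |Q x| ≤ C := by
    set G := (L ^ 3)⁻¹ * ∑ p ∈ S, |gam (t (frq L p))| with hG
    set A := (L ^ 3)⁻¹ * ∑ p ∈ S, |alp (t (frq L p))| with hA
    refine ⟨(z + As L S (fun ξ => gam (t ξ)) 0) ^ 2 + 2 * z * (A + G) + A ^ 2 + G ^ 2, fun x => ?_⟩
    have b1 : |As L S (fun ξ => gam (t ξ)) x| ≤ G := bg18_bound hL0 S _ x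
    have b2 : |As L S (fun ξ => alp (t ξ)) x| ≤ A := bg18_bound hL0 S _ x
    have b3 : As L S (fun ξ => gam (t ξ)) x ^ 2 ≤ G ^ 2 := by
      rw [← sq_abs]
      gcongr
    have b4 : As L S (fun ξ => alp (t ξ)) x ^ 2 ≤ A ^ 2 := by
      rw [← sq_abs]
      gcongr
    have b5 : |2 * z * (As L S (fun ξ => alp (t ξ)) x + As L S (fun ξ => gam (t ξ)) x)| ≤
        2 * z * (A + G) := by
      rw [abs_mul, abs_of_pos (by positivity : (0 : ℝ) < 2 * z)]
      gcongr
      exact (abs_add_le _ _).trans (add_le_add b2 b1)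
    have b6 := abs_le.1 b5
    simp only [hQ]
    rw [abs_le]
    constructor
    · nlinarith [sq_nonneg (z + As L S (fun ξ => gam (t ξ)) 0),
        sq_nonneg (As L S (fun ξ => alp (t ξ)) x), sq_nonneg (As L S (fun ξ => gam (t ξ)) x),
        sq_nonneg A, sq_nonneg G]
    · linarith [b6.2]
  obtain ⟨C, hC⟩ := hQb
  have hun := unfold_cc (L := L) hw0 hwm hwi hQc hC hQp
  simp only [hpd] at key
  rw [hun] at key
  have s1 := bg18_zero hL0 S (fun ξ => gam (t ξ))
  have s2 := bg18_zero hL0 S (fun ξ => gam (t ξ) ^ 2)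
  have s3 := bg18_zero hL0 S (fun ξ => lm ξ * gam (t ξ))

  have r1 : -s * (L ^ 3 * (z + As L S (fun ξ => gam (t ξ)) 0) - N) +
        s ^ 2 * (L ^ 3 * (z / 2 + As L S (fun ξ => gam (t ξ)) 0 +
          As L S (fun ξ => gam (t ξ) ^ 2) 0)) =
      -s * (z * L ^ 3 + ∑ i : S, gam (t (frq L i)) - N) +
        s ^ 2 * (z * L ^ 3 / 2 + ∑ i : S, gam (t (frq L i)) + ∑ i : S, gam (t (frq L i)) ^ 2) := by
    rw [← s1, ← s2]
    ring
  have r2 : L ^ 3 * (1 / (2 * m) * As L S (fun ξ => lm ξ * gam (t ξ)) 0 +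
        1 / 2 * ∫ x, w x * Q x) =
      1 / (2 * m) * (∑ i : S, lm (frq L i) * gam (t (frq L i))) +
        1 / 2 * (L ^ 3 * ∫ x, w x * Q x) := by
    rw [← s3]
    ring
  rw [r1, r2]
  exact key

end Pool.Agent.BG
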