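import Pool.Agent.BG.Defs

/-! MP_2d9608_mp, project BG, row BG-27 -/

set_option autoImplicit false

open MeasureTheory ProbabilityTheory H47.SE Filter
open scoped ComplexConjugate Topology ENNReal

noncomputable section

namespace Pool.Agent.BG

private theorem bg27_int {w : E3 → ℝ} (hw : Integrable w) (ξ : E3) :
    Integrable fun y => w y * (1 - Real.cos (2 * Real.pi * inner ℝ y ξ)) := by
  refine hw.mul_bdd (c := 2) (Continuous.aestronglyMeasurable (by fun_prop))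
    (Eventually.of_forall fun y => ?_)
  rw [Real.norm_eq_abs, abs_le]
  constructor <;> linarith [Real.cos_le_one (2 * Real.pi * inner ℝ y ξ),
    Real.neg_one_le_cos (2 * Real.pi * inner ℝ y ξ)]

private theorem bg27_cont {w : E3 → ℝ} (hw : Integrable w) :
    Continuous fun ξ : E3 => ∫ y, w y * (1 - Real.cos (2 * Real.pi * inner ℝ y ξ)) := by
  refine continuous_of_dominated (bound := fun y => |w y| * 2) ?_ ?_ ?_ ?_
  · exact fun ξ => (bg27_int hw ξ).aestronglyMeasurable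
  · intro ξ
    refine Eventually.of_forall fun y => ?_
    rw [norm_mul, Real.norm_eq_abs, Real.norm_eq_abs]
    refine mul_le_mul_of_nonneg_left ?_ (abs_nonneg _)
    rw [abs_le]
    constructor <;> linarith [Real.cos_le_one (2 * Real.pi * inner ℝ y ξ),
      Real.neg_one_le_cos (2 * Real.pi * inner ℝ y ξ)]
  · exact hw.abs.mul_const 2
  · refine Eventually.of_forall fun y => ?_
    fun_prop

/-- the null set of the zeros of `1 - cos` -/
private theorem bg27_null {ξ : E3} (hξ : ξ ≠ 0) :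
    ∀ᵐ y : E3, Real.cos (2 * Real.pi * inner ℝ y ξ) ≠ 1 := by
  have h1 : ∀ k : ℤ, ∀ᵐ y : E3, inner ℝ y ξ ≠ (k : ℝ) := by
    intro k
    let S : Submodule ℝ E3 := LinearMap.ker (innerₛₗ ℝ ξ)
    have hS : S ≠ ⊤ := by
      intro h
      have h2 : ξ ∈ S := by rw [h]; trivial
      have h3 : inner ℝ ξ ξ = (0 : ℝ) := h2
      exact hξ (inner_self_eq_zero.1 h3)
    have h2 : (volume : Measure E3) S = 0 := Measure.addHaar_submodule volume S hS
    have h3 : (volume : Measure E3)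
        ((fun y => y + -(((k : ℝ) / inner ℝ ξ ξ) • ξ)) ⁻¹' (S : Set E3)) = 0 := by
      rw [measure_preimage_add_right, h2]
    rw [ae_iff]
    refine measure_mono_null (fun y hy => ?_) h3
    have hy' : inner ℝ y ξ = (k : ℝ) := by simpa using hy
    show inner ℝ ξ (y + -(((k : ℝ) / inner ℝ ξ ξ) • ξ)) = 0
    have h4 : inner ℝ ξ ξ ≠ (0 : ℝ) := fun h => hξ (inner_self_eq_zero.1 h)
    rw [inner_add_right, inner_neg_right, inner_smul_right, real_inner_comm, hy',
      div_mul_cancel₀ _ h4]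
    ring
  have h2 : ∀ᵐ y : E3, ∀ k : ℤ, inner ℝ y ξ ≠ (k : ℝ) := ae_all_iff.2 h1
  filter_upwards [h2] with y hy hc
  rw [Real.cos_eq_one_iff] at hc
  obtain ⟨k, hk⟩ := hc
  apply hy k
  have hpi := Real.pi_pos
  have h3 : 2 * Real.pi * (inner ℝ y ξ - k) = 0 := by linarith
  rcases mul_eq_zero.1 h3 with h4 | h4
  · exact absurd h4 (by positivity)
  · linarith

private theorem bg27_pos {w : E3 → ℝ} (hw0 : ∀ x, 0 ≤ w x) (hw : Integrable w)
    (hpos : 0 < ∫ x, w x) {ξ : E3} (hξ : ξ ≠ 0) :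
    0 < ∫ y, w y * (1 - Real.cos (2 * Real.pi * inner ℝ y ξ)) := by
  have h0 : ∀ y, 0 ≤ w y * (1 - Real.cos (2 * Real.pi * inner ℝ y ξ)) := fun y =>
    mul_nonneg (hw0 y) (by linarith [Real.cos_le_one (2 * Real.pi * inner ℝ y ξ)])
  refine lt_of_le_of_ne (integral_nonneg h0) fun h => ?_
  have h1 := (integral_eq_zero_iff_of_nonneg h0 (bg27_int hw ξ)).1 h.symm
  have h2 : w =ᵐ[volume] 0 := by
    filter_upwards [h1, bg27_null hξ] with y hy1 hy2
    rcases mul_eq_zero.1 hy1 with h3 | h3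
    · exact h3
    · exact absurd (by linarith) hy2
  rw [integral_congr_ae h2] at hpos
  simp at hpos

private theorem bg27_dbl {w : E3 → ℝ} (hw0 : ∀ x, 0 ≤ w x) (hw : Integrable w) (ξ : E3) :
    (∫ y, w y * (1 - Real.cos (2 * Real.pi * inner ℝ y ((2 : ℝ) • ξ)))) ≤
      4 * ∫ y, w y * (1 - Real.cos (2 * Real.pi * inner ℝ y ξ)) := by
  rw [← integral_const_mul]
  refine integral_mono (bg27_int hw _) ((bg27_int hw ξ).const_mul 4) fun y => ?_
  have h1 : 2 * Real.pi * inner ℝ y ((2 : ℝ) • ξ) = 2 * (2 * Real.pi * inner ℝ y ξ) := by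
    rw [inner_smul_right]
    ring
  show w y * (1 - Real.cos (2 * Real.pi * inner ℝ y ((2 : ℝ) • ξ))) ≤
    4 * (w y * (1 - Real.cos (2 * Real.pi * inner ℝ y ξ)))
  rw [h1, Real.cos_two_mul]
  have h2 := Real.cos_le_one (2 * Real.pi * inner ℝ y ξ)
  have h3 := Real.neg_one_le_cos (2 * Real.pi * inner ℝ y ξ)
  have h4 : 1 - (2 * Real.cos (2 * Real.pi * inner ℝ y ξ) ^ 2 - 1) ≤
      4 * (1 - Real.cos (2 * Real.pi * inner ℝ y ξ)) := by nlinarith
  calc w y * (1 - (2 * Real.cos (2 * Real.pi * inner ℝ y ξ) ^ 2 - 1)) ≤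
      w y * (4 * (1 - Real.cos (2 * Real.pi * inner ℝ y ξ))) :=
        mul_le_mul_of_nonneg_left h4 (hw0 y)
    _ = _ := by ring

/-- the limit at infinity -/
private theorem bg27_inf {w : E3 → ℝ} (hw : Integrable w) :
    Tendsto (fun ξ : E3 => ∫ y, w y * (1 - Real.cos (2 * Real.pi * inner ℝ y ξ)))
      (cocompact E3) (𝓝 (∫ y, w y)) := by
  have h1 := tendsto_integral_exp_inner_smul_cocompact (V := E3) (fun y => (w y : ℂ))
  have h2 := (Complex.continuous_re.tendsto _).comp h1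
  have h3 : ∀ ξ : E3, (∫ y, w y * (1 - Real.cos (2 * Real.pi * inner ℝ y ξ))) =
      (∫ y, w y) - (∫ v : E3, Real.fourierChar (-(inner ℝ v ξ)) • (w v : ℂ)).re := by
    intro ξ
    have h4 : Integrable fun v : E3 => Real.fourierChar (-(inner ℝ v ξ)) • (w v : ℂ) :=
      (Real.fourierIntegral_convergent_iff ξ).2 hw.ofReal
    have h5 : (∫ v : E3, Real.fourierChar (-(inner ℝ v ξ)) • (w v : ℂ)).re =
        ∫ v : E3, (Real.fourierChar (-(inner ℝ v ξ)) • (w v : ℂ)).re := by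
      have := integral_re h4
      simpa using this.symm
    have h8 : Integrable fun v : E3 =>
        (Real.fourierChar (-(inner ℝ v ξ)) • (w v : ℂ)).re := h4.re
    rw [h5, ← integral_sub hw h8]
    congr 1
    funext y
    have h6 : (Real.fourierChar (-(inner ℝ y ξ)) • (w y : ℂ)).re =
        Real.cos (2 * Real.pi * inner ℝ y ξ) * w y := by
      rw [Circle.smul_def, Real.fourierChar_apply, smul_eq_mul, Complex.re_mul_ofReal,
        Complex.exp_ofReal_mul_I_re, mul_neg, Real.cos_neg]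
    show _ = w y - (Real.fourierChar (-(inner ℝ y ξ)) • (w y : ℂ)).re
    rw [h6]
    ring
  have h7 : Tendsto (fun ξ : E3 => (∫ y, w y) -
      (∫ v : E3, Real.fourierChar (-(inner ℝ v ξ)) • (w v : ℂ)).re) (cocompact E3)
      (𝓝 ((∫ y, w y) - 0)) := by
    refine Tendsto.const_sub _ ?_
    simpa [Function.comp_def] using h2
  rw [sub_zero] at h7
  exact h7.congr fun ξ => (h3 ξ).symm

/-- lower bound for one potential -/
private theorem bg27_low {w : E3 → ℝ} (hw0 : ∀ x, 0 ≤ w x) (hw : Integrable w)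
    (hpos : 0 < ∫ x, w x) : ∃ c > 0, ∀ ξ : E3, c * min (‖ξ‖ ^ 2) 1 ≤
      ∫ y, w y * (1 - Real.cos (2 * Real.pi * inner ℝ y ξ)) := by
  set F : E3 → ℝ := fun ξ => ∫ y, w y * (1 - Real.cos (2 * Real.pi * inner ℝ y ξ)) with hF
  have hFc : Continuous F := bg27_cont hw
  -- lower bound away from zero
  obtain ⟨c, hc, hc1⟩ : ∃ c > 0, ∀ ξ : E3, 1 / 2 ≤ ‖ξ‖ → c ≤ F ξ := by
    have h1 : ∀ᶠ ξ in cocompact E3, (∫ x, w x) / 2 < F ξ :=
      (bg27_inf hw).eventually_const_lt (by linarith)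
    rw [← Metric.cobounded_eq_cocompact, ← comap_norm_atTop, eventually_comap, eventually_atTop] at h1
    obtain ⟨R, hR⟩ := h1
    have hK : IsCompact (Metric.closedBall (0 : E3) (max R 1) ∩ {ξ | 1 / 2 ≤ ‖ξ‖}) :=
      (isCompact_closedBall _ _).inter_right (isClosed_le continuous_const continuous_norm)
    have hne : (Metric.closedBall (0 : E3) (max R 1) ∩ {ξ | 1 / 2 ≤ ‖ξ‖}).Nonempty := by
      refine ⟨EuclideanSpace.single 0 1, ?_, ?_⟩
      · rw [mem_closedBall_zero_iff, EuclideanSpace.norm_single, norm_one]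
        exact le_max_right _ _
      · show (1 / 2 : ℝ) ≤ ‖(EuclideanSpace.single 0 1 : E3)‖
        rw [EuclideanSpace.norm_single, norm_one]
        norm_num
    obtain ⟨ξ0, hξ0, hmin⟩ := hK.exists_isMinOn hne hFc.continuousOn
    have hξ0' : ξ0 ≠ 0 := by
      rintro rfl
      have : (1 / 2 : ℝ) ≤ ‖(0 : E3)‖ := hξ0.2
      rw [norm_zero] at this
      norm_num at this
    have hp := bg27_pos hw0 hw hpos hξ0'
    refine ⟨min (F ξ0) ((∫ x, w x) / 2), lt_min hp (by linarith), fun ξ hξ => ?_⟩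
    rcases le_total ‖ξ‖ (max R 1) with h2 | h2
    · exact (min_le_left _ _).trans (hmin ⟨mem_closedBall_zero_iff.2 h2, hξ⟩)
    · exact (min_le_right _ _).trans (hR ‖ξ‖ ((le_max_left _ _).trans h2) ξ rfl).le
  refine ⟨c, hc, ?_⟩
  -- small frequencies by doubling
  have key : ∀ n : ℕ, ∀ ξ : E3, 1 / 2 ≤ 2 ^ n * ‖ξ‖ → c * min (‖ξ‖ ^ 2) 1 ≤ F ξ := by
    intro n
    induction n with
    | zero =>
      intro ξ hξ
      rw [pow_zero, one_mul] at hξ
      calc c * min (‖ξ‖ ^ 2) 1 ≤ c * 1 := mul_le_mul_of_nonneg_left (min_le_right _ _) hc.le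
        _ ≤ F ξ := by rw [mul_one]; exact hc1 ξ hξ
    | succ n ih =>
      intro ξ hξ
      by_cases h : 1 / 2 ≤ ‖ξ‖
      · calc c * min (‖ξ‖ ^ 2) 1 ≤ c * 1 := mul_le_mul_of_nonneg_left (min_le_right _ _) hc.le
          _ ≤ F ξ := by rw [mul_one]; exact hc1 ξ h
      · have h1 : ‖(2 : ℝ) • ξ‖ = 2 * ‖ξ‖ := by rw [norm_smul]; norm_num
        have h2 := ih ((2 : ℝ) • ξ) (by rw [h1, ← mul_assoc, ← pow_succ]; exact hξ)
        have h3 := bg27_dbl hw0 hw ξ
        rw [h1] at h2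
        push Not at h
        have h0 := norm_nonneg ξ
        have h4 : min ((2 * ‖ξ‖) ^ 2) 1 = (2 * ‖ξ‖) ^ 2 := by
          apply min_eq_left
          nlinarith
        rw [h4] at h2
        have h5 : c * min (‖ξ‖ ^ 2) 1 ≤ c * ‖ξ‖ ^ 2 :=
          mul_le_mul_of_nonneg_left (min_le_left _ _) hc.le
        have h6 : F ((2 : ℝ) • ξ) ≤ 4 * F ξ := h3
        nlinarith
  intro ξ
  by_cases h : ξ = 0
  · subst h
    simp
  · obtain ⟨n, hn⟩ := pow_unbounded_of_one_lt (1 / 2 / ‖ξ‖) (one_lt_two (α := ℝ))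
    refine key n ξ ?_
    have h0 : 0 < ‖ξ‖ := norm_pos_iff.2 h
    rw [div_lt_iff₀ h0] at hn
    exact hn.le

/-- truncation -/
private theorem bg27_trunc {w : E3 → ℝ} (hwm : Measurable w)
    (hwi : Integrable w) (hpos : 0 < ∫ x, w x) : ∃ n : ℕ,
      0 < ∫ x, ({x | ‖x‖ ≤ n ∧ w x ≤ n} : Set E3).indicator w x := by
  have h1 : Tendsto (fun n : ℕ => ∫ x, ({x | ‖x‖ ≤ n ∧ w x ≤ n} : Set E3).indicator w x) atTop
      (𝓝 (∫ x, w x)) := by
    refine tendsto_integral_of_dominated_convergence (fun x => |w x|) (fun n => ?_) hwi.abs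
      (fun n => Eventually.of_forall fun x => ?_) (Eventually.of_forall fun x => ?_)
    · exact (hwm.indicator ((measurableSet_le measurable_norm measurable_const).inter
        (measurableSet_le hwm measurable_const))).aestronglyMeasurable
    · exact norm_indicator_le_norm_self w x
    · obtain ⟨N, hN⟩ := exists_nat_ge (max ‖x‖ (w x))
      refine tendsto_const_nhds.congr' ?_
      filter_upwards [eventually_ge_atTop N] with n hn
      have h2 : (N : ℝ) ≤ n := Nat.cast_le.2 hn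
      have h3 : x ∈ ({x | ‖x‖ ≤ n ∧ w x ≤ n} : Set E3) :=
        ⟨(le_max_left _ _).trans (hN.trans h2), (le_max_right _ _).trans (hN.trans h2)⟩
      rw [Set.indicator_of_mem h3]
  exact (h1.eventually_const_lt hpos).exists

theorem quad_unif {w : E3 → ℝ} (hwm : Measurable w) (hw0 : ∀ x, 0 ≤ w x) (hwi : Integrable w)
    (hpos : 0 < ∫ x, w x) :
    ∃ c > 0, ∀ u : E3 → ℝ, Integrable u → (∀ᵐ x, 0 ≤ u x ∧ u x ≤ 1) → ∫ x, u x ≤ c →
      ∫ x, u x * w x ≤ c → ∀ ξ : E3, c * min (‖ξ‖ ^ 2) 1 ≤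
        ∫ y, (1 - u y) * w y * (1 - Real.cos (2 * Real.pi * inner ℝ y ξ)) := by
  obtain ⟨n, hn⟩ := bg27_trunc hwm hwi hpos
  set w1 : E3 → ℝ := ({x | ‖x‖ ≤ n ∧ w x ≤ n} : Set E3).indicator w with hw1
  have hS : MeasurableSet ({x | ‖x‖ ≤ n ∧ w x ≤ n} : Set E3) :=
    (measurableSet_le measurable_norm measurable_const).inter
      (measurableSet_le hwm measurable_const)
  have hw1i : Integrable w1 := hwi.indicator hS
  have hw10 : ∀ x, 0 ≤ w1 x := Set.indicator_nonneg fun x _ => hw0 x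
  have hw1w : ∀ x, w1 x ≤ w x := fun x => Set.indicator_le_self' (fun _ _ => hw0 _) x
  obtain ⟨c0, hc0, hlow⟩ := bg27_low hw10 hw1i hn
  set K : ℝ := n * (2 * Real.pi ^ 2 * n ^ 2 + 2) with hK
  have hK0 : 0 ≤ K := by positivity
  -- pointwise bound of the loss
  have hpt : ∀ ξ y : E3, w1 y * (1 - Real.cos (2 * Real.pi * inner ℝ y ξ)) ≤
      K * min (‖ξ‖ ^ 2) 1 := by
    intro ξ y
    have hm0 : 0 ≤ min (‖ξ‖ ^ 2) 1 := le_min (by positivity) (by norm_num)
    by_cases hy : y ∈ ({x | ‖x‖ ≤ n ∧ w x ≤ n} : Set E3)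
    · have h1 : w1 y = w y := Set.indicator_of_mem hy w
      rw [h1]
      have h2 : 1 - Real.cos (2 * Real.pi * inner ℝ y ξ) ≤ 2 := by
        linarith [Real.neg_one_le_cos (2 * Real.pi * inner ℝ y ξ)]
      have h3 : 0 ≤ 1 - Real.cos (2 * Real.pi * inner ℝ y ξ) := by
        linarith [Real.cos_le_one (2 * Real.pi * inner ℝ y ξ)]
      have h4 : 1 - Real.cos (2 * Real.pi * inner ℝ y ξ) ≤ 2 * Real.pi ^ 2 * n ^ 2 * ‖ξ‖ ^ 2 := by
        have h5 := Real.one_sub_sq_div_two_le_cos (x := 2 * Real.pi * inner ℝ y ξ)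
        have h6 : (inner ℝ y ξ : ℝ) ^ 2 ≤ n ^ 2 * ‖ξ‖ ^ 2 := by
          have h7 := abs_real_inner_le_norm y ξ
          have h8 : |(inner ℝ y ξ : ℝ)| ≤ n * ‖ξ‖ :=
            h7.trans (mul_le_mul_of_nonneg_right hy.1 (norm_nonneg _))
          calc (inner ℝ y ξ : ℝ) ^ 2 = |(inner ℝ y ξ : ℝ)| ^ 2 := (sq_abs _).symm
            _ ≤ (n * ‖ξ‖) ^ 2 := pow_le_pow_left₀ (abs_nonneg _) h8 2
            _ = n ^ 2 * ‖ξ‖ ^ 2 := by ring
        have h9 : (2 * Real.pi * inner ℝ y ξ) ^ 2 / 2 = 2 * Real.pi ^ 2 * (inner ℝ y ξ : ℝ) ^ 2 := by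
          ring
        have h10 : 2 * Real.pi ^ 2 * (inner ℝ y ξ : ℝ) ^ 2 ≤
            2 * Real.pi ^ 2 * (n ^ 2 * ‖ξ‖ ^ 2) :=
          mul_le_mul_of_nonneg_left h6 (by positivity)
        linarith
      have h5 : 1 - Real.cos (2 * Real.pi * inner ℝ y ξ) ≤
          (2 * Real.pi ^ 2 * n ^ 2 + 2) * min (‖ξ‖ ^ 2) 1 := by
        rcases le_total (‖ξ‖ ^ 2) 1 with h6 | h6
        · rw [min_eq_left h6]
          have : 0 ≤ ‖ξ‖ ^ 2 := by positivity
          nlinarith
        · rw [min_eq_right h6]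
          have : 0 ≤ 2 * Real.pi ^ 2 * (n : ℝ) ^ 2 := by positivity
          linarith
      calc w y * (1 - Real.cos (2 * Real.pi * inner ℝ y ξ)) ≤
          n * ((2 * Real.pi ^ 2 * n ^ 2 + 2) * min (‖ξ‖ ^ 2) 1) :=
            mul_le_mul hy.2 h5 h3 (Nat.cast_nonneg n)
        _ = K * min (‖ξ‖ ^ 2) 1 := by rw [hK]; ring
    · have h1 : w1 y = 0 := Set.indicator_of_notMem hy w
      rw [h1, zero_mul]
      exact mul_nonneg hK0 hm0
  refine ⟨min (c0 / 2) (c0 / (2 * (K + 1))), by positivity, ?_⟩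
  intro u hui hu hu1 _ ξ
  set m : ℝ := min (‖ξ‖ ^ 2) 1 with hm
  have hm0 : 0 ≤ m := le_min (by positivity) (by norm_num)
  set C : E3 → ℝ := fun y => 1 - Real.cos (2 * Real.pi * inner ℝ y ξ) with hC
  have hC0 : ∀ y, 0 ≤ C y := fun y => by
    have := Real.cos_le_one (2 * Real.pi * inner ℝ y ξ)
    simp only [hC]
    linarith
  have hC2 : ∀ y, C y ≤ 2 := fun y => by
    have := Real.neg_one_le_cos (2 * Real.pi * inner ℝ y ξ)
    simp only [hC]
    linarith
  have hCm : AEStronglyMeasurable C volume := Continuous.aestronglyMeasurable (by fun_prop)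
  have hub : ∀ᵐ x, ‖u x‖ ≤ 1 := by
    filter_upwards [hu] with x hx
    rw [Real.norm_eq_abs, abs_le]
    constructor <;> linarith [hx.1, hx.2]
  have hint : ∀ v : E3 → ℝ, Integrable v → Integrable fun y => u y * (v y * C y) := by
    intro v hv
    refine Integrable.bdd_mul (c := 1) ?_ hui.aestronglyMeasurable hub
    exact bg27_int hv ξ
  have hi1 : Integrable fun y => (1 - u y) * w y * C y := by
    have := (bg27_int hwi ξ).sub (hint w hwi)
    refine this.congr (Eventually.of_forall fun y => ?_)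
    simp only [Pi.sub_apply, hC]
    ring
  have hi2 : Integrable fun y => w1 y * C y - u y * (w1 y * C y) :=
    (bg27_int hw1i ξ).sub (hint w1 hw1i)
  have h1 : (∫ y, w1 y * C y) - ∫ y, u y * (w1 y * C y) ≤ ∫ y, (1 - u y) * w y * C y := by
    rw [← integral_sub (bg27_int hw1i ξ) (hint w1 hw1i)]
    refine integral_mono_ae hi2 hi1 ?_
    filter_upwards [hu] with y hy
    have h2 : w1 y * C y - u y * (w1 y * C y) = (1 - u y) * (w1 y) * C y := by ring
    show w1 y * C y - u y * (w1 y * C y) ≤ (1 - u y) * w y * C y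
    rw [h2]
    exact mul_le_mul_of_nonneg_right (mul_le_mul_of_nonneg_left (hw1w y) (by linarith [hy.2]))
      (hC0 y)
  have h2 : ∫ y, u y * (w1 y * C y) ≤ (∫ y, u y) * (K * m) := by
    rw [← integral_mul_const]
    refine integral_mono_ae (hint w1 hw1i) (hui.mul_const _) ?_
    filter_upwards [hu] with y hy
    exact mul_le_mul_of_nonneg_left (hpt ξ y) hy.1
  have h3 : c0 * m ≤ ∫ y, w1 y * C y := hlow ξ
  have h4 : (∫ y, u y) * (K * m) ≤ (c0 / 2) * m := by
    have h5 : ∫ y, u y ≤ c0 / (2 * (K + 1)) := hu1.trans (min_le_right _ _)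
    calc (∫ y, u y) * (K * m) ≤ c0 / (2 * (K + 1)) * (K * m) :=
          mul_le_mul_of_nonneg_right h5 (mul_nonneg hK0 hm0)
      _ = (c0 / 2 * m) * (K / (K + 1)) := by
          field_simp
      _ ≤ (c0 / 2 * m) * 1 := by
          refine mul_le_mul_of_nonneg_left ?_ (by positivity)
          rw [div_le_one (by positivity)]
          linarith
      _ = (c0 / 2) * m := mul_one _
  have h5 : min (c0 / 2) (c0 / (2 * (K + 1))) * m ≤ c0 / 2 * m :=
    mul_le_mul_of_nonneg_right (min_le_left _ _) hm0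
  calc min (c0 / 2) (c0 / (2 * (K + 1))) * m ≤ c0 / 2 * m := h5
    _ = c0 * m - c0 / 2 * m := by ring
    _ ≤ (∫ y, w1 y * C y) - ∫ y, u y * (w1 y * C y) := by linarith
    _ ≤ _ := h1

end Pool.Agent.BG
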