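import Pool.Agent.BG.Kin
import Pool.Agent.BG.Quad

/-! MP_2d9608_mp, project BG, row BG-39 -/

set_option autoImplicit false

open MeasureTheory ProbabilityTheory H47.SE Filter
open scoped ComplexConjugate Topology ENNReal

noncomputable section

namespace Pool.Agent.BG

variable {κ ρ : ℝ} {w u : E3 → ℝ}

/-- `1 / ‖ξ‖` is integrable on the unit ball -/
theorem GamStrong.inv_norm_int :
    Integrable (fun ξ : E3 => Set.indicator (Set.Iio (1 : ℝ)) (fun r => 1 / r) ‖ξ‖) := by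
  rw [integrable_fun_norm_addHaar (μ := (volume : Measure E3))
    (f := Set.indicator (Set.Iio (1 : ℝ)) (fun r => 1 / r))]
  have hdim : Module.finrank ℝ E3 = 3 := by simp [E3]
  rw [hdim]
  have hI : IntegrableOn (fun y : ℝ => y) (Set.Ioo 0 1) :=
    (continuous_id.integrableOn_Icc (a := (0 : ℝ)) (b := 1)).mono_set Set.Ioo_subset_Icc_self
  have hI2 : IntegrableOn (Set.indicator (Set.Ioo (0 : ℝ) 1) (fun y : ℝ => y)) (Set.Ioi 0) := by
    have := (integrable_indicator_iff (μ := (volume : Measure ℝ)) measurableSet_Ioo).2 hI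
    exact this.integrableOn
  refine hI2.congr_fun ?_ measurableSet_Ioi
  intro y hy
  have hy' : (0 : ℝ) < y := hy
  by_cases h1 : y < 1
  · simp only [Set.indicator, Set.mem_Ioo, Set.mem_Iio, hy', h1, and_self, if_true, smul_eq_mul]
    field_simp
    try ring
  · simp [Set.indicator, Set.mem_Ioo, Set.mem_Iio, h1]

theorem gam0_strong {w : E3 → ℝ} (hwm : Measurable w) (hw0 : ∀ x, 0 ≤ w x)
    (hwi : Integrable w) (hpos : 0 < ∫ x, w x) :
    ∃ C > 0, ∃ c > 0, ∀ κ ρ u, Sol κ ρ w u → 1 / ρ ≤ c → ∫ x, u x * w x ≤ c →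
      G0 ρ u ≤ C * (1 + ∫ ξ in {ξ : E3 | 1 ≤ ‖ξ‖}, UU ρ u ξ ^ 2) := by
  obtain ⟨c, hc, hq⟩ := quad_unif hwm hw0 hwi hpos
  set W0 := ∫ x, w x with hW0
  set f0 : E3 → ℝ := fun ξ => Set.indicator (Set.Iio (1 : ℝ)) (fun r => 1 / r) ‖ξ‖ with hf0
  have hf0i : Integrable f0 := GamStrong.inv_norm_int
  have hf0n : ∀ ξ, 0 ≤ f0 ξ := by
    intro ξ
    simp only [hf0]
    refine Set.indicator_apply_nonneg (fun _ => ?_)
    positivity
  set C1 : ℝ := 2 / √(c / W0) with hC1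
  have hcW : 0 < √(c / W0) := Real.sqrt_pos.2 (div_pos hc hpos)
  have hC1p : 0 < C1 := by positivity
  have hI0 : 0 ≤ ∫ ξ, f0 ξ := integral_nonneg hf0n
  refine ⟨C1 * ((∫ ξ, f0 ξ) + 1), by positivity, c, hc, ?_⟩
  intro κ ρ u h hρ hu
  have hms : MeasurableSet {ξ : E3 | 1 ≤ ‖ξ‖} := measurableSet_le measurable_const measurable_norm
  have hSi : Integrable (Set.indicator {ξ : E3 | 1 ≤ ‖ξ‖} fun ξ => UU ρ u ξ ^ 2) :=
    h.sq_int.1.indicator hms
  have hS0 : 0 ≤ ∫ ξ in {ξ : E3 | 1 ≤ ‖ξ‖}, UU ρ u ξ ^ 2 := integral_nonneg fun ξ => sq_nonneg _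
  have hg0 : 0 < ∫ x, (1 - u x) * w x := h.gpos
  have hgW : (∫ x, (1 - u x) * w x) ≤ W0 := by
    rw [h.g_eq]; have := h.uw_nonneg; linarith
  -- the pointwise bound
  have hpt : ∀ ξ : E3, ξ ≠ 0 → 0 ≤ gam (UU ρ u ξ) ∧
      gam (UU ρ u ξ) ≤ C1 * (f0 ξ + Set.indicator {ξ : E3 | 1 ≤ ‖ξ‖} (fun ξ => UU ρ u ξ ^ 2) ξ) := by
    intro ξ hξ
    obtain ⟨h1, -, h3, -⟩ := gam_le (h.one_lt_xx hξ) (h.abs_GG_le ξ) (h.abs_UU_le ξ) (h.quad ξ)
    refine ⟨h1, ?_⟩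
    have hn : 0 < ‖ξ‖ := norm_pos_iff.2 hξ
    have hq1 := hq u h.ui h.ub (by rw [h.umass]; exact hρ) hu ξ
    rw [← h.one_sub_GG ξ] at hq1
    -- lower bound for `1 - G`
    have hm : 0 < min ‖ξ‖ 1 := lt_min hn one_pos
    have hmm : min (‖ξ‖ ^ 2) 1 = (min ‖ξ‖ 1) ^ 2 := by
      rcases le_total ‖ξ‖ 1 with h' | h'
      · rw [min_eq_left h', min_eq_left]
        nlinarith
      · rw [min_eq_right h', min_eq_right]
        · norm_num
        · nlinarith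
    have hG1 : 0 ≤ 1 - GG w u ξ := by
      have := (abs_le.1 (h.abs_GG_le ξ)).2; linarith
    have hG2 : c / W0 * (min ‖ξ‖ 1) ^ 2 ≤ 1 - GG w u ξ := by
      rw [div_mul_eq_mul_div, div_le_iff₀ hpos, ← hmm]
      nlinarith
    have hG3 : √(c / W0) * min ‖ξ‖ 1 ≤ √(1 - GG w u ξ) := by
      have e : √(c / W0) * min ‖ξ‖ 1 = √(c / W0 * (min ‖ξ‖ 1) ^ 2) := by
        rw [Real.sqrt_mul (by positivity), Real.sqrt_sq hm.le]
      rw [e]
      exact Real.sqrt_le_sqrt hG2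
    have hk : gam (UU ρ u ξ) * (√(c / W0) * min ‖ξ‖ 1) ≤ 2 * UU ρ u ξ ^ 2 :=
      (mul_le_mul_of_nonneg_left hG3 h1).trans h3
    have hk2 : gam (UU ρ u ξ) * min ‖ξ‖ 1 ≤ C1 * UU ρ u ξ ^ 2 := by
      rw [hC1, div_mul_eq_mul_div, le_div_iff₀ hcW]
      nlinarith
    have hU1 : UU ρ u ξ ^ 2 ≤ 1 := by
      rw [← sq_abs]
      have := h.abs_UU_le ξ
      have h0 := abs_nonneg (UU ρ u ξ)
      nlinarith
    rcases lt_or_ge ‖ξ‖ 1 with h' | h'
    · have e1 : f0 ξ = 1 / ‖ξ‖ := by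
        simp only [hf0]
        rw [Set.indicator_of_mem (Set.mem_Iio.2 h')]
      have e2 : Set.indicator {ξ : E3 | 1 ≤ ‖ξ‖} (fun ξ => UU ρ u ξ ^ 2) ξ = 0 := by
        rw [Set.indicator_of_notMem]
        exact not_le.2 h'
      rw [e1, e2, add_zero, mul_one_div, le_div_iff₀ hn]
      rw [min_eq_left h'.le] at hk2
      nlinarith
    · have e1 : f0 ξ = 0 := by
        simp only [hf0]
        rw [Set.indicator_of_notMem]
        simp only [Set.mem_Iio, not_lt]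
        exact h'
      have e2 : Set.indicator {ξ : E3 | 1 ≤ ‖ξ‖} (fun ξ => UU ρ u ξ ^ 2) ξ = UU ρ u ξ ^ 2 := by
        rw [Set.indicator_of_mem]
        exact h'
      rw [e1, e2, zero_add]
      rw [min_eq_right h', mul_one] at hk2
      exact hk2
  have hae : ∀ᵐ ξ : E3, ξ ≠ 0 := by
    rw [ae_iff]
    simp
  have hle : G0 ρ u ≤ ∫ ξ, C1 * (f0 ξ +
      Set.indicator {ξ : E3 | 1 ≤ ‖ξ‖} (fun ξ => UU ρ u ξ ^ 2) ξ) := by
    unfold G0
    refine integral_mono_of_nonneg ?_ ((hf0i.add hSi).const_mul C1) ?_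
    · filter_upwards [hae] with ξ hξ using (hpt ξ hξ).1
    · filter_upwards [hae] with ξ hξ using (hpt ξ hξ).2
  rw [integral_const_mul, integral_add hf0i hSi, integral_indicator hms] at hle
  refine hle.trans ?_
  rw [mul_assoc]
  refine mul_le_mul_of_nonneg_left ?_ hC1p.le
  nlinarith

end Pool.Agent.BG
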