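import Pool.Agent.BG.SolBasic

/-! MP_2d9608_mp, project BG, row BG-36 -/

set_option autoImplicit false

open MeasureTheory ProbabilityTheory H47.SE Filter
open scoped ComplexConjugate Topology ENNReal

noncomputable section

namespace Pool.Agent.BG

variable {κ ρ : ℝ} {w u : E3 → ℝ}

private lemma bg36_int :
    Integrable (fun η : E3 => 2 / ((1 + ‖η‖ ^ 2) * √((1 + ‖η‖ ^ 2) * ‖η‖ ^ 2))) := by
  have h := (integrable_fun_norm_addHaar (volume : Measure E3)
    (f := fun t : ℝ => 2 / ((1 + t ^ 2) * √((1 + t ^ 2) * t ^ 2)))).2 ?_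
  · exact h
  have h1 : Integrable (fun y : ℝ => 2 * (1 + y ^ 2)⁻¹) := integrable_inv_one_add_sq.const_mul 2
  refine (h1.integrableOn (s := Set.Ioi 0)).mono' ?_ ?_
  · apply Measurable.aestronglyMeasurable
    fun_prop
  · refine (ae_restrict_iff' measurableSet_Ioi).2 (.of_forall fun y hy => ?_)
    have hy0 : (0 : ℝ) < y := hy
    have hd : Module.finrank ℝ E3 = 3 := by simp [E3]
    rw [hd]
    have e1 : √((1 + y ^ 2) * y ^ 2) = √(1 + y ^ 2) * y := by
      rw [Real.sqrt_mul (by positivity), Real.sqrt_sq hy0.le]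
    have e2 : y ≤ √(1 + y ^ 2) := by
      apply Real.le_sqrt_of_sq_le
      linarith
    have e3 : 0 < √(1 + y ^ 2) := Real.sqrt_pos.2 (by positivity)
    rw [e1, Real.norm_eq_abs, abs_of_nonneg (by simp only [smul_eq_mul]; positivity), smul_eq_mul,
      ← div_eq_mul_inv, mul_div_assoc', div_le_div_iff₀ (by positivity) (by positivity)]
    have e4 : y ^ (3 - 1) * 2 * (1 + y ^ 2) = (2 * (1 + y ^ 2) * y) * y := by
      norm_num
      ring
    rw [e4]
    have e5 : 2 * ((1 + y ^ 2) * (√(1 + y ^ 2) * y)) = (2 * (1 + y ^ 2) * y) * √(1 + y ^ 2) := by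
      ring
    rw [e5]
    gcongr

theorem gam0_weak : ∃ C > 0, ∀ (κ ρ : ℝ) (w u : E3 → ℝ), Sol κ ρ w u →
    G0 ρ u ≤ C * ((ρ * κ * ∫ x, w x) * √(ρ * κ * ∫ x, w x)) := by
  set H : ℝ → ℝ := fun t => 2 / ((1 + t ^ 2) * √((1 + t ^ 2) * t ^ 2)) with hH
  have hHi : Integrable (fun η : E3 => H ‖η‖) := bg36_int
  set I := ∫ η : E3, H ‖η‖ with hI
  have hI0 : 0 ≤ I := integral_nonneg fun η => by simp only [hH]; positivity
  refine ⟨I + 1, by positivity, fun κ ρ w u h => ?_⟩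
  have hb := h.bb_pos
  have hble := h.bb_le
  set b := bb κ ρ w u with hbdef
  set B := ρ * κ * ∫ x, w x with hB
  have h2b : 0 < √(2 * b) := Real.sqrt_pos.2 (by positivity)
  set c := 2 * Real.pi / √(2 * b) with hc
  have hc0 : 0 < c := by
    rw [hc]
    have := Real.pi_pos
    positivity
  have hxx : ∀ ξ : E3, xx κ ρ w u ξ = 1 + ‖c • ξ‖ ^ 2 := by
    intro ξ
    rw [xx, lm, ← hbdef, norm_smul, Real.norm_eq_abs, abs_of_pos hc0, hc, mul_pow, div_pow,
      Real.sq_sqrt (by positivity)]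
    ring
  have h1 : G0 ρ u ≤ ∫ ξ : E3, H ‖c • ξ‖ := by
    have hae : ∀ᵐ ξ : E3, ξ ≠ 0 := by
      filter_upwards [compl_mem_ae_iff.2 (measure_singleton (μ := (volume : Measure E3)) 0)]
        with ξ hξ using hξ
    have key : ∀ ξ : E3, ξ ≠ 0 → 0 ≤ gam (UU ρ u ξ) ∧ gam (UU ρ u ξ) ≤ H ‖c • ξ‖ := by
      intro ξ hξ
      obtain ⟨h0, h2, -, -⟩ := gam_le (h.one_lt_xx hξ) (h.abs_GG_le ξ) (h.abs_UU_le ξ) (h.quad ξ)
      refine ⟨h0, h2.trans_eq ?_⟩
      rw [hxx]
      simp only [hH]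
      ring_nf
    refine integral_mono_of_nonneg ?_ ?_ ?_
    · filter_upwards [hae] with ξ hξ using (key ξ hξ).1
    · exact hHi.comp_smul hc0.ne'
    · filter_upwards [hae] with ξ hξ using (key ξ hξ).2
  have h2 : ∫ ξ : E3, H ‖c • ξ‖ = (c ^ 3)⁻¹ * I := by
    have hd : Module.finrank ℝ E3 = 3 := by simp [E3]
    have := Measure.integral_comp_smul (volume : Measure E3) (fun η => H ‖η‖) c
    rw [hd, abs_of_pos (by positivity), smul_eq_mul] at this
    exact this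
  have h3 : (c ^ 3)⁻¹ ≤ B * √B := by
    have e1 : (c ^ 3)⁻¹ = (2 * b) * √(2 * b) / (2 * Real.pi) ^ 3 := by
      rw [hc, div_pow, inv_div]
      congr 1
      calc √(2 * b) ^ 3 = √(2 * b) ^ 2 * √(2 * b) := by ring
        _ = _ := by rw [Real.sq_sqrt (by positivity)]
    rw [e1, div_le_iff₀ (by have := Real.pi_pos; positivity)]
    have e2 : √(2 * b) ≤ 2 * √b := by
      rw [Real.sqrt_mul (by norm_num)]
      gcongr
      rw [Real.sqrt_le_left (by norm_num)]
      norm_num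
    have e3 : √b ≤ √B := Real.sqrt_le_sqrt hble
    have e4 : (4 : ℝ) ≤ (2 * Real.pi) ^ 3 := by
      have := Real.pi_gt_three
      calc (4 : ℝ) ≤ (2 * 3) ^ 3 := by norm_num
        _ ≤ _ := by gcongr
    have hB0 : 0 ≤ B := hb.le.trans hble
    calc 2 * b * √(2 * b) ≤ 2 * B * (2 * √B) := by
          have := e2.trans (mul_le_mul_of_nonneg_left e3 (by norm_num : (0 : ℝ) ≤ 2))
          gcongr
      _ = (B * √B) * 4 := by ring
      _ ≤ _ := by gcongr
  have hB0 : 0 ≤ B := hb.le.trans hble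
  calc G0 ρ u ≤ (c ^ 3)⁻¹ * I := h1.trans_eq h2
    _ ≤ (B * √B) * I := by gcongr
    _ ≤ (I + 1) * (B * √B) := by nlinarith [mul_nonneg hB0 (Real.sqrt_nonneg B)]

end Pool.Agent.BG
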