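import Pool.Agent.BG.CT

/-! MP_2d9608_mp, project BG, row BG-21 -/

set_option autoImplicit false

open MeasureTheory ProbabilityTheory H47.SE Filter
open scoped ComplexConjugate Topology ENNReal

noncomputable section

namespace Pool.Agent.BG

/-- the correlation of `u` and `f` -/
private def bg21_h (f u : E3 → ℝ) (y : E3) : ℂ := ∫ x, (u x : ℂ) * (f (x + y) : ℂ)

private theorem bg21_prod {f u : E3 → ℝ} (hf : Integrable f) (hu : Integrable u) :
    Integrable (fun p : E3 × E3 => (u p.1 : ℂ) * (f (p.1 + p.2) : ℂ))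
      ((volume : Measure E3).prod (volume : Measure E3)) := by
  have h1 : Integrable (fun p : E3 × E3 => (u p.1 : ℂ) * (f p.2 : ℂ))
      ((volume : Measure E3).prod (volume : Measure E3)) :=
    (hu.ofReal (𝕜 := ℂ)).mul_prod (hf.ofReal (𝕜 := ℂ))
  have h2 := measurePreserving_prod_add (volume : Measure E3) (volume : Measure E3)
  exact h2.integrable_comp_of_integrable h1

private theorem bg21_int {f u : E3 → ℝ} (hf : Integrable f) (hu : Integrable u) :
    Integrable (bg21_h f u) :=
  (bg21_prod hf hu).integral_prod_right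

private theorem bg21_cont {f u : E3 → ℝ} (hf : Integrable f) (hu : Integrable u) {C : ℝ}
    (hub : ∀ᵐ x, |u x| ≤ C) : Continuous (bg21_h f u) := by
  have hC : 0 ≤ C := by
    obtain ⟨x, hx⟩ := hub.exists
    exact (abs_nonneg _).trans hx
  refine continuous_of_uniform_approx_of_continuous fun s hs => ?_
  obtain ⟨ε, hε, hεs⟩ := Metric.mem_uniformity_dist.1 hs
  obtain ⟨g, hgs, hgI, hgc, hgi⟩ := hf.exists_hasCompactSupport_integral_sub_le
    (ε := ε / (2 * (C + 1))) (by positivity)
  refine ⟨bg21_h g u, ?_, fun y => hεs ?_⟩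
  · obtain ⟨B, hB⟩ := hgs.exists_bound_of_continuous hgc
    unfold bg21_h
    refine continuous_of_dominated (bound := fun x => B * |u x|) (fun y => ?_)
      (fun y => ae_of_all _ fun x => ?_) (hu.abs.const_mul B) (ae_of_all _ fun x => ?_)
    · exact (hu.ofReal (𝕜 := ℂ)).aestronglyMeasurable.mul
        (Complex.continuous_ofReal.comp (hgc.comp (continuous_id.add continuous_const))).aestronglyMeasurable
    · rw [norm_mul, Complex.norm_real, Complex.norm_real, mul_comm]
      exact mul_le_mul_of_nonneg_right (hB _) (abs_nonneg _)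
    · exact continuous_const.mul (Complex.continuous_ofReal.comp
        (hgc.comp (continuous_const.add continuous_id)))
  · have hfy : Integrable (fun x => f (x + y)) := hf.comp_add_right y
    have hgy : Integrable (fun x => g (x + y)) := hgi.comp_add_right y
    have hm : ∀ {q : E3 → ℝ}, Integrable q → Integrable fun x => (u x : ℂ) * (q x : ℂ) := by
      intro q hq
      refine (hq.ofReal (𝕜 := ℂ)).bdd_mul (c := C) (hu.ofReal (𝕜 := ℂ)).aestronglyMeasurable ?_
      filter_upwards [hub] with x hx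
      rw [Complex.norm_real]; exact hx
    have e1 : bg21_h f u y - bg21_h g u y = ∫ x, (u x : ℂ) * ((f (x + y) - g (x + y) : ℝ) : ℂ) := by
      unfold bg21_h
      rw [← integral_sub (hm hfy) (hm hgy)]
      refine integral_congr_ae (ae_of_all _ fun x => ?_)
      push_cast; ring
    rw [dist_eq_norm, e1]
    have e2 : ‖∫ x, (u x : ℂ) * ((f (x + y) - g (x + y) : ℝ) : ℂ)‖ ≤
        ∫ x, C * ‖f (x + y) - g (x + y)‖ := by
      refine norm_integral_le_of_norm_le ((hfy.sub hgy).norm.const_mul C) ?_
      filter_upwards [hub] with x hx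
      rw [norm_mul, Complex.norm_real, Complex.norm_real]
      exact mul_le_mul_of_nonneg_right hx (norm_nonneg _)
    have e3 : ∫ x, C * ‖f (x + y) - g (x + y)‖ = C * ∫ x, ‖f x - g x‖ := by
      rw [integral_const_mul, integral_add_right_eq_self (fun x => ‖f x - g x‖) y]
    have e4 : C * (∫ x, ‖f x - g x‖) ≤ C * (ε / (2 * (C + 1))) :=
      mul_le_mul_of_nonneg_left hgI hC
    have e5 : C * (ε / (2 * (C + 1))) < ε := by
      rw [← mul_div_assoc, div_lt_iff₀ (by positivity)]
      nlinarith
    linarith [e2, e3, e4, e5]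

private theorem bg21_fourier {f u : E3 → ℝ} (hf : Integrable f) (hu : Integrable u) (ξ : E3) :
    FourierTransform.fourier (bg21_h f u) ξ =
      FourierTransform.fourier (fun x => (f x : ℂ)) ξ *
        conj (FourierTransform.fourier (fun x => (u x : ℂ)) ξ) := by
  have hI : Integrable (fun p : E3 × E3 =>
      Complex.exp (((-2 * Real.pi * inner ℝ p.2 ξ : ℝ) : ℂ) * Complex.I) *
        ((u p.1 : ℂ) * (f (p.1 + p.2) : ℂ)))
      ((volume : Measure E3).prod (volume : Measure E3)) := by
    refine (bg21_prod hf hu).bdd_mul (c := 1) ?_ (ae_of_all _ fun p => ?_)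
    · refine Continuous.aestronglyMeasurable ?_
      fun_prop
    · rw [Complex.norm_exp_ofReal_mul_I]
  rw [Real.fourier_eq', Real.fourier_eq', Real.fourier_eq', ← integral_conj]
  calc ∫ y, Complex.exp (((-2 * Real.pi * inner ℝ y ξ : ℝ) : ℂ) * Complex.I) • bg21_h f u y
      = ∫ y, ∫ x, Complex.exp (((-2 * Real.pi * inner ℝ y ξ : ℝ) : ℂ) * Complex.I) *
        ((u x : ℂ) * (f (x + y) : ℂ)) := by
        congr 1; funext y
        rw [smul_eq_mul, bg21_h, integral_const_mul]
    _ = ∫ x, ∫ y, Complex.exp (((-2 * Real.pi * inner ℝ y ξ : ℝ) : ℂ) * Complex.I) *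
        ((u x : ℂ) * (f (x + y) : ℂ)) := (integral_integral_swap (f := fun x y : E3 =>
          Complex.exp (((-2 * Real.pi * inner ℝ y ξ : ℝ) : ℂ) * Complex.I) *
        ((u x : ℂ) * (f (x + y) : ℂ))) hI).symm
    _ = ∫ x, (∫ y, Complex.exp (((-2 * Real.pi * inner ℝ y ξ : ℝ) : ℂ) * Complex.I) • (f y : ℂ)) *
        conj (Complex.exp (((-2 * Real.pi * inner ℝ x ξ : ℝ) : ℂ) * Complex.I) • (u x : ℂ)) := by
        congr 1; funext x
        rw [← integral_add_left_eq_self (fun y => Complex.exp (((-2 * Real.pi * inner ℝ y ξ : ℝ) : ℂ) * Complex.I) • (f y : ℂ)) x,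
          ← integral_mul_const]
        congr 1; funext y
        rw [inner_add_left]
        simp only [smul_eq_mul, map_mul, ← Complex.exp_conj, Complex.conj_ofReal, Complex.conj_I]
        have e : Complex.exp (((-2 * Real.pi * (inner ℝ x ξ + inner ℝ y ξ) : ℝ) : ℂ) * Complex.I) *
            Complex.exp (((-2 * Real.pi * inner ℝ x ξ : ℝ) : ℂ) * -Complex.I) =
            Complex.exp (((-2 * Real.pi * inner ℝ y ξ : ℝ) : ℂ) * Complex.I) := by
          rw [← Complex.exp_add]
          congr 1
          push_cast; ring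
        rw [← e]
        ring
    _ = _ := by
      rw [integral_const_mul]

theorem tendsto_gauss {f u : E3 → ℝ} (hf : Integrable f) (hu : Integrable u) {C : ℝ}
    (hub : ∀ᵐ x, |u x| ≤ C) :
    Tendsto (fun η : ℝ => ∫ ξ, Real.exp (-η * ‖ξ‖ ^ 2) * (ct f ξ * ct u ξ + st f ξ * st u ξ))
      (𝓝[>] 0) (𝓝 (∫ x, f x * u x)) := by
  have h0 := (Real.tendsto_integral_gaussian_smul' (bg21_int hf hu)
    (v := (0 : E3)) (bg21_cont hf hu hub).continuousAt).comp tendsto_inv_nhdsGT_zero
  have h1 := (Complex.continuous_re.tendsto _).comp h0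
  have e0 : (bg21_h f u 0).re = ∫ x, f x * u x := by
    unfold bg21_h
    have : ∀ x : E3, (u x : ℂ) * (f (x + 0) : ℂ) = ((f x * u x : ℝ) : ℂ) := by
      intro x; rw [add_zero]; push_cast; ring
    simp only [this]
    rw [integral_complex_ofReal, Complex.ofReal_re]
  rw [e0] at h1
  refine h1.congr' ?_
  filter_upwards [self_mem_nhdsWithin] with η hη
  have hη' : (0 : ℝ) < η := hη
  simp only [Function.comp_apply]
  have hg : Integrable (fun v : E3 => Complex.exp (-(η : ℂ) * (‖v‖ : ℂ) ^ 2)) := by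
    have h := GaussianFourier.integrable_cexp_neg_mul_sq_norm_add (V := E3) (b := (η : ℂ))
      (by simpa using hη') 0 0
    refine h.congr (ae_of_all _ fun y => ?_)
    simp
  have hself := VectorFourier.integral_fourierIntegral_smul_eq_flip (L := innerₗ E3)
    (μ := volume) (ν := volume)
    Real.continuous_fourierChar continuous_inner hg (bg21_int hf hu)
  have hL : ∫ w : E3, (((Real.pi : ℂ) * ((η⁻¹ : ℝ) : ℂ)) ^ ((Module.finrank ℝ E3 : ℂ) / 2) *
      Complex.exp (-(Real.pi : ℂ) ^ 2 * ((η⁻¹ : ℝ) : ℂ) * (‖(0 : E3) - w‖ : ℂ) ^ 2)) • bg21_h f u w =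
      ∫ w : E3, FourierTransform.fourier (fun v : E3 => Complex.exp (-(η : ℂ) * (‖v‖ : ℂ) ^ 2)) w •
        bg21_h f u w := by
    congr 1; funext w
    rw [fourier_gaussian_innerProductSpace (by simpa using hη') w]
    congr 2
    · congr 1
      push_cast
      rfl
    · congr 1
      rw [zero_sub, norm_neg]
      push_cast
      field_simp
  have hR : ∫ w : E3, FourierTransform.fourier (fun v : E3 => Complex.exp (-(η : ℂ) * (‖v‖ : ℂ) ^ 2)) w •
        bg21_h f u w = ∫ v : E3, Complex.exp (-(η : ℂ) * (‖v‖ : ℂ) ^ 2) •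
          FourierTransform.fourier (bg21_h f u) v := by
    simpa using! hself
  have hFI : Integrable (fun v : E3 => Complex.exp (-(η : ℂ) * (‖v‖ : ℂ) ^ 2) •
          FourierTransform.fourier (bg21_h f u) v) := by
    have h := hg.bdd_mul (c := ∫ v, ‖bg21_h f u v‖) (f := fun v : E3 =>
      FourierTransform.fourier (bg21_h f u) v) ?_ (ae_of_all _ fun v => ?_)
    · refine h.congr (ae_of_all _ fun v => ?_)
      simp only [smul_eq_mul]
      ring
    · exact (VectorFourier.fourierIntegral_continuous Real.continuous_fourierChar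
        continuous_inner (bg21_int hf hu)).aestronglyMeasurable
    · exact VectorFourier.norm_fourierIntegral_le_integral_norm _ _ _ _ _
  rw [hL, hR, ← RCLike.re_eq_complex_re, ← integral_re hFI]
  refine integral_congr_ae (ae_of_all _ fun ξ => ?_)
  simp only
  rw [bg21_fourier hf hu, fourier_eq_ct f ξ hf, fourier_eq_ct u ξ hu]
  have e : Complex.exp (-(η : ℂ) * (‖ξ‖ : ℂ) ^ 2) = ((Real.exp (-η * ‖ξ‖ ^ 2) : ℝ) : ℂ) := by
    push_cast; rfl
  rw [e, smul_eq_mul, RCLike.re_eq_complex_re, Complex.re_ofReal_mul]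
  simp

end Pool.Agent.BG
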