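import Pool.Agent.BG.IntGam

/-! MP_2d9608_mp, project BG, row BG-32 -/

set_option autoImplicit false

open MeasureTheory ProbabilityTheory H47.SE Filter
open scoped ComplexConjugate Topology ENNReal

noncomputable section

namespace Pool.Agent.BG

variable {κ ρ : ℝ} {w u : E3 → ℝ}

theorem bg32_ae (h : Sol κ ρ w u) : ∀ᵐ ξ : E3, |UU ρ u ξ| < 1 := by
  have h0 : ∀ᵐ ξ : E3, ξ ≠ 0 := compl_mem_ae_iff.2 (measure_singleton 0)
  filter_upwards [h0] with ξ hξ
  exact h.UU_lt hξ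

theorem bg32_pos {t : ℝ} (ht : |t| < 1) : 0 < 1 - t ^ 2 ∧ 0 < 1 + t := by
  have h1 := abs_lt.1 ht
  have h2 : t ^ 2 < 1 := by
    have := sq_lt_one_iff_abs_lt_one t
    exact this.2 ht
  exact ⟨by linarith, by linarith [h1.1]⟩

theorem bg32_gam {t : ℝ} (ht : |t| < 1) : gam t = t ^ 2 + t * del t := by
  have h := (bg32_pos ht).1.ne'
  unfold gam del
  field_simp
  ring

theorem bg32_del {t : ℝ} (ht : |t| < 1) : del t = t ^ 3 + t ^ 2 * del t := by
  have h := (bg32_pos ht).1.ne'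
  unfold del
  field_simp
  ring

theorem bg32_sub {t : ℝ} (ht : |t| < 1) : t ^ 2 / (1 + t) = gam t - del t := by
  have h := (bg32_pos ht).1.ne'
  have h' := (bg32_pos ht).2.ne'
  unfold gam del
  rw [← sub_div, div_eq_div_iff h' h]
  ring

/-- product of a bounded continuous function and an integrable function -/
theorem bg32_mul {f g : E3 → ℝ} {C : ℝ} (hf : Continuous f) (hb : ∀ x, |f x| ≤ C)
    (hg : Integrable g) : Integrable fun x => f x * g x :=
  hg.bdd_mul hf.aestronglyMeasurable (Eventually.of_forall hb)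

theorem bg32_lin2 {f g : E3 → ℝ} (hf : Integrable f) (hg : Integrable g) (a b : ℝ) :
    Integrable (fun x => a * f x + b * g x) ∧
      ∫ x, (a * f x + b * g x) = a * (∫ x, f x) + b * ∫ x, g x := by
  refine ⟨(hf.const_mul a).add (hg.const_mul b), ?_⟩
  rw [integral_add (hf.const_mul a) (hg.const_mul b), integral_const_mul, integral_const_mul]

theorem bg32_lin3 {f g k : E3 → ℝ} (hf : Integrable f) (hg : Integrable g) (hk : Integrable k)
    (a b c : ℝ) : Integrable (fun x => a * f x + b * g x + c * k x) ∧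
      ∫ x, (a * f x + b * g x + c * k x) = a * (∫ x, f x) + b * (∫ x, g x) + c * ∫ x, k x := by
  have h1 := bg32_lin2 hf hg a b
  refine ⟨h1.1.add (hk.const_mul c), ?_⟩
  rw [integral_add h1.1 (hk.const_mul c), h1.2, integral_const_mul]

theorem bg32_lin4 {f g k l : E3 → ℝ} (hf : Integrable f) (hg : Integrable g) (hk : Integrable k)
    (hl : Integrable l) (a b c d : ℝ) :
    Integrable (fun x => a * f x + b * g x + c * k x + d * l x) ∧
      ∫ x, (a * f x + b * g x + c * k x + d * l x) =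
        a * (∫ x, f x) + b * (∫ x, g x) + c * (∫ x, k x) + d * ∫ x, l x := by
  have h1 := bg32_lin3 hf hg hk a b c
  refine ⟨h1.1.add (hl.const_mul d), ?_⟩
  rw [integral_add h1.1 (hl.const_mul d), h1.2, integral_const_mul]

theorem bg32_lin5 {f g k l m : E3 → ℝ} (hf : Integrable f) (hg : Integrable g)
    (hk : Integrable k) (hl : Integrable l) (hm : Integrable m) (a b c d e : ℝ) :
    ∫ x, (a * f x + b * g x + c * k x + d * l x + e * m x) =
        a * (∫ x, f x) + b * (∫ x, g x) + c * (∫ x, k x) + d * (∫ x, l x) + e * ∫ x, m x := by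
  have h1 := bg32_lin4 hf hg hk hl a b c d
  rw [integral_add h1.1 (hm.const_mul e), h1.2, integral_const_mul]

theorem Sol.ident (h : Sol κ ρ w u) :
    FK κ ρ w u - ρ / 2 * bb κ ρ w u =
      ρ * κ * (∫ ξ, (-(((∫ x, w x) - ct w ξ) * (UU ρ u ξ ^ 2 / (1 + UU ρ u ξ))) -
        1 / 2 * ((∫ x, (1 - u x) * w x) - ct (fun x => (1 - u x) * w x) ξ) * del (UU ρ u ξ) +
        (∫ x, u x * w x) * (UU ρ u ξ ^ 2 / (1 + UU ρ u ξ)))) +
      κ * ρ * (∫ x, w x * (u x * ct (fun ξ => del (UU ρ u ξ)) x)) +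
      G0 ρ u * κ * ρ * (∫ x, u x * w x) -
      G0 ρ u * κ * (∫ x, w x * (ct (fun ξ => gam (UU ρ u ξ)) x -
        ct (fun ξ => del (UU ρ u ξ)) x)) +
      κ / 2 * ∫ x, w x * (ct (fun ξ => del (UU ρ u ξ)) x ^ 2 +
        ct (fun ξ => gam (UU ρ u ξ)) x ^ 2) := by
  have hae := bg32_ae h
  have hUc := h.continuous_UU
  have hUb : ∀ ξ, |UU ρ u ξ| ≤ 1 := h.abs_UU_le
  have hU2b : ∀ ξ, |UU ρ u ξ ^ 2| ≤ 1 := fun ξ => by
    rw [abs_pow]; exact pow_le_one₀ (abs_nonneg _) (hUb ξ)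
  have Iγ := h.gam_int
  have Iδ := h.del_int
  have I2 := h.sq_int.1
  have I3 : Integrable fun ξ => UU ρ u ξ ^ 3 := by
    have := bg32_mul hUc hUb I2
    refine this.congr (Eventually.of_forall fun ξ => ?_)
    show UU ρ u ξ * UU ρ u ξ ^ 2 = UU ρ u ξ ^ 3
    ring
  have IUδ : Integrable fun ξ => UU ρ u ξ * del (UU ρ u ξ) := bg32_mul hUc hUb Iδ
  have IU2δ : Integrable fun ξ => UU ρ u ξ ^ 2 * del (UU ρ u ξ) :=
    bg32_mul (hUc.pow 2) hU2b Iδ
  have hgc : Continuous (ct fun x => (1 - u x) * w x) := continuous_ct h.g_int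
  have Igδ : Integrable fun ξ => ct (fun x => (1 - u x) * w x) ξ * del (UU ρ u ξ) :=
    bg32_mul hgc (abs_ct_le h.g_int) Iδ
  have hwc : Continuous (ct w) := continuous_ct h.wi
  have Iwγ : Integrable fun ξ => ct w ξ * gam (UU ρ u ξ) := bg32_mul hwc (abs_ct_le h.wi) Iγ
  have Iwδ : Integrable fun ξ => ct w ξ * del (UU ρ u ξ) := bg32_mul hwc (abs_ct_le h.wi) Iδ
  -- integrals over the frequencies
  have f1 : G0 ρ u = (∫ ξ, UU ρ u ξ ^ 2) + ∫ ξ, UU ρ u ξ * del (UU ρ u ξ) := by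
    unfold G0
    rw [← integral_add I2 IUδ]
    refine integral_congr_ae ?_
    filter_upwards [hae] with ξ hξ
    exact bg32_gam hξ
  have f2 : (∫ ξ, del (UU ρ u ξ)) = (∫ ξ, UU ρ u ξ ^ 3) +
      ∫ ξ, UU ρ u ξ ^ 2 * del (UU ρ u ξ) := by
    rw [← integral_add I3 IU2δ]
    refine integral_congr_ae ?_
    filter_upwards [hae] with ξ hξ
    exact bg32_del hξ
  have f3 := h.kin
  have f4 : (∫ ξ, lm ξ * gam (UU ρ u ξ)) = (∫ ξ, lm ξ * UU ρ u ξ ^ 2) +
      (ρ * κ * (∫ ξ, ct (fun x => (1 - u x) * w x) ξ * del (UU ρ u ξ)) -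
        2 * bb κ ρ w u * (∫ ξ, UU ρ u ξ * del (UU ρ u ξ)) +
        bb κ ρ w u * ∫ ξ, UU ρ u ξ ^ 2 * del (UU ρ u ξ)) := by
    have key := (bg32_lin4 h.lm_sq_int Igδ IUδ IU2δ 1 (ρ * κ) (-(2 * bb κ ρ w u))
      (bb κ ρ w u)).2
    have e0 : (∫ ξ, lm ξ * gam (UU ρ u ξ)) = ∫ ξ, (1 * (lm ξ * UU ρ u ξ ^ 2) +
        ρ * κ * (ct (fun x => (1 - u x) * w x) ξ * del (UU ρ u ξ)) +
        -(2 * bb κ ρ w u) * (UU ρ u ξ * del (UU ρ u ξ)) +
        bb κ ρ w u * (UU ρ u ξ ^ 2 * del (UU ρ u ξ))) := by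
      refine integral_congr_ae ?_
      filter_upwards [hae] with ξ hξ
      have e1 := bg32_gam hξ
      have e2 := h.lm_UU ξ
      rw [e1]
      linear_combination del (UU ρ u ξ) * e2
    rw [e0, key]
    ring
  have f5 : (∫ ξ, (-(((∫ x, w x) - ct w ξ) * (UU ρ u ξ ^ 2 / (1 + UU ρ u ξ))) -
        1 / 2 * ((∫ x, (1 - u x) * w x) - ct (fun x => (1 - u x) * w x) ξ) * del (UU ρ u ξ) +
        (∫ x, u x * w x) * (UU ρ u ξ ^ 2 / (1 + UU ρ u ξ)))) =
      ((∫ x, u x * w x) - ∫ x, w x) * G0 ρ u +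
      ((∫ x, w x) - (∫ x, u x * w x) - 1 / 2 * ∫ x, (1 - u x) * w x) * (∫ ξ, del (UU ρ u ξ)) +
      (∫ ξ, ct w ξ * gam (UU ρ u ξ)) - (∫ ξ, ct w ξ * del (UU ρ u ξ)) +
      1 / 2 * ∫ ξ, ct (fun x => (1 - u x) * w x) ξ * del (UU ρ u ξ) := by
    unfold G0
    rw [← one_mul (∫ ξ, ct w ξ * gam (UU ρ u ξ)), sub_eq_add_neg _ (∫ ξ, ct w ξ * del (UU ρ u ξ)),
      ← neg_one_mul (∫ ξ, ct w ξ * del (UU ρ u ξ)), ← bg32_lin5 Iγ Iδ Iwγ Iwδ Igδ]
    refine integral_congr_ae ?_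
    filter_upwards [hae] with ξ hξ
    rw [bg32_sub hξ]
    ring
  -- integrals over the space
  have hDc : Continuous (ct fun ξ => del (UU ρ u ξ)) := continuous_ct Iδ
  have hΓc : Continuous (ct fun ξ => gam (UU ρ u ξ)) := continuous_ct Iγ
  set D : E3 → ℝ := ct fun ξ => del (UU ρ u ξ) with hD
  set Γ : E3 → ℝ := ct fun ξ => gam (UU ρ u ξ) with hΓ
  set CD : ℝ := ∫ ξ, |del (UU ρ u ξ)| with hCD
  set CΓ : ℝ := ∫ ξ, |gam (UU ρ u ξ)| with hCΓ
  have hDb : ∀ x, |D x| ≤ CD := abs_ct_le Iδ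
  have hΓb : ∀ x, |Γ x| ≤ CΓ := abs_ct_le Iγ
  have IDw : Integrable fun x => D x * w x := bg32_mul hDc hDb h.wi
  have IΓw : Integrable fun x => Γ x * w x := bg32_mul hΓc hΓb h.wi
  have Iuw := h.uw_int
  have IDuw : Integrable fun x => D x * (u x * w x) := bg32_mul hDc hDb Iuw
  have IDDw : Integrable fun x => D x * (D x * w x) := bg32_mul hDc hDb IDw
  have IΓΓw : Integrable fun x => Γ x * (Γ x * w x) := bg32_mul hΓc hΓb IΓw
  have Iuuw : Integrable fun x => u x * (u x * w x) := by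
    refine Iuw.bdd_mul (c := 1) h.ui.aestronglyMeasurable ?_
    filter_upwards [h.ub] with x hx
    rw [Real.norm_eq_abs, abs_of_nonneg hx.1]
    exact hx.2
  have g1 : (∫ x, w x * (-(ρ * u x) - D x + Γ x)) = -(ρ * ∫ x, u x * w x) -
      (∫ x, D x * w x) + ∫ x, Γ x * w x := by
    have key := (bg32_lin3 Iuw IDw IΓw (-ρ) (-1) 1).2
    have e0 : (∫ x, w x * (-(ρ * u x) - D x + Γ x)) =
        ∫ x, (-ρ * (u x * w x) + -1 * (D x * w x) + 1 * (Γ x * w x)) :=
      integral_congr_ae (Eventually.of_forall fun x => by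
        show w x * (-(ρ * u x) - D x + Γ x) = -ρ * (u x * w x) + -1 * (D x * w x) + 1 * (Γ x * w x)
        ring)
    rw [e0, key]
    ring
  have g2 : (∫ x, w x * ((ρ * u x + D x) ^ 2 + Γ x ^ 2)) =
      ρ ^ 2 * (∫ x, u x * (u x * w x)) + 2 * ρ * (∫ x, D x * (u x * w x)) +
        (∫ x, D x * (D x * w x)) + ∫ x, Γ x * (Γ x * w x) := by
    have key := (bg32_lin4 Iuuw IDuw IDDw IΓΓw (ρ ^ 2) (2 * ρ) 1 1).2
    have e0 : (∫ x, w x * ((ρ * u x + D x) ^ 2 + Γ x ^ 2)) =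
        ∫ x, (ρ ^ 2 * (u x * (u x * w x)) + 2 * ρ * (D x * (u x * w x)) +
          1 * (D x * (D x * w x)) + 1 * (Γ x * (Γ x * w x))) :=
      integral_congr_ae (Eventually.of_forall fun x => by
        show w x * ((ρ * u x + D x) ^ 2 + Γ x ^ 2) = ρ ^ 2 * (u x * (u x * w x)) +
          2 * ρ * (D x * (u x * w x)) + 1 * (D x * (D x * w x)) + 1 * (Γ x * (Γ x * w x))
        ring)
    rw [e0, key]
    ring
  have g3 : (∫ x, w x * (u x * D x)) = ∫ x, D x * (u x * w x) :=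
    integral_congr_ae (Eventually.of_forall fun x => by
      show w x * (u x * D x) = D x * (u x * w x)
      ring)
  have g4 : (∫ x, w x * (Γ x - D x)) = (∫ x, Γ x * w x) - ∫ x, D x * w x := by
    rw [← integral_sub IΓw IDw]
    refine integral_congr_ae (Eventually.of_forall fun x => ?_)
    show w x * (Γ x - D x) = Γ x * w x - D x * w x
    ring
  have g5 : (∫ x, w x * (D x ^ 2 + Γ x ^ 2)) =
      (∫ x, D x * (D x * w x)) + ∫ x, Γ x * (Γ x * w x) := by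
    rw [← integral_add IDDw IΓΓw]
    refine integral_congr_ae (Eventually.of_forall fun x => ?_)
    show w x * (D x ^ 2 + Γ x ^ 2) = D x * (D x * w x) + Γ x * (Γ x * w x)
    ring
  have g6 : (∫ x, u x * ((1 - u x) * w x)) = (∫ x, u x * w x) - ∫ x, u x * (u x * w x) := by
    rw [← integral_sub Iuw Iuuw]
    refine integral_congr_ae (Eventually.of_forall fun x => ?_)
    show u x * ((1 - u x) * w x) = u x * w x - u x * (u x * w x)
    ring
  have g7 : (∫ x, Γ x * w x) = ∫ ξ, ct w ξ * gam (UU ρ u ξ) := by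
    rw [← flip_ct h.wi Iγ]
    refine integral_congr_ae (Eventually.of_forall fun x => ?_)
    exact mul_comm _ _
  have g8 : (∫ x, D x * w x) = ∫ ξ, ct w ξ * del (UU ρ u ξ) := by
    rw [← flip_ct h.wi Iδ]
    refine integral_congr_ae (Eventually.of_forall fun x => ?_)
    exact mul_comm _ _
  have g9 := h.g_eq
  unfold FK
  rw [f5, f4, g1, g2, g3, g4, g5, g7, g8, f1, f2]
  rw [g6] at f3
  unfold bb at f3 ⊢
  rw [g9] at f3 ⊢
  linear_combination (1 / 2) * f3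

end Pool.Agent.BG
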