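import Pool.Agent.BG.Ident

/-! MP_2d9608_mp, project BG, row BG-33 -/

set_option autoImplicit false

open MeasureTheory ProbabilityTheory H47.SE Filter
open scoped ComplexConjugate Topology ENNReal

noncomputable section

namespace Pool.Agent.BG

variable {κ ρ : ℝ} {w u : E3 → ℝ}

theorem bg33_U (h : Sol κ ρ w u) (ξ : E3) : -(1 / 2) ≤ UU ρ u ξ ∧ UU ρ u ξ ≤ 1 := by
  have h1 := h.abs_UU_le ξ
  have h2 := (alg (h.one_le_xx ξ) (h.abs_GG_le ξ) h1 (h.quad ξ)).2.2.1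
  refine ⟨?_, (abs_le.1 h1).2⟩
  by_contra hc
  push Not at hc
  have h3 := h2 (by linarith)
  have h4 := (abs_le.1 h3).1
  linarith

theorem bg33_pt {U A B : ℝ} (h1 : -(1 / 2) ≤ U) (h2 : U ≤ 1) (hB : 0 ≤ B) (hBA : B ≤ A) :
    -(A * (U ^ 2 / (1 + U))) - 1 / 2 * B * del U ≤ -(1 / 2) * (A * U ^ 2) := by
  have hA : 0 ≤ A := hB.trans hBA
  rcases le_or_gt 0 U with hU | hU
  · have h3 : 0 ≤ del U := div_nonneg (pow_nonneg hU 3) (by nlinarith)
    have h4 : U ^ 2 / 2 ≤ U ^ 2 / (1 + U) :=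
      div_le_div_of_nonneg_left (sq_nonneg U) (by linarith) (by linarith)
    have h5 := mul_le_mul_of_nonneg_left h4 hA
    have h6 := mul_nonneg hB h3
    nlinarith
  · have h3 : 0 < 1 - U ^ 2 := by nlinarith
    have h4 : 0 < 1 + U := by linarith
    have h5 : del U ≤ 0 := by
      unfold del
      refine div_nonpos_of_nonpos_of_nonneg ?_ h3.le
      have : U ^ 3 = U * U ^ 2 := by ring
      rw [this]
      exact mul_nonpos_of_nonpos_of_nonneg hU.le (sq_nonneg U)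
    have h6 : A * del U ≤ B * del U := mul_le_mul_of_nonpos_right hBA h5
    have h7 : -(A * (U ^ 2 / (1 + U))) - 1 / 2 * A * del U - -(1 / 2) * (A * U ^ 2) =
        -(1 / 2 * (A * (U ^ 2 * (1 - U + U ^ 2) / (1 - U ^ 2)))) := by
      unfold del
      have h8 : 1 - U ^ 2 = (1 - U) * (1 + U) := by ring
      have h9 : 1 - U ≠ 0 := by linarith
      rw [h8]
      field_simp
      ring
    have h8 : 0 ≤ A * (U ^ 2 * (1 - U + U ^ 2) / (1 - U ^ 2)) :=
      mul_nonneg hA (div_nonneg (mul_nonneg (sq_nonneg U) (by nlinarith)) h3.le)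
    nlinarith

theorem bg33_del (U : ℝ) : del U = U * gam U := by
  unfold del gam
  ring

theorem bg33_gam_nonneg {U : ℝ} (h1 : -(1 / 2) ≤ U) (h2 : U ≤ 1) : 0 ≤ gam U :=
  div_nonneg (sq_nonneg U) (by nlinarith)

theorem bg33_abs_del {U : ℝ} (h1 : -(1 / 2) ≤ U) (h2 : U ≤ 1) : |del U| ≤ gam U := by
  rw [bg33_del, abs_mul, abs_of_nonneg (bg33_gam_nonneg h1 h2)]
  have h3 : |U| ≤ 1 := abs_le.2 ⟨by linarith, h2⟩
  have := mul_le_mul_of_nonneg_right h3 (bg33_gam_nonneg h1 h2)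
  linarith

theorem bg33_abs_sub {U : ℝ} (h1 : -(1 / 2) ≤ U) (h2 : U ≤ 1) :
    |gam U - del U| ≤ 3 / 2 * gam U := by
  have h3 := bg33_gam_nonneg h1 h2
  have e : gam U - del U = (1 - U) * gam U := by rw [bg33_del]; ring
  rw [e, abs_of_nonneg (mul_nonneg (by linarith) h3)]
  exact mul_le_mul_of_nonneg_right (by linarith) h3

theorem bg33_le_gam {U : ℝ} (h1 : -(1 / 2) ≤ U) (h2 : U < 1) :
    U ^ 2 / (1 + U) ≤ 3 / 2 * gam U := by
  have h3 := bg33_gam_nonneg h1 h2.le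
  have e : U ^ 2 / (1 + U) = (1 - U) * gam U := by
    unfold gam
    have h8 : 1 - U ^ 2 = (1 - U) * (1 + U) := by ring
    have h9 : 1 - U ≠ 0 := by linarith
    have h10 : 1 + U ≠ 0 := by linarith
    rw [h8]
    field_simp
  rw [e]
  exact mul_le_mul_of_nonneg_right (by linarith) h3

theorem bg33_G0 (h : Sol κ ρ w u) : 0 ≤ G0 ρ u :=
  integral_nonneg fun ξ => bg33_gam_nonneg (bg33_U h ξ).1 (bg33_U h ξ).2

theorem bg33_ct_gam (h : Sol κ ρ w u) (x : E3) :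
    |ct (fun ξ => gam (UU ρ u ξ)) x| ≤ G0 ρ u := by
  refine (abs_ct_le h.gam_int x).trans (le_of_eq ?_)
  unfold G0
  refine integral_congr_ae (Eventually.of_forall fun ξ => ?_)
  exact abs_of_nonneg (bg33_gam_nonneg (bg33_U h ξ).1 (bg33_U h ξ).2)

theorem bg33_ct_del (h : Sol κ ρ w u) (x : E3) :
    |ct (fun ξ => del (UU ρ u ξ)) x| ≤ G0 ρ u := by
  refine (abs_ct_le h.del_int x).trans ?_
  unfold G0
  exact integral_mono h.del_int.abs h.gam_int
    fun ξ => bg33_abs_del (bg33_U h ξ).1 (bg33_U h ξ).2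

theorem bg33_ct_sub (h : Sol κ ρ w u) (x : E3) :
    |ct (fun ξ => gam (UU ρ u ξ)) x - ct (fun ξ => del (UU ρ u ξ)) x| ≤ 3 / 2 * G0 ρ u := by
  refine (abs_ct_sub_le h.gam_int h.del_int x).trans ?_
  unfold G0
  rw [← integral_const_mul]
  exact integral_mono (h.gam_int.sub h.del_int).abs (h.gam_int.const_mul _)
    fun ξ => bg33_abs_sub (bg33_U h ξ).1 (bg33_U h ξ).2

theorem bg33_main (h : Sol κ ρ w u) :
    (∫ ξ, (-(((∫ x, w x) - ct w ξ) * (UU ρ u ξ ^ 2 / (1 + UU ρ u ξ))) -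
        1 / 2 * ((∫ x, (1 - u x) * w x) - ct (fun x => (1 - u x) * w x) ξ) * del (UU ρ u ξ) +
        (∫ x, u x * w x) * (UU ρ u ξ ^ 2 / (1 + UU ρ u ξ)))) ≤
      -(1 / 2) * JJ ρ w u + 3 / 2 * (∫ x, u x * w x) * G0 ρ u := by
  have hUc := h.continuous_UU
  have hq : Continuous fun ξ => UU ρ u ξ ^ 2 / (1 + UU ρ u ξ) :=
    (hUc.pow 2).div (continuous_const.add hUc) fun ξ => by
      have := (bg33_U h ξ).1
      linarith
  have hqb : ∀ ξ, ‖UU ρ u ξ ^ 2 / (1 + UU ρ u ξ)‖ ≤ 2 * UU ρ u ξ ^ 2 := by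
    intro ξ
    have h1 := (bg33_U h ξ).1
    have h2 : 0 < 1 + UU ρ u ξ := by linarith
    rw [Real.norm_eq_abs, abs_of_nonneg (div_nonneg (sq_nonneg _) h2.le), div_le_iff₀ h2]
    have := sq_nonneg (UU ρ u ξ)
    nlinarith
  have hqi : Integrable fun ξ => UU ρ u ξ ^ 2 / (1 + UU ρ u ξ) :=
    (h.sq_int.1.const_mul 2).mono' hq.aestronglyMeasurable (Eventually.of_forall hqb)
  have hAc : Continuous fun ξ => (∫ x, w x) - ct w ξ :=
    continuous_const.sub (continuous_ct h.wi)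
  have hBc : Continuous fun ξ => (∫ x, (1 - u x) * w x) - ct (fun x => (1 - u x) * w x) ξ :=
    continuous_const.sub (continuous_ct h.g_int)
  have hAb : ∀ ξ, (∫ x, w x) - ct w ξ ≤ 2 * ∫ x, w x := by
    intro ξ
    have h1 := abs_ct_le h.wi ξ
    have h2 : ∫ y, |w y| = ∫ y, w y := by
      congr 1
      funext y
      exact abs_of_nonneg (h.w0 y)
    rw [h2] at h1
    have := (abs_le.1 h1).1
    linarith
  have hA0 : ∀ ξ, 0 ≤ (∫ x, w x) - ct w ξ := fun ξ => (h.ct_g_le ξ).1.trans (h.ct_g_le ξ).2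
  have hI1 : Integrable fun ξ => ((∫ x, w x) - ct w ξ) * (UU ρ u ξ ^ 2 / (1 + UU ρ u ξ)) := by
    refine (hqi.norm.const_mul (2 * ∫ x, w x)).mono' (hAc.mul hq).aestronglyMeasurable
      (Eventually.of_forall fun ξ => ?_)
    rw [norm_mul, Real.norm_eq_abs, abs_of_nonneg (hA0 ξ)]
    exact mul_le_mul_of_nonneg_right (hAb ξ) (norm_nonneg _)
  have hI2 : Integrable fun ξ => 1 / 2 * ((∫ x, (1 - u x) * w x) -
      ct (fun x => (1 - u x) * w x) ξ) * del (UU ρ u ξ) := by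
    refine (h.del_int.norm.const_mul (2 * ∫ x, w x)).mono'
      ((continuous_const.mul hBc).aestronglyMeasurable.mul h.del_int.aestronglyMeasurable)
      (Eventually.of_forall fun ξ => ?_)
    have h1 := (h.ct_g_le ξ).1
    have h2 := (h.ct_g_le ξ).2.trans (hAb ξ)
    rw [norm_mul, Real.norm_eq_abs, abs_of_nonneg (mul_nonneg (by norm_num) h1)]
    refine mul_le_mul_of_nonneg_right ?_ (norm_nonneg _)
    linarith
  have hI4 : Integrable fun ξ => ((∫ x, w x) - ct w ξ) * UU ρ u ξ ^ 2 := by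
    refine (h.sq_int.1.const_mul (2 * ∫ x, w x)).mono' (hAc.mul (hUc.pow 2)).aestronglyMeasurable
      (Eventually.of_forall fun ξ => ?_)
    rw [norm_mul, Real.norm_eq_abs, abs_of_nonneg (hA0 ξ), Real.norm_eq_abs,
      abs_of_nonneg (sq_nonneg _)]
    exact mul_le_mul_of_nonneg_right (hAb ξ) (sq_nonneg _)
  have hr : -(1 / 2) * JJ ρ w u + 3 / 2 * (∫ x, u x * w x) * G0 ρ u =
      ∫ ξ, (-(1 / 2) * (((∫ x, w x) - ct w ξ) * UU ρ u ξ ^ 2) +
        (∫ x, u x * w x) * (3 / 2 * gam (UU ρ u ξ))) := by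
    rw [integral_add (hI4.const_mul _) ((h.gam_int.const_mul _).const_mul _),
      integral_const_mul, integral_const_mul, integral_const_mul]
    unfold JJ G0
    ring
  rw [hr]
  have hne : ∀ᵐ ξ : E3, ξ ≠ 0 := by
    rw [ae_iff]
    simp
  refine integral_mono_ae ((hI1.neg.sub hI2).add (hqi.const_mul _))
    ((hI4.const_mul _).add ((h.gam_int.const_mul _).const_mul _)) ?_
  filter_upwards [hne] with ξ hξ
  have h1 := bg33_U h ξ
  have h2 : UU ρ u ξ < 1 := (abs_lt.1 (h.UU_lt hξ)).2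
  refine add_le_add ?_ ?_
  · exact bg33_pt h1.1 h1.2 (h.ct_g_le ξ).1 (h.ct_g_le ξ).2
  · exact mul_le_mul_of_nonneg_left (bg33_le_gam h1.1 h2) h.uw_nonneg

theorem Sol.ineq (h : Sol κ ρ w u) :
    FK κ ρ w u - ρ / 2 * bb κ ρ w u ≤ -(1 / 2) * ρ * κ * JJ ρ w u +
      7 / 2 * ρ * κ * (∫ x, u x * w x) * G0 ρ u +
      5 / 2 * κ * (∫ x, w x) * G0 ρ u ^ 2 := by
  rw [h.ident]
  have hκ := h.hκ
  have hρ := h.hρ
  have hG := bg33_G0 h
  have ha := h.uw_nonneg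
  have h1 := mul_le_mul_of_nonneg_left (bg33_main h) (mul_pos hρ hκ).le
  -- the term with `u D`
  have h2 : ∫ x, w x * (u x * ct (fun ξ => del (UU ρ u ξ)) x) ≤ G0 ρ u * ∫ x, u x * w x := by
    refine (le_abs_self _).trans ?_
    rw [← Real.norm_eq_abs, ← integral_const_mul]
    refine norm_integral_le_of_norm_le (h.uw_int.const_mul _) ?_
    filter_upwards [h.ub] with x hx
    have h3 := bg33_ct_del h x
    rw [Real.norm_eq_abs, abs_mul, abs_mul, abs_of_nonneg (h.w0 x), abs_of_nonneg hx.1]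
    have h4 := mul_le_mul_of_nonneg_left h3 (mul_nonneg hx.1 (h.w0 x))
    nlinarith
  have h3 : -∫ x, w x * (ct (fun ξ => gam (UU ρ u ξ)) x - ct (fun ξ => del (UU ρ u ξ)) x) ≤
      3 / 2 * G0 ρ u * ∫ x, w x := by
    refine (neg_le_abs _).trans ?_
    rw [← Real.norm_eq_abs, ← integral_const_mul]
    refine norm_integral_le_of_norm_le (h.wi.const_mul _) (Eventually.of_forall fun x => ?_)
    have h4 := bg33_ct_sub h x
    rw [Real.norm_eq_abs, abs_mul, abs_of_nonneg (h.w0 x)]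
    have h5 := mul_le_mul_of_nonneg_left h4 (h.w0 x)
    nlinarith
  have h4 : ∫ x, w x * (ct (fun ξ => del (UU ρ u ξ)) x ^ 2 +
      ct (fun ξ => gam (UU ρ u ξ)) x ^ 2) ≤ 2 * G0 ρ u ^ 2 * ∫ x, w x := by
    refine (le_abs_self _).trans ?_
    rw [← Real.norm_eq_abs, ← integral_const_mul]
    refine norm_integral_le_of_norm_le (h.wi.const_mul _) (Eventually.of_forall fun x => ?_)
    have h5 := sq_le_sq' (by linarith [(abs_le.1 (bg33_ct_del h x)).1])
      (abs_le.1 (bg33_ct_del h x)).2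
    have h6 := sq_le_sq' (by linarith [(abs_le.1 (bg33_ct_gam h x)).1])
      (abs_le.1 (bg33_ct_gam h x)).2
    rw [Real.norm_eq_abs, abs_mul, abs_of_nonneg (h.w0 x), abs_of_nonneg (by positivity)]
    have h7 := mul_le_mul_of_nonneg_left (add_le_add h5 h6) (h.w0 x)
    nlinarith
  have h5 := mul_le_mul_of_nonneg_left h2 (mul_pos hκ hρ).le
  have h6 := mul_le_mul_of_nonneg_left h3 (mul_nonneg hG hκ.le)
  have h7 := mul_le_mul_of_nonneg_left h4 (show 0 ≤ κ / 2 by positivity)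
  have h8 : -(G0 ρ u * κ * ∫ x, w x * (ct (fun ξ => gam (UU ρ u ξ)) x -
      ct (fun ξ => del (UU ρ u ξ)) x)) = G0 ρ u * κ * -∫ x, w x *
      (ct (fun ξ => gam (UU ρ u ξ)) x - ct (fun ξ => del (UU ρ u ξ)) x) := by ring
  calc _ ≤ ρ * κ * (-(1 / 2) * JJ ρ w u + 3 / 2 * (∫ x, u x * w x) * G0 ρ u) +
        κ * ρ * (G0 ρ u * ∫ x, u x * w x) + G0 ρ u * κ * ρ * (∫ x, u x * w x) +
        G0 ρ u * κ * (3 / 2 * G0 ρ u * ∫ x, w x) + κ / 2 * (2 * G0 ρ u ^ 2 * ∫ x, w x) := by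
        rw [sub_eq_add_neg _ (G0 ρ u * κ * _), h8]
        exact add_le_add (add_le_add (add_le_add (add_le_add h1 h5) le_rfl) h6) h7
    _ = _ := by ring

end Pool.Agent.BG
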