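import Pool.Agent.BG.Kin
import Pool.Agent.BG.Quad

/-! MP_2d9608_mp, project BG, row BG-28 -/

set_option autoImplicit false

open MeasureTheory ProbabilityTheory H47.SE Filter
open scoped ComplexConjugate Topology ENNReal

noncomputable section

namespace Pool.Agent.BG

variable {κ ρ : ℝ} {w u : E3 → ℝ}

/-- the symbol is bounded below -/
theorem bg28_low (h : Sol κ ρ w u) : ∃ c > 0, ∀ ξ : E3, c * min (‖ξ‖ ^ 2) 1 ≤
    (∫ x, (1 - u x) * w x) * (1 - GG w u ξ) := by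
  -- a measurable representative
  obtain ⟨u', hu'm, hu'⟩ := h.ui.aestronglyMeasurable
  let v : E3 → ℝ := fun x => max 0 (min 1 (u' x))
  have hvm : Measurable v := measurable_const.max (measurable_const.min hu'm.measurable)
  have hv0 : ∀ x, 0 ≤ v x := fun x => le_max_left _ _
  have hv1 : ∀ x, v x ≤ 1 := fun x => max_le zero_le_one (min_le_left _ _)
  have huv : ∀ᵐ x, u x = v x := by
    filter_upwards [hu', h.ub] with x h1 h2
    simp only [v]
    rw [← h1, min_eq_right h2.2, max_eq_right h2.1]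
  let g : E3 → ℝ := fun x => (1 - v x) * w x
  have hgm : Measurable g := (measurable_const.sub hvm).mul h.wm
  have hg0 : ∀ x, 0 ≤ g x := fun x => mul_nonneg (by linarith [hv1 x]) (h.w0 x)
  have hgg : (fun x => (1 - u x) * w x) =ᵐ[volume] g := by
    filter_upwards [huv] with x h1
    simp only [g]
    rw [h1]
  have hgi : Integrable g := h.g_int.congr hgg
  have hgp : 0 < ∫ x, g x := by
    rw [← integral_congr_ae hgg]
    exact h.gpos
  obtain ⟨c, hc, hq⟩ := quad_unif hgm hg0 hgi hgp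
  refine ⟨c, hc, fun ξ => ?_⟩
  have h1 := hq (fun _ => 0) (integrable_zero _ _ _) (Eventually.of_forall fun _ => by simp)
    (by simpa using hc.le) (by simpa using hc.le) ξ
  rw [h.one_sub_GG ξ]
  refine h1.trans (le_of_eq ?_)
  refine integral_congr_ae ?_
  filter_upwards [huv] with y h2
  simp only [g]
  rw [h2]
  ring

theorem bg28_facts (h : Sol κ ρ w u) {ξ : E3} (hξ : ξ ≠ 0) :
    0 ≤ gam (UU ρ u ξ) ∧ gam (UU ρ u ξ) * √(1 - GG w u ξ) ≤ 2 * UU ρ u ξ ^ 2 ∧
      |UU ρ u ξ| < 1 := by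
  obtain ⟨h1, -, h2, h3⟩ := gam_le (h.one_lt_xx hξ) (h.abs_GG_le ξ) (h.abs_UU_le ξ) (h.quad ξ)
  exact ⟨h1, h2, h3⟩

theorem bg28_bd (h : Sol κ ρ w u) : ∃ C > 0, ∀ ξ : E3, ξ ≠ 0 →
    gam (UU ρ u ξ) * min ‖ξ‖ 1 ≤ C * UU ρ u ξ ^ 2 := by
  obtain ⟨c, hc, hlow⟩ := bg28_low h
  have hg := h.gpos
  set g0 : ℝ := ∫ x, (1 - u x) * w x with hg0
  have hc1 : 0 < √(c / g0) := Real.sqrt_pos.2 (by positivity)
  refine ⟨2 / √(c / g0), by positivity, fun ξ hξ => ?_⟩
  obtain ⟨h1, h2, h3⟩ := bg28_facts h hξ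
  have hm : 0 ≤ min ‖ξ‖ 1 := le_min (norm_nonneg _) zero_le_one
  have h4 : √(c / g0) * min ‖ξ‖ 1 ≤ √(1 - GG w u ξ) := by
    apply Real.le_sqrt_of_sq_le
    rw [mul_pow, Real.sq_sqrt (by positivity)]
    have h5 := hlow ξ
    have h6 : (min ‖ξ‖ 1) ^ 2 = min (‖ξ‖ ^ 2) 1 := by
      rcases le_total ‖ξ‖ 1 with h7 | h7
      · rw [min_eq_left h7, min_eq_left (pow_le_one₀ (norm_nonneg _) h7)]
      · rw [min_eq_right h7, min_eq_right (one_le_pow₀ h7), one_pow]
    rw [h6, div_mul_eq_mul_div, div_le_iff₀ hg]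
    linarith
  have h8 : gam (UU ρ u ξ) * (√(c / g0) * min ‖ξ‖ 1) ≤ 2 * UU ρ u ξ ^ 2 :=
    (mul_le_mul_of_nonneg_left h4 h1).trans h2
  rw [div_mul_eq_mul_div, le_div_iff₀ hc1]
  linarith

theorem bg28_ae : ∀ᵐ ξ : E3, ξ ≠ 0 := by
  rw [ae_iff]
  simp

theorem bg28_inv : Integrable (fun ξ : E3 => if ‖ξ‖ < 1 then 1 / ‖ξ‖ else 0) := by
  have h1 := (integrable_fun_norm_addHaar (volume : Measure E3)
    (f := fun y : ℝ => if y < 1 then 1 / y else 0)).2 (by
      have h2 : Module.finrank ℝ E3 = 3 := by simp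
      rw [h2]
      have h3 : IntegrableOn (fun y : ℝ => (Set.Ioo (0 : ℝ) 1).indicator (fun y => y) y)
          (Set.Ioi 0) := by
        refine Integrable.integrableOn ?_
        rw [integrable_indicator_iff measurableSet_Ioo]
        exact (continuous_id.continuousOn.integrableOn_compact isCompact_Icc).mono_set
          Set.Ioo_subset_Icc_self
      refine h3.congr_fun (fun y hy => ?_) measurableSet_Ioi
      have hy0 : (0 : ℝ) < y := hy
      change (Set.Ioo (0 : ℝ) 1).indicator (fun y => y) y = _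
      by_cases h4 : y < 1
      · rw [Set.indicator_of_mem (show y ∈ Set.Ioo (0 : ℝ) 1 from ⟨hy0, h4⟩), if_pos h4,
          smul_eq_mul]
        norm_num
        field_simp
      · rw [Set.indicator_of_notMem (fun h5 : y ∈ Set.Ioo (0 : ℝ) 1 => h4 h5.2), if_neg h4, smul_zero])
  exact h1

theorem bg28_gm (h : Sol κ ρ w u) : Measurable fun ξ => gam (UU ρ u ξ) := by
  have h1 : Measurable gam := by
    unfold gam
    fun_prop
  exact h1.comp h.continuous_UU.measurable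

theorem Sol.gam_int (h : Sol κ ρ w u) : Integrable fun ξ => gam (UU ρ u ξ) := by
  obtain ⟨C, hC, hb⟩ := bg28_bd h
  have h1 : Integrable fun ξ : E3 => C * (if ‖ξ‖ < 1 then 1 / ‖ξ‖ else 0) + C * UU ρ u ξ ^ 2 :=
    (bg28_inv.const_mul C).add (h.sq_int.1.const_mul C)
  refine Integrable.mono' h1 (bg28_gm h).aestronglyMeasurable ?_
  filter_upwards [bg28_ae] with ξ hξ
  obtain ⟨h2, -, -⟩ := bg28_facts h hξ
  rw [Real.norm_eq_abs, abs_of_nonneg h2]
  have h3 := hb ξ hξ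
  have hU : UU ρ u ξ ^ 2 ≤ 1 := by
    have := h.abs_UU_le ξ
    rw [← sq_abs]
    exact pow_le_one₀ (abs_nonneg _) this
  have hU0 : 0 ≤ C * UU ρ u ξ ^ 2 := by positivity
  by_cases h4 : ‖ξ‖ < 1
  · rw [if_pos h4]
    rw [min_eq_left h4.le] at h3
    have h5 : 0 < ‖ξ‖ := norm_pos_iff.2 hξ
    have h6 : gam (UU ρ u ξ) ≤ C * (1 / ‖ξ‖) := by
      rw [mul_one_div, le_div_iff₀ h5]
      refine h3.trans ?_
      nlinarith
    linarith
  · rw [if_neg h4]
    rw [min_eq_right (not_lt.1 h4)] at h3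
    linarith

theorem Sol.del_int (h : Sol κ ρ w u) : Integrable fun ξ => del (UU ρ u ξ) := by
  have hm : Measurable fun ξ => del (UU ρ u ξ) := by
    have h1 : Measurable del := by
      unfold del
      fun_prop
    exact h1.comp h.continuous_UU.measurable
  refine Integrable.mono' h.gam_int hm.aestronglyMeasurable ?_
  filter_upwards [bg28_ae] with ξ hξ
  obtain ⟨-, -, h3⟩ := bg28_facts h hξ
  set U := UU ρ u ξ with hU
  have h4 : U ^ 2 < 1 := by
    rw [← sq_abs]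
    exact pow_lt_one₀ (abs_nonneg _) h3 two_ne_zero
  have h5 : 0 < 1 - U ^ 2 := by linarith
  rw [Real.norm_eq_abs]
  unfold del gam
  rw [abs_div, abs_of_pos h5]
  refine div_le_div_of_nonneg_right ?_ h5.le
  rw [abs_pow, pow_succ, sq_abs]
  exact mul_le_of_le_one_right (sq_nonneg _) h3.le

theorem Sol.lm_gam_int (h : Sol κ ρ w u) : Integrable fun ξ => lm ξ * gam (UU ρ u ξ) := by
  obtain ⟨C, hC, hb⟩ := bg28_bd h
  have hlm : Measurable lm := by
    unfold lm
    fun_prop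
  have h1 : Integrable fun ξ : E3 => 4 * Real.pi ^ 2 * gam (UU ρ u ξ) +
      C * (lm ξ * UU ρ u ξ ^ 2) :=
    (h.gam_int.const_mul _).add (h.lm_sq_int.const_mul C)
  refine Integrable.mono' h1 (hlm.mul (bg28_gm h)).aestronglyMeasurable ?_
  filter_upwards [bg28_ae] with ξ hξ
  obtain ⟨h2, -, -⟩ := bg28_facts h hξ
  have hl : 0 ≤ lm ξ := by
    unfold lm
    positivity
  rw [Real.norm_eq_abs, abs_of_nonneg (mul_nonneg hl h2)]
  have h3 := hb ξ hξ
  by_cases h4 : ‖ξ‖ < 1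
  · have h5 : lm ξ ≤ 4 * Real.pi ^ 2 := by
      unfold lm
      have h6 : ‖ξ‖ ^ 2 ≤ 1 := pow_le_one₀ (norm_nonneg _) h4.le
      have h7 : 0 ≤ 4 * Real.pi ^ 2 := by positivity
      nlinarith
    have h8 := mul_le_mul_of_nonneg_right h5 h2
    have h9 : 0 ≤ C * (lm ξ * UU ρ u ξ ^ 2) := by positivity
    linarith
  · rw [min_eq_right (not_lt.1 h4), mul_one] at h3
    have h5 := mul_le_mul_of_nonneg_left h3 hl
    have h6 : 0 ≤ 4 * Real.pi ^ 2 * gam (UU ρ u ξ) := by positivity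
    linarith

end Pool.Agent.BG
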