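import Pool.Agent.BG.CT

/-! MP_2d9608_mp, project BG, row BG-34: `∫ ŵ² / λ < ∞` for `w ∈ L¹ ∩ Lᵖ`, `p > 3 / 2` -/

set_option autoImplicit false

open MeasureTheory ProbabilityTheory H47.SE Filter
open scoped ComplexConjugate Topology ENNReal

noncomputable section

namespace Pool.Agent.BG

variable {κ ρ : ℝ} {w u : E3 → ℝ}

/-- the Gaussian -/
private def bg34_g (η : ℝ) (y : E3) : ℝ := Real.exp (-η * ‖y‖ ^ 2)

private theorem bg34_gint {η : ℝ} (hη : 0 < η) : Integrable (bg34_g η) := by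
  have h := (GaussianFourier.integrable_cexp_neg_mul_sq_norm_add (V := E3) (b := (η : ℂ))
    (by simpa using hη) 0 0).re
  refine h.congr (ae_of_all _ fun y => ?_)
  have e : (-(η : ℂ) * (‖y‖ : ℂ) ^ 2 + 0 * ((inner ℝ (0 : E3) y : ℝ) : ℂ)) =
      ((-η * ‖y‖ ^ 2 : ℝ) : ℂ) := by push_cast; ring
  change (Complex.exp (-(η : ℂ) * (‖y‖ : ℂ) ^ 2 + 0 * ((inner ℝ (0 : E3) y : ℝ) : ℂ))).re = _
  rw [e, Complex.exp_ofReal_re]
  rfl

private theorem bg34_gct {η : ℝ} (hη : 0 < η) (z : E3) :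
    ct (bg34_g η) z = (Real.pi / η) ^ (3 / 2 : ℝ) * Real.exp (-(Real.pi ^ 2 / η) * ‖z‖ ^ 2) := by
  have h1 := fourier_eq_ct (bg34_g η) z (bg34_gint hη)
  have h2 := fourier_gaussian_innerProductSpace (V := E3) (b := (η : ℂ)) (by simpa using hη) z
  have e0 : (fun x : E3 => ((bg34_g η x : ℝ) : ℂ)) = fun v => Complex.exp (-(η : ℂ) * (‖v‖ : ℂ) ^ 2) := by
    funext v
    unfold bg34_g
    push_cast
    rfl
  rw [e0, h2] at h1
  have h3 := congrArg Complex.re h1
  have e1 : ((Real.pi : ℂ) / (η : ℂ)) ^ ((Module.finrank ℝ E3 : ℂ) / 2) *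
      Complex.exp (-(Real.pi : ℂ) ^ 2 * (‖z‖ : ℂ) ^ 2 / (η : ℂ)) =
      (((Real.pi / η) ^ (3 / 2 : ℝ) * Real.exp (-(Real.pi ^ 2 / η) * ‖z‖ ^ 2) : ℝ) : ℂ) := by
    rw [Complex.ofReal_mul, Complex.ofReal_exp, Complex.ofReal_cpow (by positivity)]
    congr 1
    · congr 1
      · push_cast; rfl
      · simp
    · congr 1
      push_cast
      field_simp
  rw [e1, Complex.ofReal_re] at h3
  rw [h3]
  simp

private theorem bg34_gct_int {η : ℝ} (hη : 0 < η) : Integrable (ct (bg34_g η)) := by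
  have e : ct (bg34_g η) = fun z : E3 => (Real.pi / η) ^ (3 / 2 : ℝ) *
      bg34_g (Real.pi ^ 2 / η) z := by
    funext z
    exact bg34_gct hη z
  rw [e]
  exact (bg34_gint (by positivity)).const_mul _

private theorem bg34_gct_one {η : ℝ} (hη : 0 < η) : ∫ z, ct (bg34_g η) z = 1 := by
  have e : ct (bg34_g η) = fun z : E3 => (Real.pi / η) ^ (3 / 2 : ℝ) *
      Real.exp (-(Real.pi ^ 2 / η) * ‖z‖ ^ 2) := by
    funext z
    exact bg34_gct hη z
  rw [e, integral_const_mul, GaussianFourier.integral_rexp_neg_mul_sq_norm (by positivity)]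
  have e2 : ((Module.finrank ℝ E3 : ℕ) : ℝ) / 2 = 3 / 2 := by simp
  rw [e2, ← Real.mul_rpow (by positivity) (by positivity)]
  have e3 : Real.pi / η * (Real.pi / (Real.pi ^ 2 / η)) = 1 := by
    field_simp
  rw [e3, Real.one_rpow]

private theorem bg34_gct_nonneg {η : ℝ} (hη : 0 < η) (z : E3) : 0 ≤ ct (bg34_g η) z := by
  rw [bg34_gct hη]
  positivity

/-- the kernel -/
private def bg34_K (η : ℝ) (x z : E3) : ℝ := (ct (bg34_g η) (z - x) + ct (bg34_g η) (z + x)) / 2

private theorem bg34_K_nonneg {η : ℝ} (hη : 0 < η) (x z : E3) : 0 ≤ bg34_K η x z := by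
  unfold bg34_K
  have h1 := bg34_gct_nonneg hη (z - x)
  have h2 := bg34_gct_nonneg hη (z + x)
  positivity

private theorem bg34_K_int {η : ℝ} (hη : 0 < η) (x : E3) : Integrable (bg34_K η x) := by
  unfold bg34_K
  exact (((bg34_gct_int hη).comp_sub_right x).add ((bg34_gct_int hη).comp_add_right x)).div_const 2

private theorem bg34_K_one {η : ℝ} (hη : 0 < η) (x : E3) : ∫ z, bg34_K η x z = 1 := by
  unfold bg34_K
  rw [integral_div, integral_add ((bg34_gct_int hη).comp_sub_right x)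
    ((bg34_gct_int hη).comp_add_right x), integral_sub_right_eq_self (ct (bg34_g η)) x,
    integral_add_right_eq_self (ct (bg34_g η)) x, bg34_gct_one hη]
  norm_num

private theorem bg34_cosint {f : E3 → ℝ} (hf : Integrable f) (x : E3) :
    Integrable (fun y : E3 => Real.cos (2 * Real.pi * inner ℝ y x) * f y) := by
  refine hf.bdd_mul (c := 1) ?_ (ae_of_all _ fun y => ?_)
  · exact (Real.continuous_cos.comp (by fun_prop)).aestronglyMeasurable
  · rw [Real.norm_eq_abs]; exact Real.abs_cos_le_one _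

private theorem bg34_ctK {η : ℝ} (hη : 0 < η) (x z : E3) :
    ct (fun y => Real.cos (2 * Real.pi * inner ℝ y x) * bg34_g η y) z = bg34_K η x z := by
  unfold bg34_K
  have e : ∀ y : E3, Real.cos (2 * Real.pi * inner ℝ y z) *
      (Real.cos (2 * Real.pi * inner ℝ y x) * bg34_g η y) =
      (Real.cos (2 * Real.pi * inner ℝ y (z - x)) * bg34_g η y +
        Real.cos (2 * Real.pi * inner ℝ y (z + x)) * bg34_g η y) / 2 := by
    intro y
    rw [inner_sub_right, inner_add_right, mul_sub, mul_add, Real.cos_sub, Real.cos_add]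
    ring
  calc ct (fun y => Real.cos (2 * Real.pi * inner ℝ y x) * bg34_g η y) z
      = ∫ y : E3, (Real.cos (2 * Real.pi * inner ℝ y (z - x)) * bg34_g η y +
        Real.cos (2 * Real.pi * inner ℝ y (z + x)) * bg34_g η y) / 2 :=
        integral_congr_ae (ae_of_all _ e)
    _ = _ := by
      rw [integral_div, integral_add (bg34_cosint (bg34_gint hη) _)
        (bg34_cosint (bg34_gint hη) _)]
      rfl

/-- the representation of the mollified function -/
private theorem bg34_rep {η : ℝ} (hη : 0 < η) {v : E3 → ℝ} (hv : Integrable v) (x : E3) :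
    ct (fun ξ => Real.exp (-η * ‖ξ‖ ^ 2) * ct v ξ) x = ∫ z, bg34_K η x z * v z := by
  have h := flip_ct (bg34_cosint (bg34_gint hη) x) hv
  have e1 : ∀ z, ct (fun y => Real.cos (2 * Real.pi * inner ℝ y x) * bg34_g η y) z * v z =
      bg34_K η x z * v z := fun z => by rw [bg34_ctK hη]
  rw [integral_congr_ae (ae_of_all _ e1)] at h
  rw [← h]
  unfold ct
  refine integral_congr_ae (ae_of_all _ fun y => ?_)
  simp only [bg34_g]
  ring


private theorem bg34_K_le {s : ℝ} (hs : 0 < s) (x z : E3) : bg34_K s x z ≤ (Real.pi / s) ^ (3 / 2 : ℝ) := by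
  have key : ∀ y : E3, ct (bg34_g s) y ≤ (Real.pi / s) ^ (3 / 2 : ℝ) := by
    intro y
    rw [bg34_gct hs]
    refine mul_le_of_le_one_right (by positivity) (Real.exp_le_one_iff.2 ?_)
    have : 0 ≤ Real.pi ^ 2 / s * ‖y‖ ^ 2 := by positivity
    linarith
  unfold bg34_K
  linarith [key (z - x), key (z + x)]

private theorem bg34_pt {q A t : ℝ} (hq : 1 ≤ q) (hA : 0 < A) (ht : 0 ≤ t) :
    t ≤ A + A ^ (1 - q) * t ^ q := by
  rcases le_total t A with h | h
  · have : 0 ≤ A ^ (1 - q) * t ^ q := by positivity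
    linarith
  · have ht' : 0 < t := hA.trans_le h
    have e : t = t ^ (1 - q) * t ^ q := by
      rw [← Real.rpow_add ht']; simp
    have h2 : t ^ (1 - q) ≤ A ^ (1 - q) := Real.rpow_le_rpow_of_nonpos hA h (by linarith)
    have h3 : 0 ≤ t ^ q := by positivity
    nlinarith [mul_le_mul_of_nonneg_right h2 h3]

private theorem bg34_prodint {η : ℝ} (hη : 0 < η) {v : E3 → ℝ} (hv : Integrable v) :
    Integrable (fun ξ => Real.exp (-η * ‖ξ‖ ^ 2) * ct v ξ) := by
  have h := (bg34_gint hη).bdd_mul (c := ∫ y, |v y|) (f := fun ξ => ct v ξ)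
    (continuous_ct hv).aestronglyMeasurable (ae_of_all _ fun y => by
      rw [Real.norm_eq_abs]; exact abs_ct_le hv y)
  refine h.congr (ae_of_all _ fun y => ?_)
  simp only [bg34_g]
  ring

private theorem bg34_prodint2 {η : ℝ} (hη : 0 < η) {v : E3 → ℝ} (hv : Integrable v) :
    Integrable (fun ξ => Real.exp (-η * ‖ξ‖ ^ 2) * ct v ξ ^ 2) := by
  have h := (bg34_prodint hη hv).bdd_mul (c := ∫ y, |v y|) (f := fun ξ => ct v ξ)
    (continuous_ct hv).aestronglyMeasurable (ae_of_all _ fun y => by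
      rw [Real.norm_eq_abs]; exact abs_ct_le hv y)
  refine h.congr (ae_of_all _ fun y => ?_)
  simp only
  ring

private theorem bg34_rp {s : ℝ} (hs : 0 < s) :
    (Real.pi / s) ^ (3 / 2 : ℝ) = Real.pi ^ (3 / 2 : ℝ) * s ^ (-(3 / 2) : ℝ) := by
  rw [Real.div_rpow Real.pi_pos.le hs.le, Real.rpow_neg hs.le, div_eq_mul_inv]

/-- the first bound -/
private theorem bg34_B1 (hwi : Integrable w) {s : ℝ} (hs : 0 < s) :
    ∫ ξ, Real.exp (-s * ‖ξ‖ ^ 2) * ct w ξ ^ 2 ≤
      (∫ x, |w x|) ^ 2 * Real.pi ^ (3 / 2 : ℝ) * s ^ (-(3 / 2) : ℝ) := by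
  have h1 : ∫ ξ, Real.exp (-s * ‖ξ‖ ^ 2) * ct w ξ ^ 2 ≤
      ∫ ξ : E3, Real.exp (-s * ‖ξ‖ ^ 2) * (∫ x, |w x|) ^ 2 := by
    refine integral_mono (bg34_prodint2 hs hwi) ((bg34_gint hs).mul_const _) fun ξ => ?_
    refine mul_le_mul_of_nonneg_left ?_ (Real.exp_pos _).le
    rw [← sq_abs (ct w ξ)]
    exact pow_le_pow_left₀ (abs_nonneg _) (abs_ct_le hwi ξ) 2
  have h2 : ∫ ξ : E3, Real.exp (-s * ‖ξ‖ ^ 2) * (∫ x, |w x|) ^ 2 =
      (∫ x, |w x|) ^ 2 * Real.pi ^ (3 / 2 : ℝ) * s ^ (-(3 / 2) : ℝ) := by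
    rw [integral_mul_const, GaussianFourier.integral_rexp_neg_mul_sq_norm hs]
    have e2 : ((Module.finrank ℝ E3 : ℕ) : ℝ) / 2 = 3 / 2 := by simp
    rw [e2, bg34_rp hs]
    ring
  exact h1.trans h2.le

/-- the second bound -/
private theorem bg34_B2 (hw0 : ∀ x, 0 ≤ w x) (hwi : Integrable w) {q : ℝ} (hq : 1 ≤ q)
    (hwq : Integrable fun x => w x ^ q) {s : ℝ} (hs : 0 < s) :
    ∫ ξ, Real.exp (-s * ‖ξ‖ ^ 2) * ct w ξ ^ 2 ≤
      (∫ x, w x) * (1 + Real.pi ^ (3 / 2 : ℝ) * ∫ x, w x ^ q) * s ^ (-(3 / (2 * q)) : ℝ) := by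
  have hI0 : 0 ≤ ∫ x, w x ^ q := integral_nonneg fun x => Real.rpow_nonneg (hw0 x) q
  -- the kernel bound
  have hK : ∀ x, ∫ z, bg34_K s x z * w z ≤
      (1 + Real.pi ^ (3 / 2 : ℝ) * ∫ x, w x ^ q) * s ^ (-(3 / (2 * q)) : ℝ) := by
    intro x
    set A : ℝ := s ^ (-(3 / (2 * q)) : ℝ) with hA
    have hA0 : 0 < A := by positivity
    have hKq : Integrable fun z => bg34_K s x z * w z ^ q := by
      refine hwq.bdd_mul (c := (Real.pi / s) ^ (3 / 2 : ℝ)) (bg34_K_int hs x).aestronglyMeasurable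
        (ae_of_all _ fun z => ?_)
      rw [Real.norm_eq_abs, abs_of_nonneg (bg34_K_nonneg hs x z)]
      exact bg34_K_le hs x z
    have hKw : Integrable fun z => bg34_K s x z * w z := by
      refine hwi.bdd_mul (c := (Real.pi / s) ^ (3 / 2 : ℝ)) (bg34_K_int hs x).aestronglyMeasurable
        (ae_of_all _ fun z => ?_)
      rw [Real.norm_eq_abs, abs_of_nonneg (bg34_K_nonneg hs x z)]
      exact bg34_K_le hs x z
    have h1 : ∫ z, bg34_K s x z * w z ≤
        ∫ z, (bg34_K s x z * A + A ^ (1 - q) * (bg34_K s x z * w z ^ q)) := by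
      refine integral_mono hKw (((bg34_K_int hs x).mul_const A).add (hKq.const_mul _)) fun z => ?_
      have h := mul_le_mul_of_nonneg_left (bg34_pt hq hA0 (hw0 z)) (bg34_K_nonneg hs x z)
      calc bg34_K s x z * w z ≤ bg34_K s x z * (A + A ^ (1 - q) * w z ^ q) := h
        _ = _ := by ring
    have h2 : ∫ z, bg34_K s x z * w z ^ q ≤ (Real.pi / s) ^ (3 / 2 : ℝ) * ∫ z, w z ^ q := by
      rw [← integral_const_mul]
      refine integral_mono hKq (hwq.const_mul _) fun z => ?_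
      exact mul_le_mul_of_nonneg_right (bg34_K_le hs x z) (Real.rpow_nonneg (hw0 z) q)
    rw [integral_add ((bg34_K_int hs x).mul_const A) (hKq.const_mul _), integral_mul_const,
      bg34_K_one hs, one_mul, integral_const_mul] at h1
    have h3 : A ^ (1 - q) * (∫ z, bg34_K s x z * w z ^ q) ≤
        A ^ (1 - q) * ((Real.pi / s) ^ (3 / 2 : ℝ) * ∫ z, w z ^ q) :=
      mul_le_mul_of_nonneg_left h2 (by positivity)
    have h4 : A ^ (1 - q) * ((Real.pi / s) ^ (3 / 2 : ℝ) * ∫ z, w z ^ q) =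
        Real.pi ^ (3 / 2 : ℝ) * (∫ z, w z ^ q) * A := by
      rw [bg34_rp hs]
      have e : A ^ (1 - q) * s ^ (-(3 / 2) : ℝ) = A := by
        rw [hA, ← Real.rpow_mul hs.le, ← Real.rpow_add hs]
        congr 1
        have : q ≠ 0 := by linarith
        field_simp
        ring
      calc A ^ (1 - q) * (Real.pi ^ (3 / 2 : ℝ) * s ^ (-(3 / 2) : ℝ) * ∫ z, w z ^ q)
          = Real.pi ^ (3 / 2 : ℝ) * (∫ z, w z ^ q) * (A ^ (1 - q) * s ^ (-(3 / 2) : ℝ)) := by ring
        _ = _ := by rw [e]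
    linarith [h1, h3, h4]
  have h1 : ∫ ξ, Real.exp (-s * ‖ξ‖ ^ 2) * ct w ξ ^ 2 = ∫ x, (∫ z, bg34_K s x z * w z) * w x := by
    calc ∫ ξ, Real.exp (-s * ‖ξ‖ ^ 2) * ct w ξ ^ 2
        = ∫ ξ, (Real.exp (-s * ‖ξ‖ ^ 2) * ct w ξ) * ct w ξ := by
          congr 1; funext ξ; ring
      _ = ∫ x, ct (fun ξ => Real.exp (-s * ‖ξ‖ ^ 2) * ct w ξ) x * w x :=
          flip_ct (bg34_prodint hs hwi) hwi
      _ = _ := by
          congr 1; funext x
          rw [bg34_rep hs hwi]
  rw [h1]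
  have hint : Integrable fun x => (∫ z, bg34_K s x z * w z) * w x := by
    have hc : ∀ x, ∫ z, bg34_K s x z * w z =
        ct (fun ξ => Real.exp (-s * ‖ξ‖ ^ 2) * ct w ξ) x := by
      intro x; rw [bg34_rep hs hwi]
    simp only [hc]
    refine hwi.bdd_mul (c := ∫ y, |Real.exp (-s * ‖y‖ ^ 2) * ct w y|)
      (continuous_ct (bg34_prodint hs hwi)).aestronglyMeasurable (ae_of_all _ fun y => ?_)
    rw [Real.norm_eq_abs]
    exact abs_ct_le (bg34_prodint hs hwi) y
  calc ∫ x, (∫ z, bg34_K s x z * w z) * w x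
      ≤ ∫ x, (1 + Real.pi ^ (3 / 2 : ℝ) * ∫ x, w x ^ q) * s ^ (-(3 / (2 * q)) : ℝ) * w x := by
        refine integral_mono hint (hwi.const_mul _) fun x => ?_
        exact mul_le_mul_of_nonneg_right (hK x) (hw0 x)
    _ = _ := by
      rw [integral_const_mul]
      ring

private theorem bg34_ae : ∀ᵐ ξ : E3, ξ ≠ 0 := by
  rw [ae_iff]
  simp

private theorem bg34_main (hw0 : ∀ x, 0 ≤ w x) (hwi : Integrable w) {q : ℝ} (hq : 3 / 2 < q)
    (hwq : Integrable fun x => w x ^ q) : Integrable fun ξ => ct w ξ ^ 2 / lm ξ := by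
  set F : ℝ × E3 → ℝ := fun p => Real.exp (-p.1 * ‖p.2‖ ^ 2) * ct w p.2 ^ 2 with hF
  have hc : Continuous F := by
    have := continuous_ct hwi
    fun_prop
  have hF0 : ∀ p, 0 ≤ F p := fun p => by simp only [hF]; positivity
  have hint : Integrable F ((volume.restrict (Set.Ioi (0 : ℝ))).prod (volume : Measure E3)) := by
    rw [integrable_prod_iff hc.aestronglyMeasurable]
    constructor
    · filter_upwards [ae_restrict_mem measurableSet_Ioi] with s hs
      exact bg34_prodint2 hs hwi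
    · have hm : AEStronglyMeasurable (fun s : ℝ => ∫ ξ, ‖F (s, ξ)‖)
          (volume.restrict (Set.Ioi (0 : ℝ))) :=
        (hc.norm.aestronglyMeasurable (μ := (volume.restrict (Set.Ioi (0 : ℝ))).prod
          (volume : Measure E3))).integral_prod_right'
      have e : ∀ s : ℝ, ∫ ξ, ‖F (s, ξ)‖ = ∫ ξ, Real.exp (-s * ‖ξ‖ ^ 2) * ct w ξ ^ 2 := by
        intro s
        congr 1; funext ξ
        rw [Real.norm_eq_abs, abs_of_nonneg (hF0 _)]
      have hpos : ∀ s : ℝ, 0 ≤ ∫ ξ, Real.exp (-s * ‖ξ‖ ^ 2) * ct w ξ ^ 2 := fun s =>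
        integral_nonneg fun ξ => by positivity
      have hU : Set.Ioi (0 : ℝ) = Set.Ioc 0 1 ∪ Set.Ioi 1 := (Set.Ioc_union_Ioi_eq_Ioi zero_le_one).symm
      change IntegrableOn (fun s : ℝ => ∫ ξ, ‖F (s, ξ)‖) (Set.Ioi (0 : ℝ))
      rw [hU] at hm ⊢
      refine IntegrableOn.union ?_ ?_
      · have hr : -1 < (-(3 / (2 * q)) : ℝ) := by
          rw [neg_lt_neg_iff, div_lt_one (by linarith)]
          linarith
        have hi : IntegrableOn (fun s : ℝ => (∫ x, w x) * (1 + Real.pi ^ (3 / 2 : ℝ) * ∫ x, w x ^ q) *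
            s ^ (-(3 / (2 * q)) : ℝ)) (Set.Ioc 0 1) := by
          have := (intervalIntegral.intervalIntegrable_rpow' (a := 0) (b := 1) hr)
          rw [intervalIntegrable_iff_integrableOn_Ioc_of_le zero_le_one] at this
          exact this.const_mul _
        refine Integrable.mono' hi (hm.mono_measure (Measure.restrict_mono Set.subset_union_left le_rfl)) ?_
        filter_upwards [ae_restrict_mem measurableSet_Ioc] with s hs
        rw [e, Real.norm_eq_abs, abs_of_nonneg (hpos s)]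
        exact bg34_B2 hw0 hwi (by linarith) hwq hs.1
      · have hi : IntegrableOn (fun s : ℝ => (∫ x, |w x|) ^ 2 * Real.pi ^ (3 / 2 : ℝ) *
            s ^ (-(3 / 2) : ℝ)) (Set.Ioi 1) :=
          (integrableOn_Ioi_rpow_of_lt (by norm_num) zero_lt_one).const_mul _
        refine Integrable.mono' hi (hm.mono_measure (Measure.restrict_mono Set.subset_union_right le_rfl)) ?_
        filter_upwards [ae_restrict_mem measurableSet_Ioi] with s hs
        rw [e, Real.norm_eq_abs, abs_of_nonneg (hpos s)]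
        exact bg34_B1 hwi (zero_lt_one.trans hs)
  have h1 := hint.integral_prod_right
  have h2 : Integrable fun ξ => ct w ξ ^ 2 / ‖ξ‖ ^ 2 := by
    refine h1.congr ?_
    filter_upwards [bg34_ae] with ξ hξ
    have hn : 0 < ‖ξ‖ ^ 2 := by positivity
    simp only [hF]
    rw [integral_mul_const]
    have e := integral_exp_mul_Ioi (a := -‖ξ‖ ^ 2) (by linarith) 0
    have e2 : ∫ s in Set.Ioi (0 : ℝ), Real.exp (-s * ‖ξ‖ ^ 2) = 1 / ‖ξ‖ ^ 2 := by
      rw [mul_zero, Real.exp_zero] at e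
      have e3 : ∀ s : ℝ, -‖ξ‖ ^ 2 * s = -s * ‖ξ‖ ^ 2 := fun s => by ring
      simp only [e3] at e
      rw [e]
      rw [neg_div_neg_eq]
    rw [e2]
    ring
  refine (h2.const_mul (1 / (4 * Real.pi ^ 2))).congr (ae_of_all _ fun ξ => ?_)
  simp only [lm]
  have := Real.pi_pos.ne'
  rw [div_mul_div_comm, one_mul]

theorem iw_int {w : E3 → ℝ} (hwm : Measurable w) (hw0 : ∀ x, 0 ≤ w x) (hwi : Integrable w)
    {p : ℝ≥0∞} (hp : 3 / 2 < p) (hwp : MemLp w p) :
    Integrable fun ξ => ct w ξ ^ 2 / lm ξ := by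
  by_cases hpt : p = ∞
  · subst hpt
    have hb : ∀ᵐ x, ‖w x‖ₑ ≤ eLpNormEssSup w volume := ae_le_eLpNormEssSup
    have hfin : eLpNormEssSup w volume ≠ ∞ := by
      have := hwp.2
      rw [eLpNorm_exponent_top] at this
      exact this.ne
    refine bg34_main hw0 hwi (q := 2) (by norm_num) ?_
    have h2 : Integrable fun x => w x * w x := by
      refine hwi.bdd_mul (c := (eLpNormEssSup w volume).toReal) hwm.aestronglyMeasurable ?_
      filter_upwards [hb] with x hx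
      rw [← toReal_enorm]
      exact ENNReal.toReal_mono hfin hx
    refine h2.congr (ae_of_all _ fun x => ?_)
    simp only
    rw [Real.rpow_two, sq]
  · have hp0 : p ≠ 0 := fun h => by rw [h] at hp; exact absurd hp (by simp)
    have hq : (3 / 2 : ℝ) < p.toReal := by
      have := (ENNReal.toReal_lt_toReal (by finiteness) hpt).2 hp
      simpa using this
    refine bg34_main hw0 hwi hq ?_
    have := hwp.integrable_norm_rpow hp0 hpt
    refine this.congr (ae_of_all _ fun x => ?_)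
    simp only [Real.norm_eq_abs, abs_of_nonneg (hw0 x)]

end Pool.Agent.BG
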