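import Pool.Agent.BG.Kin
import Pool.Agent.BG.Quad

/-! MP_2d9608_mp, project BG, row BG-37 -/

set_option autoImplicit false

open MeasureTheory ProbabilityTheory H47.SE Filter
open scoped ComplexConjugate Topology ENNReal

noncomputable section

namespace Pool.Agent.BG

variable {κ ρ : ℝ} {w u : E3 → ℝ}

/-- the lower bound of `U` near the origin -/
theorem JLow.UU_ge (h : Sol κ ρ w u) (ha : ∫ x, u x * w x ≤ (∫ x, w x) / 4) {ξ : E3}
    (hξ1 : ‖ξ‖ ≤ 1) (hξ : 3 / 4 * (∫ x, w x) ≤ ct w ξ) :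
    3 / 4 * (∫ x, w x) * min 1 (κ * ρ) / (2 * (3 / 2 * (∫ x, w x) + 4 * Real.pi ^ 2)) ≤
      UU ρ u ξ := by
  set W0 := ∫ x, w x with hW0
  have hpos : 0 < W0 := h.wpos
  have hκ := h.hκ
  have hρ := h.hρ
  set g0 := ∫ x, (1 - u x) * w x with hg0
  have hg : g0 = W0 - ∫ x, u x * w x := h.g_eq
  have hg34 : 3 / 4 * W0 ≤ g0 := by rw [hg]; linarith
  have hg0p : 0 < g0 := h.gpos
  have hgW : g0 ≤ W0 := by rw [hg]; have := h.uw_nonneg; linarith
  have hct := (h.ct_g_le ξ).2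
  have hG : 1 / 2 ≤ GG w u ξ := by
    unfold GG
    rw [le_div_iff₀ hg0p]
    linarith
  have hx := h.one_le_xx ξ
  have hx0 : 0 < xx κ ρ w u ξ := by linarith
  have hU := (alg hx (h.abs_GG_le ξ) (h.abs_UU_le ξ) (h.quad ξ)).2.1 (by linarith)
  refine le_trans ?_ hU
  have h1 : 1 / 2 / (2 * xx κ ρ w u ξ) ≤ GG w u ξ / (2 * xx κ ρ w u ξ) :=
    div_le_div_of_nonneg_right hG (by linarith)
  refine le_trans ?_ h1
  -- `x ≤ (2 β + 4 π²) / (2 β)`
  set M := min 1 (κ * ρ) with hM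
  have hMp : 0 < M := lt_min one_pos (mul_pos hκ hρ)
  have hM1 : M ≤ 1 := min_le_left _ _
  have hM2 : M ≤ κ * ρ := min_le_right _ _
  have hβ : 0 < 3 / 4 * W0 * M := by positivity
  have hb : 3 / 4 * W0 * M ≤ bb κ ρ w u := by
    unfold bb
    rw [← hg0]
    have : W0 * M ≤ W0 * (κ * ρ) := mul_le_mul_of_nonneg_left hM2 hpos.le
    have h2 : (κ * ρ) * (3 / 4 * W0) ≤ (κ * ρ) * g0 :=
      mul_le_mul_of_nonneg_left hg34 (mul_pos hκ hρ).le
    nlinarith
  have hbp : 0 < bb κ ρ w u := h.bb_pos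
  have hlm : lm ξ ≤ 4 * Real.pi ^ 2 := by
    unfold lm
    have : ‖ξ‖ ^ 2 ≤ 1 := by nlinarith [norm_nonneg ξ]
    nlinarith [sq_nonneg Real.pi]
  have hlm0 : 0 ≤ lm ξ := by unfold lm; positivity
  have hxle : xx κ ρ w u ξ ≤ 1 + 4 * Real.pi ^ 2 / (2 * (3 / 4 * W0 * M)) := by
    unfold xx
    have : lm ξ / (2 * bb κ ρ w u) ≤ 4 * Real.pi ^ 2 / (2 * (3 / 4 * W0 * M)) :=
      div_le_div₀ (by positivity) hlm (by positivity) (by linarith)
    linarith
  rw [div_div, div_le_div_iff₀ (by positivity) (by positivity)]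
  have hD : 0 < 2 * (3 / 4 * W0 * M) := by positivity
  have hxx2 : xx κ ρ w u ξ * (2 * (3 / 4 * W0 * M)) ≤ 2 * (3 / 4 * W0 * M) + 4 * Real.pi ^ 2 := by
    have := mul_le_mul_of_nonneg_right hxle hD.le
    rw [add_mul, one_mul, div_mul_cancel₀ _ hD.ne'] at this
    exact this
  have hMW : W0 * M ≤ W0 := by nlinarith
  nlinarith

theorem j_low {w : E3 → ℝ} (hwm : Measurable w) (hw0 : ∀ x, 0 ≤ w x) (hwi : Integrable w)
    (hpos : 0 < ∫ x, w x) :
    ∃ c > 0, ∀ κ ρ u, Sol κ ρ w u → ∫ x, u x * w x ≤ c →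
      c * min 1 (κ * ρ) ^ 2 ≤ JJ ρ w u ∧
      c * ∫ ξ in {ξ : E3 | 1 ≤ ‖ξ‖}, UU ρ u ξ ^ 2 ≤ JJ ρ w u := by
  obtain ⟨c, hc, hq⟩ := quad_unif hwm hw0 hwi hpos
  set W0 := ∫ x, w x with hW0
  -- the bound of `ŵ (0) - ŵ`
  have hcont : Continuous (ct w) := continuous_ct hwi
  have hlow : ∀ ξ : E3, c * min (‖ξ‖ ^ 2) 1 ≤ W0 - ct w ξ := by
    intro ξ
    have h0 := hq (fun _ => 0) (integrable_zero _ _ _) (Eventually.of_forall fun x => by simp)
      (by simp [hc.le]) (by simp [hc.le]) ξ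
    refine h0.trans (le_of_eq ?_)
    have hc1 : Integrable fun y => Real.cos (2 * Real.pi * inner ℝ y ξ) * w y := by
      refine hwi.bdd_mul (c := 1) ?_ ?_
      · exact (Real.continuous_cos.comp (by fun_prop)).aestronglyMeasurable
      · exact Eventually.of_forall fun y => by
          rw [Real.norm_eq_abs]; exact Real.abs_cos_le_one _
    rw [hW0]
    unfold ct
    rw [← integral_sub hwi hc1]
    refine integral_congr_ae (Eventually.of_forall fun y => ?_)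
    simp only [sub_zero, one_mul]
    ring
  have hlow0 : ∀ ξ : E3, 0 ≤ W0 - ct w ξ := fun ξ =>
    le_trans (by positivity) (hlow ξ)
  have habs : ∀ ξ : E3, |ct w ξ| ≤ W0 := by
    intro ξ
    refine (abs_ct_le hwi ξ).trans (le_of_eq ?_)
    exact integral_congr_ae (Eventually.of_forall fun y => abs_of_nonneg (hw0 y))
  -- a ball on which `ŵ` is large
  obtain ⟨r, hr, hr1, hrb⟩ : ∃ r > 0, r ≤ 1 ∧ ∀ ξ : E3, ‖ξ‖ < r → 3 / 4 * W0 ≤ ct w ξ := by
    have h0 : ct w 0 = W0 := ct_zero w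
    have hev : ∀ᶠ ξ in 𝓝 (0 : E3), 3 / 4 * W0 < ct w ξ := by
      refine (hcont.tendsto 0).eventually_const_lt ?_
      rw [h0]; linarith
    obtain ⟨r, hr, hb⟩ := Metric.eventually_nhds_iff.1 hev
    refine ⟨min r 1, lt_min hr one_pos, min_le_right _ _, fun ξ hξ => ?_⟩
    refine (hb ?_).le
    rw [dist_zero_right]
    exact lt_of_lt_of_le hξ (min_le_left _ _)
  -- the integral of `‖ξ‖ ^ 2` over the ball
  set B : Set E3 := Metric.ball 0 r with hB
  have hBm : MeasurableSet B := Metric.isOpen_ball.measurableSet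
  have hBf : (volume : Measure E3) B ≠ ∞ := measure_ball_lt_top.ne
  have hBi : IntegrableOn (fun ξ : E3 => ‖ξ‖ ^ 2) B := by
    refine Measure.integrableOn_of_bounded (M := 1) hBf ?_ ?_
    · exact (by fun_prop : Continuous fun ξ : E3 => ‖ξ‖ ^ 2).aestronglyMeasurable
    · refine (ae_restrict_iff' hBm).2 (Eventually.of_forall fun ξ hξ => ?_)
      have : ‖ξ‖ < r := by simpa [hB] using hξ
      rw [Real.norm_eq_abs, abs_of_nonneg (by positivity)]
      nlinarith [norm_nonneg ξ]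
  have hI : 0 < ∫ ξ in B, ‖ξ‖ ^ 2 := by
    rw [setIntegral_pos_iff_support_of_nonneg_ae
      (Eventually.of_forall fun ξ => by positivity) hBi]
    have hsub : B \ {0} ⊆ (Function.support fun ξ : E3 => ‖ξ‖ ^ 2) ∩ B := by
      intro ξ hξ
      refine ⟨?_, hξ.1⟩
      have : ξ ≠ 0 := hξ.2
      simp [Function.mem_support, this]
    refine lt_of_lt_of_le ?_ (measure_mono hsub)
    rw [measure_sdiff_null (by simp)]
    exact Metric.measure_ball_pos _ _ hr
  set I := ∫ ξ in B, ‖ξ‖ ^ 2 with hIdef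
  set D := 2 * (3 / 2 * W0 + 4 * Real.pi ^ 2) with hD
  have hDp : 0 < D := by positivity
  set e := c * (3 / 4 * W0 / D) ^ 2 * I with he
  have hep : 0 < e := by positivity
  refine ⟨min (min c (W0 / 4)) e, by positivity, ?_⟩
  intro κ ρ u h hu
  have hu1 : ∫ x, u x * w x ≤ W0 / 4 := hu.trans ((min_le_left _ _).trans (min_le_right _ _))
  have hsq := h.sq_int.1
  -- the integrand
  have hJi : Integrable fun ξ => ((∫ x, w x) - ct w ξ) * UU ρ u ξ ^ 2 := by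
    refine hsq.bdd_mul (c := 2 * W0) ?_ ?_
    · exact (continuous_const.sub hcont).aestronglyMeasurable
    · refine Eventually.of_forall fun ξ => ?_
      rw [← hW0, Real.norm_eq_abs, abs_of_nonneg (hlow0 ξ)]
      have := (abs_le.1 (habs ξ)).1
      linarith
  have hJ0 : ∀ ξ, 0 ≤ ((∫ x, w x) - ct w ξ) * UU ρ u ξ ^ 2 := fun ξ =>
    mul_nonneg (hlow0 ξ) (sq_nonneg _)
  constructor
  · -- near the origin
    have hUlow : ∀ ξ ∈ B, 3 / 4 * W0 * min 1 (κ * ρ) / D ≤ UU ρ u ξ := by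
      intro ξ hξ
      have hξr : ‖ξ‖ < r := by simpa [hB] using hξ
      exact JLow.UU_ge h hu1 (hξr.le.trans hr1) (hrb ξ hξr)
    set M := min 1 (κ * ρ) with hM
    have hMp : 0 < M := lt_min one_pos (mul_pos h.hκ h.hρ)
    have h1 : ∫ ξ in B, c * (3 / 4 * W0 * M / D) ^ 2 * ‖ξ‖ ^ 2 ≤
        ∫ ξ in B, ((∫ x, w x) - ct w ξ) * UU ρ u ξ ^ 2 := by
      refine setIntegral_mono_on (hBi.const_mul _) hJi.integrableOn hBm fun ξ hξ => ?_
      have hξr : ‖ξ‖ < r := by simpa [hB] using hξ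
      have hn1 : ‖ξ‖ ^ 2 ≤ 1 := by nlinarith [norm_nonneg ξ]
      have hl := hlow ξ
      rw [min_eq_left hn1] at hl
      have hU := hUlow ξ hξ
      have hβ : 0 ≤ 3 / 4 * W0 * M / D := by positivity
      have hU2 : (3 / 4 * W0 * M / D) ^ 2 ≤ UU ρ u ξ ^ 2 := by
        exact pow_le_pow_left₀ hβ hU 2
      calc c * (3 / 4 * W0 * M / D) ^ 2 * ‖ξ‖ ^ 2
          = (c * ‖ξ‖ ^ 2) * (3 / 4 * W0 * M / D) ^ 2 := by ring
        _ ≤ (W0 - ct w ξ) * UU ρ u ξ ^ 2 :=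
            mul_le_mul hl hU2 (sq_nonneg _) (hlow0 ξ)
    have h2 : ∫ ξ in B, ((∫ x, w x) - ct w ξ) * UU ρ u ξ ^ 2 ≤ JJ ρ w u := by
      unfold JJ
      exact setIntegral_le_integral hJi (Eventually.of_forall hJ0)
    rw [integral_const_mul] at h1
    refine le_trans ?_ (h1.trans h2)
    have h3 : c * (3 / 4 * W0 * M / D) ^ 2 * I = e * M ^ 2 := by
      rw [he]; field_simp
    rw [← hIdef, h3]
    exact mul_le_mul_of_nonneg_right (min_le_right _ _) (sq_nonneg _)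
  · -- far away
    have hms : MeasurableSet {ξ : E3 | 1 ≤ ‖ξ‖} := measurableSet_le measurable_const measurable_norm
    have h1 : ∫ ξ in {ξ : E3 | 1 ≤ ‖ξ‖}, c * UU ρ u ξ ^ 2 ≤
        ∫ ξ in {ξ : E3 | 1 ≤ ‖ξ‖}, ((∫ x, w x) - ct w ξ) * UU ρ u ξ ^ 2 := by
      refine setIntegral_mono_on (hsq.integrableOn.const_mul _) hJi.integrableOn hms fun ξ hξ => ?_
      have hξ' : 1 ≤ ‖ξ‖ := hξ
      have hl := hlow ξ
      rw [min_eq_right (by nlinarith), mul_one] at hl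
      exact mul_le_mul_of_nonneg_right hl (sq_nonneg _)
    have h2 : ∫ ξ in {ξ : E3 | 1 ≤ ‖ξ‖}, ((∫ x, w x) - ct w ξ) * UU ρ u ξ ^ 2 ≤ JJ ρ w u := by
      unfold JJ
      exact setIntegral_le_integral hJi (Eventually.of_forall hJ0)
    rw [integral_const_mul] at h1
    refine le_trans ?_ (h1.trans h2)
    refine mul_le_mul_of_nonneg_right ((min_le_left _ _).trans (min_le_left _ _)) ?_
    exact integral_nonneg fun ξ => sq_nonneg _

end Pool.Agent.BG
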