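import Pool.Agent.BG.SolBasic
import Pool.Agent.BG.GaussConv
import Pool.Agent.H47.SE.L2Bound

/-! MP_2d9608_mp, project BG, row BG-26 -/

set_option autoImplicit false

open MeasureTheory ProbabilityTheory H47.SE Filter
open scoped ComplexConjugate Topology ENNReal

noncomputable section

namespace Pool.Agent.BG

variable {κ ρ : ℝ} {w u : E3 → ℝ}

theorem Sol.sq_int (h : Sol κ ρ w u) :
    Integrable (fun ξ => UU ρ u ξ ^ 2) ∧ ∫ ξ, UU ρ u ξ ^ 2 = ρ ^ 2 * ∫ x, u x ^ 2 := by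
  have hm : MemLp u 2 := by
    rw [memLp_two_iff_integrable_sq h.ui.1]
    refine Integrable.mono' h.ui (h.ui.1.pow 2) ?_
    filter_upwards [h.ub] with x hx
    rw [Real.norm_eq_abs, abs_of_nonneg (by positivity)]
    nlinarith [hx.1, hx.2]
  obtain ⟨i1, e1⟩ := plancherel_real u h.ui hm
  have e2 : ∀ ξ, ‖FourierTransform.fourier (fun x => (u x : ℂ)) ξ‖ ^ 2 = ct u ξ ^ 2 := by
    intro ξ
    rw [fourier_eq_ct u ξ h.ui, h.ureal ξ]
    simp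
  simp only [e2] at i1 e1
  have e3 : (fun ξ => UU ρ u ξ ^ 2) = fun ξ => ρ ^ 2 * ct u ξ ^ 2 := by
    funext ξ; unfold UU; ring
  rw [e3]
  exact ⟨i1.const_mul _, by rw [integral_const_mul, e1]⟩

private theorem bg26_cube (h : Sol κ ρ w u) : Integrable (fun ξ => UU ρ u ξ ^ 3) := by
  refine Integrable.mono' h.sq_int.1 (h.continuous_UU.pow 3).aestronglyMeasurable
    (ae_of_all _ fun ξ => ?_)
  have h1 := h.abs_UU_le ξ
  rw [Real.norm_eq_abs, abs_pow]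
  have h2 : |UU ρ u ξ| ^ 3 = |UU ρ u ξ| * |UU ρ u ξ| ^ 2 := by ring
  rw [h2, ← sq_abs (UU ρ u ξ)]
  nlinarith [sq_nonneg |UU ρ u ξ|]

private def bg26_gs (η : ℝ) (ξ : E3) : ℝ := Real.exp (-η * ‖ξ‖ ^ 2)

private theorem bg26_gs_cont (η : ℝ) : Continuous (bg26_gs η) := by
  unfold bg26_gs; fun_prop

private theorem bg26_gs_pos (η : ℝ) (ξ : E3) : 0 < bg26_gs η ξ := Real.exp_pos _

private theorem bg26_gs_le {η : ℝ} (hη : 0 < η) (ξ : E3) : bg26_gs η ξ ≤ 1 := by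
  unfold bg26_gs
  rw [Real.exp_le_one_iff]
  nlinarith [mul_nonneg hη.le (sq_nonneg ‖ξ‖)]

private theorem bg26_gs_int {η : ℝ} (hη : 0 < η) : Integrable (bg26_gs η) := by
  have h := (GaussianFourier.integrable_cexp_neg_mul_sq_norm_add (V := E3) (b := (η : ℂ))
    (by simpa using hη) 0 0).norm
  refine h.congr (ae_of_all _ fun ξ => ?_)
  simp only [inner_zero_left, Complex.ofReal_zero, mul_zero, add_zero]
  rw [Complex.norm_exp]
  unfold bg26_gs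
  congr 1
  rw [← Complex.ofReal_neg, ← Complex.ofReal_pow, ← Complex.ofReal_mul, Complex.ofReal_re]

private theorem bg26_gs_lim (ξ : E3) :
    Tendsto (fun η : ℝ => bg26_gs η ξ) (𝓝[>] 0) (𝓝 1) := by
  have h1 : Continuous (fun η : ℝ => bg26_gs η ξ) := by unfold bg26_gs; fun_prop
  have h2 := (h1.tendsto 0).mono_left (nhdsWithin_le_nhds (s := Set.Ioi 0))
  have h3 : bg26_gs 0 ξ = 1 := by unfold bg26_gs; simp
  rwa [h3] at h2

private theorem bg26_lm_nonneg (ξ : E3) : 0 ≤ lm ξ := by unfold lm; positivity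

private theorem bg26_lm_cont : Continuous (lm : E3 → ℝ) := by unfold lm; fun_prop

private theorem bg26_dom {f : E3 → ℝ} (hf : Integrable f) :
    Tendsto (fun η : ℝ => ∫ ξ, bg26_gs η ξ * f ξ) (𝓝[>] 0) (𝓝 (∫ ξ, f ξ)) := by
  refine tendsto_integral_filter_of_dominated_convergence (fun ξ => |f ξ|) ?_ ?_ hf.abs ?_
  · exact Eventually.of_forall fun η => (bg26_gs_cont η).aestronglyMeasurable.mul hf.1
  · refine eventually_nhdsWithin_of_forall fun η hη => ae_of_all _ fun ξ => ?_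
    rw [Real.norm_eq_abs, abs_mul, abs_of_pos (bg26_gs_pos η ξ)]
    have := bg26_gs_le hη ξ
    nlinarith [abs_nonneg (f ξ)]
  · refine ae_of_all _ fun ξ => ?_
    have := (bg26_gs_lim ξ).mul_const (f ξ)
    rwa [one_mul] at this

private theorem bg26_dom_int {f : E3 → ℝ} (hf : Integrable f) {η : ℝ} (hη : 0 < η) :
    Integrable (fun ξ => bg26_gs η ξ * f ξ) := by
  refine Integrable.mono' hf.abs ((bg26_gs_cont η).aestronglyMeasurable.mul hf.1)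
    (ae_of_all _ fun ξ => ?_)
  rw [Real.norm_eq_abs, abs_mul, abs_of_pos (bg26_gs_pos η ξ)]
  have := bg26_gs_le hη ξ
  nlinarith [abs_nonneg (f ξ)]

private theorem bg26_key (h : Sol κ ρ w u) :
    (∀ η : ℝ, 0 < η → Integrable (fun ξ => bg26_gs η ξ * (lm ξ * UU ρ u ξ ^ 2))) ∧
    Tendsto (fun η : ℝ => ∫ ξ, bg26_gs η ξ * (lm ξ * UU ρ u ξ ^ 2)) (𝓝[>] 0)
      (𝓝 (ρ ^ 2 * κ * (∫ x, u x * ((1 - u x) * w x)) -
        2 * bb κ ρ w u * (∫ ξ, UU ρ u ξ ^ 2) + bb κ ρ w u * (∫ ξ, UU ρ u ξ ^ 3))) := by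
  have hg := h.g_int
  set g : E3 → ℝ := fun x => (1 - u x) * w x with hgdef
  have e : ∀ η ξ, bg26_gs η ξ * (lm ξ * UU ρ u ξ ^ 2) =
      ρ ^ 2 * κ * (bg26_gs η ξ * (ct g ξ * ct u ξ + st g ξ * st u ξ)) -
        2 * bb κ ρ w u * (bg26_gs η ξ * UU ρ u ξ ^ 2) +
        bb κ ρ w u * (bg26_gs η ξ * UU ρ u ξ ^ 3) := by
    intro η ξ
    have h1 : lm ξ * UU ρ u ξ ^ 2 = (lm ξ * UU ρ u ξ) * UU ρ u ξ := by ring
    rw [h1, h.lm_UU ξ, h.ureal ξ, ← hgdef]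
    have h2 : ct u ξ * ρ = UU ρ u ξ := by unfold UU; ring
    have h3 : ρ ^ 2 * κ * (bg26_gs η ξ * (ct g ξ * ct u ξ + st g ξ * 0)) =
        ρ * κ * bg26_gs η ξ * ct g ξ * (ct u ξ * ρ) := by ring
    rw [h3, h2]
    ring
  have i1 : ∀ η : ℝ, 0 < η →
      Integrable (fun ξ => bg26_gs η ξ * (ct g ξ * ct u ξ + st g ξ * st u ξ)) := by
    intro η hη
    have e1 : (fun ξ => bg26_gs η ξ * (ct g ξ * ct u ξ + st g ξ * st u ξ)) =
        fun ξ => bg26_gs η ξ * (ct g ξ * ct u ξ) := by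
      funext ξ; rw [h.ureal ξ]; ring
    rw [e1]
    refine Integrable.mono' ((bg26_gs_int hη).mul_const ((∫ y, |g y|) * ∫ y, |u y|)) ?_
      (ae_of_all _ fun ξ => ?_)
    · exact ((bg26_gs_cont η).mul ((continuous_ct hg).mul (continuous_ct h.ui))).aestronglyMeasurable
    · rw [Real.norm_eq_abs, abs_mul, abs_of_pos (bg26_gs_pos η ξ), abs_mul]
      refine mul_le_mul_of_nonneg_left ?_ (bg26_gs_pos η ξ).le
      exact mul_le_mul (abs_ct_le hg ξ) (abs_ct_le h.ui ξ) (abs_nonneg _)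
        (integral_nonneg fun y => abs_nonneg _)
  have i2 : ∀ η : ℝ, 0 < η → Integrable (fun ξ => bg26_gs η ξ * UU ρ u ξ ^ 2) :=
    fun η hη => bg26_dom_int h.sq_int.1 hη
  have i3 : ∀ η : ℝ, 0 < η → Integrable (fun ξ => bg26_gs η ξ * UU ρ u ξ ^ 3) :=
    fun η hη => bg26_dom_int (bg26_cube h) hη
  constructor
  · intro η hη
    have := (((i1 η hη).const_mul (ρ ^ 2 * κ)).sub
      ((i2 η hη).const_mul (2 * bb κ ρ w u))).add ((i3 η hη).const_mul (bb κ ρ w u))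
    refine this.congr (ae_of_all _ fun ξ => ?_)
    exact (e η ξ).symm
  · have t1 := tendsto_gauss (f := g) (u := u) hg h.ui (C := 1) (by
      filter_upwards [h.ub] with x hx
      rw [abs_le]; constructor <;> linarith [hx.1, hx.2])
    have t2 := bg26_dom h.sq_int.1
    have t3 := bg26_dom (bg26_cube h)
    have t4 := ((t1.const_mul (ρ ^ 2 * κ)).sub (t2.const_mul (2 * bb κ ρ w u))).add
      (t3.const_mul (bb κ ρ w u))
    have e5 : (∫ x, g x * u x) = ∫ x, u x * ((1 - u x) * w x) := by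
      congr 1; funext x; rw [hgdef]; ring
    rw [e5] at t4
    refine t4.congr' ?_
    refine eventually_nhdsWithin_of_forall fun η hη => ?_
    have e6 : (∫ ξ, bg26_gs η ξ * (lm ξ * UU ρ u ξ ^ 2)) =
        ∫ ξ, (ρ ^ 2 * κ * (bg26_gs η ξ * (ct g ξ * ct u ξ + st g ξ * st u ξ)) -
        2 * bb κ ρ w u * (bg26_gs η ξ * UU ρ u ξ ^ 2) +
        bb κ ρ w u * (bg26_gs η ξ * UU ρ u ξ ^ 3)) := by
      congr 1; funext ξ; exact e η ξ
    show _ = ∫ ξ, bg26_gs η ξ * (lm ξ * UU ρ u ξ ^ 2)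
    have j1 := (i1 η hη).const_mul (ρ ^ 2 * κ)
    have j2 := (i2 η hη).const_mul (2 * bb κ ρ w u)
    have j3 := (i3 η hη).const_mul (bb κ ρ w u)
    have j4 : Integrable (fun ξ => ρ ^ 2 * κ * (bg26_gs η ξ * (ct g ξ * ct u ξ + st g ξ * st u ξ)) -
        2 * bb κ ρ w u * (bg26_gs η ξ * UU ρ u ξ ^ 2)) := j1.sub j2
    rw [e6, integral_add j4 j3, integral_sub j1 j2,
      integral_const_mul, integral_const_mul, integral_const_mul]
    rfl

private theorem bg26_seq : Tendsto (fun n : ℕ => (1 / ((n : ℝ) + 1))) atTop (𝓝[>] 0) := by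
  rw [tendsto_nhdsWithin_iff]
  exact ⟨tendsto_one_div_add_atTop_nhds_zero_nat,
    Eventually.of_forall fun n => by
      show (0 : ℝ) < 1 / ((n : ℝ) + 1)
      positivity⟩

private theorem bg26_fin (h : Sol κ ρ w u) :
    Integrable (fun ξ => lm ξ * UU ρ u ξ ^ 2) ∧
    (∫ ξ, lm ξ * UU ρ u ξ ^ 2) = ρ ^ 2 * κ * (∫ x, u x * ((1 - u x) * w x)) -
        2 * bb κ ρ w u * (∫ ξ, UU ρ u ξ ^ 2) + bb κ ρ w u * (∫ ξ, UU ρ u ξ ^ 3) := by
  obtain ⟨k1, k2⟩ := bg26_key h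
  set R : ℝ := ρ ^ 2 * κ * (∫ x, u x * ((1 - u x) * w x)) -
        2 * bb κ ρ w u * (∫ ξ, UU ρ u ξ ^ 2) + bb κ ρ w u * (∫ ξ, UU ρ u ξ ^ 3) with hR
  have hη : ∀ n : ℕ, (0 : ℝ) < 1 / ((n : ℝ) + 1) := fun n => by positivity
  have hf0 : ∀ ξ, 0 ≤ lm ξ * UU ρ u ξ ^ 2 := fun ξ =>
    mul_nonneg (bg26_lm_nonneg ξ) (sq_nonneg _)
  have hfc : Continuous (fun ξ => lm ξ * UU ρ u ξ ^ 2) :=
    bg26_lm_cont.mul (h.continuous_UU.pow 2)
  have hint : Integrable (fun ξ => lm ξ * UU ρ u ξ ^ 2) := by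
    refine ⟨hfc.aestronglyMeasurable, ?_⟩
    rw [hasFiniteIntegral_iff_ofReal (ae_of_all _ hf0)]
    have hlim : ∀ ξ : E3, Tendsto (fun n : ℕ => ENNReal.ofReal
        (bg26_gs (1 / ((n : ℝ) + 1)) ξ * (lm ξ * UU ρ u ξ ^ 2))) atTop
        (𝓝 (ENNReal.ofReal (lm ξ * UU ρ u ξ ^ 2))) := by
      intro ξ
      have h1 := ((bg26_gs_lim ξ).comp bg26_seq).mul_const (lm ξ * UU ρ u ξ ^ 2)
      rw [one_mul] at h1
      exact (ENNReal.continuous_ofReal.tendsto _).comp h1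
    have hF : ∀ n : ℕ, ∫⁻ ξ, ENNReal.ofReal
        (bg26_gs (1 / ((n : ℝ) + 1)) ξ * (lm ξ * UU ρ u ξ ^ 2)) =
        ENNReal.ofReal (∫ ξ, bg26_gs (1 / ((n : ℝ) + 1)) ξ * (lm ξ * UU ρ u ξ ^ 2)) := by
      intro n
      rw [ofReal_integral_eq_lintegral_ofReal (k1 _ (hη n))
        (ae_of_all _ fun ξ => mul_nonneg (bg26_gs_pos _ ξ).le (hf0 ξ))]
    have hfat := lintegral_liminf_le (μ := (volume : Measure E3)) (u := atTop)
      (f := fun (n : ℕ) ξ =>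
      ENNReal.ofReal (bg26_gs (1 / ((n : ℝ) + 1)) ξ * (lm ξ * UU ρ u ξ ^ 2)))
      (fun n => ENNReal.measurable_ofReal.comp
        ((bg26_gs_cont _).mul hfc).measurable)
    have h2 : Tendsto (fun n : ℕ => ∫⁻ ξ, ENNReal.ofReal
        (bg26_gs (1 / ((n : ℝ) + 1)) ξ * (lm ξ * UU ρ u ξ ^ 2))) atTop
        (𝓝 (ENNReal.ofReal R)) := by
      simp only [hF]
      exact (ENNReal.continuous_ofReal.tendsto _).comp (k2.comp bg26_seq)
    rw [h2.liminf_eq] at hfat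
    have h3 : (∫⁻ ξ, liminf (fun n : ℕ => ENNReal.ofReal
        (bg26_gs (1 / ((n : ℝ) + 1)) ξ * (lm ξ * UU ρ u ξ ^ 2))) atTop) =
        ∫⁻ ξ, ENNReal.ofReal (lm ξ * UU ρ u ξ ^ 2) := by
      congr 1; funext ξ; exact (hlim ξ).liminf_eq
    rw [h3] at hfat
    exact lt_of_le_of_lt hfat ENNReal.ofReal_lt_top
  refine ⟨hint, ?_⟩
  exact tendsto_nhds_unique (bg26_dom hint) k2

theorem Sol.lm_sq_int (h : Sol κ ρ w u) : Integrable (fun ξ => lm ξ * UU ρ u ξ ^ 2) :=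
  (bg26_fin h).1

theorem Sol.kin (h : Sol κ ρ w u) :
    (∫ ξ, lm ξ * UU ρ u ξ ^ 2) + 2 * bb κ ρ w u * (∫ ξ, UU ρ u ξ ^ 2) -
      bb κ ρ w u * (∫ ξ, UU ρ u ξ ^ 3) = ρ ^ 2 * κ * ∫ x, u x * ((1 - u x) * w x) := by
  rw [(bg26_fin h).2]
  ring

end Pool.Agent.BG
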