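import Pool.Agent.BG.FinVol2
import Pool.Agent.BG.CT

/-! MP_2d9608_mp, project BG, row BG-19 -/

set_option autoImplicit false

open MeasureTheory ProbabilityTheory H47.SE Filter
open scoped ComplexConjugate Topology ENNReal

noncomputable section

namespace Pool.Agent.BG

private theorem bg19_ph (L : ℝ) (p : Fin 3 → ℤ) (x : E3) :
    ph L p x = 2 * Real.pi * inner ℝ (frq L p) x := by
  unfold ph
  rw [PiLp.inner_apply, mul_div_assoc, Finset.sum_div]
  congr 1
  refine Finset.sum_congr rfl fun a _ => ?_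
  simp only [frq_apply, RCLike.inner_apply, conj_trivial]
  ring

private theorem bg19_frq0 (L : ℝ) : frq L 0 = 0 := by
  ext a
  simp

private theorem bg19_bdd {a : E3 → ℝ} {k : ℝ}
    (hk2 : ∀ ξ, ξ ∉ ocube k → a ξ = 0) : HasCompactSupport a := by
  refine HasCompactSupport.intro (isCompact_closedBall (0 : E3) (|k| * 3)) fun ξ hξ => ?_
  refine hk2 ξ fun h => hξ ?_
  rw [mem_closedBall_zero_iff, EuclideanSpace.norm_eq]
  have h1 : ∀ a, ‖ξ a‖ ^ 2 ≤ |k| ^ 2 := by
    intro a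
    have h2 : |ξ a| ≤ |k| := by
      rw [abs_le]
      have := h a
      constructor
      · linarith [le_abs_self k, this.1]
      · linarith [le_abs_self k, this.2]
    rw [Real.norm_eq_abs]
    exact pow_le_pow_left₀ (abs_nonneg _) h2 2
  calc √(∑ a, ‖ξ a‖ ^ 2) ≤ √((|k| * 3) ^ 2) := by
        apply Real.sqrt_le_sqrt
        calc ∑ a, ‖ξ a‖ ^ 2 ≤ ∑ _a : Fin 3, |k| ^ 2 := Finset.sum_le_sum fun a _ => h1 a
          _ = 3 * |k| ^ 2 := by simp
          _ ≤ (|k| * 3) ^ 2 := by nlinarith [sq_nonneg |k|]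
    _ = |k| * 3 := Real.sqrt_sq (by positivity)

theorem tendsto_As {a : E3 → ℝ} (ha : Continuous a) {k : ℝ}
    (hk : 0 < k) (hk2 : ∀ ξ, ξ ∉ ocube k → a ξ = 0) (x : E3) :
    Tendsto (fun L : ℝ => As L ((cubeP ⌊k * L⌋₊).erase 0) a x) atTop (𝓝 (ct a x)) := by
  obtain ⟨C, hC⟩ := ha.bounded_above_of_compact_support (bg19_bdd hk2)
  set g : E3 → ℝ := fun ξ => Real.cos (2 * Real.pi * inner ℝ ξ x) * a ξ with hg
  have hgc : Continuous g := by
    rw [hg]
    fun_prop
  have hgC : ∀ ξ, |g ξ| ≤ C := by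
    intro ξ
    rw [hg]
    simp only [abs_mul]
    have h1 : |a ξ| ≤ C := hC ξ
    calc |Real.cos (2 * Real.pi * inner ℝ ξ x)| * |a ξ| ≤ 1 * |a ξ| :=
          mul_le_mul_of_nonneg_right (Real.abs_cos_le_one _) (abs_nonneg _)
      _ ≤ C := by rw [one_mul]; exact h1
  have h1 := tendsto_riemann g hgc C hgC k hk
  have h2 : ∫ ξ in ocube k, g ξ = ct a x := by
    unfold ct
    rw [setIntegral_eq_integral_of_forall_compl_eq_zero]
    intro ξ hξ
    rw [hg]
    simp only [hk2 ξ hξ, mul_zero]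
  rw [h2] at h1
  have h3 : Tendsto (fun L : ℝ => (L ^ 3)⁻¹ * a 0) atTop (𝓝 (0 * a 0)) :=
    ((tendsto_pow_atTop (by norm_num)).inv_tendsto_atTop).mul_const (a 0)
  have h4 := h1.sub h3
  rw [zero_mul, sub_zero] at h4
  refine h4.congr' ?_
  filter_upwards [eventually_ge_atTop (1 / k)] with L hL
  have hkL : 1 ≤ k * L := by
    rw [div_le_iff₀ hk] at hL
    linarith [mul_comm L k]
  have h0 : (0 : Fin 3 → ℤ) ∈ cubeP ⌊k * L⌋₊ := by
    rw [mem_cubeP]
    intro a
    have : 1 ≤ ⌊k * L⌋₊ := Nat.one_le_floor_iff _ |>.2 hkL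
    simp only [Pi.zero_apply]
    omega
  unfold As
  rw [← mul_sub]
  congr 1
  rw [← Finset.add_sum_erase _ _ h0]
  have h5 : g (frq L 0) = a 0 := by
    rw [bg19_frq0]
    simp [hg]
  rw [h5, add_sub_cancel_left]
  refine Finset.sum_congr rfl fun p _ => ?_
  rw [bg19_ph, hg]
  ring

/-- the finite sums are bounded by the value at zero -/
private theorem bg19_abs {L : ℝ} (hL : 0 < L) (S : Finset (Fin 3 → ℤ)) (a : E3 → ℝ) (x : E3) :
    |As L S a x| ≤ As L S (fun ξ => |a ξ|) 0 := by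
  unfold As
  rw [abs_mul, abs_of_pos (by positivity : (0 : ℝ) < (L ^ 3)⁻¹)]
  refine mul_le_mul_of_nonneg_left ?_ (by positivity)
  refine (Finset.abs_sum_le_sum_abs _ _).trans (Finset.sum_le_sum fun p _ => ?_)
  have h0 : ph L p 0 = 0 := by
    rw [bg19_ph]
    simp
  rw [abs_mul, h0, Real.cos_zero]
  exact mul_le_mul_of_nonneg_left (Real.abs_cos_le_one _) (abs_nonneg _)

private theorem bg19_cont (L : ℝ) (S : Finset (Fin 3 → ℤ)) (a : E3 → ℝ) : Continuous (As L S a) := by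
  unfold As
  refine continuous_const.mul (continuous_finsetSum _ fun p _ => continuous_const.mul ?_)
  have : (fun x : E3 => Real.cos (ph L p x)) =
      fun x => Real.cos (2 * Real.pi * inner ℝ (frq L p) x) := by
    funext x
    rw [bg19_ph]
  rw [this]
  fun_prop

private theorem bg19_side {ρ : ℝ} (hρ : 0 < ρ) : Tendsto (fun N : ℕ => side ρ N) atTop atTop := by
  unfold side
  exact (tendsto_rpow_atTop (by norm_num)).comp
    ((tendsto_natCast_atTop_atTop (R := ℝ)).atTop_div_const hρ)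

theorem limit_cc {m : ℝ} (hm : 0 < m) {w : E3 → ℝ} (hw0 : ∀ x, 0 ≤ w x) (hwm : Measurable w)
    (hwi : Integrable w) {ρ : ℝ} (hρ : 0 < ρ) {t : E3 → ℝ} (htc : Continuous t)
    (hts : HasCompactSupport t) (heven : ∀ ξ, t (-ξ) = t ξ) (ht : ∀ ξ, |t ξ| < 1) {z : ℝ}
    (hz : 0 < z) (hρz : ρ < z + ∫ ξ, gam (t ξ)) {E : ℕ → ℝ}
    (hE : ∀ N, 0 < N → E N ≤ groundEnergy m (perPot w (side ρ N)) N (side ρ N)) {e0 : ℝ}
    (he0 : Tendsto (fun N : ℕ => E N / N) atTop (𝓝 e0)) :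
    ρ * e0 ≤ FF m w t z := by
  -- a cube which contains the support
  obtain ⟨k, hk, hk2⟩ : ∃ k : ℝ, 0 < k ∧ ∀ ξ, ξ ∉ ocube k → t ξ = 0 := by
    obtain ⟨R, hR⟩ := hts.isCompact.isBounded.subset_closedBall (0 : E3)
    refine ⟨|R| + 1, by positivity, fun ξ hξ => ?_⟩
    by_contra hne
    have h1 : ξ ∈ tsupport t := subset_tsupport t hne
    have h2 := hR h1
    rw [mem_closedBall_zero_iff] at h2
    refine hξ fun a => ?_
    have h3 : |ξ a| ≤ ‖ξ‖ := by
      have := PiLp.norm_apply_le ξ a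
      rwa [Real.norm_eq_abs] at this
    have h4 := abs_le.1 (h3.trans (h2.trans (le_abs_self R)))
    constructor <;> linarith [h4.1, h4.2]
  have hden : ∀ ξ, 1 - t ξ ^ 2 ≠ 0 := by
    intro ξ
    have h1 : t ξ ^ 2 < 1 := by
      have h2 := abs_lt.1 (ht ξ)
      nlinarith [h2.1, h2.2]
    linarith
  have hden' : ∀ ξ, 0 < 1 - t ξ ^ 2 := by
    intro ξ
    have h2 := abs_lt.1 (ht ξ)
    nlinarith [h2.1, h2.2]
  have hgc : Continuous fun ξ => gam (t ξ) := by
    unfold gam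
    exact (htc.pow 2).div (continuous_const.sub (htc.pow 2)) hden
  have hac : Continuous fun ξ => alp (t ξ) := by
    unfold alp
    exact htc.neg.div (continuous_const.sub (htc.pow 2)) hden
  have hlc : Continuous fun ξ => lm ξ * gam (t ξ) := by
    refine Continuous.mul ?_ hgc
    unfold lm
    fun_prop
  have hg2 : ∀ ξ, ξ ∉ ocube k → gam (t ξ) = 0 := fun ξ h => by simp [gam, hk2 ξ h]
  have ha2 : ∀ ξ, ξ ∉ ocube k → alp (t ξ) = 0 := fun ξ h => by simp [alp, hk2 ξ h]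
  have hgi : Integrable fun ξ => gam (t ξ) :=
    hgc.integrable_of_hasCompactSupport (bg19_bdd hg2)
  have hai : Integrable fun ξ => alp (t ξ) :=
    hac.integrable_of_hasCompactSupport (bg19_bdd ha2)
  have hg0 : ∀ ξ, 0 ≤ gam (t ξ) := fun ξ => div_nonneg (sq_nonneg _) (hden' ξ).le
  -- the volumes
  set L : ℕ → ℝ := fun N => side ρ N with hL
  have hLt : Tendsto L atTop atTop := bg19_side hρ
  set S : ℕ → Finset (Fin 3 → ℤ) := fun N => (cubeP ⌊k * L N⌋₊).erase 0 with hS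
  have hG : ∀ x, Tendsto (fun N => As (L N) (S N) (fun ξ => gam (t ξ)) x) atTop
      (𝓝 (ct (fun ξ => gam (t ξ)) x)) := fun x => (tendsto_As hgc hk hg2 x).comp hLt
  have hA : ∀ x, Tendsto (fun N => As (L N) (S N) (fun ξ => alp (t ξ)) x) atTop
      (𝓝 (ct (fun ξ => alp (t ξ)) x)) := fun x => (tendsto_As hac hk ha2 x).comp hLt
  have hLm : Tendsto (fun N => As (L N) (S N) (fun ξ => lm ξ * gam (t ξ)) 0) atTop
      (𝓝 (∫ ξ, lm ξ * gam (t ξ))) := by
    have h1 := (tendsto_As hlc hk (fun ξ h => by simp [hg2 ξ h]) 0).comp hLt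
    rwa [ct_zero] at h1
  have hG2 : Tendsto (fun N => As (L N) (S N) (fun ξ => gam (t ξ) ^ 2) 0) atTop
      (𝓝 (∫ ξ, gam (t ξ) ^ 2)) := by
    have h1 := (tendsto_As (hgc.pow 2) hk (fun ξ h => by simp [hg2 ξ h]) 0).comp hLt
    rwa [ct_zero] at h1
  have hG0 : Tendsto (fun N => As (L N) (S N) (fun ξ => gam (t ξ)) 0) atTop
      (𝓝 (∫ ξ, gam (t ξ))) := by
    have h1 := hG 0
    rwa [ct_zero] at h1
  have hAa : Tendsto (fun N => As (L N) (S N) (fun ξ => |alp (t ξ)|) 0) atTop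
      (𝓝 (∫ ξ, |alp (t ξ)|)) := by
    have h1 := (tendsto_As hac.abs hk (fun ξ h => by simp [ha2 ξ h]) 0).comp hLt
    rwa [ct_zero] at h1
  have hGa : Tendsto (fun N => As (L N) (S N) (fun ξ => |gam (t ξ)|) 0) atTop
      (𝓝 (∫ ξ, |gam (t ξ)|)) := by
    have h1 := (tendsto_As hgc.abs hk (fun ξ h => by simp [hg2 ξ h]) 0).comp hLt
    rwa [ct_zero] at h1
  set Γ : ℝ := ∫ ξ, gam (t ξ) with hΓ
  set Γ2 : ℝ := ∫ ξ, gam (t ξ) ^ 2 with hΓ2
  have hΓ0 : 0 ≤ Γ := integral_nonneg hg0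
  have hΓ20 : 0 ≤ Γ2 := integral_nonneg fun ξ => sq_nonneg _
  -- the exponent
  set δ : ℝ := z + Γ - ρ with hδ
  have hδ0 : 0 < δ := by rw [hδ]; linarith
  set M : ℝ := z / 2 + Γ + Γ2 with hM
  have hM0 : 0 < M := by rw [hM]; positivity
  set s : ℝ := δ / (2 * M) with hs
  have hs0 : 0 < s := by rw [hs]; positivity
  have hneg : -s * δ + s ^ 2 * M < 0 := by
    have h1 : s * M = δ / 2 := by
      rw [hs]
      field_simp
    have h2 : s ^ 2 * M = s * (δ / 2) := by rw [← h1]; ring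
    rw [h2]
    nlinarith [mul_pos hs0 hδ0]
  set X : ℕ → ℝ := fun N => -s * (z + As (L N) (S N) (fun ξ => gam (t ξ)) 0 - ρ) +
    s ^ 2 * (z / 2 + As (L N) (S N) (fun ξ => gam (t ξ)) 0 +
      As (L N) (S N) (fun ξ => gam (t ξ) ^ 2) 0) with hX
  have hXt : Tendsto X atTop (𝓝 (-s * δ + s ^ 2 * M)) := by
    refine Tendsto.add (Tendsto.const_mul _ ?_) (Tendsto.const_mul _ ?_)
    · exact (tendsto_const_nhds.add hG0).sub_const ρ
    · exact (tendsto_const_nhds.add hG0).add hG2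
  have hL3 : Tendsto (fun N => L N ^ 3) atTop atTop :=
    (tendsto_pow_atTop (by norm_num)).comp hLt
  have hexp : Tendsto (fun N => Real.exp (L N ^ 3 * X N)) atTop (𝓝 0) :=
    Real.tendsto_exp_atBot.comp (hL3.atTop_mul_neg hneg hXt)
  -- the right hand side
  set Fn : ℕ → E3 → ℝ := fun N x => w x * ((z + As (L N) (S N) (fun ξ => gam (t ξ)) 0) ^ 2 +
    2 * z * (As (L N) (S N) (fun ξ => alp (t ξ)) x + As (L N) (S N) (fun ξ => gam (t ξ)) x) +
    As (L N) (S N) (fun ξ => alp (t ξ)) x ^ 2 + As (L N) (S N) (fun ξ => gam (t ξ)) x ^ 2) with hFn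
  set Fi : E3 → ℝ := fun x => w x * ((z + Γ) ^ 2 +
    2 * z * (ct (fun ξ => alp (t ξ)) x + ct (fun ξ => gam (t ξ)) x) +
    ct (fun ξ => alp (t ξ)) x ^ 2 + ct (fun ξ => gam (t ξ)) x ^ 2) with hFi
  have hint : Tendsto (fun N => ∫ x, Fn N x) atTop (𝓝 (∫ x, Fi x)) := by
    set Ca : ℝ := (∫ ξ, |alp (t ξ)|) + 1 with hCa
    set Cg : ℝ := (∫ ξ, |gam (t ξ)|) + 1 with hCg
    have hCa0 : 0 ≤ Ca := by
      have : 0 ≤ ∫ ξ, |alp (t ξ)| := integral_nonneg fun ξ => abs_nonneg _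
      linarith
    have hCg0 : 0 ≤ Cg := by
      have : 0 ≤ ∫ ξ, |gam (t ξ)| := integral_nonneg fun ξ => abs_nonneg _
      linarith
    refine tendsto_integral_filter_of_dominated_convergence
      (fun x => w x * ((z + Cg) ^ 2 + 2 * z * (Ca + Cg) + Ca ^ 2 + Cg ^ 2)) ?_ ?_ ?_ ?_
    · refine Eventually.of_forall fun N => ?_
      refine (hwm.mul ?_).aestronglyMeasurable
      have h1 := (bg19_cont (L N) (S N) (fun ξ => alp (t ξ)))
      have h2 := (bg19_cont (L N) (S N) (fun ξ => gam (t ξ)))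
      exact (((continuous_const.add (continuous_const.mul (h1.add h2))).add (h1.pow 2)).add
        (h2.pow 2)).measurable
    · filter_upwards [hAa.eventually_le_const (lt_add_one _),
        hGa.eventually_le_const (lt_add_one _), hLt.eventually_gt_atTop 0] with N h1 h2 h3
      refine Eventually.of_forall fun x => ?_
      have ha1 : |As (L N) (S N) (fun ξ => alp (t ξ)) x| ≤ Ca := (bg19_abs h3 _ _ x).trans h1
      have hg1 : |As (L N) (S N) (fun ξ => gam (t ξ)) x| ≤ Cg := (bg19_abs h3 _ _ x).trans h2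
      have hg3 : |As (L N) (S N) (fun ξ => gam (t ξ)) 0| ≤ Cg := (bg19_abs h3 _ _ 0).trans h2
      rw [hFn]
      simp only [norm_mul, Real.norm_eq_abs, abs_of_nonneg (hw0 x)]
      refine mul_le_mul_of_nonneg_left ?_ (hw0 x)
      generalize As (L N) (S N) (fun ξ => alp (t ξ)) x = A at ha1 ⊢
      generalize As (L N) (S N) (fun ξ => gam (t ξ)) x = G at hg1 ⊢
      generalize As (L N) (S N) (fun ξ => gam (t ξ)) 0 = G' at hg3 ⊢
      have e1 : |(z + G') ^ 2| ≤ (z + Cg) ^ 2 := by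
        rw [abs_pow]
        refine pow_le_pow_left₀ (abs_nonneg _) ?_ 2
        refine (abs_add_le _ _).trans ?_
        rw [abs_of_pos hz]
        linarith
      have e2 : |2 * z * (A + G)| ≤ 2 * z * (Ca + Cg) := by
        rw [abs_mul, abs_of_pos (by positivity : (0 : ℝ) < 2 * z)]
        refine mul_le_mul_of_nonneg_left ?_ (by positivity)
        exact (abs_add_le _ _).trans (add_le_add ha1 hg1)
      have e3 : |A ^ 2| ≤ Ca ^ 2 := by
        rw [abs_pow]
        exact pow_le_pow_left₀ (abs_nonneg _) ha1 2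
      have e4 : |G ^ 2| ≤ Cg ^ 2 := by
        rw [abs_pow]
        exact pow_le_pow_left₀ (abs_nonneg _) hg1 2
      calc |(z + G') ^ 2 + 2 * z * (A + G) + A ^ 2 + G ^ 2|
          ≤ |(z + G') ^ 2 + 2 * z * (A + G) + A ^ 2| + |G ^ 2| := abs_add_le _ _
        _ ≤ |(z + G') ^ 2 + 2 * z * (A + G)| + |A ^ 2| + |G ^ 2| := by
            gcongr
            exact abs_add_le _ _
        _ ≤ |(z + G') ^ 2| + |2 * z * (A + G)| + |A ^ 2| + |G ^ 2| := by
            gcongr
            exact abs_add_le _ _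
        _ ≤ _ := by linarith
    · exact hwi.mul_const _
    · refine Eventually.of_forall fun x => ?_
      refine Tendsto.const_mul _ ?_
      exact ((((tendsto_const_nhds.add hG0).pow 2).add
        (((hA x).add (hG x)).const_mul _)).add ((hA x).pow 2)).add ((hG x).pow 2)
  set Rn : ℕ → ℝ := fun N => 1 / (2 * m) * As (L N) (S N) (fun ξ => lm ξ * gam (t ξ)) 0 +
    1 / 2 * ∫ x, Fn N x with hRn
  have hRt : Tendsto Rn atTop (𝓝 (1 / (2 * m) * (∫ ξ, lm ξ * gam (t ξ)) + 1 / 2 * ∫ x, Fi x)) :=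
    (hLm.const_mul _).add (hint.const_mul _)
  have hFF : 1 / (2 * m) * (∫ ξ, lm ξ * gam (t ξ)) + 1 / 2 * ∫ x, Fi x = FF m w t z := by
    unfold FF
    have hca := continuous_ct hai
    have hcg := continuous_ct hgi
    have i1 : Integrable fun x => w x * (z + Γ) ^ 2 := hwi.mul_const _
    have hb : ∀ (f : E3 → ℝ), Continuous f → (∃ C, ∀ x, |f x| ≤ C) →
        Integrable fun x => w x * f x := by
      rintro f hf ⟨C, hC⟩
      exact hwi.mul_bdd hf.aestronglyMeasurable (Eventually.of_forall hC)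
    have hba : ∀ x, |ct (fun ξ => alp (t ξ)) x| ≤ ∫ ξ, |alp (t ξ)| := abs_ct_le hai
    have hbg : ∀ x, |ct (fun ξ => gam (t ξ)) x| ≤ ∫ ξ, |gam (t ξ)| := abs_ct_le hgi
    have i2 : Integrable fun x => w x *
        (ct (fun ξ => alp (t ξ)) x + ct (fun ξ => gam (t ξ)) x) := by
      refine hb _ (hca.add hcg) ⟨(∫ ξ, |alp (t ξ)|) + ∫ ξ, |gam (t ξ)|, fun x => ?_⟩
      exact (abs_add_le _ _).trans (add_le_add (hba x) (hbg x))
    have i3 : Integrable fun x => w x *
        (ct (fun ξ => alp (t ξ)) x ^ 2 + ct (fun ξ => gam (t ξ)) x ^ 2) := by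
      refine hb _ ((hca.pow 2).add (hcg.pow 2))
        ⟨(∫ ξ, |alp (t ξ)|) ^ 2 + (∫ ξ, |gam (t ξ)|) ^ 2, fun x => ?_⟩
      refine (abs_add_le _ _).trans (add_le_add ?_ ?_)
      · rw [abs_pow]
        exact pow_le_pow_left₀ (abs_nonneg _) (hba x) 2
      · rw [abs_pow]
        exact pow_le_pow_left₀ (abs_nonneg _) (hbg x) 2
    have h1 : (fun x => Fi x) = fun x => (w x * (z + Γ) ^ 2 + 2 * z * (w x *
        (ct (fun ξ => alp (t ξ)) x + ct (fun ξ => gam (t ξ)) x))) + w x *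
        (ct (fun ξ => alp (t ξ)) x ^ 2 + ct (fun ξ => gam (t ξ)) x ^ 2) := by
      funext x
      rw [hFi]
      ring
    have i2' : Integrable fun x => 2 * z * (w x *
        (ct (fun ξ => alp (t ξ)) x + ct (fun ξ => gam (t ξ)) x)) := i2.const_mul _
    have i12 : Integrable fun x => w x * (z + Γ) ^ 2 + 2 * z * (w x *
        (ct (fun ξ => alp (t ξ)) x + ct (fun ξ => gam (t ξ)) x)) := i1.add i2'
    rw [h1, integral_add i12 i3, integral_add i1 i2', integral_mul_const, integral_const_mul]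
  rw [← hFF]
  -- the left hand side
  have hleft : Tendsto (fun N : ℕ => ρ * (E N / N) * (1 - Real.exp (L N ^ 3 * X N))) atTop
      (𝓝 (ρ * e0 * (1 - 0))) :=
    (he0.const_mul ρ).mul (tendsto_const_nhds.sub hexp)
  rw [sub_zero, mul_one] at hleft
  refine le_of_tendsto_of_tendsto hleft hRt ?_
  filter_upwards [hexp.eventually_le_const (zero_lt_one), eventually_gt_atTop 0] with N h1 hN
  have hN' : (0 : ℝ) < N := Nat.cast_pos.2 hN
  have hLpos : 0 < L N := side_pos hρ hN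
  have : Fact (0 < L N) := ⟨hLpos⟩
  have hL3' : L N ^ 3 = N / ρ := side_pow hρ N
  have h2 := fin_vol2 (L := L N) hm hw0 hwm hwi heven ht hz (S := S N) (Finset.notMem_erase _ _)
    (by
      intro p hp
      rw [hS, Finset.mem_erase] at hp ⊢
      refine ⟨neg_ne_zero.2 hp.1, ?_⟩
      rw [mem_cubeP] at hp ⊢
      intro a
      have := hp.2 a
      simp only [Pi.neg_apply]
      omega) N hs0.le
  have hexp' : -s * (L N ^ 3 * (z + As (L N) (S N) (fun ξ => gam (t ξ)) 0) - N) +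
        s ^ 2 * (L N ^ 3 * (z / 2 + As (L N) (S N) (fun ξ => gam (t ξ)) 0 +
          As (L N) (S N) (fun ξ => gam (t ξ) ^ 2) 0)) = L N ^ 3 * X N := by
    have h3 : (N : ℝ) = L N ^ 3 * ρ := by
      rw [hL3']
      field_simp
    rw [hX]
    simp only
    nth_rewrite 1 [h3]
    ring
  rw [hexp'] at h2
  have h4 : 0 ≤ 1 - Real.exp (L N ^ 3 * X N) := by linarith
  have h5 := (mul_le_mul_of_nonneg_right (hE N hN) h4).trans h2
  have h6 : E N * (1 - Real.exp (L N ^ 3 * X N)) ≤ L N ^ 3 * Rn N := h5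
  have h7 : ρ * (E N / N) * (1 - Real.exp (L N ^ 3 * X N)) =
      (L N ^ 3)⁻¹ * (E N * (1 - Real.exp (L N ^ 3 * X N))) := by
    rw [hL3']
    field_simp
  rw [h7]
  calc (L N ^ 3)⁻¹ * (E N * (1 - Real.exp (L N ^ 3 * X N))) ≤ (L N ^ 3)⁻¹ * (L N ^ 3 * Rn N) :=
        mul_le_mul_of_nonneg_left h6 (by positivity)
    _ = Rn N := by
        rw [← mul_assoc, inv_mul_cancel₀ (by positivity), one_mul]

end Pool.Agent.BG
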