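import Pool.Agent.BG.GaussConv

/-! MP_2d9608_mp, project BG, row BG-23 -/

set_option autoImplicit false

open MeasureTheory ProbabilityTheory H47.SE Filter
open scoped ComplexConjugate Topology ENNReal

noncomputable section

namespace Pool.Agent.BG

theorem bg23_int_cos {f : E3 → ℝ} (hf : Integrable f) (x : E3) :
    Integrable (fun y => Real.cos (2 * Real.pi * inner ℝ y x) * f y) := by
  refine Integrable.mono' hf.norm ?_ ?_
  · exact AEStronglyMeasurable.mul (Continuous.aestronglyMeasurable (by fun_prop)) hf.1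
  · filter_upwards with y
    rw [norm_mul]
    calc _ ≤ 1 * ‖f y‖ := by
          gcongr; rw [Real.norm_eq_abs]; exact Real.abs_cos_le_one _
      _ = ‖f y‖ := one_mul _

theorem bg23_int_sin {f : E3 → ℝ} (hf : Integrable f) (x : E3) :
    Integrable (fun y => Real.sin (2 * Real.pi * inner ℝ y x) * f y) := by
  refine Integrable.mono' hf.norm ?_ ?_
  · exact AEStronglyMeasurable.mul (Continuous.aestronglyMeasurable (by fun_prop)) hf.1
  · filter_upwards with y
    rw [norm_mul]
    calc _ ≤ 1 * ‖f y‖ := by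
          gcongr; rw [Real.norm_eq_abs]; exact Real.abs_sin_le_one _
      _ = ‖f y‖ := one_mul _

theorem bg23_abs_st_le {f : E3 → ℝ} (hf : Integrable f) (x : E3) : |st f x| ≤ ∫ y, |f y| := by
  unfold st
  calc |∫ y, Real.sin (2 * Real.pi * inner ℝ y x) * f y|
      ≤ ∫ y, |Real.sin (2 * Real.pi * inner ℝ y x) * f y| := abs_integral_le_integral_abs
    _ ≤ ∫ y, |f y| := by
      refine integral_mono (bg23_int_sin hf x).abs hf.abs fun y => ?_
      show |Real.sin (2 * Real.pi * inner ℝ y x) * f y| ≤ |f y|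
      rw [abs_mul]
      calc _ ≤ 1 * |f y| := by gcongr; exact Real.abs_sin_le_one _
        _ = |f y| := one_mul _

theorem bg23_refl_sin (f : E3 → ℝ) (x : E3) :
    ∫ y, Real.sin (2 * Real.pi * inner ℝ y x) * f (-y) = -st f x := by
  have h := integral_neg_eq_self (fun y : E3 => Real.sin (2 * Real.pi * inner ℝ y x) * f (-y))
    (volume : Measure E3)
  rw [← h]
  unfold st
  rw [← integral_neg]
  refine integral_congr_ae (Eventually.of_forall fun y => ?_)
  show Real.sin (2 * Real.pi * inner ℝ (-y) x) * f (- -y) = _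
  rw [inner_neg_left, mul_neg, Real.sin_neg, neg_neg]
  ring

theorem bg23_refl_cos (f : E3 → ℝ) (x : E3) :
    ∫ y, Real.cos (2 * Real.pi * inner ℝ y x) * f (-y) = ct f x := by
  have h := integral_neg_eq_self (fun y : E3 => Real.cos (2 * Real.pi * inner ℝ y x) * f (-y))
    (volume : Measure E3)
  rw [← h]
  unfold ct
  refine integral_congr_ae (Eventually.of_forall fun y => ?_)
  show Real.cos (2 * Real.pi * inner ℝ (-y) x) * f (- -y) = _
  rw [inner_neg_left, mul_neg, Real.cos_neg, neg_neg]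

theorem bg23_st_even {f : E3 → ℝ} (hf : ∀ x, f (-x) = f x) (x : E3) : st f x = 0 := by
  have h := bg23_refl_sin f x
  simp only [hf] at h
  have h2 : st f x = -st f x := h
  linarith

theorem bg23_int_neg {f : E3 → ℝ} (hf : Integrable f) : Integrable (fun y => f (-y)) :=
  hf.comp_neg

theorem bg23_st_anti {f : E3 → ℝ} (hf : Integrable f) (x : E3) :
    st (fun y => (f y - f (-y)) / 2) x = st f x := by
  have e1 : ∀ y : E3, Real.sin (2 * Real.pi * inner ℝ y x) * ((f y - f (-y)) / 2) =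
      1 / 2 * (Real.sin (2 * Real.pi * inner ℝ y x) * f y -
        Real.sin (2 * Real.pi * inner ℝ y x) * f (-y)) := fun y => by ring
  have h : st (fun y => (f y - f (-y)) / 2) x = 1 / 2 * (st f x - -st f x) := by
    rw [← bg23_refl_sin f x]
    unfold st
    simp only [e1]
    rw [integral_const_mul, integral_sub (bg23_int_sin hf x)
      (bg23_int_sin (bg23_int_neg hf) x)]
  rw [h]; ring

theorem bg23_ct_anti {f : E3 → ℝ} (hf : Integrable f) (x : E3) :
    ct (fun y => (f y - f (-y)) / 2) x = 0 := by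
  have e1 : ∀ y : E3, Real.cos (2 * Real.pi * inner ℝ y x) * ((f y - f (-y)) / 2) =
      1 / 2 * (Real.cos (2 * Real.pi * inner ℝ y x) * f y -
        Real.cos (2 * Real.pi * inner ℝ y x) * f (-y)) := fun y => by ring
  have h : ct (fun y => (f y - f (-y)) / 2) x = 1 / 2 * (ct f x - ct f x) := by
    nth_rewrite 2 [← bg23_refl_cos f x]
    unfold ct
    simp only [e1]
    rw [integral_const_mul, integral_sub (bg23_int_cos hf x)
      (bg23_int_cos (bg23_int_neg hf) x)]
  rw [h]; ring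

theorem bg23_gauss_int {η : ℝ} (hη : 0 < η) :
    Integrable (fun ξ : E3 => Real.exp (-η * ‖ξ‖ ^ 2)) := by
  have h := (GaussianFourier.integrable_cexp_neg_mul_sq_norm_add (V := E3) (b := (η : ℂ))
    (by simpa using hη) 0 0).norm
  refine h.congr (Eventually.of_forall fun ξ => ?_)
  show ‖Complex.exp (-(η : ℂ) * ‖ξ‖ ^ 2 + 0 * (inner ℝ (0 : E3) ξ : ℝ))‖ = _
  rw [Complex.norm_exp]
  congr 1
  have : (-(η : ℂ) * ‖ξ‖ ^ 2 + 0 * (inner ℝ (0 : E3) ξ : ℝ)) = ((-η * ‖ξ‖ ^ 2 : ℝ) : ℂ) := by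
    push_cast; ring
  rw [this, Complex.ofReal_re]

section main

variable {m K ρ : ℝ} {w u : E3 → ℝ} {e : ℝ}

theorem bg23_wu (h : IsSimpleSolution m (fun x => K * w x) ρ u e) (hwi : Integrable w) :
    Integrable (fun x => w x * u x) := by
  refine Integrable.mono' hwi.norm (hwi.1.mul h.integrable.1) ?_
  filter_upwards [h.bounds] with x hx
  rw [norm_mul]
  have h1 : ‖u x‖ ≤ 1 := by
    rw [Real.norm_eq_abs, abs_le]; constructor <;> linarith [hx.1, hx.2]
  calc ‖w x‖ * ‖u x‖ ≤ ‖w x‖ * 1 := by gcongr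
    _ = ‖w x‖ := mul_one _

theorem bg23_g (h : IsSimpleSolution m (fun x => K * w x) ρ u e) (hwi : Integrable w) :
    Integrable (fun x => (1 - u x) * w x) := by
  have h1 : Integrable (fun x => w x - w x * u x) := hwi.sub (bg23_wu h hwi)
  refine h1.congr (Eventually.of_forall fun x => ?_)
  show w x - w x * u x = (1 - u x) * w x
  ring

theorem bg23_ident (h : IsSimpleSolution m (fun x => K * w x) ρ u e) (hwi : Integrable w)
    (ξ : E3) :
    lm ξ / m * ct u ξ = K * ct (fun x => (1 - u x) * w x) ξ - 4 * e * ct u ξ +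
        2 * e * ρ * (ct u ξ ^ 2 - st u ξ ^ 2) ∧
      lm ξ / m * st u ξ = K * st (fun x => (1 - u x) * w x) ξ - 4 * e * st u ξ +
        2 * e * ρ * (2 * ct u ξ * st u ξ) := by
  have hv : Integrable (fun x => K * w x) := hwi.const_mul K
  have hid := h.fourier_identity hv ξ
  have h1 := fourier_eq_ct u ξ h.integrable
  have h2 := fourier_eq_ct (fun x => (1 - u x) * (K * w x)) ξ (h.int_g hv)
  have h3 : ct (fun x => (1 - u x) * (K * w x)) ξ = K * ct (fun x => (1 - u x) * w x) ξ := by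
    unfold ct
    rw [← integral_const_mul]
    congr 1
    ext y; ring
  have h4 : st (fun x => (1 - u x) * (K * w x)) ξ = K * st (fun x => (1 - u x) * w x) ξ := by
    unfold st
    rw [← integral_const_mul]
    congr 1
    ext y; ring
  rw [h1, h2, h3, h4] at hid
  have h5 : (4 * Real.pi ^ 2 * ‖ξ‖ ^ 2 / m : ℝ) = lm ξ / m := rfl
  rw [h5] at hid
  set R := ct u ξ
  set I := st u ξ
  set A := ct (fun x => (1 - u x) * w x) ξ
  set B := st (fun x => (1 - u x) * w x) ξ
  constructor
  · have h6 := congrArg Complex.re hid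
    simp only [Complex.mul_re, Complex.ofReal_re, Complex.ofReal_im, Complex.sub_re,
      Complex.sub_im, Complex.I_re, Complex.I_im, Complex.add_re, Complex.mul_im, pow_two,
      Complex.re_ofNat, Complex.im_ofNat] at h6
    linear_combination h6
  · have h6 := congrArg Complex.im hid
    simp only [Complex.mul_re, Complex.ofReal_re, Complex.ofReal_im, Complex.sub_re,
      Complex.sub_im, Complex.I_re, Complex.I_im, Complex.add_im, Complex.mul_im, pow_two,
      Complex.re_ofNat, Complex.im_ofNat] at h6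
    linear_combination -h6

theorem bg23_st_g (h : IsSimpleSolution m (fun x => K * w x) ρ u e) (hwi : Integrable w)
    (heven : ∀ x, w (-x) = w x) (ξ : E3) :
    st (fun x => (1 - u x) * w x) ξ = -st (fun x => w x * u x) ξ := by
  have h1 : st (fun x => (1 - u x) * w x) ξ = st w ξ - st (fun x => w x * u x) ξ := by
    unfold st
    rw [← integral_sub (bg23_int_sin hwi ξ) (bg23_int_sin (bg23_wu h hwi) ξ)]
    congr 1
    ext y; ring
  rw [h1, bg23_st_even heven]; ring

theorem st_zero {m K ρ : ℝ} (hm : 0 < m) (hK : 0 < K) (hρ : 0 < ρ) {w : E3 → ℝ}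
    (hwm : Measurable w) (hw0 : ∀ x, 0 ≤ w x) (heven : ∀ x, w (-x) = w x) (hwi : Integrable w)
    (hpos : 0 < ∫ x, w x) {u : E3 → ℝ} {e : ℝ}
    (h : IsSimpleSolution m (fun x => K * w x) ρ u e) (ξ : E3) : st u ξ = 0 := by
  have hv : Integrable (fun x => K * w x) := hwi.const_mul K
  have hv0 : ∀ x, 0 ≤ K * w x := fun x => mul_nonneg hK.le (hw0 x)
  have hvpos : 0 < ∫ x, K * w x := by
    rw [integral_const_mul]; positivity
  have he := e_pos h hm hρ hv hv0 hvpos
  have hu1 := integral_u h hm hρ hv hv0 hvpos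
  have hui := h.integrable
  have hwu := bg23_wu h hwi
  -- the multiplier
  set M : E3 → ℝ := fun ξ => lm ξ / m + 4 * e * (1 - ρ * ct u ξ) with hM
  have hRle : ∀ ξ, ρ * ct u ξ ≤ 1 := by
    intro ξ
    have h1 := abs_ct_le hui ξ
    have h2 : ∫ y, |u y| = 1 / ρ := by
      rw [← hu1]
      refine integral_congr_ae ?_
      filter_upwards [h.bounds] with x hx
      exact abs_of_nonneg hx.1
    rw [h2] at h1
    calc ρ * ct u ξ ≤ ρ * (1 / ρ) := by
          gcongr
          exact (le_abs_self _).trans h1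
      _ = 1 := by field_simp
  have hlm : ∀ ξ, 0 ≤ lm ξ / m := fun ξ => by unfold lm; positivity
  have hM0 : ∀ ξ, 0 ≤ M ξ := by
    intro ξ
    have h1 := hRle ξ
    have h2 : 0 ≤ 4 * e * (1 - ρ * ct u ξ) := mul_nonneg (by positivity) (by linarith)
    have h3 := hlm ξ
    simp only [hM]
    linarith
  have key : ∀ ξ, M ξ * st u ξ = -K * st (fun x => w x * u x) ξ := by
    intro ξ
    have h1 := (bg23_ident h hwi ξ).2
    rw [bg23_st_g h hwi heven ξ] at h1
    simp only [hM]
    linear_combination h1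
  -- the odd part
  set ua : E3 → ℝ := fun y => (u y - u (-y)) / 2 with hua
  have huai : Integrable ua := (hui.sub (bg23_int_neg hui)).div_const 2
  have hbd : ∀ᵐ x, |ua x| ≤ 1 := by
    have h2 : ∀ᵐ x : E3, 0 ≤ u (-x) ∧ u (-x) ≤ 1 :=
      (Measure.measurePreserving_neg (volume : Measure E3)).quasiMeasurePreserving.ae h.bounds
    filter_upwards [h.bounds, h2] with x hx hx2
    simp only [hua]
    rw [abs_le]
    constructor <;> linarith [hx.1, hx.2, hx2.1, hx2.2]
  have hwua : (fun x => w x * ua x) = fun y => ((w y * u y) - (w (-y) * u (-y))) / 2 := by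
    ext y
    simp only [hua]
    rw [heven]; ring
  have hwuai : Integrable (fun x => w x * ua x) := by
    rw [hwua]
    exact (hwu.sub (bg23_int_neg hwu)).div_const 2
  have hT := tendsto_gauss hwuai huai hbd
  have e1 : ∀ ξ, ct (fun x => w x * ua x) ξ * ct ua ξ + st (fun x => w x * ua x) ξ * st ua ξ =
      st (fun x => w x * u x) ξ * st u ξ := by
    intro ξ
    have a1 : ct ua ξ = 0 := bg23_ct_anti hui ξ
    have a2 : st ua ξ = st u ξ := bg23_st_anti hui ξ
    have a3 : st (fun x => w x * ua x) ξ = st (fun x => w x * u x) ξ := by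
      rw [hwua]; exact bg23_st_anti hwu ξ
    rw [a1, a2, a3]; ring
  simp only [e1] at hT
  set Q : ℝ → ℝ := fun η => ∫ ξ, Real.exp (-η * ‖ξ‖ ^ 2) * (M ξ * st u ξ ^ 2) with hQ
  have hQe : ∀ η, Q η = -K * ∫ ξ, Real.exp (-η * ‖ξ‖ ^ 2) *
      (st (fun x => w x * u x) ξ * st u ξ) := by
    intro η
    simp only [hQ]
    rw [← integral_const_mul]
    congr 1
    ext ξ
    linear_combination Real.exp (-η * ‖ξ‖ ^ 2) * st u ξ * key ξ
  have hTQ : Tendsto Q (𝓝[>] 0) (𝓝 (-K * ∫ x, w x * ua x * ua x)) := by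
    have h1 := hT.const_mul (-K)
    refine h1.congr fun η => (hQe η).symm
  have hlim : -K * ∫ x, w x * ua x * ua x ≤ 0 := by
    have h1 : 0 ≤ ∫ x, w x * ua x * ua x := by
      refine integral_nonneg fun x => ?_
      show 0 ≤ w x * ua x * ua x
      have := hw0 x
      have h3 : w x * ua x * ua x = w x * ua x ^ 2 := by ring
      rw [h3]; positivity
    have h2 := mul_nonneg hK.le h1
    linarith
  have hcont : Continuous (fun ξ => M ξ * st u ξ ^ 2) := by
    have c1 := continuous_ct hui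
    have c2 := continuous_st hui
    have c3 : Continuous M := by
      simp only [hM]
      have : Continuous lm := by unfold lm; fun_prop
      fun_prop
    exact c3.mul (c2.pow 2)
  have hint : ∀ η, 0 < η → Integrable (fun ξ => Real.exp (-η * ‖ξ‖ ^ 2) * (M ξ * st u ξ ^ 2)) := by
    intro η hη
    refine (bg23_gauss_int hη).mul_bdd (c := K * (∫ y, |w y * u y|) * ∫ y, |u y|)
      hcont.aestronglyMeasurable ?_
    filter_upwards with ξ
    have h1 : M ξ * st u ξ ^ 2 = -(K * st (fun x => w x * u x) ξ * st u ξ) := by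
      linear_combination st u ξ * key ξ
    rw [h1, norm_neg, Real.norm_eq_abs, abs_mul, abs_mul, abs_of_pos hK]
    have h2 := bg23_abs_st_le hwu ξ
    have h3 := bg23_abs_st_le hui ξ
    have h4 : 0 ≤ ∫ y, |w y * u y| := integral_nonneg fun _ => abs_nonneg _
    gcongr
  have hanti : ∀ η η', 0 < η' → η' ≤ η → Q η ≤ Q η' := by
    intro η η' h1 h2
    refine integral_mono (hint η (h1.trans_le h2)) (hint η' h1) fun ξ => ?_
    show Real.exp (-η * ‖ξ‖ ^ 2) * (M ξ * st u ξ ^ 2) ≤ Real.exp (-η' * ‖ξ‖ ^ 2) *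
      (M ξ * st u ξ ^ 2)
    have h3 : 0 ≤ M ξ * st u ξ ^ 2 := mul_nonneg (hM0 ξ) (sq_nonneg _)
    refine mul_le_mul_of_nonneg_right (Real.exp_le_exp.mpr ?_) h3
    nlinarith [sq_nonneg ‖ξ‖]
  have hQ1 : Q 1 ≤ 0 := by
    refine (ge_of_tendsto hTQ ?_).trans hlim
    filter_upwards [Ioo_mem_nhdsGT (show (0 : ℝ) < 1 by norm_num)] with η hη
    exact hanti 1 η hη.1 hη.2.le
  have hnn : ∀ ξ, 0 ≤ Real.exp (-1 * ‖ξ‖ ^ 2) * (M ξ * st u ξ ^ 2) := fun ξ =>
    mul_nonneg (Real.exp_pos _).le (mul_nonneg (hM0 ξ) (sq_nonneg _))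
  have hQ0 : Q 1 = 0 := le_antisymm hQ1 (integral_nonneg hnn)
  have hae : (fun ξ => Real.exp (-1 * ‖ξ‖ ^ 2) * (M ξ * st u ξ ^ 2)) =ᵐ[volume] 0 :=
    (integral_eq_zero_iff_of_nonneg hnn (hint 1 one_pos)).mp hQ0
  have hcont2 : Continuous (fun ξ : E3 => Real.exp (-1 * ‖ξ‖ ^ 2) * (M ξ * st u ξ ^ 2)) :=
    (by fun_prop : Continuous fun ξ : E3 => Real.exp (-1 * ‖ξ‖ ^ 2)).mul hcont
  have hall : (fun ξ => Real.exp (-1 * ‖ξ‖ ^ 2) * (M ξ * st u ξ ^ 2)) = fun _ => 0 :=
    (Continuous.ae_eq_iff_eq volume hcont2 continuous_const).mp hae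
  have h1 := congrFun hall ξ
  have h2 : M ξ * st u ξ ^ 2 = 0 := by
    rcases mul_eq_zero.mp h1 with h3 | h3
    · exact absurd h3 (Real.exp_pos _).ne'
    · exact h3
  by_cases hξ : ξ = 0
  · rw [hξ]
    unfold st
    simp
  · rcases mul_eq_zero.mp h2 with h3 | h3
    · exfalso
      have h4 : 0 < ‖ξ‖ := norm_pos_iff.mpr hξ
      have h5 : 0 < lm ξ / m := by
        have := Real.pi_pos
        unfold lm; positivity
      have h6 : 0 ≤ 4 * e * (1 - ρ * ct u ξ) :=
        mul_nonneg (by positivity) (by linarith [hRle ξ])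
      simp only [hM] at h3
      linarith
    · exact pow_eq_zero_iff (two_ne_zero) |>.mp h3

theorem sol_of {m K ρ : ℝ} (hm : 0 < m) (hK : 0 < K) (hρ : 0 < ρ) {w : E3 → ℝ}
    (hwm : Measurable w) (hw0 : ∀ x, 0 ≤ w x) (heven : ∀ x, w (-x) = w x) (hwi : Integrable w)
    (hpos : 0 < ∫ x, w x) {u : E3 → ℝ} {e : ℝ}
    (h : IsSimpleSolution m (fun x => K * w x) ρ u e) :
    Sol (m * K) ρ w u ∧ m * e = 1 / 2 * bb (m * K) ρ w u := by
  have hv : Integrable (fun x => K * w x) := hwi.const_mul K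
  have hv0 : ∀ x, 0 ≤ K * w x := fun x => mul_nonneg hK.le (hw0 x)
  have hvpos : 0 < ∫ x, K * w x := by
    rw [integral_const_mul]; positivity
  have he := e_pos h hm hρ hv hv0 hvpos
  have hu1 := integral_u h hm hρ hv hv0 hvpos
  have hen : e = ρ / 2 * (K * ∫ x, (1 - u x) * w x) := by
    have h1 : e = ρ / 2 * ∫ x, (1 - u x) * (K * w x) := h.energy
    have h2 : (fun x => (1 - u x) * (K * w x)) = fun x => K * ((1 - u x) * w x) := by
      ext x; ring
    rw [h1, h2, integral_const_mul]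
  have hst : ∀ ξ, st u ξ = 0 := fun ξ => st_zero hm hK hρ hwm hw0 heven hwi hpos h ξ
  refine ⟨⟨by positivity, hρ, hwm, hw0, heven, hwi, hpos, h.integrable, h.bounds, hu1, ?_, hst,
    fun ξ => ?_⟩, ?_⟩
  · rw [hen] at he
    by_contra hneg
    push Not at hneg
    have : ρ / 2 * (K * ∫ x, (1 - u x) * w x) ≤ 0 := by
      have h1 : 0 ≤ ρ / 2 * K := by positivity
      nlinarith [mul_nonneg h1 (neg_nonneg.mpr hneg)]
    linarith
  · have h1 := (bg23_ident h hwi ξ).1
    rw [hst ξ, hen] at h1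
    have h2 : lm ξ / m * m = lm ξ := by field_simp
    linear_combination m * h1 - ct u ξ * h2
  · unfold bb
    rw [hen]; ring

end main

end Pool.Agent.BG
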