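import Pool.Agent.BG.Ineq
import Pool.Agent.BG.ALe
import Pool.Agent.BG.JLow
import Pool.Agent.BG.GamStrong

/-! MP_2d9608_mp, project BG, row BG-40 -/

set_option autoImplicit false

open MeasureTheory ProbabilityTheory H47.SE Filter
open scoped ComplexConjugate Topology ENNReal

noncomputable section

namespace Pool.Agent.BG

variable {κ ρ : ℝ} {w u : E3 → ℝ}

/-- the arithmetic of the strong coupling regime -/
theorem bg40_arith {κ ρ W a S J G C₁ c₁ F : ℝ} (hκ : 0 < κ) (hρ : 0 < ρ) (hW : 0 < W)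
    (hC : 0 < C₁) (hc : 0 < c₁) (ha0 : 0 ≤ a) (hS : 0 ≤ S) (hG0 : 0 ≤ G)
    (hG : G ≤ C₁ * (1 + S)) (hJ1 : c₁ ≤ J) (hJ2 : c₁ * S ≤ J)
    (hSa : S * W ≤ 2 * ρ * a)
    (hF : F ≤ -(1 / 2) * ρ * κ * J + 7 / 2 * ρ * κ * a * G + 5 / 2 * κ * W * G ^ 2)
    (ha1 : a * (112 * C₁) ≤ c₁) (ha2 : a * (160 * C₁ ^ 2) ≤ c₁) (ha3 : a * (4 * C₁) ≤ W)
    (hρ1 : 80 * C₁ ^ 2 * W ≤ c₁ * ρ) (hρ2 : 2 * C₁ < ρ) :
    G < ρ ∧ F ≤ -(c₁ / 8 * ρ * κ) := by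
  have hS1 : 0 < 1 + S := by linarith
  constructor
  · have h1 : S * W ≤ 2 * ρ * a := hSa
    have h2 : C₁ * S * W ≤ ρ / 2 * W := by
      have h3 : C₁ * (S * W) ≤ C₁ * (2 * ρ * a) := mul_le_mul_of_nonneg_left h1 hC.le
      have h4 : ρ * (a * (4 * C₁)) ≤ ρ * W := mul_le_mul_of_nonneg_left ha3 hρ.le
      nlinarith
    have h5 : C₁ * S ≤ ρ / 2 := le_of_mul_le_mul_right h2 hW
    nlinarith
  · -- the four terms, divided by `ρ κ (1 + S)`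
    have hρκ : 0 < ρ * κ := mul_pos hρ hκ
    have t0 : c₁ / 2 * (1 + S) ≤ J := by nlinarith
    have t1 : 7 / 2 * ρ * κ * a * G ≤ ρ * κ * (c₁ / 32 * (1 + S)) := by
      have h1 : a * G ≤ a * (C₁ * (1 + S)) := mul_le_mul_of_nonneg_left hG ha0
      have h2 : a * (112 * C₁) * (1 + S) ≤ c₁ * (1 + S) :=
        mul_le_mul_of_nonneg_right ha1 hS1.le
      have h3 : 7 / 2 * (a * G) ≤ c₁ / 32 * (1 + S) := by nlinarith
      calc 7 / 2 * ρ * κ * a * G = ρ * κ * (7 / 2 * (a * G)) := by ring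
        _ ≤ _ := mul_le_mul_of_nonneg_left h3 hρκ.le
    have t2 : 5 / 2 * κ * W * G ^ 2 ≤ ρ * κ * (c₁ / 16 * (1 + S)) := by
      have h1 : G ^ 2 ≤ (C₁ * (1 + S)) ^ 2 := pow_le_pow_left₀ hG0 hG 2
      have h2 : W * (1 + S) ≤ W + 2 * ρ * a := by nlinarith
      have h3 : W * G ^ 2 ≤ C₁ ^ 2 * (1 + S) * (W + 2 * ρ * a) := by
        calc W * G ^ 2 ≤ W * (C₁ * (1 + S)) ^ 2 := mul_le_mul_of_nonneg_left h1 hW.le
          _ = C₁ ^ 2 * (1 + S) * (W * (1 + S)) := by ring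
          _ ≤ _ := mul_le_mul_of_nonneg_left h2 (by positivity)
      have h4 : 5 / 2 * C₁ ^ 2 * (W + 2 * ρ * a) ≤ ρ * (c₁ / 16) := by
        have h5 : ρ * (a * (160 * C₁ ^ 2)) ≤ ρ * c₁ := mul_le_mul_of_nonneg_left ha2 hρ.le
        nlinarith
      have h6 : 5 / 2 * (W * G ^ 2) ≤ ρ * (c₁ / 16) * (1 + S) := by
        calc 5 / 2 * (W * G ^ 2) ≤ 5 / 2 * (C₁ ^ 2 * (1 + S) * (W + 2 * ρ * a)) := by linarith
          _ = 5 / 2 * C₁ ^ 2 * (W + 2 * ρ * a) * (1 + S) := by ring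
          _ ≤ _ := mul_le_mul_of_nonneg_right h4 hS1.le
      calc 5 / 2 * κ * W * G ^ 2 = κ * (5 / 2 * (W * G ^ 2)) := by ring
        _ ≤ κ * (ρ * (c₁ / 16) * (1 + S)) := mul_le_mul_of_nonneg_left h6 hκ.le
        _ = _ := by ring
    have t3 : -(1 / 2) * ρ * κ * J ≤ -(ρ * κ * (c₁ / 4 * (1 + S))) := by
      have h1 : ρ * κ * (c₁ / 2 * (1 + S)) ≤ ρ * κ * J := mul_le_mul_of_nonneg_left t0 hρκ.le
      nlinarith
    have t4 : 0 ≤ ρ * κ * (c₁ * S) := by positivity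
    have t5 : 0 < ρ * κ * c₁ := by positivity
    nlinarith

theorem strong {w : E3 → ℝ} (hwm : Measurable w) (hw0 : ∀ x, 0 ≤ w x) (hwi : Integrable w)
    (hpos : 0 < ∫ x, w x) :
    ∃ C > 0, ∃ c > 0, ∀ κ ρ u, Sol κ ρ w u → 1 ≤ κ * ρ → C ≤ ρ →
      G0 ρ u < ρ ∧
      FK κ ρ w u - ρ / 2 * bb κ ρ w u ≤ -(c * ρ * κ) := by
  set W : ℝ := ∫ x, w x with hW
  obtain ⟨c₁, hc₁, hJ⟩ := j_low hwm hw0 hwi hpos
  obtain ⟨C₁, hC₁, c₂, hc₂, hG⟩ := gam0_strong hwm hw0 hwi hpos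
  -- the bound of `a`
  set δ : ℝ := min (min c₁ c₂) (min (W / 2) (min (c₁ / (112 * C₁))
    (min (c₁ / (160 * C₁ ^ 2)) (W / (4 * C₁))))) with hδ
  have hδ0 : 0 < δ := by
    rw [hδ]
    refine lt_min (lt_min hc₁ hc₂) (lt_min (by positivity) (lt_min (by positivity)
      (lt_min (by positivity) (by positivity))))
  obtain ⟨R, hR, ha⟩ := a_small hwi hw0 hδ0
  set C : ℝ := max (max R (1 / c₂)) (max (80 * C₁ ^ 2 * W / c₁) (2 * C₁ + 1)) with hC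
  have hC0 : 0 < C := lt_of_lt_of_le hR ((le_max_left _ _).trans (le_max_left _ _))
  refine ⟨C, hC0, c₁ / 8, by positivity, ?_⟩
  intro κ ρ u h h1 hCρ
  have hρ := h.hρ
  have hκ := h.hκ
  set a : ℝ := ∫ x, u x * w x with haa
  have haδ : a ≤ δ := ha κ ρ u h (((le_max_left _ _).trans (le_max_left _ _)).trans hCρ)
  have ha0 : 0 ≤ a := h.uw_nonneg
  have d1 : δ ≤ c₁ := (min_le_left _ _).trans (min_le_left _ _)
  have d2 : δ ≤ c₂ := (min_le_left _ _).trans (min_le_right _ _)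
  have d3 : δ ≤ W / 2 := (min_le_right _ _).trans (min_le_left _ _)
  have d4 : δ ≤ c₁ / (112 * C₁) :=
    (min_le_right _ _).trans ((min_le_right _ _).trans (min_le_left _ _))
  have d5 : δ ≤ c₁ / (160 * C₁ ^ 2) := (min_le_right _ _).trans
    ((min_le_right _ _).trans ((min_le_right _ _).trans (min_le_left _ _)))
  have d6 : δ ≤ W / (4 * C₁) := (min_le_right _ _).trans
    ((min_le_right _ _).trans ((min_le_right _ _).trans (min_le_right _ _)))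
  have r1 : 1 / c₂ ≤ ρ := ((le_max_right _ _).trans (le_max_left _ _)).trans hCρ
  have r2 : 80 * C₁ ^ 2 * W / c₁ ≤ ρ := ((le_max_left _ _).trans (le_max_right _ _)).trans hCρ
  have r3 : 2 * C₁ + 1 ≤ ρ := ((le_max_right _ _).trans (le_max_right _ _)).trans hCρ
  obtain ⟨j1, j2⟩ := hJ κ ρ u h (haδ.trans d1)
  have j3 : c₁ ≤ JJ ρ w u := by
    rw [min_eq_left h1, one_pow, mul_one] at j1
    exact j1
  set S : ℝ := ∫ ξ in {ξ : E3 | 1 ≤ ‖ξ‖}, UU ρ u ξ ^ 2 with hS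
  have hS0 : 0 ≤ S := setIntegral_nonneg_of_ae (Filter.Eventually.of_forall fun ξ => sq_nonneg _)
  have hρ' : 1 / ρ ≤ c₂ := by
    rw [div_le_iff₀ hρ]
    rw [div_le_iff₀ hc₂] at r1
    linarith
  have hG1 : G0 ρ u ≤ C₁ * (1 + S) := hG κ ρ u h hρ' (haδ.trans d2)
  have hGn : 0 ≤ G0 ρ u := by
    unfold G0
    refine integral_nonneg fun ξ => ?_
    unfold gam
    have h2 := h.abs_UU_le ξ
    have h3 : UU ρ u ξ ^ 2 ≤ 1 := by
      rw [← sq_abs]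
      exact pow_le_one₀ (abs_nonneg _) h2
    exact div_nonneg (sq_nonneg _) (by linarith)
  have hSa : S * W ≤ 2 * ρ * a := by
    have s1 : S ≤ ∫ ξ, UU ρ u ξ ^ 2 :=
      setIntegral_le_integral h.sq_int.1 (Filter.Eventually.of_forall fun ξ => sq_nonneg _)
    have s2 := h.sq_le
    rw [h.g_eq] at s2
    have s3 : W / 2 ≤ W - a := by linarith
    have s4 : 0 ≤ ∫ ξ, UU ρ u ξ ^ 2 := hS0.trans s1
    have s5 : W / 2 * (∫ ξ, UU ρ u ξ ^ 2) ≤ (W - a) * (∫ ξ, UU ρ u ξ ^ 2) :=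
      mul_le_mul_of_nonneg_right s3 s4
    have s6 : W * S ≤ W * ∫ ξ, UU ρ u ξ ^ 2 := mul_le_mul_of_nonneg_left s1 hpos.le
    linarith
  have a1 : a * (112 * C₁) ≤ c₁ := by
    rw [← le_div_iff₀ (by positivity)]
    exact haδ.trans d4
  have a2 : a * (160 * C₁ ^ 2) ≤ c₁ := by
    rw [← le_div_iff₀ (by positivity)]
    exact haδ.trans d5
  have a3 : a * (4 * C₁) ≤ W := by
    rw [← le_div_iff₀ (by positivity)]
    exact haδ.trans d6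
  have r4 : 80 * C₁ ^ 2 * W ≤ c₁ * ρ := by
    rw [div_le_iff₀ hc₁] at r2
    linarith
  have hmain := bg40_arith (κ := κ) (ρ := ρ) (W := W) (a := a) (S := S) (J := JJ ρ w u)
    (G := G0 ρ u) (C₁ := C₁) (c₁ := c₁) (F := FK κ ρ w u - ρ / 2 * bb κ ρ w u) hκ hρ hpos hC₁
    hc₁ ha0 hS0 hGn hG1 j3 j2 hSa h.ineq a1 a2 a3 r4 (by linarith)
  exact ⟨hmain.1, hmain.2⟩

end Pool.Agent.BG
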