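import Pool.Agent.BG.SolBasic
import Pool.Agent.BG.GaussConv

/-! MP_2d9608_mp, project BG, row BG-30 -/

set_option autoImplicit false

open MeasureTheory ProbabilityTheory H47.SE Filter
open scoped ComplexConjugate Topology ENNReal

noncomputable section

namespace Pool.Agent.BG

variable {κ ρ : ℝ} {w u : E3 → ℝ}

/-- the Gaussian -/
private def bg30_g (η : ℝ) (y : E3) : ℝ := Real.exp (-η * ‖y‖ ^ 2)

private theorem bg30_gint {η : ℝ} (hη : 0 < η) : Integrable (bg30_g η) := by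
  have h := (GaussianFourier.integrable_cexp_neg_mul_sq_norm_add (V := E3) (b := (η : ℂ))
    (by simpa using hη) 0 0).re
  refine h.congr (ae_of_all _ fun y => ?_)
  have e : (-(η : ℂ) * (‖y‖ : ℂ) ^ 2 + 0 * ((inner ℝ (0 : E3) y : ℝ) : ℂ)) =
      ((-η * ‖y‖ ^ 2 : ℝ) : ℂ) := by push_cast; ring
  change (Complex.exp (-(η : ℂ) * (‖y‖ : ℂ) ^ 2 + 0 * ((inner ℝ (0 : E3) y : ℝ) : ℂ))).re = _
  rw [e, Complex.exp_ofReal_re]
  rfl

private theorem bg30_gct {η : ℝ} (hη : 0 < η) (z : E3) :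
    ct (bg30_g η) z = (Real.pi / η) ^ (3 / 2 : ℝ) * Real.exp (-(Real.pi ^ 2 / η) * ‖z‖ ^ 2) := by
  have h1 := fourier_eq_ct (bg30_g η) z (bg30_gint hη)
  have h2 := fourier_gaussian_innerProductSpace (V := E3) (b := (η : ℂ)) (by simpa using hη) z
  have e0 : (fun x : E3 => ((bg30_g η x : ℝ) : ℂ)) = fun v => Complex.exp (-(η : ℂ) * (‖v‖ : ℂ) ^ 2) := by
    funext v
    unfold bg30_g
    push_cast
    rfl
  rw [e0, h2] at h1
  have h3 := congrArg Complex.re h1
  have e1 : ((Real.pi : ℂ) / (η : ℂ)) ^ ((Module.finrank ℝ E3 : ℂ) / 2) *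
      Complex.exp (-(Real.pi : ℂ) ^ 2 * (‖z‖ : ℂ) ^ 2 / (η : ℂ)) =
      (((Real.pi / η) ^ (3 / 2 : ℝ) * Real.exp (-(Real.pi ^ 2 / η) * ‖z‖ ^ 2) : ℝ) : ℂ) := by
    rw [Complex.ofReal_mul, Complex.ofReal_exp, Complex.ofReal_cpow (by positivity)]
    congr 1
    · congr 1
      · push_cast; rfl
      · simp
    · congr 1
      push_cast
      field_simp
  rw [e1, Complex.ofReal_re] at h3
  rw [h3]
  simp

private theorem bg30_gct_int {η : ℝ} (hη : 0 < η) : Integrable (ct (bg30_g η)) := by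
  have e : ct (bg30_g η) = fun z : E3 => (Real.pi / η) ^ (3 / 2 : ℝ) *
      bg30_g (Real.pi ^ 2 / η) z := by
    funext z
    exact bg30_gct hη z
  rw [e]
  exact (bg30_gint (by positivity)).const_mul _

private theorem bg30_gct_one {η : ℝ} (hη : 0 < η) : ∫ z, ct (bg30_g η) z = 1 := by
  have e : ct (bg30_g η) = fun z : E3 => (Real.pi / η) ^ (3 / 2 : ℝ) *
      Real.exp (-(Real.pi ^ 2 / η) * ‖z‖ ^ 2) := by
    funext z
    exact bg30_gct hη z
  rw [e, integral_const_mul, GaussianFourier.integral_rexp_neg_mul_sq_norm (by positivity)]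
  have e2 : ((Module.finrank ℝ E3 : ℕ) : ℝ) / 2 = 3 / 2 := by simp
  rw [e2, ← Real.mul_rpow (by positivity) (by positivity)]
  have e3 : Real.pi / η * (Real.pi / (Real.pi ^ 2 / η)) = 1 := by
    field_simp
  rw [e3, Real.one_rpow]

private theorem bg30_gct_nonneg {η : ℝ} (hη : 0 < η) (z : E3) : 0 ≤ ct (bg30_g η) z := by
  rw [bg30_gct hη]
  positivity

/-- the kernel -/
private def bg30_K (η : ℝ) (x z : E3) : ℝ := (ct (bg30_g η) (z - x) + ct (bg30_g η) (z + x)) / 2

private theorem bg30_K_nonneg {η : ℝ} (hη : 0 < η) (x z : E3) : 0 ≤ bg30_K η x z := by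
  unfold bg30_K
  have h1 := bg30_gct_nonneg hη (z - x)
  have h2 := bg30_gct_nonneg hη (z + x)
  positivity

private theorem bg30_K_int {η : ℝ} (hη : 0 < η) (x : E3) : Integrable (bg30_K η x) := by
  unfold bg30_K
  exact (((bg30_gct_int hη).comp_sub_right x).add ((bg30_gct_int hη).comp_add_right x)).div_const 2

private theorem bg30_K_one {η : ℝ} (hη : 0 < η) (x : E3) : ∫ z, bg30_K η x z = 1 := by
  unfold bg30_K
  rw [integral_div, integral_add ((bg30_gct_int hη).comp_sub_right x)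
    ((bg30_gct_int hη).comp_add_right x), integral_sub_right_eq_self (ct (bg30_g η)) x,
    integral_add_right_eq_self (ct (bg30_g η)) x, bg30_gct_one hη]
  norm_num

private theorem bg30_cosint {f : E3 → ℝ} (hf : Integrable f) (x : E3) :
    Integrable (fun y : E3 => Real.cos (2 * Real.pi * inner ℝ y x) * f y) := by
  refine hf.bdd_mul (c := 1) ?_ (ae_of_all _ fun y => ?_)
  · exact (Real.continuous_cos.comp (by fun_prop)).aestronglyMeasurable
  · rw [Real.norm_eq_abs]; exact Real.abs_cos_le_one _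

private theorem bg30_ctK {η : ℝ} (hη : 0 < η) (x z : E3) :
    ct (fun y => Real.cos (2 * Real.pi * inner ℝ y x) * bg30_g η y) z = bg30_K η x z := by
  unfold bg30_K
  have e : ∀ y : E3, Real.cos (2 * Real.pi * inner ℝ y z) *
      (Real.cos (2 * Real.pi * inner ℝ y x) * bg30_g η y) =
      (Real.cos (2 * Real.pi * inner ℝ y (z - x)) * bg30_g η y +
        Real.cos (2 * Real.pi * inner ℝ y (z + x)) * bg30_g η y) / 2 := by
    intro y
    rw [inner_sub_right, inner_add_right, mul_sub, mul_add, Real.cos_sub, Real.cos_add]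
    ring
  calc ct (fun y => Real.cos (2 * Real.pi * inner ℝ y x) * bg30_g η y) z
      = ∫ y : E3, (Real.cos (2 * Real.pi * inner ℝ y (z - x)) * bg30_g η y +
        Real.cos (2 * Real.pi * inner ℝ y (z + x)) * bg30_g η y) / 2 :=
        integral_congr_ae (ae_of_all _ e)
    _ = _ := by
      rw [integral_div, integral_add (bg30_cosint (bg30_gint hη) _)
        (bg30_cosint (bg30_gint hη) _)]
      rfl

/-- the representation of the mollified function -/
private theorem bg30_rep {η : ℝ} (hη : 0 < η) {v : E3 → ℝ} (hv : Integrable v) (x : E3) :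
    ct (fun ξ => Real.exp (-η * ‖ξ‖ ^ 2) * ct v ξ) x = ∫ z, bg30_K η x z * v z := by
  have h := flip_ct (bg30_cosint (bg30_gint hη) x) hv
  have e1 : ∀ z, ct (fun y => Real.cos (2 * Real.pi * inner ℝ y x) * bg30_g η y) z * v z =
      bg30_K η x z * v z := fun z => by rw [bg30_ctK hη]
  rw [integral_congr_ae (ae_of_all _ e1)] at h
  rw [← h]
  unfold ct
  refine integral_congr_ae (ae_of_all _ fun y => ?_)
  simp only [bg30_g]
  ring

private theorem bg30_prodint {η : ℝ} (hη : 0 < η) {v : E3 → ℝ} (hv : Integrable v) :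
    Integrable (fun ξ => Real.exp (-η * ‖ξ‖ ^ 2) * ct v ξ) := by
  have h := (bg30_gint hη).bdd_mul (c := ∫ y, |v y|) (f := fun ξ => ct v ξ)
    (continuous_ct hv).aestronglyMeasurable (ae_of_all _ fun y => by
      rw [Real.norm_eq_abs]; exact abs_ct_le hv y)
  refine h.congr (ae_of_all _ fun y => ?_)
  simp only [bg30_g]
  ring

private theorem bg30_dmp (η : ℝ) (v : E3 → ℝ) (x : E3) :
    ct (dmp η ρ v) x = ρ * ct (fun ξ => Real.exp (-η * ‖ξ‖ ^ 2) * ct v ξ) x := by
  unfold ct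
  rw [← integral_const_mul]
  refine integral_congr_ae (ae_of_all _ fun y => ?_)
  simp only [dmp, UU, ct]
  ring

private theorem bg30_uK {η : ℝ} (hη : 0 < η) {v : E3 → ℝ} (hv : Integrable v)
    (hb : ∀ᵐ x, 0 ≤ v x ∧ v x ≤ 1) (x : E3) : Integrable (fun z => bg30_K η x z * v z) := by
  have h := (bg30_K_int hη x).bdd_mul (c := 1) hv.aestronglyMeasurable (hb.mono fun y hy => by
      rw [Real.norm_eq_abs, abs_of_nonneg hy.1]; exact hy.2)
  refine h.congr (ae_of_all _ fun y => ?_)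
  simp only
  ring

private theorem bg30_mem {η : ℝ} (hη : 0 < η) {v : E3 → ℝ} (hv : Integrable v)
    (hb : ∀ᵐ x, 0 ≤ v x ∧ v x ≤ 1) (x : E3) :
    0 ≤ (∫ z, bg30_K η x z * v z) ∧ (∫ z, bg30_K η x z * v z) ≤ 1 := by
  constructor
  · refine integral_nonneg_of_ae (hb.mono fun z hz => ?_)
    exact mul_nonneg (bg30_K_nonneg hη x z) hz.1
  · rw [← bg30_K_one hη x]
    refine integral_mono_ae (bg30_uK hη hv hb x) (bg30_K_int hη x) (hb.mono fun z hz => ?_)
    exact mul_le_of_le_one_right (bg30_K_nonneg hη x z) hz.2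

theorem Sol.moll_bound (h : Sol κ ρ w u) {η : ℝ} (hη : 0 < η) (x : E3) :
    |ct (dmp η ρ u) x| ≤ ρ := by
  obtain ⟨h0, h1⟩ := bg30_mem hη h.ui h.ub x
  rw [bg30_dmp, bg30_rep hη h.ui, abs_mul, abs_of_pos h.hρ, abs_of_nonneg h0]
  exact mul_le_of_le_one_right h.hρ.le h1

theorem Sol.moll_tendsto (h : Sol κ ρ w u) {f : E3 → ℝ} (hf : Integrable f) :
    Tendsto (fun η => ∫ x, f x * ct (dmp η ρ u) x) (𝓝[>] 0) (𝓝 (ρ * ∫ x, f x * u x)) := by
  have ht := (tendsto_gauss hf h.ui (C := 1) (h.ub.mono fun y hy => by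
    rw [abs_of_nonneg hy.1]; exact hy.2)).const_mul ρ
  refine ht.congr' ?_
  filter_upwards [self_mem_nhdsWithin] with η hη
  have hη' : 0 < η := hη
  have e1 : ∀ x, f x * ct (dmp η ρ u) x =
      ρ * (f x * ct (fun ξ => Real.exp (-η * ‖ξ‖ ^ 2) * ct u ξ) x) := by
    intro x
    rw [bg30_dmp]
    ring
  rw [integral_congr_ae (ae_of_all _ e1), integral_const_mul,
    flip_ct hf (bg30_prodint hη' h.ui)]
  congr 1
  refine integral_congr_ae (ae_of_all _ fun y => ?_)
  simp only [h.ureal]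
  ring

private theorem bg30_st {w : E3 → ℝ} (hw : ∀ x, w (-x) = w x) (ξ : E3) : st w ξ = 0 := by
  have h : st w ξ = -st w ξ := by
    unfold st
    rw [← integral_neg, ← integral_neg_eq_self]
    refine integral_congr_ae (ae_of_all _ fun y => ?_)
    simp only [hw, inner_neg_left, mul_neg, Real.sin_neg, neg_mul]
  linarith

theorem Sol.moll_sq (h : Sol κ ρ w u) :
    ∃ B : ℝ → ℝ, Tendsto B (𝓝[>] 0) (𝓝 (ρ ^ 2 * ∫ x, w x * u x ^ 2)) ∧
      ∀ η > 0, ∫ x, w x * ct (dmp η ρ u) x ^ 2 ≤ B η := by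
  have hb2 : ∀ᵐ x, 0 ≤ u x ^ 2 ∧ u x ^ 2 ≤ 1 := h.ub.mono fun y hy =>
    ⟨sq_nonneg _, pow_le_one₀ hy.1 hy.2⟩
  have hu2 : Integrable (fun x => u x ^ 2) := by
    have h1 := h.ui.bdd_mul (c := 1) h.ui.aestronglyMeasurable (h.ub.mono fun y hy => by
      rw [Real.norm_eq_abs, abs_of_nonneg hy.1]; exact hy.2)
    refine h1.congr (ae_of_all _ fun y => ?_)
    simp only
    ring
  refine ⟨fun η => ρ ^ 2 * ∫ ξ, Real.exp (-η * ‖ξ‖ ^ 2) * (ct w ξ * ct (fun x => u x ^ 2) ξ +
    st w ξ * st (fun x => u x ^ 2) ξ), ?_, ?_⟩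
  · exact (tendsto_gauss h.wi hu2 (C := 1) (hb2.mono fun y hy => by
      rw [abs_of_nonneg hy.1]; exact hy.2)).const_mul _
  · intro η hη
    -- the representation of the bound
    have e1 : (∫ ξ, Real.exp (-η * ‖ξ‖ ^ 2) * (ct w ξ * ct (fun x => u x ^ 2) ξ +
        st w ξ * st (fun x => u x ^ 2) ξ)) =
        ∫ x, w x * ∫ z, bg30_K η x z * u z ^ 2 := by
      have e2 := flip_ct h.wi (bg30_prodint hη hu2)
      have e3 : ∀ x, w x * ct (fun ξ => Real.exp (-η * ‖ξ‖ ^ 2) * ct (fun x => u x ^ 2) ξ) x =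
          w x * ∫ z, bg30_K η x z * u z ^ 2 := by
        intro x
        rw [bg30_rep hη hu2]
      rw [integral_congr_ae (ae_of_all _ e3)] at e2
      rw [e2]
      refine integral_congr_ae (ae_of_all _ fun y => ?_)
      simp only [bg30_st h.weven]
      ring
    change _ ≤ ρ ^ 2 * _
    rw [e1, ← integral_const_mul]
    have hcont : Continuous (fun x => ∫ z, bg30_K η x z * u z) := by
      have : (fun x => ∫ z, bg30_K η x z * u z) =
          ct (fun ξ => Real.exp (-η * ‖ξ‖ ^ 2) * ct u ξ) := by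
        funext x
        rw [bg30_rep hη h.ui]
      rw [this]
      exact continuous_ct (bg30_prodint hη h.ui)
    have hcont2 : Continuous (fun x => ∫ z, bg30_K η x z * u z ^ 2) := by
      have : (fun x => ∫ z, bg30_K η x z * u z ^ 2) =
          ct (fun ξ => Real.exp (-η * ‖ξ‖ ^ 2) * ct (fun x => u x ^ 2) ξ) := by
        funext x
        rw [bg30_rep hη hu2]
      rw [this]
      exact continuous_ct (bg30_prodint hη hu2)
    have e4 : ∀ x, ct (dmp η ρ u) x = ρ * ∫ z, bg30_K η x z * u z := by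
      intro x
      rw [bg30_dmp, bg30_rep hη h.ui]
    have hi1 : Integrable (fun x => w x * ct (dmp η ρ u) x ^ 2) := by
      have h1 := h.wi.bdd_mul (c := ρ ^ 2) (f := fun x => (ρ * ∫ z, bg30_K η x z * u z) ^ 2)
        ((hcont.const_mul ρ).pow 2).aestronglyMeasurable (ae_of_all _ fun x => by
          obtain ⟨h0, h1⟩ := bg30_mem hη h.ui h.ub x
          rw [Real.norm_eq_abs, abs_of_nonneg (sq_nonneg _), mul_pow]
          exact mul_le_of_le_one_right (sq_nonneg _) (pow_le_one₀ h0 h1))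
      refine h1.congr (ae_of_all _ fun x => ?_)
      simp only [e4]
      ring
    have hi2 : Integrable (fun x => ρ ^ 2 * (w x * ∫ z, bg30_K η x z * u z ^ 2)) := by
      have h1 := h.wi.bdd_mul (c := 1) (f := fun x => ∫ z, bg30_K η x z * u z ^ 2)
        hcont2.aestronglyMeasurable (ae_of_all _ fun x => by
          obtain ⟨h0, h1⟩ := bg30_mem hη hu2 hb2 x
          rw [Real.norm_eq_abs, abs_of_nonneg h0]
          exact h1)
      refine (h1.const_mul (ρ ^ 2)).congr (ae_of_all _ fun x => ?_)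
      simp only
      ring
    refine integral_mono hi1 hi2 fun x => ?_
    simp only [e4]
    -- Jensen
    set c : ℝ := ∫ z, bg30_K η x z * u z with hc
    have hj : 0 ≤ ∫ z, bg30_K η x z * (u z - c) ^ 2 :=
      integral_nonneg fun z => mul_nonneg (bg30_K_nonneg hη x z) (sq_nonneg _)
    have i1 := bg30_uK hη hu2 hb2 x
    have i2 := bg30_uK hη h.ui h.ub x
    have i3 := bg30_K_int hη x
    have e5 : ∀ z, bg30_K η x z * (u z - c) ^ 2 =
        bg30_K η x z * u z ^ 2 - 2 * c * (bg30_K η x z * u z) + c ^ 2 * bg30_K η x z := by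
      intro z
      ring
    have i4 : Integrable (fun z => bg30_K η x z * u z ^ 2 - 2 * c * (bg30_K η x z * u z)) :=
      i1.sub (i2.const_mul _)
    rw [integral_congr_ae (ae_of_all _ e5), integral_add i4 (i3.const_mul _),
      integral_sub i1 (i2.const_mul _), integral_const_mul, integral_const_mul,
      bg30_K_one hη x, ← hc] at hj
    have hj' : c ^ 2 ≤ ∫ z, bg30_K η x z * u z ^ 2 := by nlinarith [hj]
    have h2 := mul_le_mul_of_nonneg_left hj' (mul_nonneg (h.w0 x) (sq_nonneg ρ))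
    nlinarith [h2]

end Pool.Agent.BG
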