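import Pool.Agent.BG.Damp
import Pool.Agent.BG.Moll
import Pool.Agent.BG.Extend

/-! MP_2d9608_mp, project BG, row BG-31 -/

set_option autoImplicit false

open MeasureTheory ProbabilityTheory H47.SE Filter
open scoped ComplexConjugate Topology ENNReal

noncomputable section

namespace Pool.Agent.BG

variable {κ ρ : ℝ} {w u : E3 → ℝ}

private theorem bg31_lin3 {f g k : E3 → ℝ} (a b c : ℝ) (hf : Integrable f) (hg : Integrable g)
    (hk : Integrable k) : ∫ x, (a * f x + b * g x + c * k x) =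
      a * (∫ x, f x) + b * (∫ x, g x) + c * ∫ x, k x := by
  have h1 : Integrable fun x => a * f x := hf.const_mul a
  have h2 : Integrable fun x => b * g x := hg.const_mul b
  have h3 : Integrable fun x => c * k x := hk.const_mul c
  have h12 : Integrable fun x => a * f x + b * g x := h1.add h2
  rw [integral_add h12 h3, integral_add h1 h2, integral_const_mul, integral_const_mul,
    integral_const_mul]

private theorem bg31_lin4 {f g k l : E3 → ℝ} (a b c d : ℝ) (hf : Integrable f)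
    (hg : Integrable g) (hk : Integrable k) (hl : Integrable l) :
    ∫ x, (a * f x + b * g x + c * k x + d * l x) =
      a * (∫ x, f x) + b * (∫ x, g x) + c * (∫ x, k x) + d * ∫ x, l x := by
  have h1 : Integrable fun x => a * f x + b * g x + c * k x :=
    ((hf.const_mul a).add (hg.const_mul b)).add (hk.const_mul c)
  have h2 : Integrable fun x => d * l x := hl.const_mul d
  rw [integral_add h1 h2, bg31_lin3 a b c hf hg hk, integral_const_mul]

private theorem bg31_int {f g : E3 → ℝ} (hw : Integrable g) (hf : Integrable f) :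
    Integrable fun x => g x * ct f x :=
  hw.mul_bdd (c := ∫ y, |f y|) (continuous_ct hf).aestronglyMeasurable
    (ae_of_all _ fun x => by rw [Real.norm_eq_abs]; exact abs_ct_le hf x)

private theorem bg31_int2 {f g k : E3 → ℝ} (hw : Integrable k) (hf : Integrable f)
    (hg : Integrable g) : Integrable fun x => k x * (ct f x * ct g x) := by
  have h := bg31_int (bg31_int hw hf) hg
  simpa only [mul_assoc] using h

private theorem bg31_tend {k : E3 → ℝ} (hw : Integrable k) {F : ℝ → E3 → ℝ} {G : E3 → ℝ}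
    {ε : ℝ → ℝ} (hF : ∀ η > 0, Integrable fun x => k x * F η x)
    (hG : Integrable fun x => k x * G x) (hd : ∀ η > 0, ∀ x, |F η x - G x| ≤ ε η)
    (hε : Tendsto ε (𝓝[>] 0) (𝓝 0)) :
    Tendsto (fun η => ∫ x, k x * F η x) (𝓝[>] 0) (𝓝 (∫ x, k x * G x)) := by
  rw [tendsto_iff_norm_sub_tendsto_zero]
  refine squeeze_zero' (g := fun η => (∫ x, |k x|) * ε η)
    (Eventually.of_forall fun η => norm_nonneg _) ?_ ?_
  · filter_upwards [self_mem_nhdsWithin] with η hη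
    rw [← integral_sub (hF η hη) hG]
    calc ‖∫ x, (k x * F η x - k x * G x)‖ ≤ ∫ x, |k x| * ε η := by
          refine norm_integral_le_of_norm_le (hw.abs.mul_const _) (ae_of_all _ fun x => ?_)
          rw [Real.norm_eq_abs, ← mul_sub, abs_mul]
          exact mul_le_mul_of_nonneg_left (hd η hη x) (abs_nonneg _)
      _ = _ := integral_mul_const _ _
  · simpa using hε.const_mul (∫ x, |k x|)

private theorem bg31_sq {a b ε C : ℝ} (h : |a - b| ≤ ε) (hb : |b| ≤ C) :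
    |a ^ 2 - b ^ 2| ≤ ε * (ε + 2 * C) := by
  have h1 : a ^ 2 - b ^ 2 = (a - b) * ((a - b) + 2 * b) := by ring
  rw [h1, abs_mul]
  have h2 : |(a - b) + 2 * b| ≤ ε + 2 * C := by
    refine (abs_add_le _ _).trans ?_
    rw [abs_mul, abs_two]
    linarith
  exact mul_le_mul h h2 (abs_nonneg _) ((abs_nonneg _).trans h)

/-- squares of transforms converge -/
private theorem bg31_tsq {k : E3 → ℝ} (hw : Integrable k) {f : ℝ → E3 → ℝ} {g : E3 → ℝ}
    (hf : ∀ η > 0, Integrable (f η)) (hg : Integrable g)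
    (hd : Tendsto (fun η => ∫ ξ, |f η ξ - g ξ|) (𝓝[>] 0) (𝓝 0)) :
    Tendsto (fun η => ∫ x, k x * ct (f η) x ^ 2) (𝓝[>] 0) (𝓝 (∫ x, k x * ct g x ^ 2)) := by
  refine bg31_tend hw (ε := fun η => (∫ ξ, |f η ξ - g ξ|) * ((∫ ξ, |f η ξ - g ξ|) +
    2 * ∫ ξ, |g ξ|)) (fun η hη => ?_) ?_ (fun η hη x => ?_) ?_
  · simpa only [sq] using bg31_int2 hw (hf η hη) (hf η hη)
  · simpa only [sq] using bg31_int2 hw hg hg
  · exact bg31_sq (abs_ct_sub_le (hf η hη) hg x) (abs_ct_le hg x)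
  · simpa using hd.mul (hd.add_const (2 * ∫ ξ, |g ξ|))

/-- transforms converge -/
private theorem bg31_tct {k : E3 → ℝ} (hw : Integrable k) {f : ℝ → E3 → ℝ} {g : E3 → ℝ}
    (hf : ∀ η > 0, Integrable (f η)) (hg : Integrable g)
    (hd : Tendsto (fun η => ∫ ξ, |f η ξ - g ξ|) (𝓝[>] 0) (𝓝 0)) :
    Tendsto (fun η => ∫ x, k x * ct (f η) x) (𝓝[>] 0) (𝓝 (∫ x, k x * ct g x)) :=
  bg31_tend hw (fun η hη => bg31_int hw (hf η hη)) (bg31_int hw hg)
    (fun η hη x => abs_ct_sub_le (hf η hη) hg x) hd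

private theorem bg31_um (h : Sol κ ρ w u) {k : E3 → ℝ} (hk : Integrable k) :
    Integrable fun x => k x * u x :=
  hk.mul_bdd (c := 1) h.ui.aestronglyMeasurable
    (h.ub.mono fun x hx => by rw [Real.norm_eq_abs, abs_of_nonneg hx.1]; exact hx.2)

/-- the cross term -/
private theorem bg31_cross (h : Sol κ ρ w u) :
    Tendsto (fun η => ∫ x, w x * (ct (dmp η ρ u) x * ct (fun ξ => del (dmp η ρ u ξ)) x))
      (𝓝[>] 0) (𝓝 (ρ * ∫ x, w x * (ct (fun ξ => del (UU ρ u ξ)) x * u x))) := by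
  have hD := h.dmp_gam.2.2.1
  have hwD := bg31_int h.wi h.del_int
  have h1 := h.moll_tendsto hwD
  have h2 : Tendsto (fun η => (∫ x, w x * (ct (dmp η ρ u) x *
      ct (fun ξ => del (dmp η ρ u ξ)) x)) -
      ∫ x, w x * ct (fun ξ => del (UU ρ u ξ)) x * ct (dmp η ρ u) x) (𝓝[>] 0) (𝓝 0) := by
    refine squeeze_zero_norm' (a := fun η => (∫ x, |w x|) *
      (ρ * ∫ ξ, |del (dmp η ρ u ξ) - del (UU ρ u ξ)|)) ?_ ?_
    · filter_upwards [self_mem_nhdsWithin] with η hη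
      have hi := h.dmp_int hη
      rw [← integral_sub (bg31_int2 h.wi hi.1 hi.2.2.1) (bg31_int hwD hi.1)]
      calc ‖∫ x, (w x * (ct (dmp η ρ u) x * ct (fun ξ => del (dmp η ρ u ξ)) x) -
            w x * ct (fun ξ => del (UU ρ u ξ)) x * ct (dmp η ρ u) x)‖ ≤
            ∫ x, |w x| * (ρ * ∫ ξ, |del (dmp η ρ u ξ) - del (UU ρ u ξ)|) := by
            refine norm_integral_le_of_norm_le (h.wi.abs.mul_const _) (ae_of_all _ fun x => ?_)
            have e : w x * (ct (dmp η ρ u) x * ct (fun ξ => del (dmp η ρ u ξ)) x) -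
              w x * ct (fun ξ => del (UU ρ u ξ)) x * ct (dmp η ρ u) x =
              w x * (ct (dmp η ρ u) x * (ct (fun ξ => del (dmp η ρ u ξ)) x -
                ct (fun ξ => del (UU ρ u ξ)) x)) := by ring
            rw [e, Real.norm_eq_abs, abs_mul, abs_mul]
            exact mul_le_mul_of_nonneg_left (mul_le_mul (h.moll_bound hη x)
              (abs_ct_sub_le hi.2.2.1 h.del_int x) (abs_nonneg _) h.hρ.le) (abs_nonneg _)
        _ = _ := integral_mul_const _ _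
    · simpa using (hD.const_mul ρ).const_mul (∫ x, |w x|)
  have h3 := h2.add h1
  simp only [sub_add_cancel, zero_add, mul_assoc] at h3
  exact h3

theorem Sol.trial (h : Sol κ ρ w u) {m K : ℝ} (hm : 0 < m) (hK : 0 < K) (hmK : m * K = κ)
    (hG : G0 ρ u < ρ) {E : ℕ → ℝ}
    (hE : ∀ N, 0 < N → E N ≤
      groundEnergy m (perPot (fun x => K * w x) (side ρ N)) N (side ρ N)) {e0 : ℝ}
    (he0 : Tendsto (fun N : ℕ => E N / N) atTop (𝓝 e0)) :
    m * (ρ * e0) ≤ FK κ ρ w u := by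
  obtain ⟨hΓle, hgam, hdel, hΓ, hlm⟩ := h.dmp_gam
  obtain ⟨B, hB, hBle⟩ := h.moll_sq
  have hi := fun (η : ℝ) (hη : 0 < η) => h.dmp_int hη
  set D : E3 → ℝ := fun x => ct (fun ξ => del (UU ρ u ξ)) x with hDdef
  set G : E3 → ℝ := fun x => ct (fun ξ => gam (UU ρ u ξ)) x with hGdef
  -- the upper bound for every positive parameter
  set R : ℝ → ℝ := fun η => 1 / 2 * (∫ ξ, lm ξ * gam (dmp η ρ u ξ)) +
    κ / 2 * ((∫ x, w x) * (ρ + η) ^ 2 +
      2 * (ρ - (∫ ξ, gam (dmp η ρ u ξ)) + η) * (-(∫ x, w x * ct (dmp η ρ u) x) -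
        (∫ x, w x * ct (fun ξ => del (dmp η ρ u ξ)) x) +
        ∫ x, w x * ct (fun ξ => gam (dmp η ρ u ξ)) x) +
      (B η + 2 * (∫ x, w x * (ct (dmp η ρ u) x * ct (fun ξ => del (dmp η ρ u ξ)) x)) +
        (∫ x, w x * ct (fun ξ => del (dmp η ρ u ξ)) x ^ 2) +
        ∫ x, w x * ct (fun ξ => gam (dmp η ρ u ξ)) x ^ 2)) with hR
  have hup : ∀ η > 0, m * (ρ * e0) ≤ R η := by
    intro η hη
    obtain ⟨i1, i2, i3, i4, i5⟩ := hi η hη
    have hz : 0 < ρ - (∫ ξ, gam (dmp η ρ u ξ)) + η := by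
      have := hΓle η hη
      linarith
    have hF := limit_gen (t := dmp η ρ u) (w := fun x => K * w x) hm
      (fun x => mul_nonneg hK.le (h.w0 x)) (h.wm.const_mul K) (h.wi.const_mul K) h.hρ
      (by
        unfold dmp
        exact (by fun_prop : Continuous fun ξ : E3 => Real.exp (-η * ‖ξ‖ ^ 2)).mul
          h.continuous_UU)
      (fun ξ => by unfold dmp; rw [norm_neg, UU_neg]) (fun ξ hξ => h.dmp_lt hη hξ) i2 i4 i5 hz
      (by linarith) hE he0
    have hT2 : Integrable fun x => w x * ct (dmp η ρ u) x ^ 2 := by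
      simpa only [sq] using bg31_int2 h.wi i1 i1
    have hD2 : Integrable fun x => w x * ct (fun ξ => del (dmp η ρ u ξ)) x ^ 2 := by
      simpa only [sq] using bg31_int2 h.wi i3 i3
    have hG2 : Integrable fun x => w x * ct (fun ξ => gam (dmp η ρ u ξ)) x ^ 2 := by
      simpa only [sq] using bg31_int2 h.wi i2 i2
    have hTD := bg31_int2 h.wi i1 i3
    have hT := bg31_int h.wi i1
    have hD := bg31_int h.wi i3
    have hG1 := bg31_int h.wi i2
    have e1 : ∫ x, K * w x * (ct (fun ξ => alp (dmp η ρ u ξ)) x +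
        ct (fun ξ => gam (dmp η ρ u ξ)) x) = K * (-(∫ x, w x * ct (dmp η ρ u) x) -
        (∫ x, w x * ct (fun ξ => del (dmp η ρ u ξ)) x) +
        ∫ x, w x * ct (fun ξ => gam (dmp η ρ u ξ)) x) := by
      rw [show K * (-(∫ x, w x * ct (dmp η ρ u) x) -
        (∫ x, w x * ct (fun ξ => del (dmp η ρ u ξ)) x) +
        ∫ x, w x * ct (fun ξ => gam (dmp η ρ u ξ)) x) = (-K) * (∫ x, w x * ct (dmp η ρ u) x) +
        (-K) * (∫ x, w x * ct (fun ξ => del (dmp η ρ u ξ)) x) +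
        K * ∫ x, w x * ct (fun ξ => gam (dmp η ρ u ξ)) x by ring,
        ← bg31_lin3 (-K) (-K) K hT hD hG1]
      refine integral_congr_ae (ae_of_all _ fun x => ?_)
      show K * w x * (ct (fun ξ => alp (dmp η ρ u ξ)) x + ct (fun ξ => gam (dmp η ρ u ξ)) x) = _
      rw [h.ct_alp hη x]
      ring
    have e2 : ∫ x, K * w x * (ct (fun ξ => alp (dmp η ρ u ξ)) x ^ 2 +
        ct (fun ξ => gam (dmp η ρ u ξ)) x ^ 2) = K * ((∫ x, w x * ct (dmp η ρ u) x ^ 2) +
        2 * (∫ x, w x * (ct (dmp η ρ u) x * ct (fun ξ => del (dmp η ρ u ξ)) x)) +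
        (∫ x, w x * ct (fun ξ => del (dmp η ρ u ξ)) x ^ 2) +
        ∫ x, w x * ct (fun ξ => gam (dmp η ρ u ξ)) x ^ 2) := by
      rw [show K * ((∫ x, w x * ct (dmp η ρ u) x ^ 2) +
        2 * (∫ x, w x * (ct (dmp η ρ u) x * ct (fun ξ => del (dmp η ρ u ξ)) x)) +
        (∫ x, w x * ct (fun ξ => del (dmp η ρ u ξ)) x ^ 2) +
        ∫ x, w x * ct (fun ξ => gam (dmp η ρ u ξ)) x ^ 2) = K * (∫ x, w x * ct (dmp η ρ u) x ^ 2) +
        (2 * K) * (∫ x, w x * (ct (dmp η ρ u) x * ct (fun ξ => del (dmp η ρ u ξ)) x)) +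
        K * (∫ x, w x * ct (fun ξ => del (dmp η ρ u ξ)) x ^ 2) +
        K * ∫ x, w x * ct (fun ξ => gam (dmp η ρ u ξ)) x ^ 2 by ring,
        ← bg31_lin4 K (2 * K) K K hT2 hTD hD2 hG2]
      refine integral_congr_ae (ae_of_all _ fun x => ?_)
      show K * w x * (ct (fun ξ => alp (dmp η ρ u ξ)) x ^ 2 +
        ct (fun ξ => gam (dmp η ρ u ξ)) x ^ 2) = _
      rw [h.ct_alp hη x]
      ring
    have hb := hBle η hη
    have e3 : m * FF m (fun x => K * w x) (dmp η ρ u) (ρ - (∫ ξ, gam (dmp η ρ u ξ)) + η) =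
        1 / 2 * (∫ ξ, lm ξ * gam (dmp η ρ u ξ)) +
        κ / 2 * ((∫ x, w x) * (ρ + η) ^ 2 +
          2 * (ρ - (∫ ξ, gam (dmp η ρ u ξ)) + η) * (-(∫ x, w x * ct (dmp η ρ u) x) -
          (∫ x, w x * ct (fun ξ => del (dmp η ρ u ξ)) x) +
          ∫ x, w x * ct (fun ξ => gam (dmp η ρ u ξ)) x) +
        ((∫ x, w x * ct (dmp η ρ u) x ^ 2) +
          2 * (∫ x, w x * (ct (dmp η ρ u) x * ct (fun ξ => del (dmp η ρ u ξ)) x)) +
          (∫ x, w x * ct (fun ξ => del (dmp η ρ u ξ)) x ^ 2) +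
          ∫ x, w x * ct (fun ξ => gam (dmp η ρ u ξ)) x ^ 2)) := by
      unfold FF
      rw [e1, e2, integral_const_mul, ← hmK]
      field_simp
      ring
    have h5 : m * (ρ * e0) ≤ m * FF m (fun x => K * w x) (dmp η ρ u)
        (ρ - (∫ ξ, gam (dmp η ρ u ξ)) + η) := mul_le_mul_of_nonneg_left hF hm.le
    rw [e3] at h5
    refine h5.trans ?_
    rw [hR]
    have hκ := h.hκ
    have : κ / 2 * (∫ x, w x * ct (dmp η ρ u) x ^ 2) ≤ κ / 2 * B η :=
      mul_le_mul_of_nonneg_left hb (by positivity)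
    simp only
    nlinarith [this]
  -- the limit
  have hη : Tendsto (fun η : ℝ => η) (𝓝[>] 0) (𝓝 0) := tendsto_nhdsWithin_of_tendsto_nhds tendsto_id
  have l1 := h.moll_tendsto h.wi
  have l2 := bg31_tct h.wi (fun η hη => (hi η hη).2.2.1) h.del_int hdel
  have l3 := bg31_tct h.wi (fun η hη => (hi η hη).2.1) h.gam_int hgam
  have l4 := bg31_tsq h.wi (fun η hη => (hi η hη).2.2.1) h.del_int hdel
  have l5 := bg31_tsq h.wi (fun η hη => (hi η hη).2.1) h.gam_int hgam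
  have l6 := bg31_cross h
  have hlim : Tendsto R (𝓝[>] 0) (𝓝 (1 / 2 * (∫ ξ, lm ξ * gam (UU ρ u ξ)) +
    κ / 2 * ((∫ x, w x) * (ρ + 0) ^ 2 +
      2 * (ρ - G0 ρ u + 0) * (-(ρ * ∫ x, w x * u x) -
        (∫ x, w x * ct (fun ξ => del (UU ρ u ξ)) x) +
        ∫ x, w x * ct (fun ξ => gam (UU ρ u ξ)) x) +
      (ρ ^ 2 * (∫ x, w x * u x ^ 2) +
        2 * (ρ * ∫ x, w x * (ct (fun ξ => del (UU ρ u ξ)) x * u x)) +
        (∫ x, w x * ct (fun ξ => del (UU ρ u ξ)) x ^ 2) +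
        ∫ x, w x * ct (fun ξ => gam (UU ρ u ξ)) x ^ 2)))) := by
    rw [hR]
    refine (hlm.const_mul _).add (((((hη.const_add ρ).pow 2).const_mul _).add
      ((((hΓ.const_sub ρ).add hη).const_mul 2).mul ((l1.neg.sub l2).add l3))).add
      (((hB.add (l6.const_mul 2)).add l4).add l5) |>.const_mul _)
  have hfin := ge_of_tendsto hlim (by
    filter_upwards [self_mem_nhdsWithin] with η hη
    exact hup η hη)
  refine hfin.trans (le_of_eq ?_)
  have hu2 : Integrable fun x => w x * u x ^ 2 := by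
    have := bg31_um h (bg31_um h h.wi)
    simpa only [sq, mul_assoc] using this
  have hwu := bg31_um h h.wi
  have hDu : Integrable fun x => w x * (ct (fun ξ => del (UU ρ u ξ)) x * u x) := by
    have := bg31_um h (bg31_int h.wi h.del_int)
    simpa only [mul_assoc] using this
  have hD1 := bg31_int h.wi h.del_int
  have hG1 := bg31_int h.wi h.gam_int
  have hD2 : Integrable fun x => w x * ct (fun ξ => del (UU ρ u ξ)) x ^ 2 := by
    simpa only [sq] using bg31_int2 h.wi h.del_int h.del_int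
  have hG2 : Integrable fun x => w x * ct (fun ξ => gam (UU ρ u ξ)) x ^ 2 := by
    simpa only [sq] using bg31_int2 h.wi h.gam_int h.gam_int
  have e1 : ∫ x, w x * (-(ρ * u x) - ct (fun ξ => del (UU ρ u ξ)) x +
        ct (fun ξ => gam (UU ρ u ξ)) x) = -(ρ * ∫ x, w x * u x) -
        (∫ x, w x * ct (fun ξ => del (UU ρ u ξ)) x) +
        ∫ x, w x * ct (fun ξ => gam (UU ρ u ξ)) x := by
    have := bg31_lin3 (-ρ) (-1) 1 hwu hD1 hG1
    rw [show -(ρ * ∫ x, w x * u x) - (∫ x, w x * ct (fun ξ => del (UU ρ u ξ)) x) +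
        ∫ x, w x * ct (fun ξ => gam (UU ρ u ξ)) x = (-ρ) * (∫ x, w x * u x) +
        (-1) * (∫ x, w x * ct (fun ξ => del (UU ρ u ξ)) x) +
        1 * ∫ x, w x * ct (fun ξ => gam (UU ρ u ξ)) x by ring, ← this]
    refine integral_congr_ae (ae_of_all _ fun x => ?_)
    ring
  have e2 : ∫ x, w x * ((ρ * u x + ct (fun ξ => del (UU ρ u ξ)) x) ^ 2 +
        ct (fun ξ => gam (UU ρ u ξ)) x ^ 2) = ρ ^ 2 * (∫ x, w x * u x ^ 2) +
        2 * (ρ * ∫ x, w x * (ct (fun ξ => del (UU ρ u ξ)) x * u x)) +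
        (∫ x, w x * ct (fun ξ => del (UU ρ u ξ)) x ^ 2) +
        ∫ x, w x * ct (fun ξ => gam (UU ρ u ξ)) x ^ 2 := by
    have := bg31_lin4 (ρ ^ 2) (2 * ρ) 1 1 hu2 hDu hD2 hG2
    rw [show ρ ^ 2 * (∫ x, w x * u x ^ 2) +
        2 * (ρ * ∫ x, w x * (ct (fun ξ => del (UU ρ u ξ)) x * u x)) +
        (∫ x, w x * ct (fun ξ => del (UU ρ u ξ)) x ^ 2) +
        ∫ x, w x * ct (fun ξ => gam (UU ρ u ξ)) x ^ 2 = ρ ^ 2 * (∫ x, w x * u x ^ 2) +
        2 * ρ * (∫ x, w x * (ct (fun ξ => del (UU ρ u ξ)) x * u x)) +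
        1 * (∫ x, w x * ct (fun ξ => del (UU ρ u ξ)) x ^ 2) +
        1 * ∫ x, w x * ct (fun ξ => gam (UU ρ u ξ)) x ^ 2 by ring, ← this]
    refine integral_congr_ae (ae_of_all _ fun x => ?_)
    ring
  unfold FK
  rw [e1, e2]
  ring

end Pool.Agent.BG
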