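import Pool.Agent.BG.Weak
import Pool.Agent.BG.Strong
import Pool.Agent.BG.Trial
import Pool.Agent.BG.SolOf
import Pool.Agent.BG.Iw

/-! MP_2d9608_mp, project BG, row BG-41: the comparison theorem for the periodized interaction -/

set_option autoImplicit false

open MeasureTheory ProbabilityTheory H47.SE Filter
open scoped ComplexConjugate Topology ENNReal

noncomputable section

namespace Pool.Agent.BG

theorem main {w : E3 → ℝ} (hwm : Measurable w) (hw0 : ∀ x, 0 ≤ w x)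
    (heven : ∀ x, w (-x) = w x) (hwi : Integrable w) (hpos : 0 < ∫ x, w x)
    {p : ℝ≥0∞} (hp : 3 / 2 < p) (hwp : MemLp w p) :
    ∃ C > 0, ∃ c > 0, ∀ m > 0, ∀ K > 0, ∀ ρ > 0, C * min 1 (m * K) ≤ ρ →
      ∀ u e, IsSimpleSolution m (fun x => K * w x) ρ u e →
      ∀ (E : ℕ → ℝ) (e0 : ℝ),
      (∀ N, 0 < N → E N ≤ groundEnergy m (perPot (fun x => K * w x) (side ρ N)) N (side ρ N)) →
      Tendsto (fun N : ℕ => E N / N) atTop (𝓝 e0) →
      e0 + c * K * min 1 (m * K * ρ) ^ 2 ≤ e := by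
  obtain ⟨C₁, hC₁, c₁, hc₁, h1⟩ := weak hwm hw0 hwi hpos (iw_int hwm hw0 hwi hp hwp)
  obtain ⟨C₂, hC₂, c₂, hc₂, h2⟩ := strong hwm hw0 hwi hpos
  refine ⟨C₁ + (1 + C₂) ^ 2, by positivity, min c₁ c₂, lt_min hc₁ hc₂, ?_⟩
  intro m hm K hK ρ hρ hCρ u e hu E e0 hE he0
  obtain ⟨hS, hme⟩ := sol_of hm hK hρ hwm hw0 heven hwi hpos hu
  set κ := m * K with hκ
  have hκ0 : 0 < κ := mul_pos hm hK
  have hc : 0 < min c₁ c₂ := lt_min hc₁ hc₂
  -- the energy comparison from the scaled inequality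
  have key : ∀ d : ℝ, G0 ρ u < ρ → FK κ ρ w u - ρ / 2 * bb κ ρ w u ≤ -(d * ρ * κ) →
      e0 + d * K ≤ e := by
    intro d hG hF
    have h3 := hS.trial hm hK rfl hG hE he0
    have h4 : m * (ρ * e0) - m * (ρ * e) ≤ -(d * ρ * κ) := by
      have h5 : m * (ρ * e) = ρ / 2 * bb κ ρ w u := by
        calc m * (ρ * e) = ρ * (m * e) := by ring
          _ = ρ / 2 * bb κ ρ w u := by rw [hme]; ring
      rw [h5]
      linarith
    have h6 : m * ρ * (e0 + d * K) ≤ m * ρ * e := by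
      have h7 : m * ρ * (e0 + d * K) = m * (ρ * e0) + d * ρ * κ := by rw [hκ]; ring
      have h8 : m * ρ * e = m * (ρ * e) := by ring
      rw [h7, h8]
      linarith
    exact le_of_mul_le_mul_left h6 (mul_pos hm hρ)
  rcases le_or_gt (κ * ρ) 1 with hle | hgt
  · -- the weakly coupled regime
    have hκ1 : κ ≤ 1 := by
      by_contra hcon
      push Not at hcon
      rw [min_eq_left hcon.le, mul_one] at hCρ
      have h3 : 1 ≤ (1 + C₂) ^ 2 := by nlinarith
      have h4 : (1 : ℝ) < ρ := by linarith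
      nlinarith
    rw [min_eq_right hκ1] at hCρ
    have h3 : C₁ * κ ≤ ρ := by
      have h4 : 0 ≤ (1 + C₂) ^ 2 * κ := by positivity
      nlinarith
    obtain ⟨hG, hF⟩ := h1 κ ρ u hS hle h3
    rw [min_eq_right hle]
    have h5 : min c₁ c₂ * (κ * ρ) ^ 2 ≤ c₁ * (κ * ρ) ^ 2 :=
      mul_le_mul_of_nonneg_right (min_le_left _ _) (by positivity)
    have h6 := key (min c₁ c₂ * (κ * ρ) ^ 2) hG (by
      refine hF.trans ?_
      have h7 : min c₁ c₂ * (κ * ρ) ^ 2 * (ρ * κ) ≤ c₁ * (κ * ρ) ^ 2 * (ρ * κ) :=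
        mul_le_mul_of_nonneg_right h5 (by positivity)
      nlinarith)
    calc e0 + min c₁ c₂ * K * (κ * ρ) ^ 2 = e0 + min c₁ c₂ * (κ * ρ) ^ 2 * K := by ring
      _ ≤ e := h6
  · -- the strongly coupled regime
    have h3 : C₂ ≤ ρ := by
      rcases le_or_gt κ 1 with h4 | h4
      · rw [min_eq_right h4] at hCρ
        have h5 : (1 + C₂) ^ 2 * κ ≤ ρ := by
          have h6 : 0 ≤ C₁ * κ := by positivity
          nlinarith
        have h7 : (1 + C₂) ^ 2 ≤ ρ ^ 2 := by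
          have h8 : (1 + C₂) ^ 2 * (κ * ρ) ≤ ρ * ρ := by
            have := mul_le_mul_of_nonneg_right h5 hρ.le
            nlinarith
          have h9 : (1 + C₂) ^ 2 * 1 ≤ (1 + C₂) ^ 2 * (κ * ρ) :=
            mul_le_mul_of_nonneg_left hgt.le (by positivity)
          nlinarith
        have h8 : 1 + C₂ ≤ ρ := by
          exact (le_abs_self _).trans (abs_le_of_sq_le_sq h7 hρ.le)
        linarith
      · rw [min_eq_left h4.le, mul_one] at hCρ
        nlinarith
    obtain ⟨hG, hF⟩ := h2 κ ρ u hS hgt.le h3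
    rw [min_eq_left hgt.le]
    have h6 := key (min c₁ c₂) hG (by
      refine hF.trans ?_
      have h7 : min c₁ c₂ * (ρ * κ) ≤ c₂ * (ρ * κ) :=
        mul_le_mul_of_nonneg_right (min_le_right _ _) (by positivity)
      nlinarith)
    simpa using h6

end Pool.Agent.BG
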