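import Pool.Agent.BG.Gauss

/-! MP_2d9608_mp, project BG, row BG-6 -/

set_option autoImplicit false

open MeasureTheory ProbabilityTheory H47.SE Filter
open scoped ComplexConjugate Topology ENNReal

noncomputable section

namespace Pool.Agent.BG

variable {ι : Type*} [Fintype ι]

/-- the random coefficient -/
def psiG (τ : ι → ℂ) (o : Option ι) (ξ : ι → ℝ) : ℂ := o.elim 1 fun i => τ i * (ξ i : ℂ)

/-- the modes with the constant -/
def psiH (φ : ι → E3 → ℝ) (o : Option ι) (x : E3) : ℝ := o.elim 1 fun i => φ i x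

/-- the moments -/
def psiM (τ : ι → ℂ) {N : ℕ} (f : Fin N → Option ι) : ℂ := ∫ ξ, ∏ j, psiG τ (f j) ξ ∂(gm ι)

theorem psi_nn_nonneg (ξ : ι → ℝ) : 0 ≤ nn ξ := Finset.sum_nonneg fun i _ => abs_nonneg (ξ i)

theorem psi_G_bound (τ : ι → ℂ) (o : Option ι) (ξ : ι → ℝ) :
    ‖psiG τ o ξ‖ ≤ (1 + ∑ i, ‖τ i‖) * Real.exp (nn ξ) := by
  have h1 : (1 : ℝ) ≤ Real.exp (nn ξ) := Real.one_le_exp (psi_nn_nonneg ξ)
  have h2 : 0 ≤ ∑ i, ‖τ i‖ := Finset.sum_nonneg fun i _ => norm_nonneg (τ i)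
  cases o with
  | none =>
    simp only [psiG, Option.elim_none, norm_one]
    nlinarith
  | some i =>
    simp only [psiG, Option.elim_some, norm_mul, Complex.norm_real, Real.norm_eq_abs]
    have h3 : ‖τ i‖ ≤ 1 + ∑ i, ‖τ i‖ := by
      have := Finset.single_le_sum (f := fun i => ‖τ i‖) (fun i _ => norm_nonneg (τ i))
        (Finset.mem_univ i)
      linarith
    have h4 : |ξ i| ≤ Real.exp (nn ξ) := by
      have h5 := Finset.single_le_sum (f := fun i => |ξ i|) (fun i _ => abs_nonneg (ξ i))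
        (Finset.mem_univ i)
      have h6 := Real.add_one_le_exp (nn ξ)
      unfold nn at h6 ⊢
      linarith
    exact mul_le_mul h3 h4 (abs_nonneg _) (by linarith)

omit [Fintype ι] in
theorem psi_G_cont (τ : ι → ℂ) (o : Option ι) : Continuous (psiG τ o) := by
  cases o with
  | none => exact continuous_const
  | some i =>
    exact continuous_const.mul (Complex.continuous_ofReal.comp (continuous_apply i))

theorem psi_integrable (τ : ι → ℂ) {N : ℕ} (f : Fin N → Option ι) :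
    Integrable (fun ξ : ι → ℝ => ∏ j, psiG τ (f j) ξ) (gm ι) := by
  have h1 : Integrable (fun ξ : ι → ℝ => (1 + ∑ i, ‖τ i‖) ^ N * Real.exp ((N : ℝ) * nn ξ))
      (gm ι) := (integrable_exp_nn (ι := ι) (N : ℝ)).const_mul _
  refine h1.mono' ?_ (Eventually.of_forall fun ξ => ?_)
  · exact (continuous_finsetProd _ fun j _ => psi_G_cont τ (f j)).aestronglyMeasurable
  · rw [norm_prod]
    calc ∏ j, ‖psiG τ (f j) ξ‖ ≤ ∏ _j : Fin N, ((1 + ∑ i, ‖τ i‖) * Real.exp (nn ξ)) :=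
          Finset.prod_le_prod (fun j _ => norm_nonneg _) fun j _ => psi_G_bound τ (f j) ξ
      _ = (1 + ∑ i, ‖τ i‖) ^ N * Real.exp ((N : ℝ) * nn ξ) := by
          rw [Finset.prod_const, Finset.card_univ, Fintype.card_fin, mul_pow, ← Real.exp_nat_mul]

/-- the expansion of the expectation -/
theorem psi_expand (τ : ι → ℂ) {N : ℕ} (H : Fin N → Option ι → ℂ) :
    ∫ ξ, ∏ j, ∑ o, psiG τ o ξ * H j o ∂(gm ι) =
      ∑ f : Fin N → Option ι, psiM τ f * ∏ j, H j (f j) := by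
  classical
  have h1 : ∀ ξ : ι → ℝ, ∏ j, ∑ o, psiG τ o ξ * H j o =
      ∑ f : Fin N → Option ι, (∏ j, psiG τ (f j) ξ) * ∏ j, H j (f j) := by
    intro ξ
    rw [Finset.prod_univ_sum, Fintype.piFinset_univ]
    exact Finset.sum_congr rfl fun f _ => Finset.prod_mul_distrib
  simp_rw [h1]
  rw [integral_finsetSum _ fun f _ => (psi_integrable τ f).mul_const _]
  refine Finset.sum_congr rfl fun f _ => ?_
  rw [integral_mul_const]
  rfl

theorem fld_eq_sum (τ : ι → ℂ) (φ : ι → E3 → ℝ) (ξ : ι → ℝ) (x : E3) :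
    fld τ φ ξ x = ∑ o, psiG τ o ξ * (psiH φ o x : ℂ) := by
  rw [Fintype.sum_option]
  simp [fld, psiG, psiH]

theorem psi_eq_sum (τ : ι → ℂ) (φ : ι → E3 → ℝ) (N : ℕ) (x : Fin N → E3) :
    psi τ φ N x = ∑ f : Fin N → Option ι, psiM τ f * ∏ j, (psiH φ (f j) (x j) : ℂ) := by
  rw [← psi_expand τ fun j o => (psiH φ o (x j) : ℂ)]
  unfold psi
  simp_rw [fld_eq_sum]

omit [Fintype ι] in
theorem psi_H_smooth {φ : ι → E3 → ℝ} (hφ : ∀ i, ContDiff ℝ (⊤ : ℕ∞) (φ i)) (o : Option ι) :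
    ContDiff ℝ (⊤ : ℕ∞) (psiH φ o) := by
  cases o with
  | none => exact contDiff_const
  | some i => exact hφ i

theorem contDiff_psi {φ : ι → E3 → ℝ} (hφ : ∀ i, ContDiff ℝ (⊤ : ℕ∞) (φ i)) (τ : ι → ℂ)
    (N : ℕ) : ContDiff ℝ (⊤ : ℕ∞) (psi τ φ N) := by
  have h : psi τ φ N = fun x => ∑ f : Fin N → Option ι,
      psiM τ f * ∏ j, (psiH φ (f j) (x j) : ℂ) := by
    funext x
    exact psi_eq_sum τ φ N x
  rw [h]
  refine ContDiff.sum fun f _ => contDiff_const.mul (contDiff_prod fun j _ => ?_)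
  exact Complex.ofRealCLM.contDiff.comp ((psi_H_smooth hφ (f j)).comp (contDiff_apply ℝ E3 j))

theorem periodic_psi {L : ℝ} {φ : ι → E3 → ℝ} (hφ : ∀ i x n, φ i (x + latt L n) = φ i x)
    (τ : ι → ℂ) (N : ℕ) : PeriodicN L (psi τ φ N) := by
  intro x n
  unfold psi fld
  simp_rw [hφ]

theorem dfld_eq_sum (τ : ι → ℂ) (φ : ι → E3 → ℝ) (a : Fin 3) (ξ : ι → ℝ) (x : E3) :
    dfld τ φ a ξ x = ∑ o, psiG τ o ξ * (fderiv ℝ (psiH φ o) x (ea a) : ℂ) := by
  rw [Fintype.sum_option]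
  have h1 : fderiv ℝ (psiH φ none) x = 0 := by
    have : psiH φ none = fun _ => (1 : ℝ) := rfl
    rw [this, fderiv_fun_const]
    rfl
  have h2 : ∀ i : ι, psiH φ (some i) = φ i := fun i => rfl
  rw [h1]
  simp [dfld, psiG, h2]

theorem fderiv_psi {φ : ι → E3 → ℝ} (hφ : ∀ i, ContDiff ℝ (⊤ : ℕ∞) (φ i)) (τ : ι → ℂ)
    (N : ℕ) (x : Fin N → E3) (k : Fin N) (a : Fin 3) :
    fderiv ℝ (psi τ φ N) x (dirE k a) =
      ∫ ξ, ∏ j, (if j = k then dfld τ φ a ξ (x j) else fld τ φ ξ (x j)) ∂(gm ι) := by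
  classical
  have e1 : ∀ (ξ : ι → ℝ) (j : Fin N),
      (if j = k then dfld τ φ a ξ (x j) else fld τ φ ξ (x j)) =
        ∑ o, psiG τ o ξ * (if j = k then (fderiv ℝ (psiH φ o) (x j) (ea a) : ℂ)
          else (psiH φ o (x j) : ℂ)) := by
    intro ξ j
    by_cases h : j = k
    · simp only [if_pos h]
      exact dfld_eq_sum τ φ a ξ (x j)
    · simp only [if_neg h]
      exact fld_eq_sum τ φ ξ (x j)
  simp_rw [e1]
  rw [psi_expand τ fun j o => if j = k then (fderiv ℝ (psiH φ o) (x j) (ea a) : ℂ)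
          else (psiH φ o (x j) : ℂ)]
  have h : psi τ φ N = fun x => ∑ f : Fin N → Option ι,
      psiM τ f * ∏ j, (psiH φ (f j) (x j) : ℂ) := by
    funext x
    exact psi_eq_sum τ φ N x
  have h0 : ∀ f : Fin N → Option ι, HasFDerivAt
      (fun x : Fin N → E3 => ∏ j, (psiH φ (f j) (x j) : ℂ))
      (∑ i, (∏ j ∈ Finset.univ.erase i, (psiH φ (f j) (x j) : ℂ)) •
        ((Complex.ofRealCLM.comp (fderiv ℝ (psiH φ (f i)) (x i))).comp
          (ContinuousLinearMap.proj (R := ℝ) i))) x := by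
    intro f
    have h1 : ∀ i ∈ (Finset.univ : Finset (Fin N)),
        HasFDerivAt (fun x : Fin N → E3 => (psiH φ (f i) (x i) : ℂ))
        ((Complex.ofRealCLM.comp (fderiv ℝ (psiH φ (f i)) (x i))).comp
          (ContinuousLinearMap.proj (R := ℝ) i)) x := by
      intro i _
      have h2 : HasFDerivAt (psiH φ (f i)) (fderiv ℝ (psiH φ (f i)) (x i)) (x i) :=
        ((psi_H_smooth hφ (f i)).differentiable (by simp)).differentiableAt.hasFDerivAt
      have h3 : HasFDerivAt (fun y : E3 => (psiH φ (f i) y : ℂ))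
          (Complex.ofRealCLM.comp (fderiv ℝ (psiH φ (f i)) (x i))) (x i) :=
        Complex.ofRealCLM.hasFDerivAt.comp (x i) h2
      exact HasFDerivAt.comp (g := fun y : E3 => (psiH φ (f i) y : ℂ))
        (f := fun x : Fin N → E3 => x i) x h3 (hasFDerivAt_apply i x)
    exact HasFDerivAt.finsetProd h1
  have h4 : HasFDerivAt (psi τ φ N) (∑ f : Fin N → Option ι, psiM τ f •
      (∑ i, (∏ j ∈ Finset.univ.erase i, (psiH φ (f j) (x j) : ℂ)) •
        ((Complex.ofRealCLM.comp (fderiv ℝ (psiH φ (f i)) (x i))).comp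
          (ContinuousLinearMap.proj (R := ℝ) i)))) x := by
    rw [h]
    exact HasFDerivAt.fun_sum fun f _ => (h0 f).const_mul (psiM τ f)
  rw [h4.fderiv, sum_apply]
  refine Finset.sum_congr rfl fun f _ => ?_
  rw [smul_apply, smul_eq_mul]
  congr 1
  rw [sum_apply, Finset.sum_eq_single k]
  · rw [← Finset.mul_prod_erase _ _ (Finset.mem_univ k), if_pos rfl, mul_comm]
    simp only [smul_apply, ContinuousLinearMap.comp_apply,
      ContinuousLinearMap.proj_apply, dirE, Pi.single_eq_same, smul_eq_mul,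
      Complex.ofRealCLM_apply]
    congr 1
    refine Finset.prod_congr rfl fun j hj => ?_
    rw [if_neg (Finset.ne_of_mem_erase hj)]
  · intro i _ hik
    simp [dirE, hik]
  · simp

end Pool.Agent.BG
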