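import Pool.Agent.BG.CT
import Pool.Agent.BG.Alg

/-! MP_2d9608_mp, project BG, row BG-25 -/

set_option autoImplicit false

open MeasureTheory ProbabilityTheory H47.SE Filter
open scoped ComplexConjugate Topology ENNReal

noncomputable section

namespace Pool.Agent.BG

variable {κ ρ : ℝ} {w u : E3 → ℝ}

private theorem bg25_int_cos {f : E3 → ℝ} (hf : Integrable f) (x : E3) :
    Integrable (fun y : E3 => Real.cos (2 * Real.pi * inner ℝ y x) * f y) := by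
  refine hf.bdd_mul (c := 1) ?_ (ae_of_all _ fun y => ?_)
  · exact (Real.continuous_cos.comp (by fun_prop)).aestronglyMeasurable
  · rw [Real.norm_eq_abs]; exact Real.abs_cos_le_one _

private theorem bg25_sub {f : E3 → ℝ} (hf : Integrable f) (ξ : E3) :
    (∫ x, f x) - ct f ξ = ∫ y, f y * (1 - Real.cos (2 * Real.pi * inner ℝ y ξ)) := by
  unfold ct
  rw [← integral_sub hf (bg25_int_cos hf ξ)]
  congr 1
  funext y
  ring

private theorem bg25_int {f : E3 → ℝ} (hf : Integrable f) (ξ : E3) :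
    Integrable fun y => f y * (1 - Real.cos (2 * Real.pi * inner ℝ y ξ)) :=
  (hf.sub (bg25_int_cos hf ξ)).congr (ae_of_all _ fun y => by
    simp only [Pi.sub_apply]; ring)

theorem Sol.g_bd (h : Sol κ ρ w u) :
    ∀ᵐ x, 0 ≤ (1 - u x) * w x ∧ (1 - u x) * w x ≤ w x := by
  refine h.ub.mono fun x hx => ⟨mul_nonneg (by linarith [hx.2]) (h.w0 x), ?_⟩
  nlinarith [h.w0 x, hx.1, mul_nonneg hx.1 (h.w0 x)]

theorem Sol.g_int (h : Sol κ ρ w u) : Integrable fun x => (1 - u x) * w x := by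
  refine h.wi.mono' ((aestronglyMeasurable_const.sub h.ui.1).mul h.wm.aestronglyMeasurable)
    (h.g_bd.mono fun x hx => ?_)
  rw [Real.norm_eq_abs, abs_of_nonneg hx.1]
  exact hx.2

theorem Sol.uw_int (h : Sol κ ρ w u) : Integrable fun x => u x * w x :=
  (h.wi.sub h.g_int).congr (ae_of_all _ fun y => by simp only [Pi.sub_apply]; ring)

theorem Sol.uw_nonneg (h : Sol κ ρ w u) : 0 ≤ ∫ x, u x * w x :=
  integral_nonneg_of_ae (h.ub.mono fun x hx => mul_nonneg hx.1 (h.w0 x))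

theorem Sol.g_eq (h : Sol κ ρ w u) :
    ∫ x, (1 - u x) * w x = (∫ x, w x) - ∫ x, u x * w x := by
  rw [← integral_sub h.wi h.uw_int]
  congr 1
  funext y
  ring

theorem Sol.bb_pos (h : Sol κ ρ w u) : 0 < bb κ ρ w u :=
  mul_pos (mul_pos h.hρ h.hκ) h.gpos

theorem Sol.bb_le (h : Sol κ ρ w u) : bb κ ρ w u ≤ ρ * κ * ∫ x, w x := by
  refine mul_le_mul_of_nonneg_left ?_ (mul_pos h.hρ h.hκ).le
  rw [h.g_eq]
  linarith [h.uw_nonneg]

theorem Sol.abs_UU_le (h : Sol κ ρ w u) (ξ : E3) : |UU ρ u ξ| ≤ 1 := by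
  have h1 := abs_ct_le h.ui ξ
  have h2 : ∫ y, |u y| = ∫ y, u y :=
    integral_congr_ae (h.ub.mono fun x hx => abs_of_nonneg hx.1)
  rw [h2, h.umass] at h1
  rw [UU, abs_mul, abs_of_pos h.hρ]
  calc ρ * |ct u ξ| ≤ ρ * (1 / ρ) := mul_le_mul_of_nonneg_left h1 h.hρ.le
    _ = 1 := mul_one_div_cancel h.hρ.ne'

theorem Sol.continuous_UU (h : Sol κ ρ w u) : Continuous (UU ρ u) :=
  continuous_const.mul (continuous_ct h.ui)

theorem UU_neg (ρ : ℝ) (u : E3 → ℝ) (ξ : E3) : UU ρ u (-ξ) = UU ρ u ξ := by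
  rw [UU, UU, ct_neg]

theorem Sol.abs_GG_le (h : Sol κ ρ w u) (ξ : E3) : |GG w u ξ| ≤ 1 := by
  have h1 := abs_ct_le h.g_int ξ
  have h2 : ∫ y, |(1 - u y) * w y| = ∫ y, (1 - u y) * w y :=
    integral_congr_ae (h.g_bd.mono fun x hx => abs_of_nonneg hx.1)
  rw [h2] at h1
  rw [GG, abs_div, abs_of_pos h.gpos, div_le_one h.gpos]
  exact h1

theorem Sol.lm_UU (h : Sol κ ρ w u) (ξ : E3) :
    lm ξ * UU ρ u ξ = ρ * κ * ct (fun x => (1 - u x) * w x) ξ -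
      2 * bb κ ρ w u * UU ρ u ξ + bb κ ρ w u * UU ρ u ξ ^ 2 := by
  have h1 := h.eqn ξ
  have h2 : lm ξ * UU ρ u ξ = ρ * (lm ξ * ct u ξ) := by rw [UU]; ring
  rw [h2, h1, UU, bb]
  ring

private theorem bg25_lm_nonneg (ξ : E3) : 0 ≤ lm ξ := by
  unfold lm; positivity

theorem Sol.one_le_xx (h : Sol κ ρ w u) (ξ : E3) : 1 ≤ xx κ ρ w u ξ := by
  have h1 : 0 ≤ lm ξ / (2 * bb κ ρ w u) :=
    div_nonneg (bg25_lm_nonneg ξ) (by linarith [h.bb_pos])
  rw [xx]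
  linarith

theorem Sol.one_lt_xx (h : Sol κ ρ w u) {ξ : E3} (hξ : ξ ≠ 0) : 1 < xx κ ρ w u ξ := by
  have h0 : 0 < lm ξ := by
    have := norm_pos_iff.2 hξ
    unfold lm; positivity
  have h1 : 0 < lm ξ / (2 * bb κ ρ w u) := div_pos h0 (by linarith [h.bb_pos])
  rw [xx]
  linarith

theorem Sol.quad (h : Sol κ ρ w u) (ξ : E3) :
    UU ρ u ξ ^ 2 - 2 * xx κ ρ w u ξ * UU ρ u ξ + GG w u ξ = 0 := by
  have hb := h.bb_pos
  have h1 := h.lm_UU ξ
  have h2 : ρ * κ * ct (fun x => (1 - u x) * w x) ξ = bb κ ρ w u * GG w u ξ := by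
    rw [bb, GG]
    field_simp [h.gpos.ne']
  rw [h2] at h1
  have h3 : bb κ ρ w u * (2 * xx κ ρ w u ξ) = 2 * bb κ ρ w u + lm ξ := by
    rw [xx]
    field_simp
  have h4 : bb κ ρ w u * (UU ρ u ξ ^ 2 - 2 * xx κ ρ w u ξ * UU ρ u ξ + GG w u ξ) = 0 := by
    linear_combination h1 * (-1) - UU ρ u ξ * h3
  rcases mul_eq_zero.1 h4 with h5 | h5
  · exact absurd h5 hb.ne'
  · exact h5

theorem Sol.UU_lt (h : Sol κ ρ w u) {ξ : E3} (hξ : ξ ≠ 0) : |UU ρ u ξ| < 1 := by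
  have h1 := h.abs_UU_le ξ
  have h2 := h.one_lt_xx hξ
  have h3 := h.quad ξ
  have h4 := abs_le.1 (h.abs_GG_le ξ)
  refine lt_of_le_of_ne h1 fun h5 => ?_
  rcases eq_or_eq_neg_of_abs_eq h5 with h6 | h6
  · rw [h6] at h3
    linarith
  · rw [h6] at h3
    linarith

theorem Sol.one_sub_GG (h : Sol κ ρ w u) (ξ : E3) :
    (∫ x, (1 - u x) * w x) * (1 - GG w u ξ) =
      ∫ y, (1 - u y) * w y * (1 - Real.cos (2 * Real.pi * inner ℝ y ξ)) := by
  rw [← bg25_sub h.g_int ξ, GG, mul_sub, mul_one, mul_div_cancel₀ _ h.gpos.ne']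

theorem Sol.ct_g_le (h : Sol κ ρ w u) (ξ : E3) :
    0 ≤ (∫ x, (1 - u x) * w x) - ct (fun x => (1 - u x) * w x) ξ ∧
      (∫ x, (1 - u x) * w x) - ct (fun x => (1 - u x) * w x) ξ ≤ (∫ x, w x) - ct w ξ := by
  rw [bg25_sub h.g_int ξ, bg25_sub h.wi ξ]
  constructor
  · refine integral_nonneg_of_ae (h.g_bd.mono fun x hx => mul_nonneg hx.1 ?_)
    linarith [Real.cos_le_one (2 * Real.pi * inner ℝ x ξ)]
  · refine integral_mono_ae (bg25_int h.g_int ξ) (bg25_int h.wi ξ)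
      (h.g_bd.mono fun x hx => mul_le_mul_of_nonneg_right hx.2 ?_)
    linarith [Real.cos_le_one (2 * Real.pi * inner ℝ x ξ)]

end Pool.Agent.BG
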