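import Pool.Agent.BG.Energies
import Pool.Agent.BG.Quart

/-! MP_2d9608_mp, project BG, row BG-11 -/

set_option autoImplicit false

open MeasureTheory ProbabilityTheory H47.SE Filter
open scoped ComplexConjugate Topology ENNReal

noncomputable section

namespace Pool.Agent.BG

variable {ι : Type*} [Fintype ι]

private theorem bg11_exp (x : ℝ) : HasSum (fun N : ℕ => x ^ N / N.factorial) (Real.exp x) := by
  rw [Real.exp_eq_exp_ℝ]
  exact NormedSpace.expSeries_div_hasSum_exp x

private theorem bg11_exp1 (z x : ℝ) :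
    HasSum (fun N : ℕ => z ^ N / N.factorial * (N * x ^ (N - 1))) (z * Real.exp (z * x)) := by
  rw [← hasSum_nat_add_iff' 1]
  have h := (bg11_exp (z * x)).mul_left z
  have e : z * Real.exp (z * x) - ∑ i ∈ Finset.range 1,
      z ^ i / (i.factorial : ℝ) * ((i : ℝ) * x ^ (i - 1)) = z * Real.exp (z * x) := by simp
  rw [e]
  have e2 : (fun n : ℕ => z ^ (n + 1) / ((n + 1).factorial : ℝ) * (((n + 1 : ℕ) : ℝ) *
      x ^ (n + 1 - 1))) = fun n : ℕ => z * ((z * x) ^ n / (n.factorial : ℝ)) := by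
    funext n
    have h1 : ((n : ℝ) + 1) ≠ 0 := by positivity
    have h2 : (n.factorial : ℝ) ≠ 0 := by positivity
    rw [Nat.factorial_succ, Nat.add_sub_cancel, mul_pow, pow_succ]
    push_cast
    field_simp
  rw [e2]
  exact h

/-- the bound of the overlap -/
private def bg11_B (L : ℝ) (τ : ι → ℂ) (p : (ι → ℝ) × (ι → ℝ)) : ℝ :=
  L ^ 3 + ∑ i, ‖τ i‖ ^ 2 * |p.1 i * p.2 i|

private theorem bg11_ov {L : ℝ} (hL : 0 < L) (τ : ι → ℂ) (p : (ι → ℝ) × (ι → ℝ)) :
    |ov L τ p| ≤ bg11_B L τ p := by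
  unfold ov bg11_B
  refine (abs_add_le _ _).trans ?_
  rw [abs_of_pos (pow_pos hL 3)]
  refine add_le_add_right ((Finset.abs_sum_le_sum_abs _ _).trans (le_of_eq ?_)) _
  refine Finset.sum_congr rfl fun i _ => ?_
  rw [abs_mul, abs_of_nonneg (sq_nonneg ‖τ i‖)]

private theorem bg11_B0 {L : ℝ} (hL : 0 < L) (τ : ι → ℂ) (p : (ι → ℝ) × (ι → ℝ)) :
    0 ≤ bg11_B L τ p := (abs_nonneg _).trans (bg11_ov hL τ p)

private theorem bg11_expB {L : ℝ} {τ : ι → ℂ} {z : ℝ} {c : ι → ℝ}
    (hτ : ∀ i, z * ‖τ i‖ ^ 2 = c i) (p : (ι → ℝ) × (ι → ℝ)) :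
    z * bg11_B L τ p = z * L ^ 3 + ∑ i, c i * |p.1 i * p.2 i| := by
  unfold bg11_B
  rw [mul_add, Finset.mul_sum]
  congr 1
  refine Finset.sum_congr rfl fun i _ => ?_
  rw [← hτ i, mul_assoc]

private theorem bg11_expov {L : ℝ} {τ : ι → ℂ} {z : ℝ} {c : ι → ℝ}
    (hτ : ∀ i, z * ‖τ i‖ ^ 2 = c i) (s : ℝ) (p : (ι → ℝ) × (ι → ℝ)) :
    Real.exp (s * z * ov L τ p) = Real.exp (s * z * L ^ 3) * wt (fun i => s * c i) p := by
  unfold ov wt
  rw [← Real.exp_add, mul_add, Finset.mul_sum]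
  congr 2
  refine Finset.sum_congr rfl fun i _ => ?_
  simp only [← hτ i]
  ring

private theorem bg11_wt {c : ι → ℝ} (hc : ∀ i, |c i| < 1) : ∫ p, wt c p ∂(gg ι) = zc c := by
  have h := twick0 hc
  rw [integral_complex_ofReal] at h
  exact_mod_cast h

private theorem bg11_mov (L : ℝ) (τ : ι → ℂ) : Measurable (ov L τ) := by
  unfold ov
  fun_prop

private theorem bg11_mkk (τ : ι → ℂ) (lam : ι → ℝ) : Measurable (kk τ lam) := by
  unfold kk
  fun_prop

theorem sum_norm {L : ℝ} [hL : Fact (0 < L)] {φ : ι → E3 → ℝ} {lam : ι → ℝ}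
    (hM : Modes L φ lam) {τ : ι → ℂ} {z : ℝ} (hz : 0 < z) {c : ι → ℝ}
    (hτ : ∀ i, z * ‖τ i‖ ^ 2 = c i) (hc : ∀ i, c i < 1) {s : ℝ} (hs0 : 0 ≤ s) (hs1 : s ≤ 1) :
    HasSum (fun N : ℕ => (s * z) ^ N / N.factorial * ∫ x in box (Fin N) L, ‖psi τ φ N x‖ ^ 2)
      (Real.exp (s * z * L ^ 3) * zc (fun i => s * c i)) := by
  have hc0 : ∀ i, 0 ≤ c i := fun i => by rw [← hτ i]; positivity
  have hsz : |s * z| ≤ z := by
    rw [abs_of_nonneg (mul_nonneg hs0 hz.le)]
    exact mul_le_of_le_one_left hz.le hs1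
  have key := hasSum_integral_of_dominated_convergence (μ := gg ι)
    (F := fun (N : ℕ) p => (s * z) ^ N / N.factorial * ov L τ p ^ N)
    (f := fun p => Real.exp (s * z * ov L τ p))
    (fun (N : ℕ) p => (z * bg11_B L τ p) ^ N / N.factorial)
    (fun N => by
      have := bg11_mov L τ
      exact (by fun_prop : Measurable fun p => (s * z) ^ N / (N.factorial : ℝ) * ov L τ p ^ N).aestronglyMeasurable)
    (fun N => Eventually.of_forall fun p => by
      rw [Real.norm_eq_abs, abs_mul, abs_div, abs_pow, abs_pow, Nat.abs_cast, mul_pow, mul_div_right_comm]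
      refine mul_le_mul ?_ (pow_le_pow_left₀ (abs_nonneg _) (bg11_ov hL.out τ p) N)
        (by positivity) (by positivity)
      exact div_le_div_of_nonneg_right (pow_le_pow_left₀ (abs_nonneg _) hsz N) (by positivity))
    (Eventually.of_forall fun p => (bg11_exp _).summable)
    (by
      have e : (fun p => ∑' N : ℕ, (z * bg11_B L τ p) ^ N / (N.factorial : ℝ)) =
          fun p : (ι → ℝ) × (ι → ℝ) => Real.exp (z * L ^ 3) *
            Real.exp (0 * (nn p.1 + nn p.2) + ∑ i, c i * |p.1 i * p.2 i|) := by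
        funext p
        rw [(bg11_exp _).tsum_eq, bg11_expB hτ, zero_mul, zero_add, Real.exp_add]
      rw [e]
      exact (integrable_exp_pair hc0 hc 0).const_mul _)
    (Eventually.of_forall fun p => by
      have h := bg11_exp (s * z * ov L τ p)
      have e : (fun N : ℕ => (s * z * ov L τ p) ^ N / (N.factorial : ℝ)) =
          fun N : ℕ => (s * z) ^ N / N.factorial * ov L τ p ^ N := by
        funext N
        rw [mul_pow (s * z), mul_div_right_comm]
      rwa [e] at h)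
  have hsc : ∀ i, |s * c i| < 1 := fun i => by
    rw [abs_of_nonneg (mul_nonneg hs0 (hc0 i))]
    exact (mul_le_of_le_one_left (hc0 i) hs1).trans_lt (hc i)
  simp only [bg11_expov hτ] at key
  rw [integral_const_mul, bg11_wt hsc] at key
  simp only [norm_psi hM]
  simp only [integral_const_mul] at key
  exact key

theorem sum_kin {L : ℝ} [hL : Fact (0 < L)] {φ : ι → E3 → ℝ} {lam : ι → ℝ}
    (hM : Modes L φ lam) {t : ι → ℝ} (ht : ∀ i, |t i| < 1) {z : ℝ} (hz : 0 < z)
    {τ : ι → ℂ} (hτ : ∀ i, τ i ^ 2 = ((-(t i) / z : ℝ) : ℂ)) (m : ℝ) :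
    HasSum (fun N : ℕ => z ^ N / N.factorial * kinetic m N L (psi τ φ N))
      (Real.exp (z * L ^ 3) * zc (fun i => |t i|) *
        (1 / (2 * m) * ∑ i, lam i * gam (t i))) := by
  have hc : ∀ i, z * ‖τ i‖ ^ 2 = |t i| := by
    intro i
    have h := congrArg norm (hτ i)
    rw [norm_pow, Complex.norm_real, Real.norm_eq_abs, abs_div, abs_neg, abs_of_pos hz] at h
    rw [h, mul_div_cancel₀ _ hz.ne']
  -- the bound of the kinetic overlap
  obtain ⟨K, hK⟩ : ∃ K, K = ∑ i, ‖τ i‖ ^ 2 * |lam i| := ⟨_, rfl⟩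
  have hkk : ∀ p : (ι → ℝ) × (ι → ℝ), |kk τ lam p| ≤ K * Real.exp (1 * (nn p.1 + nn p.2)) := by
    intro p
    unfold kk
    refine (Finset.abs_sum_le_sum_abs _ _).trans ?_
    rw [hK, Finset.sum_mul]
    refine Finset.sum_le_sum fun i _ => ?_
    rw [abs_mul, abs_mul, abs_of_nonneg (sq_nonneg ‖τ i‖)]
    refine mul_le_mul_of_nonneg_left ?_ (by positivity)
    have h1 : ∀ ξ : ι → ℝ, |ξ i| ≤ nn ξ := fun ξ =>
      Finset.single_le_sum (f := fun i => |ξ i|) (fun _ _ => abs_nonneg _) (Finset.mem_univ i)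
    rw [abs_mul, one_mul, Real.exp_add]
    have h2 : ∀ x : ℝ, x ≤ Real.exp x := fun x => by linarith [Real.add_one_le_exp x]
    exact mul_le_mul ((h1 _).trans (h2 _)) ((h1 _).trans (h2 _)) (abs_nonneg _) (Real.exp_pos _).le
  have key := hasSum_integral_of_dominated_convergence (μ := gg ι)
    (F := fun (N : ℕ) p => z ^ N / N.factorial * (N * (kk τ lam p * ov L τ p ^ (N - 1))))
    (f := fun p => z * (kk τ lam p * Real.exp (z * ov L τ p)))
    (fun (N : ℕ) p => (K * Real.exp (1 * (nn p.1 + nn p.2))) *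
      (z ^ N / N.factorial * (N * bg11_B L τ p ^ (N - 1))))
    (fun N => by
      have h1 := bg11_mov L τ
      have h2 := bg11_mkk τ lam
      exact (by fun_prop : Measurable fun p => z ^ N / (N.factorial : ℝ) *
        (N * (kk τ lam p * ov L τ p ^ (N - 1)))).aestronglyMeasurable)
    (fun N => Eventually.of_forall fun p => by
      rw [Real.norm_eq_abs, abs_mul, abs_mul, abs_mul, abs_pow, Nat.abs_cast,
        abs_of_nonneg (by positivity : (0 : ℝ) ≤ z ^ N / N.factorial)]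
      have h1 := hkk p
      have h2 := pow_le_pow_left₀ (abs_nonneg _) (bg11_ov hL.out τ p) (N - 1)
      have h3 : |kk τ lam p| * |ov L τ p| ^ (N - 1) ≤
          (K * Real.exp (1 * (nn p.1 + nn p.2))) * bg11_B L τ p ^ (N - 1) :=
        mul_le_mul h1 h2 (by positivity) ((abs_nonneg _).trans h1)
      calc _ ≤ z ^ N / (N.factorial : ℝ) * (N * ((K * Real.exp (1 * (nn p.1 + nn p.2))) *
          bg11_B L τ p ^ (N - 1))) := by gcongr
        _ = _ := by ring)
    (Eventually.of_forall fun p => ((bg11_exp1 _ _).mul_left _).summable)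
    (by
      have e : (fun p => ∑' N : ℕ, (K * Real.exp (1 * (nn p.1 + nn p.2))) *
          (z ^ N / (N.factorial : ℝ) * (N * bg11_B L τ p ^ (N - 1)))) =
          fun p : (ι → ℝ) × (ι → ℝ) => (K * z * Real.exp (z * L ^ 3)) *
            Real.exp (1 * (nn p.1 + nn p.2) + ∑ i, |t i| * |p.1 i * p.2 i|) := by
        funext p
        rw [((bg11_exp1 _ _).mul_left _).tsum_eq, bg11_expB hc, Real.exp_add, Real.exp_add]
        ring
      rw [e]
      exact (integrable_exp_pair (fun i => abs_nonneg _) ht 1).const_mul _)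
    (Eventually.of_forall fun p => by
      have h := (bg11_exp1 z (ov L τ p)).mul_left (kk τ lam p)
      have e : (fun N : ℕ => kk τ lam p * (z ^ N / (N.factorial : ℝ) *
          (N * ov L τ p ^ (N - 1)))) =
          fun N : ℕ => z ^ N / (N.factorial : ℝ) * (N * (kk τ lam p * ov L τ p ^ (N - 1))) := by
        funext N
        ring
      have e' : kk τ lam p * (z * Real.exp (z * ov L τ p)) =
          z * (kk τ lam p * Real.exp (z * ov L τ p)) := by ring
      rwa [e, e'] at h)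
  have e0 : ∀ p : (ι → ℝ) × (ι → ℝ), Real.exp (z * ov L τ p) =
      Real.exp (z * L ^ 3) * wt (fun i => |t i|) p := by
    intro p
    have h := bg11_expov (L := L) hc 1 p
    simpa only [one_mul] using h
  simp only [e0] at key
  have e1 : ∀ p : (ι → ℝ) × (ι → ℝ), z * (kk τ lam p * (Real.exp (z * L ^ 3) *
      wt (fun i => |t i|) p)) = Real.exp (z * L ^ 3) * (z * (kk τ lam p * wt (fun i => |t i|) p)) :=
    fun p => by ring
  simp only [e1, integral_const_mul] at key
  rw [kin_tilt ht hz hτ lam] at key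
  have h := key.mul_left (1 / (2 * m))
  have e2 : (fun N : ℕ => z ^ N / (N.factorial : ℝ) * kinetic m N L (psi τ φ N)) =
      fun N : ℕ => 1 / (2 * m) * (z ^ N / (N.factorial : ℝ) *
        (N * ∫ p, kk τ lam p * ov L τ p ^ (N - 1) ∂(gg ι))) := by
    funext N
    rw [kinetic_psi hM]
    ring
  have e3 : Real.exp (z * L ^ 3) * zc (fun i => |t i|) *
      (1 / (2 * m) * ∑ i, lam i * gam (t i)) = 1 / (2 * m) * (Real.exp (z * L ^ 3) *
        (zc (fun i => |t i|) * ∑ i, lam i * gam (t i))) := by ring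
  rw [e2, e3]
  exact h

end Pool.Agent.BG
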