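import Pool.Agent.BG.Defs

/-! MP_2d9608_mp, project BG, row BG-2: the tilted Gaussian measure -/

set_option autoImplicit false

open MeasureTheory ProbabilityTheory H47.SE Filter
open scoped ComplexConjugate Topology ENNReal

noncomputable section

namespace Pool.Agent.BG

variable {ι : Type*} [Fintype ι]

/-- the Gaussian density -/
private def tlR (ξ : ι → ℝ) : ℝ := ∏ i, gaussianPDFReal 0 1 (ξ i)

private theorem tlR_nonneg (ξ : ι → ℝ) : 0 ≤ tlR ξ :=
  Finset.prod_nonneg fun _ _ => gaussianPDFReal_nonneg 0 1 _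

private theorem tlR_meas : Measurable (tlR : (ι → ℝ) → ℝ) := by
  unfold tlR
  exact Finset.measurable_prod _ fun i _ =>
    (measurable_gaussianPDFReal 0 1).comp (measurable_pi_apply i)

private theorem tlR_int : Integrable (tlR : (ι → ℝ) → ℝ) := by
  unfold tlR
  exact Integrable.fintype_prod (f := fun (_ : ι) (x : ℝ) => gaussianPDFReal 0 1 x)
    fun _ => integrable_gaussianPDFReal 0 1

private theorem tl_gm : gm ι = (volume : Measure (ι → ℝ)).withDensity
    (fun ξ => ENNReal.ofReal (tlR ξ)) := by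
  unfold gm
  apply Measure.pi_eq
  intro s hs
  rw [withDensity_apply _ (MeasurableSet.univ_pi hs),
    ← ofReal_integral_eq_lintegral_ofReal tlR_int.restrict (ae_of_all _ tlR_nonneg),
    ← integral_indicator (MeasurableSet.univ_pi hs)]
  have h1 : ∀ x : ι → ℝ, (Set.pi Set.univ s).indicator tlR x =
      ∏ i, (s i).indicator (gaussianPDFReal 0 1) (x i) := by
    intro x
    by_cases hx : x ∈ Set.pi Set.univ s
    · rw [Set.indicator_of_mem hx]
      apply Finset.prod_congr rfl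
      intro i _
      rw [Set.indicator_of_mem (hx i (Set.mem_univ i))]
    · rw [Set.indicator_of_notMem hx]
      simp only [Set.mem_pi, Set.mem_univ, true_imp_iff, not_forall] at hx
      obtain ⟨i, hi⟩ := hx
      symm
      apply Finset.prod_eq_zero (Finset.mem_univ i)
      rw [Set.indicator_of_notMem hi]
  simp_rw [h1]
  rw [integral_fintype_prod_volume_eq_prod
    (fun (i : ι) (x : ℝ) => (s i).indicator (gaussianPDFReal 0 1) x),
    ENNReal.ofReal_prod_of_nonneg]
  · apply Finset.prod_congr rfl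
    intro i _
    rw [integral_indicator (hs i), gaussianReal_apply_eq_integral 0 one_ne_zero (s i)]
  · intro i _
    exact integral_nonneg fun x => Set.indicator_nonneg
      (fun y _ => gaussianPDFReal_nonneg 0 1 y) x

private theorem tl_gg {F : (ι → ℝ) × (ι → ℝ) → ℝ≥0∞} (hF : Measurable F) :
    ∫⁻ p, F p ∂(gg ι) = ∫⁻ y, ENNReal.ofReal (tlR y) *
      ∫⁻ x, ENNReal.ofReal (tlR x) * F (x, y) := by
  have hm : Measurable (fun ξ : ι → ℝ => ENNReal.ofReal (tlR ξ)) := tlR_meas.ennreal_ofReal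
  unfold gg
  rw [lintegral_prod_symm _ hF.aemeasurable]
  have h1 : ∀ y, ∫⁻ x, F (x, y) ∂(gm ι) = ∫⁻ x, ENNReal.ofReal (tlR x) * F (x, y) := by
    intro y
    have hFy : Measurable (fun x : ι → ℝ => F (x, y)) :=
      hF.comp (measurable_id.prodMk measurable_const)
    rw [tl_gm, lintegral_withDensity_eq_lintegral_mul _ hm hFy]
    rfl
  simp_rw [h1]
  have h2 : Measurable (fun y : ι → ℝ => ∫⁻ x : ι → ℝ, ENNReal.ofReal (tlR x) * F (x, y)) :=
    Measurable.lintegral_prod_left' (f := fun p : (ι → ℝ) × (ι → ℝ) =>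
      ENNReal.ofReal (tlR p.1) * F p) ((hm.comp measurable_fst).mul hF)
  rw [tl_gm, lintegral_withDensity_eq_lintegral_mul _ hm h2]
  rfl

omit [Fintype ι] in
private theorem tl_pos {c : ι → ℝ} (hc : ∀ i, |c i| < 1) (i : ι) : 0 < 1 - c i ^ 2 := by
  have h := (sq_lt_one_iff_abs_lt_one (c i)).2 (hc i)
  linarith

private theorem tl_scale {c : ι → ℝ} (hc : ∀ i, |c i| < 1) {H : (ι → ℝ) → ℝ≥0∞}
    (hH : Measurable H) : ∫⁻ y, H y = ENNReal.ofReal (zc c) *
      ∫⁻ y : ι → ℝ, H (fun i => y i / √(1 - c i ^ 2)) := by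
  classical
  have hs : ∀ i, 0 < √(1 - c i ^ 2) := fun i => Real.sqrt_pos.2 (tl_pos hc i)
  have hz : 0 < zc c := by
    unfold zc
    exact Finset.prod_pos fun i _ => inv_pos.2 (hs i)
  have hdet : (Matrix.diagonal fun i => (√(1 - c i ^ 2))⁻¹).det = zc c := by
    rw [Matrix.det_diagonal]; rfl
  have h := Real.smul_map_diagonal_volume_pi (D := fun i => (√(1 - c i ^ 2))⁻¹)
    (by rw [hdet]; exact hz.ne')
  rw [hdet, abs_of_pos hz] at h
  conv_lhs => rw [← h]
  have hm : Measurable (Matrix.toLin' (Matrix.diagonal fun i => (√(1 - c i ^ 2))⁻¹)) :=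
    Continuous.measurable (LinearMap.continuous_on_pi _)
  rw [lintegral_smul_measure, lintegral_map hH hm, smul_eq_mul]
  congr 1
  apply lintegral_congr
  intro y
  congr 1
  funext i
  rw [Matrix.toLin'_apply, Matrix.mulVec_diagonal, div_eq_inv_mul]

private theorem tl_key (c : ι → ℝ) (hc : ∀ i, |c i| < 1) (x y : ι → ℝ) :
    tlR y * (tlR (x + fun i => c i * y i) * wt c (x + fun i => c i * y i, y)) =
      tlR (fun i => √(1 - c i ^ 2) * y i) * tlR x := by
  unfold tlR wt gaussianPDFReal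
  rw [Real.exp_sum, ← Finset.prod_mul_distrib, ← Finset.prod_mul_distrib,
    ← Finset.prod_mul_distrib]
  apply Finset.prod_congr rfl
  intro i _
  have h1 : √(1 - c i ^ 2) ^ 2 = 1 - c i ^ 2 := Real.sq_sqrt (tl_pos hc i).le
  set k := (√(2 * Real.pi * ((1 : NNReal) : ℝ)))⁻¹
  simp only [Pi.add_apply, sub_zero, NNReal.coe_one, mul_one]
  rw [mul_pow (√(1 - c i ^ 2)), h1]
  have e1 : k * Real.exp (-y i ^ 2 / 2) * (k * Real.exp (-(x i + c i * y i) ^ 2 / 2) *
      Real.exp (c i * ((x i + c i * y i) * y i))) = k * k * Real.exp (-y i ^ 2 / 2 +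
        (-(x i + c i * y i) ^ 2 / 2 + c i * ((x i + c i * y i) * y i))) := by
    rw [Real.exp_add, Real.exp_add]; ring
  have e2 : k * Real.exp (-((1 - c i ^ 2) * y i ^ 2) / 2) * (k * Real.exp (-x i ^ 2 / 2)) =
      k * k * Real.exp (-((1 - c i ^ 2) * y i ^ 2) / 2 + -x i ^ 2 / 2) := by
    rw [Real.exp_add]; ring
  rw [e1, e2]
  congr 2
  ring

private theorem wt_meas (c : ι → ℝ) : Measurable (wt c) := by
  unfold wt
  fun_prop

omit [Fintype ι] in
private theorem tl_meas (c : ι → ℝ) : Measurable (tl c) := by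
  unfold tl
  fun_prop

private theorem tilt_l {c : ι → ℝ} (hc : ∀ i, |c i| < 1) {G : (ι → ℝ) × (ι → ℝ) → ℝ≥0∞}
    (hG : Measurable G) : ∫⁻ p, ENNReal.ofReal (wt c p) * G p ∂(gg ι) =
      ENNReal.ofReal (zc c) * ∫⁻ p, G (tl c p) ∂(gg ι) := by
  have hm : Measurable (fun ξ : ι → ℝ => ENNReal.ofReal (tlR ξ)) := tlR_meas.ennreal_ofReal
  have hF1 : Measurable (fun p : (ι → ℝ) × (ι → ℝ) => ENNReal.ofReal (wt c p) * G p) :=
    (wt_meas c).ennreal_ofReal.mul hG
  have hF2 : Measurable (fun p : (ι → ℝ) × (ι → ℝ) => G (tl c p)) := hG.comp (tl_meas c)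
  rw [tl_gg hF1, tl_gg hF2]
  have h1 : ∀ y : ι → ℝ, ENNReal.ofReal (tlR y) * ∫⁻ x : ι → ℝ, ENNReal.ofReal (tlR x) *
      (ENNReal.ofReal (wt c (x, y)) * G (x, y)) =
      ∫⁻ x : ι → ℝ, ENNReal.ofReal (tlR (fun i => √(1 - c i ^ 2) * y i)) *
        (ENNReal.ofReal (tlR x) * G (x + (fun i => c i * y i), y)) := by
    intro y
    rw [← lintegral_add_right_eq_self _ (fun i => c i * y i), ← lintegral_const_mul']
    · apply lintegral_congr
      intro x
      have h2 := congrArg ENNReal.ofReal (tl_key c hc x y)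
      rw [ENNReal.ofReal_mul (tlR_nonneg _), ENNReal.ofReal_mul (tlR_nonneg _),
        ENNReal.ofReal_mul (tlR_nonneg _)] at h2
      rw [← mul_assoc (ENNReal.ofReal (tlR (x + fun i => c i * y i))), ← mul_assoc,
        ← mul_assoc (ENNReal.ofReal (tlR fun i => √(1 - c i ^ 2) * y i)), h2]
    · exact ENNReal.ofReal_ne_top
  simp_rw [h1]
  have h3 : Measurable (fun y : ι → ℝ => ∫⁻ x : ι → ℝ,
      ENNReal.ofReal (tlR (fun i => √(1 - c i ^ 2) * y i)) *
        (ENNReal.ofReal (tlR x) * G (x + (fun i => c i * y i), y))) := by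
    refine Measurable.lintegral_prod_left' (f := fun p : (ι → ℝ) × (ι → ℝ) =>
      ENNReal.ofReal (tlR (fun i => √(1 - c i ^ 2) * p.2 i)) *
        (ENNReal.ofReal (tlR p.1) * G (p.1 + (fun i => c i * p.2 i), p.2))) ?_
    refine (hm.comp ?_).mul ((hm.comp measurable_fst).mul (hG.comp ?_))
    · fun_prop
    · fun_prop
  rw [tl_scale hc h3]
  congr 1
  apply lintegral_congr
  intro y
  rw [← lintegral_const_mul']
  · apply lintegral_congr
    intro x
    have h4 : (fun i => √(1 - c i ^ 2) * (y i / √(1 - c i ^ 2))) = y := by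
      funext i
      have := (Real.sqrt_pos.2 (tl_pos hc i)).ne'
      field_simp
    rw [h4]
    rfl
  · exact ENNReal.ofReal_ne_top

theorem tilt {c : ι → ℝ} (hc : ∀ i, |c i| < 1) {f : (ι → ℝ) × (ι → ℝ) → ℂ}
    (hf : Measurable f) :
    ∫ p, (wt c p : ℂ) * f p ∂(gg ι) = (zc c : ℂ) * ∫ p, f (tl c p) ∂(gg ι) := by
  have hw : ∀ p, 0 ≤ wt c p := fun p => (Real.exp_pos _).le
  have hz : 0 ≤ zc c := by
    unfold zc
    exact Finset.prod_nonneg fun i _ => inv_nonneg.2 (Real.sqrt_nonneg _)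
  have hμ : (gg ι).withDensity (fun p => ENNReal.ofReal (wt c p)) =
      ENNReal.ofReal (zc c) • Measure.map (tl c) (gg ι) := by
    ext s hs
    have h1 := tilt_l hc (G := s.indicator 1) (measurable_one.indicator hs)
    rw [withDensity_apply _ hs, Measure.smul_apply, Measure.map_apply (tl_meas c) hs, smul_eq_mul]
    have h2 : ∫⁻ p, ENNReal.ofReal (wt c p) * s.indicator 1 p ∂(gg ι) =
        ∫⁻ p in s, ENNReal.ofReal (wt c p) ∂(gg ι) := by
      rw [← lintegral_indicator hs]
      apply lintegral_congr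
      intro p
      by_cases hp : p ∈ s
      · simp [hp]
      · simp [hp]
    have h3 : ∫⁻ p, s.indicator (1 : (ι → ℝ) × (ι → ℝ) → ℝ≥0∞) (tl c p) ∂(gg ι) =
        (gg ι) (tl c ⁻¹' s) := by
      rw [← lintegral_indicator_one (tl_meas c hs)]
      rfl
    rw [← h2, h1, h3]
  have h4 := integral_withDensity_eq_integral_toReal_smul (μ := gg ι)
    (f := fun p => ENNReal.ofReal (wt c p)) (wt_meas c).ennreal_ofReal
    (ae_of_all _ fun _ => ENNReal.ofReal_lt_top) f
  rw [hμ, integral_smul_measure, integral_map (tl_meas c).aemeasurable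
    hf.aestronglyMeasurable, ENNReal.toReal_ofReal hz] at h4
  have h5 : ∫ p, (wt c p : ℂ) * f p ∂(gg ι) =
      ∫ p, (ENNReal.ofReal (wt c p)).toReal • f p ∂(gg ι) := by
    apply integral_congr_ae
    refine ae_of_all _ fun p => ?_
    simp only [ENNReal.toReal_ofReal (hw p), Complex.real_smul]
  rw [h5, ← h4, Complex.real_smul]

end Pool.Agent.BG
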