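import Pool.Agent.BG.Gauss

/-! MP_2d9608_mp, project BG, row BG-3 -/

set_option autoImplicit false

open MeasureTheory ProbabilityTheory H47.SE Filter
open scoped ComplexConjugate Topology ENNReal

noncomputable section

namespace Pool.Agent.BG

variable {ι : Type*} [Fintype ι]

private theorem bg3_int (n : ℕ) : Integrable (fun x : ℝ => x ^ n) (gaussianReal 0 1) := by
  have h : (0 : ℝ) ∈ interior (integrableExpSet (fun x : ℝ => x) (gaussianReal 0 1)) := by
    rw [integrableExpSet_fun_id_gaussianReal]; simp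
  exact integrable_pow_of_mem_interior_integrableExpSet h n

private theorem bg3_mom (n : ℕ) : ∫ x : ℝ, x ^ n ∂(gaussianReal 0 1) =
    iteratedDeriv n (fun t : ℝ => Real.exp (t ^ 2 / 2)) 0 := by
  have h : (0 : ℝ) ∈ interior (integrableExpSet (fun x : ℝ => x) (gaussianReal 0 1)) := by
    rw [integrableExpSet_fun_id_gaussianReal]; simp
  have h1 := iteratedDeriv_mgf_zero h n
  have h2 : mgf (fun x : ℝ => x) (gaussianReal 0 1) = fun t : ℝ => Real.exp (t ^ 2 / 2) := by
    rw [mgf_fun_id_gaussianReal]; funext t; simp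
  rw [h2] at h1
  rw [h1]; rfl

private def bg3_P (a b c d : ℝ) : ℝ → ℝ :=
  fun t => (a + b * t + c * t ^ 2 + d * t ^ 3) * Real.exp (t ^ 2 / 2)

private theorem bg3_d (a b c d t : ℝ) : deriv (bg3_P a b c d) t =
    (b + (2 * c + a) * t + (3 * d + b) * t ^ 2 + c * t ^ 3 + d * t ^ 4) *
      Real.exp (t ^ 2 / 2) := by
  have h1 : HasDerivAt (fun t : ℝ => t ^ 2 / 2) t t := by
    have := (hasDerivAt_pow 2 t).div_const 2
    simpa using this
  have h0 : HasDerivAt (fun t : ℝ => a + b * t + c * t ^ 2 + d * t ^ 3)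
      (b * 1 + c * (2 * t) + d * (3 * t ^ 2)) t := by
    have k1 : HasDerivAt (fun t : ℝ => b * t) (b * 1) t := (hasDerivAt_id t).const_mul b
    have k2 : HasDerivAt (fun t : ℝ => c * t ^ 2) (c * (2 * t)) t := by
      have := (hasDerivAt_pow 2 t).const_mul c
      simpa using this
    have k3 : HasDerivAt (fun t : ℝ => d * t ^ 3) (d * (3 * t ^ 2)) t := by
      have := (hasDerivAt_pow 3 t).const_mul d
      simpa using this
    exact ((k1.const_add a).add k2).add k3
  have h2 := h0.mul h1.exp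
  have h3 := h2.deriv
  unfold bg3_P
  refine h3.trans ?_
  ring

private theorem bg3_d0 (a b c : ℝ) : deriv (bg3_P a b c 0) = bg3_P b (2 * c + a) b c := by
  funext t
  rw [bg3_d]; unfold bg3_P; ring

private theorem bg3_e0 : (fun t : ℝ => Real.exp (t ^ 2 / 2)) = bg3_P 1 0 0 0 := by
  funext t; unfold bg3_P; ring

private theorem bg3_m0 : ∫ x : ℝ, x ^ 0 ∂(gaussianReal 0 1) = 1 := by
  simp

private theorem bg3_m1 : ∫ x : ℝ, x ^ 1 ∂(gaussianReal 0 1) = 0 := by
  rw [bg3_mom, bg3_e0, iteratedDeriv_one, bg3_d0]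
  simp [bg3_P]

private theorem bg3_m2 : ∫ x : ℝ, x ^ 2 ∂(gaussianReal 0 1) = 1 := by
  rw [bg3_mom, bg3_e0, iteratedDeriv_succ, iteratedDeriv_one, bg3_d0, bg3_d0]
  simp [bg3_P]

private theorem bg3_m3 : ∫ x : ℝ, x ^ 3 ∂(gaussianReal 0 1) = 0 := by
  rw [bg3_mom, bg3_e0, iteratedDeriv_succ, iteratedDeriv_succ, iteratedDeriv_one, bg3_d0, bg3_d0,
    bg3_d0]
  simp [bg3_P]

private theorem bg3_m4 : ∫ x : ℝ, x ^ 4 ∂(gaussianReal 0 1) = 3 := by
  rw [bg3_mom, bg3_e0, iteratedDeriv_succ, iteratedDeriv_succ, iteratedDeriv_succ,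
    iteratedDeriv_one, bg3_d0, bg3_d0, bg3_d0, bg3_d]
  norm_num

/-- mixed moments -/
private theorem bg3_mix (e : ι → ℕ) : ∫ ξ : ι → ℝ, ∏ m, ξ m ^ e m ∂(gm ι) =
    ∏ m, ∫ x : ℝ, x ^ e m ∂(gaussianReal 0 1) := by
  unfold gm
  exact integral_fintype_prod_eq_prod (fun m (x : ℝ) => x ^ e m)

private theorem bg3_mixint (e : ι → ℕ) :
    Integrable (fun ξ : ι → ℝ => ∏ m, ξ m ^ e m) (gm ι) := by
  unfold gm
  exact Integrable.fintype_prod (f := fun m (x : ℝ) => x ^ e m) (fun m => bg3_int (e m))

open Classical in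
private theorem bg3_one (i : ι) (ξ : ι → ℝ) : ξ i = ∏ m, ξ m ^ (if m = i then 1 else 0) := by
  rw [Finset.prod_eq_single i]
  · simp
  · intro m _ hm; simp [hm]
  · simp

open Classical in
private theorem bg3_cons (e : ι → ℕ) (j : ι) (ξ : ι → ℝ) {x : ℝ} (hx : x = ∏ m, ξ m ^ e m) :
    x * ξ j = ∏ m, ξ m ^ (e m + (if m = j then 1 else 0)) := by
  have h : ∀ m, ξ m ^ (e m + (if m = j then 1 else 0)) =
      ξ m ^ e m * ξ m ^ (if m = j then 1 else 0) := fun m => pow_add _ _ _
  simp_rw [h]
  rw [Finset.prod_mul_distrib, ← bg3_one j ξ, hx]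

open Classical in
private theorem bg3_two (i j : ι) (ξ : ι → ℝ) : ξ i * ξ j =
    ∏ m, ξ m ^ ((if m = i then 1 else 0) + (if m = j then 1 else 0)) :=
  bg3_cons _ j ξ (bg3_one i ξ)

open Classical in
private theorem bg3_three (i j k : ι) (ξ : ι → ℝ) : ξ i * ξ j * ξ k =
    ∏ m, ξ m ^ ((if m = i then 1 else 0) + (if m = j then 1 else 0) +
      (if m = k then 1 else 0)) :=
  bg3_cons _ k ξ (bg3_two i j ξ)

open Classical in
private theorem bg3_four (i j k l : ι) (ξ : ι → ℝ) : ξ i * ξ j * ξ k * ξ l =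
    ∏ m, ξ m ^ ((if m = i then 1 else 0) + (if m = j then 1 else 0) +
      (if m = k then 1 else 0) + (if m = l then 1 else 0)) :=
  bg3_cons _ l ξ (bg3_three i j k ξ)

open Classical in
private theorem bg3_T1 (i : ι) : ∫ ξ : ι → ℝ, ξ i ∂(gm ι) = 0 := by
  simp_rw [fun ξ : ι → ℝ => bg3_one i ξ]
  rw [bg3_mix]
  refine Finset.prod_eq_zero (Finset.mem_univ i) ?_
  simp only [if_true]
  exact bg3_m1

private theorem bg3_I1 (i : ι) : Integrable (fun ξ : ι → ℝ => ξ i) (gm ι) := by
  classical
  simp_rw [fun ξ : ι → ℝ => bg3_one i ξ]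
  exact bg3_mixint _

open Classical in
private theorem bg3_T2 (i j : ι) : ∫ ξ : ι → ℝ, ξ i * ξ j ∂(gm ι) = if i = j then 1 else 0 := by
  simp_rw [fun ξ : ι → ℝ => bg3_two i j ξ]
  rw [bg3_mix]
  by_cases hij : i = j
  · subst hij
    rw [if_pos rfl]
    refine Finset.prod_eq_one fun m _ => ?_
    by_cases hm : m = i
    · simp only [hm, if_true]
      exact bg3_m2
    · simp only [hm, if_false]
      exact bg3_m0
  · rw [if_neg hij]
    refine Finset.prod_eq_zero (Finset.mem_univ i) ?_
    simp only [if_true, hij, if_false]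
    exact bg3_m1

private theorem bg3_I2 (i j : ι) : Integrable (fun ξ : ι → ℝ => ξ i * ξ j) (gm ι) := by
  classical
  simp_rw [fun ξ : ι → ℝ => bg3_two i j ξ]
  exact bg3_mixint _

private theorem bg3_T3 (i j k : ι) : ∫ ξ : ι → ℝ, ξ i * ξ j * ξ k ∂(gm ι) = 0 := by
  classical
  simp_rw [fun ξ : ι → ℝ => bg3_three i j k ξ]
  rw [bg3_mix]
  by_cases hij : i = j
  · subst hij
    refine Finset.prod_eq_zero (Finset.mem_univ k) ?_
    by_cases hk : k = i
    · simp only [hk, if_true]
      exact bg3_m3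
    · simp only [hk, if_false, if_true]
      exact bg3_m1
  · by_cases hik : i = k
    · subst hik
      refine Finset.prod_eq_zero (Finset.mem_univ j) ?_
      have hji : ¬ j = i := fun h => hij h.symm
      simp only [hji, if_false, if_true]
      exact bg3_m1
    · refine Finset.prod_eq_zero (Finset.mem_univ i) ?_
      simp only [hij, hik, if_false, if_true]
      exact bg3_m1

private theorem bg3_I3 (i j k : ι) : Integrable (fun ξ : ι → ℝ => ξ i * ξ j * ξ k) (gm ι) := by
  classical
  simp_rw [fun ξ : ι → ℝ => bg3_three i j k ξ]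
  exact bg3_mixint _

private theorem bg3_I4 (i j k l : ι) :
    Integrable (fun ξ : ι → ℝ => ξ i * ξ j * ξ k * ξ l) (gm ι) := by
  classical
  simp_rw [fun ξ : ι → ℝ => bg3_four i j k l ξ]
  exact bg3_mixint _

open Classical in
private theorem bg3_T4 (i j k l : ι) : ∫ ξ : ι → ℝ, ξ i * ξ j * ξ k * ξ l ∂(gm ι) =
    (if i = j then 1 else 0) * (if k = l then 1 else 0) +
    (if i = k then 1 else 0) * (if j = l then 1 else 0) +
    (if i = l then 1 else 0) * (if j = k then 1 else 0) := by
  simp_rw [fun ξ : ι → ℝ => bg3_four i j k l ξ]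
  rw [bg3_mix]
  by_cases hij : i = j
  · subst hij
    by_cases hkl : k = l
    · subst hkl
      by_cases hik : i = k
      · subst hik
        rw [Finset.prod_eq_single i]
        · simp only [if_true]
          rw [show 1 + 1 + 1 + 1 = 4 from rfl, bg3_m4]
          norm_num
        · intro m _ hm
          simp only [hm, if_false]
          exact bg3_m0
        · intro h; exact absurd (Finset.mem_univ i) h
      · have e : ∏ m, ∫ x : ℝ, x ^ ((if m = i then 1 else 0) + (if m = i then 1 else 0) +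
            (if m = k then 1 else 0) + (if m = k then 1 else 0)) ∂(gaussianReal 0 1) = 1 := by
          refine Finset.prod_eq_one fun m _ => ?_
          by_cases hm : m = i
          · subst hm
            simp only [hik, if_true, if_false]
            exact bg3_m2
          · by_cases hm2 : m = k
            · simp only [hm2, if_true]
              have : ¬ k = i := fun h => hik h.symm
              simp only [this, if_false]
              exact bg3_m2
            · simp only [hm, hm2, if_false]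
              exact bg3_m0
        rw [e]
        simp [hik]
    · by_cases hki : k = i
      · have hli : ¬ l = i := fun h => hkl (hki.trans h.symm)
        rw [Finset.prod_eq_zero (Finset.mem_univ l) (by
          have : ¬ l = k := fun h => hkl h.symm
          simp only [hli, this, if_false, if_true]
          exact bg3_m1)]
        have hil : ¬ i = l := fun h => hli h.symm
        simp [hkl, hil]
      · rw [Finset.prod_eq_zero (Finset.mem_univ k) (by
          simp only [hki, hkl, if_false, if_true]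
          exact bg3_m1)]
        have hik : ¬ i = k := fun h => hki h.symm
        simp [hkl, hik]
  · by_cases hik : i = k
    · subst hik
      have hji : ¬ j = i := fun h => hij h.symm
      by_cases hjl : j = l
      · subst hjl
        have e : ∏ m, ∫ x : ℝ, x ^ ((if m = i then 1 else 0) + (if m = j then 1 else 0) +
            (if m = i then 1 else 0) + (if m = j then 1 else 0)) ∂(gaussianReal 0 1) = 1 := by
          refine Finset.prod_eq_one fun m _ => ?_
          by_cases hm : m = i
          · subst hm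
            simp only [hij, if_true, if_false]
            exact bg3_m2
          · by_cases hm2 : m = j
            · simp only [hm2, hji, if_true, if_false]
              exact bg3_m2
            · simp only [hm, hm2, if_false]
              exact bg3_m0
        rw [e]
        simp [hij]
      · rw [Finset.prod_eq_zero (Finset.mem_univ j) (by
          simp only [hji, hjl, if_false, if_true]
          exact bg3_m1)]
        simp [hij, hji, hjl]
    · by_cases hil : i = l
      · subst hil
        have hji : ¬ j = i := fun h => hij h.symm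
        by_cases hjk : j = k
        · subst hjk
          have e : ∏ m, ∫ x : ℝ, x ^ ((if m = i then 1 else 0) + (if m = j then 1 else 0) +
              (if m = j then 1 else 0) + (if m = i then 1 else 0)) ∂(gaussianReal 0 1) = 1 := by
            refine Finset.prod_eq_one fun m _ => ?_
            by_cases hm : m = i
            · subst hm
              simp only [hij, if_true, if_false]
              exact bg3_m2
            · by_cases hm2 : m = j
              · simp only [hm2, hji, if_true, if_false]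
                exact bg3_m2
              · simp only [hm, hm2, if_false]
                exact bg3_m0
          rw [e]
          simp [hij]
        · rw [Finset.prod_eq_zero (Finset.mem_univ j) (by
            simp only [hji, hjk, if_false, if_true]
            exact bg3_m1)]
          simp [hij, hik, hjk]
      · rw [Finset.prod_eq_zero (Finset.mem_univ i) (by
          simp only [hij, hik, hil, if_false, if_true]
          exact bg3_m1)]
        simp [hij, hik, hil]

/-! ### linear forms -/

private theorem bg3_ite (p : Prop) [Decidable p] :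
    (((if p then (1 : ℝ) else 0) : ℝ) : ℂ) = if p then (1 : ℂ) else 0 := by
  by_cases h : p
  · rw [if_pos h, if_pos h]; simp
  · rw [if_neg h, if_neg h]; simp

private theorem bg3_cmul (c : ℂ) (f : (ι → ℝ) → ℝ) :
    ∫ ξ, c * (f ξ : ℂ) ∂(gm ι) = c * ((∫ ξ, f ξ ∂(gm ι) : ℝ) : ℂ) := by
  rw [integral_const_mul]
  have h : ∫ ξ, (f ξ : ℂ) ∂(gm ι) = ((∫ ξ, f ξ ∂(gm ι) : ℝ) : ℂ) := integral_ofReal
  rw [h]

theorem wick1 (a : ι → ℂ) : ∫ ξ, lin a ξ ∂(gm ι) = 0 := by
  have hI : ∀ i, Integrable (fun ξ : ι → ℝ => a i * ((ξ i : ℝ) : ℂ)) (gm ι) :=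
    fun i => ((bg3_I1 i).ofReal).const_mul (a i)
  have e : ∫ ξ, lin a ξ ∂(gm ι) = ∫ ξ : ι → ℝ, ∑ i, a i * ((ξ i : ℝ) : ℂ) ∂(gm ι) := rfl
  rw [e, integral_finsetSum _ (fun i _ => hI i)]
  refine Finset.sum_eq_zero fun i _ => ?_
  have h := bg3_cmul (a i) (fun ξ : ι → ℝ => ξ i)
  rw [h, bg3_T1]; simp

private theorem bg3_I2c (a b : ι → ℂ) (i j : ι) : Integrable (fun ξ : ι → ℝ =>
    (a i * b j) * ((ξ i * ξ j : ℝ) : ℂ)) (gm ι) :=
  ((bg3_I2 i j).ofReal).const_mul _

theorem wick2 (a b : ι → ℂ) : ∫ ξ, lin a ξ * lin b ξ ∂(gm ι) = ∑ i, a i * b i := by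
  classical
  have e : ∀ ξ : ι → ℝ, lin a ξ * lin b ξ =
      ∑ i, ∑ j, (a i * b j) * ((ξ i * ξ j : ℝ) : ℂ) := by
    intro ξ
    unfold lin
    rw [Finset.sum_mul_sum]
    refine Finset.sum_congr rfl fun i _ => Finset.sum_congr rfl fun j _ => ?_
    push_cast; ring
  simp_rw [e]
  rw [integral_finsetSum _ (fun i _ => integrable_finsetSum _ fun j _ => bg3_I2c a b i j)]
  refine Finset.sum_congr rfl fun i _ => ?_
  rw [integral_finsetSum _ (fun j _ => bg3_I2c a b i j)]
  rw [Finset.sum_eq_single i]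
  · rw [bg3_cmul (a i * b i) (fun ξ : ι → ℝ => ξ i * ξ i), bg3_T2]; simp
  · intro j _ hj
    rw [bg3_cmul (a i * b j) (fun ξ : ι → ℝ => ξ i * ξ j), bg3_T2, if_neg (Ne.symm hj)]; simp
  · simp

private theorem bg3_prod3 (f g h : ι → ℂ) :
    (∑ i, f i) * (∑ i, g i) * (∑ i, h i) = ∑ i, ∑ j, ∑ k, f i * g j * h k := by
  simp_rw [← Finset.mul_sum, ← Finset.sum_mul, ← Finset.mul_sum, ← Finset.sum_mul]

private theorem bg3_prod4 (f g h p : ι → ℂ) :
    (∑ i, f i) * (∑ i, g i) * (∑ i, h i) * (∑ i, p i) =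
      ∑ i, ∑ j, ∑ k, ∑ l, f i * g j * h k * p l := by
  simp_rw [← Finset.mul_sum, ← Finset.sum_mul, ← Finset.mul_sum, ← Finset.sum_mul,
    ← Finset.mul_sum, ← Finset.sum_mul]

private theorem bg3_I3c (a b c : ι → ℂ) (i j k : ι) : Integrable (fun ξ : ι → ℝ =>
    (a i * b j * c k) * ((ξ i * ξ j * ξ k : ℝ) : ℂ)) (gm ι) :=
  ((bg3_I3 i j k).ofReal).const_mul _

theorem wick3 (a b c : ι → ℂ) : ∫ ξ, lin a ξ * lin b ξ * lin c ξ ∂(gm ι) = 0 := by
  have e : ∀ ξ : ι → ℝ, lin a ξ * lin b ξ * lin c ξ =
      ∑ i, ∑ j, ∑ k, (a i * b j * c k) * ((ξ i * ξ j * ξ k : ℝ) : ℂ) := by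
    intro ξ
    unfold lin
    rw [bg3_prod3]
    refine Finset.sum_congr rfl fun i _ => Finset.sum_congr rfl fun j _ =>
      Finset.sum_congr rfl fun k _ => ?_
    push_cast; ring
  simp_rw [e]
  rw [integral_finsetSum _ (fun i _ => integrable_finsetSum _ fun j _ =>
    integrable_finsetSum _ fun k _ => bg3_I3c a b c i j k)]
  refine Finset.sum_eq_zero fun i _ => ?_
  rw [integral_finsetSum _ (fun j _ => integrable_finsetSum _ fun k _ => bg3_I3c a b c i j k)]
  refine Finset.sum_eq_zero fun j _ => ?_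
  rw [integral_finsetSum _ (fun k _ => bg3_I3c a b c i j k)]
  refine Finset.sum_eq_zero fun k _ => ?_
  rw [bg3_cmul (a i * b j * c k) (fun ξ : ι → ℝ => ξ i * ξ j * ξ k), bg3_T3]; simp

private theorem bg3_I4c (a b c d : ι → ℂ) (i j k l : ι) : Integrable (fun ξ : ι → ℝ =>
    (a i * b j * c k * d l) * ((ξ i * ξ j * ξ k * ξ l : ℝ) : ℂ)) (gm ι) :=
  ((bg3_I4 i j k l).ofReal).const_mul _

open Classical in
private theorem bg3_sum (a b c d : ι → ℂ) : ∑ i, ∑ j, ∑ k, ∑ l, a i * b j * c k * d l *
      ((if i = j then 1 else 0) * (if k = l then 1 else 0)) =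
    (∑ i, a i * b i) * (∑ i, c i * d i) := by
  rw [Finset.sum_mul_sum]
  refine Finset.sum_congr rfl fun i _ => ?_
  rw [Finset.sum_eq_single i]
  · refine Finset.sum_congr rfl fun k _ => ?_
    rw [Finset.sum_eq_single k]
    · simp; ring
    · intro l _ hl
      rw [if_neg (Ne.symm hl)]; simp
    · simp
  · intro j _ hj
    rw [if_neg (Ne.symm hj)]; simp
  · simp

theorem wick4 (a b c d : ι → ℂ) : ∫ ξ, lin a ξ * lin b ξ * lin c ξ * lin d ξ ∂(gm ι) =
    (∑ i, a i * b i) * (∑ i, c i * d i) + (∑ i, a i * c i) * (∑ i, b i * d i) +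
      (∑ i, a i * d i) * (∑ i, b i * c i) := by
  classical
  have e : ∀ ξ : ι → ℝ, lin a ξ * lin b ξ * lin c ξ * lin d ξ =
      ∑ i, ∑ j, ∑ k, ∑ l, (a i * b j * c k * d l) * ((ξ i * ξ j * ξ k * ξ l : ℝ) : ℂ) := by
    intro ξ
    unfold lin
    rw [bg3_prod4]
    refine Finset.sum_congr rfl fun i _ => Finset.sum_congr rfl fun j _ =>
      Finset.sum_congr rfl fun k _ => Finset.sum_congr rfl fun l _ => ?_
    push_cast; ring
  have key : ∫ ξ, lin a ξ * lin b ξ * lin c ξ * lin d ξ ∂(gm ι) =
      ∑ i, ∑ j, ∑ k, ∑ l, (a i * b j * c k * d l) *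
        ((if i = j then 1 else 0) * (if k = l then 1 else 0) +
        (if i = k then 1 else 0) * (if j = l then 1 else 0) +
        (if i = l then 1 else 0) * (if j = k then 1 else 0)) := by
    simp_rw [e]
    rw [integral_finsetSum _ (fun i _ => integrable_finsetSum _ fun j _ =>
      integrable_finsetSum _ fun k _ => integrable_finsetSum _ fun l _ =>
      bg3_I4c a b c d i j k l)]
    refine Finset.sum_congr rfl fun i _ => ?_
    rw [integral_finsetSum _ (fun j _ => integrable_finsetSum _ fun k _ =>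
      integrable_finsetSum _ fun l _ => bg3_I4c a b c d i j k l)]
    refine Finset.sum_congr rfl fun j _ => ?_
    rw [integral_finsetSum _ (fun k _ =>
      integrable_finsetSum _ fun l _ => bg3_I4c a b c d i j k l)]
    refine Finset.sum_congr rfl fun k _ => ?_
    rw [integral_finsetSum _ (fun l _ => bg3_I4c a b c d i j k l)]
    refine Finset.sum_congr rfl fun l _ => ?_
    rw [bg3_cmul (a i * b j * c k * d l) (fun ξ : ι → ℝ => ξ i * ξ j * ξ k * ξ l), bg3_T4]
    simp only [Complex.ofReal_add, Complex.ofReal_mul, bg3_ite]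
  rw [key]
  simp_rw [mul_add, Finset.sum_add_distrib]
  rw [bg3_sum a b c d]
  have h2 : ∑ i, ∑ j, ∑ k, ∑ l, a i * b j * c k * d l *
      ((if i = k then (1 : ℂ) else 0) * (if j = l then 1 else 0)) =
    (∑ i, a i * c i) * (∑ i, b i * d i) := by
    rw [← bg3_sum a c b d]
    refine Finset.sum_congr rfl fun i _ => ?_
    rw [Finset.sum_comm]
    refine Finset.sum_congr rfl fun j _ => Finset.sum_congr rfl fun k _ =>
      Finset.sum_congr rfl fun l _ => ?_
    ring
  have h3 : ∑ i, ∑ j, ∑ k, ∑ l, a i * b j * c k * d l *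
      ((if i = l then (1 : ℂ) else 0) * (if j = k then 1 else 0)) =
    (∑ i, a i * d i) * (∑ i, b i * c i) := by
    rw [← bg3_sum a d b c]
    refine Finset.sum_congr rfl fun i _ => ?_
    have : ∀ j, ∑ k, ∑ l, a i * b j * c k * d l *
      ((if i = l then (1 : ℂ) else 0) * (if j = k then 1 else 0)) =
      ∑ l, ∑ k, a i * b j * c k * d l *
      ((if i = l then (1 : ℂ) else 0) * (if j = k then 1 else 0)) := fun j => Finset.sum_comm
    simp_rw [this]
    rw [Finset.sum_comm]
    refine Finset.sum_congr rfl fun j _ => Finset.sum_congr rfl fun k _ =>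
      Finset.sum_congr rfl fun l _ => ?_
    ring
  rw [h2, h3]

end Pool.Agent.BG
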