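import Pool.Agent.BG.Tilt
import Pool.Agent.BG.Wick

/-! MP_2d9608_mp, project BG, row BG-4 -/

set_option autoImplicit false

open MeasureTheory ProbabilityTheory H47.SE Filter
open scoped ComplexConjugate Topology ENNReal

noncomputable section

namespace Pool.Agent.BG

variable {ι : Type*} [Fintype ι]

/-- the coefficients of a linear form after tilting -/
def bg4_b (c : ι → ℝ) (a : ι ⊕ ι → ℂ) : ι ⊕ ι → ℂ :=
  Sum.elim (fun i => a (Sum.inl i))
    (fun i => ((c i : ℂ) * a (Sum.inl i) + a (Sum.inr i)) / ((√(1 - c i ^ 2) : ℝ) : ℂ))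

theorem bg4_int {E : Type*} [NormedAddCommGroup E] [NormedSpace ℝ E]
    (f : (ι → ℝ) × (ι → ℝ) → E) :
    ∫ p, f p ∂(gg ι) = ∫ ξ, f (fun i => ξ (Sum.inl i), fun i => ξ (Sum.inr i)) ∂(gm (ι ⊕ ι)) := by
  have h := measurePreserving_sumPiEquivProdPi (X := fun _ : ι ⊕ ι => ℝ)
    (fun _ : ι ⊕ ι => gaussianReal 0 1)
  have h2 := h.integral_comp' (g := f)
  exact h2.symm

theorem bg4_lf (c : ι → ℝ) (a : ι ⊕ ι → ℂ) (ξ : ι ⊕ ι → ℝ) :
    lf a (tl c (fun i => ξ (Sum.inl i), fun i => ξ (Sum.inr i))) = lin (bg4_b c a) ξ := by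
  unfold lf lin tl bg4_b
  rw [Fintype.sum_sum_type, ← Finset.sum_add_distrib]
  refine Finset.sum_congr rfl fun i _ => ?_
  simp only [Sum.elim_inl, Sum.elim_inr]
  push_cast
  ring

theorem bg4_cv {c : ι → ℝ} (hc : ∀ i, |c i| < 1) (a b : ι ⊕ ι → ℂ) :
    ∑ k, bg4_b c a k * bg4_b c b k = cv c a b := by
  unfold bg4_b cv
  rw [Fintype.sum_sum_type, ← Finset.sum_add_distrib]
  refine Finset.sum_congr rfl fun i _ => ?_
  simp only [Sum.elim_inl, Sum.elim_inr]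
  have h1 : 0 < 1 - c i ^ 2 := by
    have := (sq_lt_one_iff_abs_lt_one (c i)).2 (hc i)
    linarith
  have h2 : ((√(1 - c i ^ 2) : ℝ) : ℂ) * ((√(1 - c i ^ 2) : ℝ) : ℂ) = 1 - (c i : ℂ) ^ 2 := by
    rw [← Complex.ofReal_mul, Real.mul_self_sqrt h1.le]
    push_cast
    ring
  have h3 : (1 - (c i : ℂ) ^ 2) ≠ 0 := by
    have : ((1 - c i ^ 2 : ℝ) : ℂ) ≠ 0 := Complex.ofReal_ne_zero.2 h1.ne'
    push_cast at this
    exact this
  rw [div_mul_div_comm, h2]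
  field_simp
  ring

theorem bg4_meas (a : ι ⊕ ι → ℂ) : Measurable (lf a) := by
  unfold lf
  refine Finset.measurable_sum _ fun i _ => ?_
  refine (measurable_const.mul ?_).add (measurable_const.mul ?_)
  · exact Complex.measurable_ofReal.comp ((measurable_pi_apply i).comp measurable_fst)
  · exact Complex.measurable_ofReal.comp ((measurable_pi_apply i).comp measurable_snd)

theorem twick0 {c : ι → ℝ} (hc : ∀ i, |c i| < 1) :
    ∫ p, (wt c p : ℂ) ∂(gg ι) = (zc c : ℂ) := by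
  have h := tilt hc (f := fun _ => (1 : ℂ)) measurable_const
  simpa using h

theorem twick1 {c : ι → ℝ} (hc : ∀ i, |c i| < 1) (a : ι ⊕ ι → ℂ) :
    ∫ p, (wt c p : ℂ) * lf a p ∂(gg ι) = 0 := by
  rw [tilt hc (bg4_meas a), bg4_int]
  simp only [bg4_lf]
  rw [wick1, mul_zero]

theorem twick2 {c : ι → ℝ} (hc : ∀ i, |c i| < 1) (a b : ι ⊕ ι → ℂ) :
    ∫ p, (wt c p : ℂ) * (lf a p * lf b p) ∂(gg ι) = (zc c : ℂ) * cv c a b := by
  rw [tilt hc (f := fun p => lf a p * lf b p) ((bg4_meas a).mul (bg4_meas b)), bg4_int]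
  simp only [bg4_lf]
  rw [wick2, bg4_cv hc]

theorem twick3 {c : ι → ℝ} (hc : ∀ i, |c i| < 1) (a b d : ι ⊕ ι → ℂ) :
    ∫ p, (wt c p : ℂ) * (lf a p * lf b p * lf d p) ∂(gg ι) = 0 := by
  rw [tilt hc (f := fun p => lf a p * lf b p * lf d p)
    (((bg4_meas a).mul (bg4_meas b)).mul (bg4_meas d)), bg4_int]
  simp only [bg4_lf]
  rw [wick3, mul_zero]

theorem twick4 {c : ι → ℝ} (hc : ∀ i, |c i| < 1) (a b d e : ι ⊕ ι → ℂ) :
    ∫ p, (wt c p : ℂ) * (lf a p * lf b p * lf d p * lf e p) ∂(gg ι) =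
      (zc c : ℂ) * (cv c a b * cv c d e + cv c a d * cv c b e + cv c a e * cv c b d) := by
  rw [tilt hc (f := fun p => lf a p * lf b p * lf d p * lf e p)
    ((((bg4_meas a).mul (bg4_meas b)).mul (bg4_meas d)).mul (bg4_meas e)), bg4_int]
  simp only [bg4_lf]
  rw [wick4]
  simp only [bg4_cv hc]

end Pool.Agent.BG
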