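import Pool.Agent.BG.Ineq
import Pool.Agent.BG.ALe
import Pool.Agent.BG.GamWeak
import Pool.Agent.BG.JLow

/-! MP_2d9608_mp, project BG, row BG-38: the weakly coupled regime -/

set_option autoImplicit false

open MeasureTheory ProbabilityTheory H47.SE Filter
open scoped ComplexConjugate Topology ENNReal

noncomputable section

namespace Pool.Agent.BG

variable {κ ρ : ℝ} {w u : E3 → ℝ}

theorem Sol.G0_nonneg (hS : Sol κ ρ w u) : 0 ≤ G0 ρ u := by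
  unfold G0
  refine integral_nonneg_of_ae ?_
  filter_upwards [Measure.ae_ne (volume : Measure E3) 0] with ξ hξ
  have h3 := hS.UU_lt hξ
  have h4 : 0 < 1 - UU ρ u ξ ^ 2 := by
    rw [sub_pos, sq_lt_one_iff_abs_lt_one]
    exact h3
  show 0 ≤ UU ρ u ξ ^ 2 / (1 - UU ρ u ξ ^ 2)
  positivity

theorem bg38_sqrt {κ ρ M : ℝ} (hκ : 0 < κ) (hρ : 0 < ρ) (hκρ : κ * ρ ≤ 1)
    (hC : M ^ 2 * κ ≤ ρ) :
    ∃ s, 0 < s ∧ s ≤ 1 ∧ s ^ 2 = κ * ρ ∧ M * κ ≤ s ∧ M * s ≤ ρ := by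
  have h0 : 0 < κ * ρ := mul_pos hκ hρ
  refine ⟨√(κ * ρ), Real.sqrt_pos.2 h0, ?_, Real.sq_sqrt h0.le, ?_, ?_⟩
  · rw [← Real.sqrt_one]
    exact Real.sqrt_le_sqrt hκρ
  · apply Real.le_sqrt_of_sq_le
    have := mul_le_mul_of_nonneg_left hC hκ.le
    calc (M * κ) ^ 2 = κ * (M ^ 2 * κ) := by ring
      _ ≤ κ * ρ := this
  · have h1 : (M * √(κ * ρ)) ^ 2 ≤ ρ ^ 2 := by
      rw [mul_pow, Real.sq_sqrt h0.le]
      have := mul_le_mul_of_nonneg_right hC hρ.le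
      calc M ^ 2 * (κ * ρ) = M ^ 2 * κ * ρ := by ring
        _ ≤ ρ * ρ := this
        _ = ρ ^ 2 := by ring
    exact (le_abs_self _).trans (abs_le_of_sq_le_sq h1 hρ.le)

theorem bg38_e1 {κ s a G I B c M : ℝ} (hκ : 0 ≤ κ) (hs : 0 ≤ s) (hc : 0 < c) (hI : 0 ≤ I)
    (hG0 : 0 ≤ G) (hM : 28 * I * B / c ≤ M) (hMκ : M * κ ≤ s)
    (ha : a ≤ κ * I) (hG : G ≤ B * s ^ 3) : 7 / 2 * (a * G) ≤ c / 8 * s ^ 4 := by
  have h1 : a * G ≤ (κ * I) * (B * s ^ 3) := mul_le_mul ha hG hG0 (by positivity)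
  have h2 : 28 * I * B / c * κ ≤ s := (mul_le_mul_of_nonneg_right hM hκ).trans hMκ
  have h3 : c / 8 * s ^ 3 * (28 * I * B / c * κ) ≤ c / 8 * s ^ 3 * s :=
    mul_le_mul_of_nonneg_left h2 (by positivity)
  calc 7 / 2 * (a * G) ≤ 7 / 2 * ((κ * I) * (B * s ^ 3)) :=
        mul_le_mul_of_nonneg_left h1 (by norm_num)
    _ = c / 8 * s ^ 3 * (28 * I * B / c * κ) := by
        field_simp
        ring
    _ ≤ c / 8 * s ^ 3 * s := h3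
    _ = c / 8 * s ^ 4 := by ring

theorem bg38_e2 {ρ s G B W c M : ℝ} (hs : 0 ≤ s) (hs1 : s ≤ 1) (hc : 0 < c)
    (hW : 0 ≤ W) (hG0 : 0 ≤ G) (hM : 20 * W * B ^ 2 / c ≤ M) (hMs : M * s ≤ ρ)
    (hG : G ≤ B * s ^ 3) : 5 / 2 * W * G ^ 2 ≤ ρ * (c / 8 * s ^ 4) := by
  have h1 : G ^ 2 ≤ (B * s ^ 3) ^ 2 := pow_le_pow_left₀ hG0 hG 2
  have h2 : 20 * W * B ^ 2 / c * s ≤ ρ := (mul_le_mul_of_nonneg_right hM hs).trans hMs
  have h3 : s ^ 2 ≤ s := by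
    calc s ^ 2 = s * s := by ring
      _ ≤ s * 1 := mul_le_mul_of_nonneg_left hs1 hs
      _ = s := mul_one s
  calc 5 / 2 * W * G ^ 2 ≤ 5 / 2 * W * (B * s ^ 3) ^ 2 :=
        mul_le_mul_of_nonneg_left h1 (by positivity)
    _ = c / 8 * s ^ 4 * (20 * W * B ^ 2 / c * s ^ 2) := by
        field_simp
        ring
    _ ≤ c / 8 * s ^ 4 * (20 * W * B ^ 2 / c * s) := by
        apply mul_le_mul_of_nonneg_left _ (by positivity)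
        exact mul_le_mul_of_nonneg_left h3 (by positivity)
    _ ≤ c / 8 * s ^ 4 * ρ := mul_le_mul_of_nonneg_left h2 (by positivity)
    _ = ρ * (c / 8 * s ^ 4) := by ring

theorem weak {w : E3 → ℝ} (hwm : Measurable w) (hw0 : ∀ x, 0 ≤ w x) (hwi : Integrable w)
    (hpos : 0 < ∫ x, w x) (hI : Integrable fun ξ => ct w ξ ^ 2 / lm ξ) :
    ∃ C > 0, ∃ c > 0, ∀ κ ρ u, Sol κ ρ w u → κ * ρ ≤ 1 → C * κ ≤ ρ →
      G0 ρ u < ρ ∧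
      FK κ ρ w u - ρ / 2 * bb κ ρ w u ≤ -(c * ρ * κ * (κ * ρ) ^ 2) := by
  obtain ⟨C₁, hC₁, h1⟩ := gam0_weak
  obtain ⟨c₁, hc₁, h2⟩ := j_low hwm hw0 hwi hpos
  set W0 := ∫ x, w x with hW0
  set I := ∫ ξ, ct w ξ ^ 2 / lm ξ with hIdef
  have hI0 : 0 ≤ I := by
    refine integral_nonneg fun ξ => ?_
    unfold lm
    positivity
  obtain ⟨B, hB0, hB⟩ : ∃ B, 0 < B ∧ B = C₁ * (W0 * √W0) :=
    ⟨_, by positivity, rfl⟩
  obtain ⟨M, hM0, m1, m2, m3, m4⟩ : ∃ M : ℝ, 0 < M ∧ I / c₁ ≤ M ∧ B < M ∧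
      28 * I * B / c₁ ≤ M ∧ 20 * W0 * B ^ 2 / c₁ ≤ M := by
    have p1 : 0 ≤ I / c₁ := by positivity
    have p2 : 0 ≤ 28 * I * B / c₁ := by positivity
    have p3 : 0 ≤ 20 * W0 * B ^ 2 / c₁ := by positivity
    refine ⟨1 + I / c₁ + B + 28 * I * B / c₁ + 20 * W0 * B ^ 2 / c₁, ?_, ?_, ?_, ?_, ?_⟩ <;>
      linarith
  refine ⟨M ^ 2, by positivity, c₁ / 4, by positivity, ?_⟩
  intro κ ρ u hS hκρ hCρ
  have hκ := hS.hκ
  have hρ := hS.hρ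
  obtain ⟨s, hs0, hs1, hs, hMκ, hMs⟩ := bg38_sqrt hκ hρ hκρ hCρ
  set a := ∫ x, u x * w x with ha
  have haI : a ≤ κ * I := hS.a_le hI
  have hac : a ≤ c₁ := by
    have h3 : κ * I ≤ c₁ := by
      have h4 : M * (κ * I) ≤ M * c₁ := by
        calc M * (κ * I) = M * κ * I := by ring
          _ ≤ 1 * I := mul_le_mul_of_nonneg_right (hMκ.trans hs1) hI0
          _ = I := one_mul _
          _ ≤ M * c₁ := (div_le_iff₀ hc₁).1 m1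
      exact le_of_mul_le_mul_left h4 hM0
    exact haI.trans h3
  obtain ⟨hJ, _⟩ := h2 κ ρ u hS hac
  rw [min_eq_right hκρ, ← hs] at hJ
  have hG0 : 0 ≤ G0 ρ u := hS.G0_nonneg
  have hG : G0 ρ u ≤ B * s ^ 3 := by
    have h3 := h1 κ ρ w u hS
    rw [← hW0] at h3
    have h4 : ρ * κ * W0 = s ^ 2 * W0 := by rw [hs]; ring
    rw [h4, Real.sqrt_mul (by positivity), Real.sqrt_sq hs0.le] at h3
    calc G0 ρ u ≤ C₁ * (s ^ 2 * W0 * (s * √W0)) := h3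
      _ = B * s ^ 3 := by rw [hB]; ring
  have hG' : G0 ρ u < ρ := by
    calc G0 ρ u ≤ B * s ^ 3 := hG
      _ ≤ B * s := by
          apply mul_le_mul_of_nonneg_left _ hB0.le
          calc s ^ 3 = s * s ^ 2 := by ring
            _ ≤ s * 1 := mul_le_mul_of_nonneg_left (pow_le_one₀ hs0.le hs1) hs0.le
            _ = s := mul_one s
      _ < M * s := mul_lt_mul_of_pos_right m2 hs0
      _ ≤ ρ := hMs
  refine ⟨hG', ?_⟩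
  have hineq := hS.ineq
  rw [← hW0, ← ha] at hineq
  have e1 := bg38_e1 hκ.le hs0.le hc₁ hI0 hG0 m3 hMκ haI hG
  have e2 := bg38_e2 hs0.le hs1 hc₁ hpos.le hG0 m4 hMs hG
  have f1 : ρ * κ * (7 / 2 * (a * G0 ρ u)) ≤ ρ * κ * (c₁ / 8 * s ^ 4) :=
    mul_le_mul_of_nonneg_left e1 (by positivity)
  have f2 : κ * (5 / 2 * W0 * G0 ρ u ^ 2) ≤ κ * (ρ * (c₁ / 8 * s ^ 4)) :=
    mul_le_mul_of_nonneg_left e2 hκ.le
  have f3 : ρ * κ / 2 * (c₁ * (s ^ 2) ^ 2) ≤ ρ * κ / 2 * JJ ρ w u :=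
    mul_le_mul_of_nonneg_left hJ (by positivity)
  rw [← hs]
  calc FK κ ρ w u - ρ / 2 * bb κ ρ w u ≤ -(1 / 2) * ρ * κ * JJ ρ w u +
        7 / 2 * ρ * κ * a * G0 ρ u + 5 / 2 * κ * W0 * G0 ρ u ^ 2 := hineq
    _ = -(ρ * κ / 2 * JJ ρ w u) + ρ * κ * (7 / 2 * (a * G0 ρ u)) +
        κ * (5 / 2 * W0 * G0 ρ u ^ 2) := by ring
    _ ≤ -(ρ * κ / 2 * (c₁ * (s ^ 2) ^ 2)) + ρ * κ * (c₁ / 8 * s ^ 4) +
        κ * (ρ * (c₁ / 8 * s ^ 4)) := by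
        linarith
    _ = -(c₁ / 4 * ρ * κ * (s ^ 2) ^ 2) := by ring

end Pool.Agent.BG
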